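import Mathlib

set_option autoImplicit false

open MeasureTheory Set Filter Topology

namespace Pool.Agent.H721R2.Ivrii

/-- A function vanishing on a measurable set has vanishing line derivatives at almost every point
of the set. -/
theorem ae_line (E : Set (ℝ × ℝ)) (hE : MeasurableSet E) (f : ℝ × ℝ → ℝ)
    (hd : ∀ x ∈ E, DifferentiableAt ℝ f x) (h0 : ∀ x ∈ E, f x = 0) :
    ∀ᵐ x ∂(volume.restrict E), ∀ (v : ℝ × ℝ) (d : ℝ),
      HasDerivAt (fun t : ℝ => f (x + t • v)) d 0 → d = 0 := by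
  have happ : ApproximatesLinearOn (fun x => (f x, (0 : ℝ))) (0 : ℝ × ℝ →L[ℝ] ℝ × ℝ) E 0 := by
    intro x hx y hy
    simp [h0 x hx, h0 y hy]
  have h1 := happ.norm_fderiv_sub_le volume hE
    (fun x => (fderiv ℝ f x).prod (0 : ℝ × ℝ →L[ℝ] ℝ))
    (fun x hx => ((hd x hx).hasFDerivAt.prodMk (hasFDerivAt_const (0 : ℝ) x)).hasFDerivWithinAt)
  have h2 : ∀ᵐ x ∂(volume.restrict E), x ∈ E := ae_restrict_mem hE
  filter_upwards [h1, h2] with x hx hxE v d hder
  have h3 : (fderiv ℝ f x).prod (0 : ℝ × ℝ →L[ℝ] ℝ) - 0 = 0 := by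
    have : ‖(fderiv ℝ f x).prod (0 : ℝ × ℝ →L[ℝ] ℝ) - 0‖₊ = 0 := le_antisymm hx (by positivity)
    exact nnnorm_eq_zero.1 this
  have h4 : fderiv ℝ f x v = 0 := by
    have := congrArg (fun A : ℝ × ℝ →L[ℝ] ℝ × ℝ => (A v).1) h3
    simpa using this
  have h5 : HasDerivAt (fun t : ℝ => f (x + t • v)) (fderiv ℝ f x v) 0 := by
    have hl : HasDerivAt (fun t : ℝ => x + t • v) v 0 := by
      have := ((hasDerivAt_id (0 : ℝ)).smul_const v).const_add x
      simpa using this
    have hf : HasFDerivAt f (fderiv ℝ f x) ((fun t : ℝ => x + t • v) 0) := by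
      simpa using (hd x hxE).hasFDerivAt
    exact hf.comp_hasDerivAt (0 : ℝ) hl
  rw [hder.unique h5, h4]

theorem exists_good (E : Set (ℝ × ℝ)) (hE : MeasurableSet E) (P : ℝ × ℝ → Prop)
    (h : ∀ᵐ x ∂(volume.restrict E), P x) :
    ∃ E' ⊆ E, MeasurableSet E' ∧ (∀ x ∈ E', P x) ∧ volume (E \ E') = 0 := by
  rw [ae_restrict_iff' hE, ae_iff] at h
  obtain ⟨N, hN1, hN2, hN3⟩ := exists_measurable_superset_of_null h
  refine ⟨E \ N, sdiff_subset, hE.diff hN2, fun x hx => ?_, ?_⟩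
  · by_contra hP
    exact hx.2 (hN1 (by simp only [mem_ofPred_eq]; exact fun h => hP (h hx.1)))
  · refine measure_mono_null ?_ hN3
    intro x hx
    by_contra hxN
    exact hx.2 ⟨hx.1, hxN⟩

/-- One step of the differentiation procedure. -/
theorem step (E : Set (ℝ × ℝ)) (hE : MeasurableSet E) (f : ℝ × ℝ → ℝ)
    (hd : ∀ x ∈ E, DifferentiableAt ℝ f x) (h0 : ∀ x ∈ E, f x = 0) :
    ∃ E' ⊆ E, MeasurableSet E' ∧ (∀ x ∈ E', ∀ (v : ℝ × ℝ) (d : ℝ),
      HasDerivAt (fun t : ℝ => f (x + t • v)) d 0 → d = 0) ∧ volume (E \ E') = 0 :=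
  exists_good E hE _ (ae_line E hE f hd h0)

theorem null_of_diff (E E' : Set (ℝ × ℝ)) (h : volume (E \ E') = 0) (h' : volume E' = 0) :
    volume E = 0 := by
  refine measure_mono_null (t := (E \ E') ∪ E') ?_ (measure_union_null h h')
  intro x hx
  by_cases hx' : x ∈ E'
  · exact Or.inr hx'
  · exact Or.inl ⟨hx, hx'⟩

/-- Derivative of the polar representation of a difference. -/
theorem polar_deriv (C : ℝ → ℂ) (ρ φ : ℝ → ℝ) (ρ' φ' p q α β : ℝ)
    (hC : HasDerivAt C (p * Complex.exp (Complex.I * α) - q * Complex.exp (Complex.I * β)) 0)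
    (hρ : HasDerivAt ρ ρ' 0) (hφ : HasDerivAt φ φ' 0)
    (h : ∀ᶠ t in 𝓝 (0 : ℝ), C t = ρ t * Complex.exp (Complex.I * φ t)) :
    ρ' = p * Real.cos (α - φ 0) - q * Real.cos (β - φ 0) ∧
      ρ 0 * φ' = p * Real.sin (α - φ 0) - q * Real.sin (β - φ 0) := by
  have h1 : HasDerivAt (fun t : ℝ => (ρ t : ℂ) * Complex.exp (Complex.I * φ t))
      (ρ' * Complex.exp (Complex.I * φ 0) +
        ρ 0 * (Complex.exp (Complex.I * φ 0) * (Complex.I * φ'))) 0 :=
    hρ.ofReal_comp.mul ((hφ.ofReal_comp.const_mul Complex.I).cexp)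
  have h2 := (hC.congr_of_eventuallyEq (h.mono fun t ht => ht.symm)).unique h1
  have h3 : (p * Complex.exp (Complex.I * α) - q * Complex.exp (Complex.I * β)) *
      Complex.exp (-(Complex.I * φ 0)) = ρ' + ρ 0 * (Complex.I * φ') := by
    rw [h2]
    have : Complex.exp (Complex.I * φ 0) * Complex.exp (-(Complex.I * φ 0)) = 1 := by
      rw [← Complex.exp_add]; simp
    linear_combination (ρ' + ρ 0 * (Complex.I * φ')) * this
  have h4 : (p * Complex.exp (Complex.I * α) - q * Complex.exp (Complex.I * β)) *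
      Complex.exp (-(Complex.I * φ 0)) = p * Complex.exp (((α - φ 0 : ℝ) : ℂ) * Complex.I)
        - q * Complex.exp (((β - φ 0 : ℝ) : ℂ) * Complex.I) := by
    have e1 : Complex.exp (((α - φ 0 : ℝ) : ℂ) * Complex.I) =
        Complex.exp (Complex.I * α) * Complex.exp (-(Complex.I * φ 0)) := by
      rw [← Complex.exp_add]; congr 1; push_cast; ring
    have e2 : Complex.exp (((β - φ 0 : ℝ) : ℂ) * Complex.I) =
        Complex.exp (Complex.I * β) * Complex.exp (-(Complex.I * φ 0)) := by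
      rw [← Complex.exp_add]; congr 1; push_cast; ring
    rw [e1, e2]; ring
  rw [h4] at h3
  constructor
  · have := congrArg Complex.re h3
    simp only [Complex.sub_re, Complex.re_ofReal_mul, Complex.exp_ofReal_mul_I_re, Complex.add_re,
      Complex.ofReal_re, Complex.mul_re, Complex.I_re, Complex.I_im, Complex.ofReal_im] at this
    linarith
  · have := congrArg Complex.im h3
    simp only [Complex.sub_im, Complex.im_ofReal_mul, Complex.exp_ofReal_mul_I_im, Complex.add_im,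
      Complex.ofReal_im, Complex.mul_im, Complex.I_re, Complex.I_im, Complex.ofReal_re,
      Complex.mul_re] at this
    linarith

end Pool.Agent.H721R2.Ivrii
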