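import Mathlib

set_option autoImplicit false

namespace Pool.Agent.H721R2.Ivrii

/-- Schur type positivity. -/
theorem schur_pos (a b c : ℝ) (ha : 0 < a) (hb : 0 < b) (hc : 0 < c) :
    0 < a ^ 3 + b ^ 3 + c ^ 3 - (a ^ 2 * b + a ^ 2 * c + b ^ 2 * a + b ^ 2 * c + c ^ 2 * a
      + c ^ 2 * b) + 18 * a * b * c := by
  have habc : 0 < a * b * c := by positivity
  have key : 0 ≤ a ^ 3 + b ^ 3 + c ^ 3 - (a ^ 2 * b + a ^ 2 * c + b ^ 2 * a + b ^ 2 * c + c ^ 2 * a
      + c ^ 2 * b) + 3 * a * b * c := by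
    rcases le_total a b with h1 | h1 <;> rcases le_total b c with h2 | h2 <;>
      rcases le_total a c with h3 | h3 <;>
    nlinarith [mul_nonneg (sub_nonneg.2 h1) (sub_nonneg.2 h2), mul_nonneg (sub_nonneg.2 h1)
      (sub_nonneg.2 h3), mul_nonneg (sub_nonneg.2 h2) (sub_nonneg.2 h3),
      mul_nonneg (mul_nonneg (sub_nonneg.2 h1) (sub_nonneg.2 h3)) ha.le,
      mul_nonneg (mul_nonneg (sub_nonneg.2 h1) (sub_nonneg.2 h2)) hb.le,
      mul_nonneg (mul_nonneg (sub_nonneg.2 h2) (sub_nonneg.2 h3)) hc.le,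
      mul_nonneg (mul_self_nonneg (a - b)) ha.le, mul_nonneg (mul_self_nonneg (a - b)) hb.le,
      mul_nonneg (mul_self_nonneg (a - b)) hc.le, mul_nonneg (mul_self_nonneg (b - c)) ha.le,
      mul_nonneg (mul_self_nonneg (b - c)) hb.le, mul_nonneg (mul_self_nonneg (b - c)) hc.le,
      mul_nonneg (mul_self_nonneg (a - c)) ha.le, mul_nonneg (mul_self_nonneg (a - c)) hb.le,
      mul_nonneg (mul_self_nonneg (a - c)) hc.le]
  nlinarith

/-- The three products `1 + cot cot` are proportional to the three numbers `S + D i`. -/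
theorem star (α β γ x y z : ℝ) (h1 : 0 < β + γ) (h2 : 0 < γ + α) (h3 : 0 < α + β)
    (hG : α * x + β * y + γ * z = 0)
    (hG1 : ((α + β) * y + (γ + α) * z) * x - (γ + α) * z * y - (α + β) * y * z
      - α * (1 + x ^ 2) + β * ((1 + y ^ 2) * γ / (β + γ)) + γ * ((1 + z ^ 2) * β / (β + γ)) = 0)
    (hG2 : -(β + γ) * z * x + ((α + β) * x + (β + γ) * z) * y - (α + β) * x * z
      + α * ((1 + x ^ 2) * γ / (γ + α)) - β * (1 + y ^ 2) + γ * ((1 + z ^ 2) * α / (γ + α)) = 0) :
    ∃ L : ℝ, 1 + x * y = L * (α + β + γ + (α + β)) ∧ 1 + y * z = L * (α + β + γ + (β + γ)) ∧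
      1 + z * x = L * (α + β + γ + (γ + α)) := by
  have hS : 0 < α + β + γ := by linarith
  have hS3 : 0 < α + β + γ + (α + β) := by linarith
  have hS1 : 0 < α + β + γ + (β + γ) := by linarith
  have hS2 : 0 < α + β + γ + (γ + α) := by linarith
  -- the polynomial forms
  have F1 : (β * (1 + x * y) + γ * (1 + z * x)) * (α + β + γ + (β + γ)) =
      2 * (1 + y * z) * ((α + β + γ) * (β + γ) - β * γ) := by
    have e : (β + γ) ≠ 0 := h1.ne'
    field_simp at hG1
    linear_combination (1 : ℝ) * hG1 + (x * (β + γ) - (β * z + γ * y)) * hG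
  have F2 : (γ * (1 + y * z) + α * (1 + x * y)) * (α + β + γ + (γ + α)) =
      2 * (1 + z * x) * ((α + β + γ) * (γ + α) - γ * α) := by
    have e : (γ + α) ≠ 0 := h2.ne'
    field_simp at hG2
    linear_combination (1 : ℝ) * hG2 + (y * (γ + α) - (γ * x + α * z)) * hG
  set S := α + β + γ with hSdef
  -- normalised unknowns
  obtain ⟨k3, hk3⟩ : ∃ k, 1 + x * y = k * (S + (α + β)) := ⟨_, (div_mul_cancel₀ _ hS3.ne').symm⟩
  obtain ⟨k1, hk1⟩ : ∃ k, 1 + y * z = k * (S + (β + γ)) := ⟨_, (div_mul_cancel₀ _ hS1.ne').symm⟩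
  obtain ⟨k2, hk2⟩ : ∃ k, 1 + z * x = k * (S + (γ + α)) := ⟨_, (div_mul_cancel₀ _ hS2.ne').symm⟩
  rw [hk1, hk2, hk3] at F1 F2
  have F1' : β * (S + (α + β)) * (k3 - k1) + γ * (S + (γ + α)) * (k2 - k1) = 0 := by
    have h : (β * (S + (α + β)) * (k3 - k1) + γ * (S + (γ + α)) * (k2 - k1)) * (S + (β + γ)) = 0 := by
      rw [hSdef] at F1 ⊢
      linear_combination F1
    rcases mul_eq_zero.1 h with h | h
    · exact h
    · exact absurd h hS1.ne'
  have F2' : γ * (S + (β + γ)) * (k1 - k2) + α * (S + (α + β)) * (k3 - k2) = 0 := by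
    have h : (γ * (S + (β + γ)) * (k1 - k2) + α * (S + (α + β)) * (k3 - k2)) * (S + (γ + α)) = 0 := by
      rw [hSdef] at F2 ⊢
      linear_combination F2
    rcases mul_eq_zero.1 h with h | h
    · exact h
    · exact absurd h hS2.ne'
  -- the determinant
  have hdet : 0 < β * γ * (S + (β + γ)) + γ * α * (S + (γ + α)) + α * β * (S + (α + β)) := by
    have := schur_pos (β + γ) (γ + α) (α + β) h1 h2 h3
    rw [hSdef]
    nlinarith [this]
  have hB : (β * γ * (S + (β + γ)) + γ * α * (S + (γ + α)) + α * β * (S + (α + β))) * (k2 - k1)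
      = 0 := by
    linear_combination α * F1' - β * F2'
  have hk21 : k2 = k1 := by
    rcases mul_eq_zero.1 hB with h | h
    · exact absurd h hdet.ne'
    · linarith
  have hk31 : k3 = k1 := by
    subst hk21
    have e1 : β * (S + (α + β)) * (k3 - k2) = 0 := by linear_combination F1'
    have e2 : α * (S + (α + β)) * (k3 - k2) = 0 := by linear_combination F2'
    have e3 : (α + β) * (S + (α + β)) * (k3 - k2) = 0 := by linear_combination e1 + e2
    have e4 : (α + β) * (S + (α + β)) ≠ 0 := (mul_pos h3 hS3).ne'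
    rcases mul_eq_zero.1 e3 with h | h
    · exact absurd h e4
    · linarith
  exact ⟨k1, by rw [hk3, hk31], hk1, by rw [hk2, hk21]⟩

/-- `α` is positive. -/
theorem pos_of_star (α β γ x y z L : ℝ) (h1 : 0 < β + γ) (h2 : 0 < γ + α) (h3 : 0 < α + β)
    (hG : α * x + β * y + γ * z = 0)
    (hP : 1 + x * y = L * (α + β + γ + (α + β))) (hQ : 1 + y * z = L * (α + β + γ + (β + γ)))
    (hR : 1 + z * x = L * (α + β + γ + (γ + α))) : 0 < α := by
  by_contra hα
  push Not at hα
  have hβ : 0 < β := by linarith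
  have hγ : 0 < γ := by linarith
  have hu : 0 < β * (α + β) + γ * (γ + α) + β * γ := by positivity
  have hid : α * (1 + x ^ 2) = (α + β + γ) - 2 * L * (β * (α + β) + γ * (γ + α) + β * γ) := by
    linear_combination x * hG - β * hP - γ * hR
  have hL : 0 < L := by
    by_contra hL
    push Not at hL
    have e1 : α * (1 + x ^ 2) ≤ 0 := mul_nonpos_of_nonpos_of_nonneg hα (by positivity)
    have e2 : L * (β * (α + β) + γ * (γ + α) + β * γ) ≤ 0 :=
      mul_nonpos_of_nonpos_of_nonneg hL hu.le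
    linarith
  have i1 : y * (x - z) = L * (α - γ) := by linear_combination hP - hQ
  have i2 : z * (x - y) = L * (α - β) := by linear_combination hR - hQ
  have i1' : y * (x - z) < 0 := by rw [i1]; exact mul_neg_of_pos_of_neg hL (by linarith)
  have i2' : z * (x - y) < 0 := by rw [i2]; exact mul_neg_of_pos_of_neg hL (by linarith)
  rcases eq_or_lt_of_le hα with h0 | h0
  · -- α = 0
    subst h0
    have hz : γ * z = -(β * y) := by linarith
    have a1 : γ * (y * (x - z)) < 0 := mul_neg_of_pos_of_neg hγ i1'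
    have a2 : γ * (z * (x - y)) < 0 := mul_neg_of_pos_of_neg hγ i2'
    have a3 : γ * (y * (x - z)) = γ * (x * y) + β * y ^ 2 := by linear_combination -y * hz
    have a4 : γ * (z * (x - y)) = -β * (y * (x - y)) := by linear_combination (x - y) * hz
    have a5 : 0 < y * (x - y) := by
      by_contra h
      push Not at h
      have : 0 ≤ -β * (y * (x - y)) := by nlinarith
      linarith
    have a6 : 0 ≤ β * y ^ 2 := by positivity
    have a7 : γ * (x * y) < 0 := by linarith
    have a8 : x * y < 0 := by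
      by_contra h
      push Not at h
      have : 0 ≤ γ * (x * y) := by positivity
      linarith
    nlinarith [sq_nonneg y]
  · -- α < 0
    have b1 : -α * (y * (x - z)) = β * y ^ 2 + (γ + α) * (y * z) := by
      linear_combination -y * hG
    have b2 : -α * (z * (x - y)) = γ * z ^ 2 + (α + β) * (y * z) := by
      linear_combination -z * hG
    have b1' : β * y ^ 2 + (γ + α) * (y * z) < 0 := by
      rw [← b1]; exact mul_neg_of_pos_of_neg (by linarith) i1'
    have b2' : γ * z ^ 2 + (α + β) * (y * z) < 0 := by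
      rw [← b2]; exact mul_neg_of_pos_of_neg (by linarith) i2'
    have b3 : y * z < 0 := by
      by_contra h
      push Not at h
      have : 0 ≤ β * y ^ 2 + (γ + α) * (y * z) := by positivity
      linarith
    -- β y² < (γ+α) (-yz), γ z² < (α+β)(-yz)
    have b4 : β * y ^ 2 < (γ + α) * (-(y * z)) := by linarith
    have b5 : γ * z ^ 2 < (α + β) * (-(y * z)) := by linarith
    have b6 : (β * y ^ 2) * (γ * z ^ 2) < ((γ + α) * (-(y * z))) * ((α + β) * (-(y * z))) :=
      mul_lt_mul'' b4 b5 (by positivity) (by positivity)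
    have b7 : (y * z) ^ 2 * (β * γ) < (y * z) ^ 2 * ((γ + α) * (α + β)) := by nlinarith
    have b8 : β * γ < (γ + α) * (α + β) := lt_of_mul_lt_mul_left b7 (sq_nonneg _)
    nlinarith

theorem ub_aux (S D E u L : ℝ) (hS : 0 < S) (hu : 0 < u) (h1 : 2 * L * u ≤ E)
    (h2 : E * (S ^ 2 + 3 * D ^ 2) < 4 * S * u) : L * (S ^ 2 + 3 * D ^ 2) < 2 * S := by
  have hp : 0 < S ^ 2 + 3 * D ^ 2 := by positivity
  have h3 : (2 * L * u) * (S ^ 2 + 3 * D ^ 2) ≤ E * (S ^ 2 + 3 * D ^ 2) :=
    mul_le_mul_of_nonneg_right h1 hp.le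
  have h4 : (2 * u) * (L * (S ^ 2 + 3 * D ^ 2)) < (2 * u) * (2 * S) := by
    have e1 : (2 * u) * (L * (S ^ 2 + 3 * D ^ 2)) = (2 * L * u) * (S ^ 2 + 3 * D ^ 2) := by ring
    have e2 : (2 * u) * (2 * S) = 4 * S * u := by ring
    rw [e1, e2]
    linarith
  exact lt_of_mul_lt_mul_left h4 (by linarith)

theorem ub_one (α β γ : ℝ) (hα : 0 < α) (hβ : 0 < β) (hγ : 0 < γ)
    (hc : 3 * α ≤ 2 * (α + β + γ)) : (γ + α) * ((α + β + γ) ^ 2 + 3 * (β + γ) ^ 2) <
          4 * (α + β + γ) * ((α + β + γ) * (γ + α) - γ * α) := by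
  obtain ⟨S, hS⟩ : ∃ S, S = α + β + γ := ⟨_, rfl⟩
  have hβ' : β = S - α - γ := by linarith
  have hS0 : 0 < S := by linarith
  have hc' : 3 * α ≤ 2 * S := by linarith
  have b3 : 4 * S * γ < 3 * (γ + α) * (2 * S - α) := by
    have e1 : 4 * S ≤ 3 * (2 * S - α) := by linarith
    have e2 : (γ + α) * (4 * S) ≤ (γ + α) * (3 * (2 * S - α)) :=
      mul_le_mul_of_nonneg_left e1 (by linarith)
    have e3 : 0 < α * S := by positivity
    nlinarith
  have b4 : α * (4 * S * γ) < α * (3 * (γ + α) * (2 * S - α)) := mul_lt_mul_of_pos_left b3 hα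
  have e : 4 * (α + β + γ) * ((α + β + γ) * (γ + α) - γ * α) -
      (γ + α) * ((α + β + γ) ^ 2 + 3 * (β + γ) ^ 2) =
      α * (3 * (γ + α) * (2 * S - α)) - α * (4 * S * γ) := by
    rw [hβ']; ring
  linarith

theorem ub_two (α β γ : ℝ) (hα : 0 < α) (hβ : 0 < β) (hγ : 0 < γ)
    (hc : 2 * (α + β + γ) < 3 * α) : (β + γ) * ((α + β + γ) ^ 2 + 3 * (β + γ) ^ 2) <
          4 * (α + β + γ) * ((α + β + γ) * (β + γ) - β * γ) := by
  obtain ⟨S, hS⟩ : ∃ S, S = α + β + γ := ⟨_, rfl⟩
  obtain ⟨D, hD⟩ : ∃ D, D = β + γ := ⟨_, rfl⟩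
  have hS0 : 0 < S := by linarith
  have hD0 : 0 < D := by linarith
  have h3 : 3 * D < S := by linarith
  have b3 : 4 * (β * γ) ≤ D ^ 2 := by rw [hD]; nlinarith [sq_nonneg (β - γ)]
  have b4 : 3 * D ^ 2 + S * D < 3 * S ^ 2 := by nlinarith [mul_pos hD0 hS0, mul_pos hS0 hS0]
  have b5 : D * (3 * D ^ 2 + S * D) < D * (3 * S ^ 2) := mul_lt_mul_of_pos_left b4 hD0
  have b6 : S * (4 * (β * γ)) ≤ S * D ^ 2 := mul_le_mul_of_nonneg_left b3 hS0.le
  have e : 4 * (α + β + γ) * ((α + β + γ) * (β + γ) - β * γ) -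
      (β + γ) * ((α + β + γ) ^ 2 + 3 * (β + γ) ^ 2) =
      4 * S ^ 2 * D - S * (4 * (β * γ)) - D * (S ^ 2 + 3 * D ^ 2) := by
    rw [hS, hD]; ring
  nlinarith

/-- The contradiction in the orientation preserving case. -/
theorem algPos (α β γ x y z : ℝ) (h1 : 0 < β + γ) (h2 : 0 < γ + α) (h3 : 0 < α + β)
    (hx : x ≠ 0)
    (hG : α * x + β * y + γ * z = 0)
    (hG1 : ((α + β) * y + (γ + α) * z) * x - (γ + α) * z * y - (α + β) * y * z
      - α * (1 + x ^ 2) + β * ((1 + y ^ 2) * γ / (β + γ)) + γ * ((1 + z ^ 2) * β / (β + γ)) = 0)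
    (hG2 : -(β + γ) * z * x + ((α + β) * x + (β + γ) * z) * y - (α + β) * x * z
      + α * ((1 + x ^ 2) * γ / (γ + α)) - β * (1 + y ^ 2) + γ * ((1 + z ^ 2) * α / (γ + α)) = 0)
    (hQ' : ((1 + y ^ 2) * γ / (β + γ) * z + y * ((1 + z ^ 2) * β / (β + γ)))
        * (α + β + γ + (α + β)) + (1 + y * z) * ((α + β) * y)
        - (-(1 + x ^ 2) * y + x * ((1 + y ^ 2) * γ / (β + γ))) * (α + β + γ + (β + γ))
        - (1 + x * y) * (-((α + β) * y) - (γ + α) * z) = 0)
    (hR' : ((1 + z ^ 2) * β / (β + γ) * x - z * (1 + x ^ 2)) * (α + β + γ + (α + β))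
        + (1 + z * x) * ((α + β) * y)
        - (-(1 + x ^ 2) * y + x * ((1 + y ^ 2) * γ / (β + γ))) * (α + β + γ + (γ + α))
        - (1 + x * y) * ((γ + α) * z) = 0) : False := by
  obtain ⟨L, hP, hQ, hR⟩ := star α β γ x y z h1 h2 h3 hG hG1 hG2
  have hα : 0 < α := pos_of_star α β γ x y z L h1 h2 h3 hG hP hQ hR
  have hβ : 0 < β := by
    refine pos_of_star β γ α y z x L h2 h3 h1 (by linarith) ?_ ?_ ?_
    · rw [hQ]; ring
    · rw [hR]; ring
    · rw [hP]; ring
  have hγ : 0 < γ := by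
    refine pos_of_star γ α β z x y L h3 h1 h2 (by linarith) ?_ ?_ ?_
    · rw [hR]; ring
    · rw [hP]; ring
    · rw [hQ]; ring
  have hS : 0 < α + β + γ := by positivity
  have hD : 0 < β + γ := by positivity
  -- 2 L S > 1
  have hμ : 1 < 2 * L * (α + β + γ) := by
    by_contra h
    push Not at h
    have key : ∀ e d, 0 < e → 0 < d → d = 2 * (α + β + γ) - e → L * d < 1 := by
      intro e d he hd hde
      rcases le_or_gt L 0 with hL | hL
      · have : L * d ≤ 0 := mul_nonpos_of_nonpos_of_nonneg hL hd.le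
        linarith
      · have h1 : 0 < L * e := by positivity
        have h2 : L * d = 2 * L * (α + β + γ) - L * e := by rw [hde]; ring
        rw [h2]
        linarith
    have e1 : x * y < 0 := by
      have := key γ (α + β + γ + (α + β)) hγ (by positivity) (by ring)
      linarith
    have e2 : y * z < 0 := by
      have := key α (α + β + γ + (β + γ)) hα (by positivity) (by ring)
      linarith
    have e3 : z * x < 0 := by
      have := key β (α + β + γ + (γ + α)) hβ (by positivity) (by ring)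
      linarith
    have e4 : 0 < (x * y) * (y * z) := mul_pos_of_neg_of_neg e1 e2
    have e5 : (x * y) * (y * z) * (z * x) < 0 := mul_neg_of_pos_of_neg e4 e3
    have e6 : (x * y) * (y * z) * (z * x) = (x * y * z) ^ 2 := by ring
    have e7 := sq_nonneg (x * y * z)
    linarith
  have hL : 0 < L := by
    by_contra h
    push Not at h
    have : L * (α + β + γ) ≤ 0 := mul_nonpos_of_nonpos_of_nonneg h hS.le
    linarith
  -- linear relation between `y + z` and `x`
  have hB : (y + z) * (2 * L * (α + β + γ) - 1) =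
      x * (L * ((α + β + γ) + 3 * (β + γ)) - 2) := by
    linear_combination L * hG + 2 * x * hQ - y * hR - z * hP
  -- squares
  have hA1 : α * x ^ 2 = (β + γ) - 2 * L * ((α + β + γ) * (β + γ) - β * γ) := by
    linear_combination x * hG - β * hP - γ * hR
  have hA2 : β * y ^ 2 = (γ + α) - 2 * L * ((α + β + γ) * (γ + α) - γ * α) := by
    linear_combination y * hG - α * hP - γ * hQ
  have hu : 0 < (α + β + γ) * (β + γ) - β * γ := by
    have e : (α + β + γ) * (β + γ) - β * γ = α * β + α * γ + β * β + β * γ + γ * γ := by ring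
    rw [e]
    positivity
  -- upper bound for L
  have hLub : L * ((α + β + γ) ^ 2 + 3 * (β + γ) ^ 2) < 2 * (α + β + γ) := by
    rcases le_or_gt (3 * α) (2 * (α + β + γ)) with hc | hc
    · have b1 : 2 * L * ((α + β + γ) * (γ + α) - γ * α) ≤ γ + α := by
        have : 0 ≤ β * y ^ 2 := by positivity
        linarith
      have b4 : 0 < (α + β + γ) * (γ + α) - γ * α := by
        have e : (α + β + γ) * (γ + α) - γ * α = β * γ + β * α + γ * γ + γ * α + α * α := by ring
        rw [e]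
        positivity
      exact ub_aux (α + β + γ) (β + γ) (γ + α) ((α + β + γ) * (γ + α) - γ * α) L hS b4 b1
        (ub_one α β γ hα hβ hγ hc)
    · have b1 : 2 * L * ((α + β + γ) * (β + γ) - β * γ) ≤ β + γ := by
        have : 0 ≤ α * x ^ 2 := by positivity
        linarith
      exact ub_aux (α + β + γ) (β + γ) (β + γ) ((α + β + γ) * (β + γ) - β * γ) L hS hu b1
        (ub_two α β γ hα hβ hγ hc)
  -- derivative of `L`
  have hS3 : 0 < α + β + γ + (α + β) := by positivity
  obtain ⟨l, hl⟩ : ∃ l, -(1 + x ^ 2) * y + x * ((1 + y ^ 2) * γ / (β + γ)) =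
      l * (α + β + γ + (α + β)) + L * ((α + β) * y) :=
    ⟨_, by rw [div_mul_cancel₀ (-(1 + x ^ 2) * y + x * ((1 + y ^ 2) * γ / (β + γ)) -
      L * ((α + β) * y)) hS3.ne']; ring⟩
  have hl2 : (1 + y ^ 2) * γ / (β + γ) * z + y * ((1 + z ^ 2) * β / (β + γ)) =
      l * (α + β + γ + (β + γ)) - L * ((α + β) * y + (γ + α) * z) := by
    have e : ((1 + y ^ 2) * γ / (β + γ) * z + y * ((1 + z ^ 2) * β / (β + γ)) -
      (l * (α + β + γ + (β + γ)) - L * ((α + β) * y + (γ + α) * z))) *
        (α + β + γ + (α + β)) = 0 := by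
      linear_combination hQ' + (α + β + γ + (β + γ)) * hl - ((α + β) * y) * hQ
        - ((α + β) * y + (γ + α) * z) * hP
    rcases mul_eq_zero.1 e with e | e
    · linarith
    · exact absurd e hS3.ne'
  have hl3 : (1 + z ^ 2) * β / (β + γ) * x - z * (1 + x ^ 2) =
      l * (α + β + γ + (γ + α)) + L * ((γ + α) * z) := by
    have e : ((1 + z ^ 2) * β / (β + γ) * x - z * (1 + x ^ 2) -
      (l * (α + β + γ + (γ + α)) + L * ((γ + α) * z))) *
        (α + β + γ + (α + β)) = 0 := by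
      linear_combination hR' + (α + β + γ + (γ + α)) * hl - ((α + β) * y) * hR
        + ((γ + α) * z) * hP
    rcases mul_eq_zero.1 e with e | e
    · linarith
    · exact absurd e hS3.ne'
  -- first formula for `l`
  have hK : (β + γ) * (α + β + γ + (β + γ)) * l =
      x * (L * ((α + β + γ) ^ 2 + 3 * (β + γ) ^ 2) - 2 * (α + β + γ)) := by
    have e : (1 + y ^ 2) * γ * z + y * ((1 + z ^ 2) * β) =
        (β + γ) * (l * (α + β + γ + (β + γ)) - L * ((α + β) * y + (γ + α) * z)) := by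
      rw [← hl2]
      field_simp
    linear_combination (-1 : ℝ) * e + (γ * y + β * z) * hQ + (β + γ) * hB
      + (2 - L * (α + β + γ)) * hG
  -- second formula
  have hI : 2 * l * ((α + β + γ) * (β + γ) - β * γ) =
      x * (2 * (β + γ) + L * (3 * (α + β + γ) ^ 2 - 6 * (α + β + γ) * (β + γ) - (β + γ) ^ 2
        + 6 * (β * γ))) + (y + z) * (L * (2 * (α + β + γ) * (β + γ) - β * γ) - (β + γ)) := by
    have e1 : -(1 + x ^ 2) * y * (β + γ) + x * ((1 + y ^ 2) * γ) =
        (β + γ) * (l * (α + β + γ + (α + β)) + L * ((α + β) * y)) := by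
      rw [← hl]
      field_simp
    have e2 : (1 + z ^ 2) * β * x - z * (1 + x ^ 2) * (β + γ) =
        (β + γ) * (l * (α + β + γ + (γ + α)) + L * ((γ + α) * z)) := by
      rw [← hl3]
      field_simp
    have e3 : (2 * l * ((α + β + γ) * (β + γ) - β * γ) - (
      x * (2 * (β + γ) + L * (3 * (α + β + γ) ^ 2 - 6 * (α + β + γ) * (β + γ) - (β + γ) ^ 2
        + 6 * (β * γ))) + (y + z) * (L * (2 * (α + β + γ) * (β + γ) - β * γ) - (β + γ))))
        * (β + γ) = 0 := by
      linear_combination (-β) * e1 - γ * e2 + (-(β + γ) * (1 + x ^ 2) + x * (α * x - β * y - γ * z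
        + (β + γ) * (y + z)) - (β + γ) * L * (α + β + γ)) * hG
        + ((β + γ) * x - α * x - (β + γ) * (y + z)) * hA1 + x * (2 * β * γ - (β + γ) ^ 2) * hQ
    rcases mul_eq_zero.1 e3 with e3 | e3
    · linarith
    · exact absurd e3 hD.ne'
  have hZ : x * (2 * ((α + β + γ) * (β + γ) - β * γ) * (2 * L * (α + β + γ) - 1) *
      (L * ((α + β + γ) ^ 2 + 3 * (β + γ) ^ 2) - 2 * (α + β + γ)) -
      (β + γ) * (α + β + γ + (β + γ)) * L * ((2 * L * (α + β + γ) - 1) * α *
        ((α + β + γ) + 2 * α) + β * γ * (L * (11 * (α + β + γ) - 3 * (β + γ)) - 4))) = 0 := by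
    linear_combination (-(2 * ((α + β + γ) * (β + γ) - β * γ) * (2 * L * (α + β + γ) - 1))) * hK
      + (β + γ) * (α + β + γ + (β + γ)) * (2 * L * (α + β + γ) - 1) * hI
      + (β + γ) * (α + β + γ + (β + γ)) * (L * (2 * (α + β + γ) * (β + γ) - β * γ) - (β + γ)) * hB
  rcases mul_eq_zero.1 hZ with h | h
  · exact hx h
  · have n1 : 2 * ((α + β + γ) * (β + γ) - β * γ) * (2 * L * (α + β + γ) - 1) *
      (L * ((α + β + γ) ^ 2 + 3 * (β + γ) ^ 2) - 2 * (α + β + γ)) < 0 := by
      apply mul_neg_of_pos_of_neg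
      · exact mul_pos (by linarith) (by linarith)
      · linarith
    have n2 : 0 < L * (11 * (α + β + γ) - 3 * (β + γ)) - 4 := by
      have e1 : L * (11 * (α + β + γ) - 3 * (β + γ)) - 4 =
        4 * (2 * L * (α + β + γ) - 1) + 3 * (L * α) := by ring
      have e2 : 0 < L * α := mul_pos hL hα
      rw [e1]
      linarith
    have n3 : 0 < (β + γ) * (α + β + γ + (β + γ)) * L * ((2 * L * (α + β + γ) - 1) * α *
        ((α + β + γ) + 2 * α) + β * γ * (L * (11 * (α + β + γ) - 3 * (β + γ)) - 4)) := by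
      have : 0 < 2 * L * (α + β + γ) - 1 := by linarith
      positivity
    linarith

end Pool.Agent.H721R2.Ivrii
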