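import Mathlib

set_option autoImplicit false

namespace Pool.Agent.H721R2.Ivrii

theorem expr_pos (u v : ℝ) :
    0 < (2 + (u + v) ^ 2 + u ^ 2 - u * v + v ^ 2) * (3 + u ^ 2 + (u + v) ^ 2 + v ^ 2)
        * (2 + u ^ 2 + v ^ 2)
      - 2 * (1 + (u + v) ^ 2) ^ 2 * (1 + u ^ 2 - u * v + v ^ 2)
      + 2 * (2 + u ^ 2 + v ^ 2) ^ 2 * (1 + (u + v) ^ 2) := by
  obtain ⟨q, hq⟩ : ∃ q, q = u ^ 2 + v ^ 2 := ⟨_, rfl⟩
  obtain ⟨r, hr⟩ : ∃ r, r = u * v := ⟨_, rfl⟩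
  have h1 : 2 * r ≤ q := by rw [hq, hr]; nlinarith [sq_nonneg (u - v)]
  have h2 : -q ≤ 2 * r := by rw [hq, hr]; nlinarith [sq_nonneg (u + v)]
  have h0 : 0 ≤ q := by linarith
  have e : (2 + (u + v) ^ 2 + u ^ 2 - u * v + v ^ 2) * (3 + u ^ 2 + (u + v) ^ 2 + v ^ 2)
        * (2 + u ^ 2 + v ^ 2)
      - 2 * (1 + (u + v) ^ 2) ^ 2 * (1 + u ^ 2 - u * v + v ^ 2)
      + 2 * (2 + u ^ 2 + v ^ 2) ^ 2 * (1 + (u + v) ^ 2) =
      (2 + 2 * q + r) * (3 + 2 * q + 2 * r) * (2 + q)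
      - 2 * (1 + q + 2 * r) ^ 2 * (1 + q - r) + 2 * (2 + q) ^ 2 * (1 + q + 2 * r) := by
    rw [hq, hr]; ring
  rw [e]
  nlinarith [mul_nonneg h0 h0, mul_nonneg h0 (sub_nonneg.2 h1), mul_nonneg h0 (sub_nonneg.2 h2),
    mul_nonneg (sub_nonneg.2 h1) (sub_nonneg.2 h2), mul_nonneg (mul_nonneg h0 h0) h0,
    mul_nonneg (mul_nonneg h0 h0) (sub_nonneg.2 h1), mul_nonneg (mul_nonneg h0 h0) (sub_nonneg.2 h2),
    mul_nonneg h0 (mul_nonneg (sub_nonneg.2 h1) (sub_nonneg.2 h2)),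
    mul_nonneg (sub_nonneg.2 h1) (mul_nonneg (sub_nonneg.2 h1) (sub_nonneg.2 h2)),
    mul_nonneg (sub_nonneg.2 h2) (mul_nonneg (sub_nonneg.2 h1) (sub_nonneg.2 h2))]

/-- The orientation reversing case: the middle cotangent vanishes. -/
theorem algNeg (a b c x y z : ℝ) (ha : 0 < a) (hb : 0 < b) (hc : 0 < c)
    (hH : x - y + z = 0)
    (h1 : 2 * b * (1 + x ^ 2) = (a + c - b) * (2 + y ^ 2 + z ^ 2))
    (h2 : 2 * c * (1 + y ^ 2) = (a + b - c) * (2 + x ^ 2 + z ^ 2))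
    (h4 : 2 * (a * x + b * z) * (2 + x ^ 2 + z ^ 2)
      - 2 * ((a + b - c) * ((a + b - c) / (2 * c))) * (x * (1 + x ^ 2) + z * (1 + z ^ 2))
      + 2 * (a * x + b * z) * (1 + y ^ 2) + 4 * c * y * (1 + y ^ 2) = 0) : y = 0 := by
  have hy : y = x + z := by linarith
  subst hy
  have hσ : 0 < a + b + c := by positivity
  have hT : 0 < 3 + x ^ 2 + (x + z) ^ 2 + z ^ 2 := by positivity
  have hf : 0 < 2 + x ^ 2 + z ^ 2 := by positivity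
  have eb : b = (a + b + c) * (2 + (x + z) ^ 2 + z ^ 2) / (2 * (3 + x ^ 2 + (x + z) ^ 2 + z ^ 2)) := by
    rw [eq_div_iff (by positivity)]
    linear_combination h1
  have ec : c = (a + b + c) * (2 + x ^ 2 + z ^ 2) / (2 * (3 + x ^ 2 + (x + z) ^ 2 + z ^ 2)) := by
    rw [eq_div_iff (by positivity)]
    linear_combination h2
  have ea : a = (a + b + c) * (2 + x ^ 2 + (x + z) ^ 2) / (2 * (3 + x ^ 2 + (x + z) ^ 2 + z ^ 2)) := by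
    rw [eq_div_iff (by positivity)]
    linear_combination -h1 - h2
  have e1 : a + b - c = (a + b + c) * (1 + (x + z) ^ 2) / (3 + x ^ 2 + (x + z) ^ 2 + z ^ 2) := by
    rw [eq_div_iff hT.ne']
    linear_combination -h2
  have e2 : (a + b - c) / (2 * c) = (1 + (x + z) ^ 2) / (2 + x ^ 2 + z ^ 2) := by
    rw [div_eq_div_iff (by positivity) hf.ne']
    linear_combination -h2
  rw [e2, e1] at h4
  set σ := a + b + c with hσdef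
  have key : (x + z) * ((2 + (x + z) ^ 2 + x ^ 2 - x * z + z ^ 2) *
        (3 + x ^ 2 + (x + z) ^ 2 + z ^ 2) * (2 + x ^ 2 + z ^ 2)
      - 2 * (1 + (x + z) ^ 2) ^ 2 * (1 + x ^ 2 - x * z + z ^ 2)
      + 2 * (2 + x ^ 2 + z ^ 2) ^ 2 * (1 + (x + z) ^ 2)) = 0 := by
    have h5 : (2 * (σ * (2 + x ^ 2 + (x + z) ^ 2) / (2 * (3 + x ^ 2 + (x + z) ^ 2 + z ^ 2)) * x +
        σ * (2 + (x + z) ^ 2 + z ^ 2) / (2 * (3 + x ^ 2 + (x + z) ^ 2 + z ^ 2)) * z)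
          * (2 + x ^ 2 + z ^ 2)
        - 2 * (σ * (1 + (x + z) ^ 2) / (3 + x ^ 2 + (x + z) ^ 2 + z ^ 2) *
          ((1 + (x + z) ^ 2) / (2 + x ^ 2 + z ^ 2))) * (x * (1 + x ^ 2) + z * (1 + z ^ 2))
        + 2 * (σ * (2 + x ^ 2 + (x + z) ^ 2) / (2 * (3 + x ^ 2 + (x + z) ^ 2 + z ^ 2)) * x +
        σ * (2 + (x + z) ^ 2 + z ^ 2) / (2 * (3 + x ^ 2 + (x + z) ^ 2 + z ^ 2)) * z)
          * (1 + (x + z) ^ 2)
        + 4 * (σ * (2 + x ^ 2 + z ^ 2) / (2 * (3 + x ^ 2 + (x + z) ^ 2 + z ^ 2))) * (x + z) *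
          (1 + (x + z) ^ 2)) = 0 := by
      rw [← ea, ← eb, ← ec]
      exact h4
    have hσ' := hσ.ne'
    have hT' := hT.ne'
    have hf' := hf.ne'
    clear ea eb ec e1 e2 h4 h1 h2
    field_simp at h5
    have h6 : σ * ((x + z) * ((2 + (x + z) ^ 2 + x ^ 2 - x * z + z ^ 2) *
        (3 + x ^ 2 + (x + z) ^ 2 + z ^ 2) * (2 + x ^ 2 + z ^ 2)
      - 2 * (1 + (x + z) ^ 2) ^ 2 * (1 + x ^ 2 - x * z + z ^ 2)
      + 2 * (2 + x ^ 2 + z ^ 2) ^ 2 * (1 + (x + z) ^ 2))) = 0 := by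
      linear_combination (1 / 2 : ℝ) * h5
    rcases mul_eq_zero.1 h6 with h | h
    · exact absurd h hσ'
    · exact h
  rcases mul_eq_zero.1 key with h | h
  · exact h
  · exact absurd h (expr_pos x z).ne'

end Pool.Agent.H721R2.Ivrii
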