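import Pool.Agent.H721R2.Ivrii.Flat

set_option autoImplicit false

open MeasureTheory Set Filter Topology
open scoped ComplexConjugate InnerProductSpace

namespace Pool.Agent.H721R2.Ivrii

theorem rfl_isom (e : ℂ ≃ₗᵢ[ℝ] ℂ) (N v : ℂ) : rfl' (e.symm N) v = e.symm (rfl' N (e v)) := by
  unfold rfl'
  rw [map_sub, map_smul, e.symm_apply_apply, e.symm.norm_map]
  congr 3
  rw [← e.inner_map_map v (e.symm N), e.apply_symm_apply]

theorem rfl_rfl (N v : ℂ) (hN : N ≠ 0) : rfl' N (rfl' N v) = v := by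
  unfold rfl'
  have hn : ‖N‖ ≠ 0 := norm_ne_zero_iff.2 hN
  have h1 : ⟪v - (2 * ⟪v, N⟫_ℝ / ‖N‖ ^ 2) • N, N⟫_ℝ = -⟪v, N⟫_ℝ := by
    rw [inner_sub_left, real_inner_smul_left, real_inner_self_eq_norm_sq]
    field_simp
    ring
  rw [h1]
  module

theorem inner_rfl (N v : ℂ) (hN : N ≠ 0) : ⟪rfl' N v, N⟫_ℝ = -⟪v, N⟫_ℝ := by
  unfold rfl'
  have hn : ‖N‖ ≠ 0 := norm_ne_zero_iff.2 hN
  rw [inner_sub_left, real_inner_smul_left, real_inner_self_eq_norm_sq]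
  field_simp
  ring

/-- The unfolded closed trajectories of a periodic orbit with two further designated bounces. -/
theorem rel_of_orbit {Ω : Set ℂ} (D : Flats Ω) {n i j : ℕ} {p u : ℕ → ℂ} (h : Orbit Ω n p u)
    (hi : 0 < i) (hij : i < j) (hjn : j < n)
    (hf : ∀ k, 0 < k → k < n → k ≠ i → k ≠ j → FlatAt Ω (p k)) :
    ∃ g0 ∈ D.grp, ∃ g1 ∈ D.grp, ∃ g2 ∈ D.grp, ∃ (q2 q3 : ℂ) (F1 F2 F3 : ℂ → ℝ),
      LocalDef Ω (p 0) F1 ∧ LocalDef (g0 ⁻¹' Ω) q2 F2 ∧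
      LocalDef ((g1 * g0 : ℂ ≃ᵃⁱ[ℝ] ℂ) ⁻¹' Ω) q3 F3 ∧
      Rel F1 F2 F3 (g2 * (g1 * g0))⁻¹ (p 0) (u 0) q2 q3 := by
  obtain ⟨g0, hg0, a, ha, h1, FA, hA, hA1, hA2⟩ := chain_last D p u h.step 0 i hi
    (fun r hr1 hr2 => hf r hr1 (by omega) (by omega) (by omega))
  obtain ⟨g1, hg1, b, hb, h2, FB, hB, hB1, hB2⟩ := chain_last D p u h.step i j hij
    (fun r hr1 hr2 => hf r (by omega) (by omega) (by omega) (by omega))
  obtain ⟨g2, hg2, c, hc, h3, FC, hC, hC1, hC2⟩ := chain_last D p u h.step j n hjn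
    (fun r hr1 hr2 => hf r (by omega) (by omega) (by omega) (by omega))
  have hp : p n = p 0 := by have := h.perp 0; rwa [zero_add] at this
  have hu : u n = u 0 := by have := h.peru 0; rwa [zero_add] at this
  rw [hp] at h3 hC hC1 hC2
  rw [hu] at hC2
  obtain ⟨g, hg⟩ : ∃ g : ℂ ≃ᵃⁱ[ℝ] ℂ, g = g1 * g0 := ⟨_, rfl⟩
  have hA' : LocalDef Ω (g0 (g0.symm (p i))) FA := by rw [g0.apply_symm_apply]; exact hA
  have hB' : LocalDef Ω (g (g.symm (p j))) FB := by rw [g.apply_symm_apply]; exact hB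
  have gradA : gradient (FA ∘ g0) (g0.symm (p i)) =
      g0.linearIsometryEquiv.symm (gradient FA (p i)) := by
    rw [gradient_comp_isom g0 (hA'.smooth.differentiableAt (by norm_num)), g0.apply_symm_apply]
  have gradB : gradient (FB ∘ g) (g.symm (p j)) =
      g.linearIsometryEquiv.symm (gradient FB (p j)) := by
    rw [gradient_comp_isom g (hB'.smooth.differentiableAt (by norm_num)), g.apply_symm_apply]
  have glin : ∀ v, g.linearIsometryEquiv v =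
      g1.linearIsometryEquiv (g0.linearIsometryEquiv v) := by
    intro v; rw [hg, lin_mul]
  refine ⟨g0, hg0, g1, hg1, g2, hg2, g0.symm (p i), g.symm (p j), FC, FA ∘ g0, FB ∘ g, hC,
    hA'.comp g0, ?_, ?_⟩
  · rw [← hg]; exact hB'.comp g
  rw [← hg]
  refine ⟨h.unit, hC.zero, (hA'.comp g0).zero, (hB'.comp g).zero, a, b, c,
    g0.linearIsometryEquiv.symm (u i), g.linearIsometryEquiv.symm (u j), ha, hb, hc, ?_, ?_, ?_,
    ?_, ?_, ?_, ?_, ?_, ?_⟩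
  · rw [h1, g0.symm_apply_apply]
  · rw [gradA, rfl_isom, hA2]
  · have e1 : g (g0.symm (p i) + b • g0.linearIsometryEquiv.symm (u i)) = p j := by
      rw [map_add_smul, glin, g0.linearIsometryEquiv.apply_symm_apply]
      have e2 : g (g0.symm (p i)) = g1 (p i) := by
        rw [hg]
        change g1 (g0 (g0.symm (p i))) = _
        rw [g0.apply_symm_apply]
      rw [e2, ← map_add_smul g1, h2]
    rw [← e1, g.symm_apply_apply]
  · rw [gradB, rfl_isom, hB2, glin (g0.linearIsometryEquiv.symm (u i)),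
      g0.linearIsometryEquiv.apply_symm_apply]
  · have e1 : (g2 * g) (g.symm (p j) + c • g.linearIsometryEquiv.symm (u j)) = p 0 := by
      rw [map_add_smul, lin_mul, g.linearIsometryEquiv.apply_symm_apply]
      have e2 : (g2 * g) (g.symm (p j)) = g2 (p j) := by
        change g2 (g (g.symm (p j))) = _
        rw [g.apply_symm_apply]
      rw [e2, ← map_add_smul g2, h3]
    rw [← e1]
    change (g2 * g)⁻¹ ((g2 * g) _) = _
    rw [AffineIsometryEquiv.coe_inv, AffineIsometryEquiv.symm_apply_apply]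
  · rw [hC2, rfl_rfl _ _ hC.grad, lin_inv, LinearIsometryEquiv.symm_apply_eq, lin_mul,
      g.linearIsometryEquiv.apply_symm_apply]
  · rw [hC2, inner_rfl _ _ hC.grad]
    exact neg_ne_zero.2 hC1
  · rw [gradA, ← g0.linearIsometryEquiv.inner_map_map, g0.linearIsometryEquiv.apply_symm_apply]
    exact hA1
  · rw [gradB, ← g.linearIsometryEquiv.inner_map_map, g.linearIsometryEquiv.apply_symm_apply,
      glin, g0.linearIsometryEquiv.apply_symm_apply]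
    exact hB1

/-- The phase points at designated bounces. -/
def Base (Ω : Set ℂ) : Set (ℂ × ℂ) :=
  {z | ∃ (n i j : ℕ) (p u : ℕ → ℂ), Orbit Ω n p u ∧ (p 0, u 0) = z ∧ 0 < i ∧ i < j ∧ j < n ∧
    ∀ k, 0 < k → k < n → k ≠ i → k ≠ j → FlatAt Ω (p k)}

theorem base_null (Ω : Set ℂ) : μH[2] (Base Ω) = 0 := by
  obtain ⟨D⟩ := exists_Flats Ω
  have hc : (D.grp ×ˢ (D.grp ×ˢ D.grp)).Countable :=
    D.grp_countable.prod (D.grp_countable.prod D.grp_countable)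
  refine measure_mono_null (t := ⋃ g ∈ D.grp ×ˢ (D.grp ×ˢ D.grp),
    {z : ℂ × ℂ | ∃ (q2 q3 : ℂ) (F1 F2 F3 : ℂ → ℝ), LocalDef Ω z.1 F1 ∧
      LocalDef (g.1 ⁻¹' Ω) q2 F2 ∧ LocalDef ((g.2.1 * g.1 : ℂ ≃ᵃⁱ[ℝ] ℂ) ⁻¹' Ω) q3 F3 ∧
      Rel F1 F2 F3 (g.2.2 * (g.2.1 * g.1))⁻¹ z.1 z.2 q2 q3}) ?_ ?_
  · rintro z ⟨n, i, j, p, u, h, rfl, hi, hij, hjn, hf⟩
    obtain ⟨g0, hg0, g1, hg1, g2, hg2, h1⟩ := rel_of_orbit D h hi hij hjn hf
    exact mem_iUnion₂.2 ⟨(g0, g1, g2), ⟨hg0, hg1, hg2⟩, h1⟩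
  · exact (measure_biUnion_null_iff hc).2 fun g _ => set_null _ _ _ _

end Pool.Agent.H721R2.Ivrii
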