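import Pool.Agent.H721R2.Ivrii.Base

set_option autoImplicit false

open MeasureTheory Set Filter Topology
open scoped ComplexConjugate InnerProductSpace

namespace Pool.Agent.H721R2.Ivrii

/-- Smooth maps preserve negligible sets. -/
theorem image_null (T : ℂ × ℂ → ℂ × ℂ) (s : Set (ℂ × ℂ)) (hs : μH[2] s = 0)
    (hT : ∀ z ∈ s, ContDiffAt ℝ 1 T z) : μH[2] (T '' s) = 0 := by
  apply null_of_locally_null
  intro z hz
  obtain ⟨K, t, ht, hlip⟩ := (hT z hz).exists_lipschitzOnWith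
  refine ⟨T '' (s ∩ t), ?_, ?_⟩
  · have h1 := (hlip.mono (inter_subset_right (s := s))).hausdorffMeasure_image_le
      (d := 2) (by norm_num)
    have h2 : (μH[2] : Measure (ℂ × ℂ)) (s ∩ t) = 0 := measure_mono_null inter_subset_left hs
    rw [h2, mul_zero] at h1
    exact le_antisymm h1 bot_le
  · filter_upwards [ht] with w hw hws
    exact ⟨w, ⟨hws, hw⟩, rfl⟩

/-- The flow from a phase point to the next bounce on a straight mirror. -/
noncomputable def flatMap (f : ℂ × ℝ) (z : ℂ × ℂ) : ℂ × ℂ :=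
  (z.1 + ((f.2 - ⟪f.1, z.1⟫_ℝ) / ⟪f.1, z.2⟫_ℝ) • z.2, rfl' f.1 z.2)

theorem flatMap_smooth (f : ℂ × ℝ) (z : ℂ × ℂ) (hz : ⟪f.1, z.2⟫_ℝ ≠ 0) :
    ContDiffAt ℝ 1 (flatMap f) z := by
  have i1 : ContDiffAt ℝ 1 (fun z : ℂ × ℂ => ⟪f.1, z.1⟫_ℝ) z :=
    ((innerSL ℝ f.1).contDiff.contDiffAt).comp z contDiffAt_fst
  have i2 : ContDiffAt ℝ 1 (fun z : ℂ × ℂ => ⟪f.1, z.2⟫_ℝ) z :=
    ((innerSL ℝ f.1).contDiff.contDiffAt).comp z contDiffAt_snd
  have i3 : ContDiffAt ℝ 1 (fun z : ℂ × ℂ => ⟪z.2, f.1⟫_ℝ) z :=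
    i2.congr_of_eventuallyEq (Eventually.of_forall fun w => real_inner_comm _ _)
  refine ContDiffAt.prodMk ?_ ?_
  · exact contDiffAt_fst.add (((contDiffAt_const.sub i1).div i2 hz).smul contDiffAt_snd)
  · unfold rfl'
    exact contDiffAt_snd.sub (((contDiffAt_const.mul i3).div_const _).smul contDiffAt_const)

theorem norm_rfl (N v : ℂ) (hN : N ≠ 0) : ‖rfl' N v‖ = ‖v‖ := by
  have h : ‖rfl' N v‖ ^ 2 = ‖v‖ ^ 2 := by
    have hn : ‖N‖ ≠ 0 := norm_ne_zero_iff.2 hN
    rw [← real_inner_self_eq_norm_sq]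
    nth_rewrite 2 [rfl']
    rw [inner_sub_right, inner_smul_right, inner_rfl N v hN]
    unfold rfl'
    rw [inner_sub_left, real_inner_smul_left, real_inner_self_eq_norm_sq, real_inner_comm v N]
    field_simp
    ring
  have h1 := abs_eq_abs.2 (sq_eq_sq_iff_eq_or_eq_neg.1 h)
  simpa using h1

theorem Orbit.norm {Ω : Set ℂ} {n : ℕ} {p u : ℕ → ℂ} (h : Orbit Ω n p u) (k : ℕ) :
    ‖u k‖ = 1 := by
  induction k with
  | zero => exact h.unit
  | succ k ih =>
    obtain ⟨t, -, -, -, F, hF, -, h2⟩ := h.step k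
    have h3 : u (k + 1) = rfl' (gradient F (p (k + 1))) (u k) := h2
    rw [h3, norm_rfl _ _ hF.grad, ih]

theorem Orbit.shift {Ω : Set ℂ} {n : ℕ} {p u : ℕ → ℂ} (h : Orbit Ω n p u) (s : ℕ) :
    Orbit Ω n (fun k => p (k + s)) (fun k => u (k + s)) := by
  refine ⟨h.pos, h.norm _, fun k => ?_, fun k => ?_, fun k => ?_⟩
  · have := h.perp (k + s)
    rw [← this]; congr 1; ring
  · have := h.peru (k + s)
    rw [← this]; congr 1; ring
  · have := h.step (k + s)
    rw [show k + 1 + s = k + s + 1 by ring]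
    exact this

/-- The phase points reached from designated bounces after `m` bounces on straight mirrors. -/
def Reach (Ω : Set ℂ) (m : ℕ) : Set (ℂ × ℂ) :=
  {z | ∃ (n i j : ℕ) (p u : ℕ → ℂ), Orbit Ω n p u ∧ (p m, u m) = z ∧ 0 < i ∧ i < j ∧ j < n ∧
    (∀ k, 0 < k → k < n → k ≠ i → k ≠ j → FlatAt Ω (p k)) ∧
    ∀ k, 0 < k → k ≤ m → FlatAt Ω (p k)}

theorem reach_null (Ω : Set ℂ) (m : ℕ) : μH[2] (Reach Ω m) = 0 := by
  induction m with
  | zero =>
    refine measure_mono_null (t := Base Ω) ?_ (base_null Ω)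
    rintro z ⟨n, i, j, p, u, h, hz, hi, hij, hjn, hf, -⟩
    exact ⟨n, i, j, p, u, h, hz, hi, hij, hjn, hf⟩
  | succ m ih =>
    obtain ⟨D⟩ := exists_Flats Ω
    refine measure_mono_null (t := ⋃ f ∈ D.𝓕,
      flatMap f '' (Reach Ω m ∩ {z | ⟪f.1, z.2⟫_ℝ ≠ 0})) ?_ ?_
    · rintro z ⟨n, i, j, p, u, h, rfl, hi, hij, hjn, hf, hm⟩
      obtain ⟨f, hfF, hfd⟩ := D.flat _ (hm (m + 1) (by omega) le_rfl)
      obtain ⟨h3, h4, h5, t, ht, h6⟩ := step_flat (h.step m) hfd
      have h5' : ⟪f.1, u m⟫_ℝ ≠ 0 := by rw [real_inner_comm]; exact h5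
      refine mem_iUnion₂.2 ⟨f, hfF, (p m, u m), ⟨⟨n, i, j, p, u, h, rfl, hi, hij, hjn, hf,
        fun k hk1 hk2 => hm k hk1 (by omega)⟩, h5'⟩, ?_⟩
      unfold flatMap
      simp only
      rw [← h3]
      congr 1
      have h7 : (f.2 - ⟪f.1, p m⟫_ℝ) / ⟪f.1, u m⟫_ℝ = t := by
        rw [← h4, h6, inner_add_right, inner_smul_right]
        field_simp
        ring
      rw [h7, h6]
    · refine (measure_biUnion_null_iff D.countable).2 fun f _ => ?_
      refine image_null _ _ (measure_mono_null inter_subset_left ih) ?_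
      rintro z ⟨-, hz⟩
      exact flatMap_smooth f z hz

theorem perp_unit (v l : ℂ) (hv : ‖v‖ = 1) (h : ⟪v, Complex.exp l⟫_ℝ = 0) :
    v = Complex.I * Complex.exp (Complex.I * l.im) ∨
      v = -Complex.I * Complex.exp (Complex.I * l.im) := by
  rw [exp_polar, inner_eq, Complex.re_ofReal_mul, Complex.im_ofReal_mul,
    mul_comm Complex.I, Complex.exp_ofReal_mul_I_re, Complex.exp_ofReal_mul_I_im] at h
  have h1 : v.re * Real.cos l.im + v.im * Real.sin l.im = 0 := by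
    have : Real.exp l.re * (v.re * Real.cos l.im + v.im * Real.sin l.im) = 0 := by linarith
    rcases mul_eq_zero.1 this with h2 | h2
    · exact absurd h2 (Real.exp_pos _).ne'
    · exact h2
  have h2 := Real.sin_sq_add_cos_sq l.im
  have hv2 : v.re ^ 2 + v.im ^ 2 = 1 := by
    have : ‖v‖ ^ 2 = 1 := by rw [hv]; norm_num
    rw [← Complex.normSq_eq_norm_sq, Complex.normSq_apply] at this
    linarith
  obtain ⟨k, hk⟩ : ∃ k, k = v.im * Real.cos l.im - v.re * Real.sin l.im := ⟨_, rfl⟩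
  have e1 : v.re = -k * Real.sin l.im := by
    rw [hk]; linear_combination (-v.re) * h2 + Real.cos l.im * h1
  have e2 : v.im = k * Real.cos l.im := by
    rw [hk]; linear_combination (-v.im) * h2 + Real.sin l.im * h1
  have hk2 : k ^ 2 = 1 := by
    rw [e1, e2] at hv2
    linear_combination hv2 - k ^ 2 * h2
  rw [mul_comm Complex.I (l.im : ℂ)]
  have hk3 : k = 1 ∨ k = -1 := by
    have h3 : (k - 1) * (k + 1) = 0 := by linear_combination hk2
    rcases mul_eq_zero.1 h3 with h4 | h4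
    · left; linarith
    · right; linarith
  rcases hk3 with hk1 | hk1
  · left
    apply Complex.ext
    · rw [e1, hk1, Complex.mul_re, Complex.exp_ofReal_mul_I_re, Complex.exp_ofReal_mul_I_im]
      simp
    · rw [e2, hk1, Complex.mul_im, Complex.exp_ofReal_mul_I_re, Complex.exp_ofReal_mul_I_im]
      simp
  · right
    apply Complex.ext
    · rw [e1, hk1, Complex.mul_re, Complex.exp_ofReal_mul_I_re, Complex.exp_ofReal_mul_I_im]
      simp
    · rw [e2, hk1, Complex.mul_im, Complex.exp_ofReal_mul_I_re, Complex.exp_ofReal_mul_I_im]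
      simp

theorem curve_null (Θ : ℝ → ℂ × ℂ) (t : Set ℝ) (K : NNReal) (h : LipschitzOnWith K Θ t) :
    μH[2] (Θ '' t) = 0 := by
  have h1 := h.hausdorffMeasure_image_le (d := 2) (by norm_num)
  have h2 : (μH[2] : Measure ℝ) t = 0 := by
    have h3 : (μH[(2 : NNReal)] : Measure ℝ) t = 0 := by
      apply hausdorffMeasure_of_dimH_lt
      refine (dimH_mono (subset_univ t)).trans_lt ?_
      rw [Real.dimH_univ]
      norm_num
    exact_mod_cast h3
  rw [h2, mul_zero] at h1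
  exact le_antisymm h1 bot_le

/-- Phase points orthogonal to the boundary are negligible. -/
theorem normal_null (Ω : Set ℂ) : μH[2] {z : ℂ × ℂ | ‖z.2‖ = 1 ∧ ∃ F : ℂ → ℝ,
    LocalDef Ω z.1 F ∧ ∃ s : ℝ, z.2 = s • gradient F z.1} = 0 := by
  have himg := null_of_locally_null (μH[2] : Measure (ℂ × ℂ)) (fun z : ℂ × ℂ => z)
    {z : ℂ × ℂ | ‖z.2‖ = 1 ∧ ∃ F : ℂ → ℝ, LocalDef Ω z.1 F ∧ ∃ s : ℝ, z.2 = s • gradient F z.1} ?_
  · simpa using himg
  rintro z ⟨hz, F, hF, s, hs⟩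
  obtain ⟨A⟩ := exists_mir F z.1 hF.smooth hF.zero hF.grad
  have hsm : ContDiffAt ℝ 1 (fun s : ℝ => Complex.exp (Complex.I * (A.L s).im)) 0 := by
    have h1 : ContDiffAt ℝ 1 (fun s : ℝ => (A.L s).im) 0 :=
      (Complex.imCLM.contDiff.contDiffAt.comp (0 : ℝ) A.Ls).of_le (by norm_num)
    have h2 : ContDiffAt ℝ 1 (fun s : ℝ => ((A.L s).im : ℂ)) 0 :=
      Complex.ofRealCLM.contDiff.contDiffAt.comp (0 : ℝ) h1
    exact (contDiffAt_const.mul h2).cexp
  have hΘ1 : ContDiffAt ℝ 1 (fun s : ℝ => (A.γ s, Complex.I *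
      Complex.exp (Complex.I * (A.L s).im))) 0 :=
    (A.γs.of_le (by norm_num)).prodMk (contDiffAt_const.mul hsm)
  have hΘ2 : ContDiffAt ℝ 1 (fun s : ℝ => (A.γ s, -Complex.I *
      Complex.exp (Complex.I * (A.L s).im))) 0 :=
    (A.γs.of_le (by norm_num)).prodMk (contDiffAt_const.mul hsm)
  obtain ⟨K1, t1, ht1, hl1⟩ := hΘ1.exists_lipschitzOnWith
  obtain ⟨K2, t2, ht2, hl2⟩ := hΘ2.exists_lipschitzOnWith
  refine ⟨_, measure_union_null (curve_null _ _ _ hl1) (curve_null _ _ _ hl2), ?_⟩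
  have u1 : Tendsto (fun w : ℂ × ℂ => w.1) (𝓝 z) (𝓝 z.1) := continuousAt_fst
  have hσ : Tendsto (fun w : ℂ × ℂ => A.σ w.1) (𝓝 z) (𝓝 0) := by
    have : Tendsto A.σ (𝓝 z.1) (𝓝 0) := tendsto_of_cont A.σc A.σ0
    exact this.comp u1
  filter_upwards [u1.eventually A.hs, u1.eventually (localDef_near hF), hσ.eventually A.ho,
    hσ.eventually ht1, hσ.eventually ht2] with w p1 p2 p3 p4 p5 hw
  obtain ⟨hw1, F', hF', s', hs'⟩ := hw
  have k1 := p2 F' hF'
  have k2 := p1 k1.zero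
  obtain ⟨l, hl, hl2⟩ := grad_parallel k1 hF'
  rw [k2] at p3
  have horth : ⟪w.2, Complex.exp (A.L (A.σ w.1))⟫_ℝ = 0 := by
    rw [hs', hl2, real_inner_smul_left, real_inner_smul_left, p3.1]
    simp
  rcases perp_unit w.2 _ hw1 horth with h | h
  · left
    refine ⟨A.σ w.1, p4, ?_⟩
    simp only
    rw [k2, ← h]
  · right
    refine ⟨A.σ w.1, p5, ?_⟩
    simp only
    rw [k2, ← h]

theorem one_step {Ω : Set ℂ} {q v q' v' : ℂ} (h : Step Ω q v q' v') :
    ∃ t : ℝ, 0 < t ∧ q' = q + t • v ∧ ∃ F : ℂ → ℝ, LocalDef Ω q' F ∧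
      v' = rfl' (gradient F q') v := by
  obtain ⟨t, ht, hq, -, F, hF, -, h2⟩ := h
  exact ⟨t, ht, hq, F, hF, h2⟩

theorem no_one {Ω : Set ℂ} {p u : ℕ → ℂ} (h : Orbit Ω 1 p u) : False := by
  obtain ⟨t, ht, hq, -⟩ := one_step (h.step 0)
  have h1 : p (0 + 1) = p 0 := h.perp 0
  rw [h1] at hq
  have h2 : t • u 0 = 0 := by
    have : p 0 + t • u 0 = p 0 + 0 := by rw [← hq, add_zero]
    exact add_left_cancel this
  have h3 := congrArg norm h2
  rw [norm_smul, h.unit, norm_zero, mul_one, Real.norm_of_nonneg ht.le] at h3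
  exact ht.ne' h3

theorem two_normal {Ω : Set ℂ} {p u : ℕ → ℂ} (h : Orbit Ω 2 p u) :
    ‖u 0‖ = 1 ∧ ∃ F : ℂ → ℝ, LocalDef Ω (p 0) F ∧ ∃ s : ℝ, u 0 = s • gradient F (p 0) := by
  obtain ⟨t, ht, hq, -⟩ := one_step (h.step 0)
  obtain ⟨t', ht', hq', F, hF, h1⟩ := one_step (h.step 1)
  have hp : p (1 + 1) = p 0 := h.perp 0
  have hu : u (1 + 1) = u 0 := h.peru 0
  rw [hp] at hq' hF h1
  rw [hu] at h1
  have e0 : (0 + 1 : ℕ) = 1 := rfl
  rw [e0] at hq
  have h2 : t • u 0 + t' • u 1 = 0 := by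
    rw [hq, add_assoc] at hq'
    have : p 0 + (t • u 0 + t' • u 1) = p 0 + 0 := by rw [← hq', add_zero]
    exact add_left_cancel this
  have h3 : t = t' := by
    have h4 : t • u 0 = -(t' • u 1) := eq_neg_of_add_eq_zero_left h2
    have h5 := congrArg norm h4
    rw [norm_neg, norm_smul, norm_smul, h.norm, h.norm, mul_one, mul_one,
      Real.norm_of_nonneg ht.le, Real.norm_of_nonneg ht'.le] at h5
    exact h5
  have h4 : u 1 = -u 0 := by
    rw [← h3, ← smul_add] at h2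
    rcases smul_eq_zero.1 h2 with h5 | h5
    · exact absurd h5 ht.ne'
    · exact eq_neg_of_add_eq_zero_right h5
  refine ⟨h.unit, F, hF, -⟪u 1, gradient F (p 0)⟫_ℝ / ‖gradient F (p 0)‖ ^ 2, ?_⟩
  have h5 : (2 : ℝ) • u 0 = (2 : ℝ) • ((-⟪u 1, gradient F (p 0)⟫_ℝ / ‖gradient F (p 0)‖ ^ 2) •
      gradient F (p 0)) := by
    have h6 : u 0 = u 1 - (2 * ⟪u 1, gradient F (p 0)⟫_ℝ / ‖gradient F (p 0)‖ ^ 2) •
      gradient F (p 0) := h1
    have h7 : (2 : ℝ) • u 0 = u 0 - u 1 := by rw [h4]; module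
    rw [h7]
    nth_rewrite 1 [h6]
    module
  exact smul_right_injective ℂ (two_ne_zero : (2 : ℝ) ≠ 0) h5

/-- Three indices containing a given small set. -/
theorem three_indices (n : ℕ) (hn : 3 ≤ n) (P : ℕ → Prop)
    (hP : {k | k < n ∧ P k}.ncard ≤ 3) :
    ∃ a b c : ℕ, a < b ∧ b < c ∧ c < n ∧ ∀ k, k < n → P k → k = a ∨ k = b ∨ k = c := by
  classical
  obtain ⟨D, hD⟩ : ∃ D : Finset ℕ, D = (Finset.range n).filter P := ⟨_, rfl⟩
  have hDc : D.card ≤ 3 := by
    have : {k | k < n ∧ P k} = (D : Set ℕ) := by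
      ext k; rw [hD]; simp
    rw [this, Set.ncard_coe_finset] at hP
    exact hP
  obtain ⟨V, hV1, hV2, hV3⟩ := Finset.exists_subsuperset_card_eq
    (s := D) (t := Finset.range n) (n := 3) (by rw [hD]; exact Finset.filter_subset _ _) hDc
    (by rw [Finset.card_range]; exact hn)
  obtain ⟨x, y, z, hxy, hxz, hyz, hV⟩ := Finset.card_eq_three.1 hV3
  have hx : x < n := Finset.mem_range.1 (hV2 (by rw [hV]; simp))
  have hy : y < n := Finset.mem_range.1 (hV2 (by rw [hV]; simp))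
  have hz : z < n := Finset.mem_range.1 (hV2 (by rw [hV]; simp))
  have hmem : ∀ k, k < n → P k → k = x ∨ k = y ∨ k = z := by
    intro k hk hPk
    have h1 : k ∈ V := hV1 (by rw [hD]; simp [hk, hPk])
    rw [hV] at h1
    simpa using h1
  rcases lt_or_gt_of_ne hxy with h1 | h1 <;> rcases lt_or_gt_of_ne hxz with h2 | h2 <;>
    rcases lt_or_gt_of_ne hyz with h3 | h3
  · exact ⟨x, y, z, h1, h3, hz, fun k hk hPk => by have := hmem k hk hPk; tauto⟩
  · exact ⟨x, z, y, h2, h3, hy, fun k hk hPk => by have := hmem k hk hPk; tauto⟩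
  · omega
  · exact ⟨z, x, y, h2, h1, hy, fun k hk hPk => by have := hmem k hk hPk; tauto⟩
  · exact ⟨y, x, z, h1, h2, hz, fun k hk hPk => by have := hmem k hk hPk; tauto⟩
  · omega
  · exact ⟨y, z, x, h3, h2, hx, fun k hk hPk => by have := hmem k hk hPk; tauto⟩
  · exact ⟨z, y, x, h3, h1, hx, fun k hk hPk => by have := hmem k hk hPk; tauto⟩

/-- Periodic points with at most three bounces off the curved part of the boundary are
negligible. -/
theorem perThree_null (Ω : Set ℂ) : μH[2] (PerThree Ω) = 0 := by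
  have hN := normal_null Ω
  refine measure_mono_null (t := {z : ℂ × ℂ | ‖z.2‖ = 1 ∧ ∃ F : ℂ → ℝ,
    LocalDef Ω z.1 F ∧ ∃ s : ℝ, z.2 = s • gradient F z.1} ∪ (Base Ω ∪ ⋃ m : ℕ, Reach Ω m)) ?_
    (measure_union_null hN (measure_union_null (base_null Ω)
      (measure_iUnion_null fun m => reach_null Ω m)))
  rintro z ⟨n, p, u, h, rfl, hcard⟩
  have hpos := h.pos
  rcases Nat.lt_or_ge n 3 with hn | hn
  · have : n = 1 ∨ n = 2 := by omega
    rcases this with rfl | rfl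
    · exact absurd h (fun h => no_one h)
    · left
      exact two_normal h
  right
  obtain ⟨a, b, c, hab, hbc, hcn, hf⟩ := three_indices n hn (fun k => ¬ FlatAt Ω (p k)) hcard
  have hf' : ∀ k, k < n → k ≠ a → k ≠ b → k ≠ c → FlatAt Ω (p k) := by
    intro k hk h1 h2 h3
    by_contra hcon
    rcases hf k hk hcon with h4 | h4 | h4
    · exact h1 h4
    · exact h2 h4
    · exact h3 h4
  rcases Nat.eq_zero_or_pos a with ha | ha
  · left
    exact ⟨n, b, c, p, u, h, rfl, by omega, hbc, hcn, fun k hk1 hk2 hk3 hk4 =>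
      hf' k hk2 (by omega) hk3 hk4⟩
  · right
    refine mem_iUnion.2 ⟨n - c, n, a + n - c, b + n - c, fun k => p (k + c), fun k => u (k + c),
      h.shift c, ?_, by omega, by omega, by omega, ?_, ?_⟩
    · have e : n - c + c = 0 + n := by omega
      simp only [e, h.perp, h.peru]
    · intro k hk1 hk2 hk3 hk4
      rcases Nat.lt_or_ge (k + c) n with h1 | h1
      · exact hf' _ h1 (by omega) (by omega) (by omega)
      · have e : k + c = (k + c - n) + n := by omega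
        change FlatAt Ω (p (k + c))
        rw [e, h.perp]
        exact hf' _ (by omega) (by omega) (by omega) (by omega)
    · intro k hk1 hk2
      rcases Nat.lt_or_ge (k + c) n with h1 | h1
      · exact hf' _ h1 (by omega) (by omega) (by omega)
      · have e : k + c = 0 + n := by omega
        change FlatAt Ω (p (k + c))
        rw [e, h.perp]
        exact hf' _ (by omega) (by omega) (by omega) (by omega)

end Pool.Agent.H721R2.Ivrii
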