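import Pool.Agent.H721R2.Ivrii.Mirr
import Pool.Agent.H721R2.Ivrii.Final

set_option autoImplicit false

open MeasureTheory Set Filter Topology
open scoped ComplexConjugate InnerProductSpace

namespace Pool.Agent.H721R2.Ivrii

/-- A chain of local mirrors along a reference trajectory. -/
structure LChain (Ω : Set ℂ) where
  A : ℕ → Mirr Ω
  φ0 : ℕ → ℝ
  l : ℕ → ℝ × ℝ → ℂ
  R : ℕ → ℝ × ℝ → ℝ
  hl : ∀ k, ContDiffAt ℝ 2 (l k) 0
  l0 : ∀ k, (l k 0).im = φ0 k
  le : ∀ k, ∀ᶠ y in 𝓝 (0 : ℝ × ℝ),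
    Complex.exp (l k y) = (A (k + 1)).M.γ y.2 - (A k).M.γ y.1
  R0 : ∀ k, R k 0 = 0
  hR : ∀ k, ContDiffAt ℝ 1 (R k) 0
  Rr : ∀ k, ∀ᶠ x in 𝓝 (0 : ℝ × ℝ),
    (l k x).im + (l (k + 1) (x.2, R k x)).im = 2 * ((A (k + 1)).M.L x.2).im
  Ru : ∀ k, ∀ᶠ y in 𝓝 (0 : (ℝ × ℝ) × ℝ),
    (l k y.1).im + (l (k + 1) (y.1.2, y.2)).im = 2 * ((A (k + 1)).M.L y.1.2).im →
      y.2 = R k y.1
  tr : ∀ k, Real.sin (φ0 k - ((A k).M.L 0).im) ≠ 0
  rf : ∀ k, φ0 k + φ0 (k + 1) = 2 * ((A (k + 1)).M.L 0).im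

/-- The reflection at a point, in terms of a given defining function. -/
theorem step_refl {Ω : Set ℂ} {q v q' v' : ℂ} (h : Step Ω q v q' v') {F : ℂ → ℝ}
    (hF : LocalDef Ω q' F) : v' = rfl' (gradient F q') v ∧ ⟪v, gradient F q'⟫_ℝ ≠ 0 ∧
      ∃ t : ℝ, 0 < t ∧ q' = q + t • v := by
  obtain ⟨t, ht, hq, -, F', hF', h1, h2⟩ := h
  obtain ⟨l, hl, hl2⟩ := grad_parallel hF' hF
  refine ⟨?_, ?_, t, ht, hq⟩
  · rw [hl2, rfl_smul _ hl]; exact h2
  · rw [hl2, inner_smul_right]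
    exact mul_ne_zero hl h1

theorem unit_of_steps {Ω : Set ℂ} {p u : ℕ → ℂ}
    (hs : ∀ k, Step Ω (p k) (u k) (p (k + 1)) (u (k + 1))) (h0 : ‖u 0‖ = 1) (k : ℕ) :
    ‖u k‖ = 1 := by
  induction k with
  | zero => exact h0
  | succ k ih =>
    obtain ⟨t, -, -, -, F, hF, -, h2⟩ := hs k
    have h3 : u (k + 1) = rfl' (gradient F (p (k + 1))) (u k) := h2
    rw [h3, norm_rfl _ _ hF.grad, ih]

theorem exists_chain {Ω : Set ℂ} {p u : ℕ → ℂ}
    (hs : ∀ k, Step Ω (p k) (u k) (p (k + 1)) (u (k + 1))) (h0 : ‖u 0‖ = 1)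
    (A : ℕ → Mirr Ω) (hA : ∀ k, (A k).q = p k)
    (htr : ⟪u 0, gradient (A 0).F (p 0)⟫_ℝ ≠ 0) :
    ∃ D : LChain Ω, D.A = A ∧ ∀ k, u k = Complex.exp (Complex.I * D.φ0 k) := by
  have hu := unit_of_steps hs h0
  have hdf : ∀ k, LocalDef Ω (p k) (A k).F := fun k => by rw [← hA k]; exact (A k).df
  have hort : ∀ k, ⟪gradient (A k).F (p k), Complex.exp ((A k).M.L 0)⟫_ℝ = 0 := fun k => by
    have := (A k).M.ho.self_of_nhds.1
    rw [(A k).M.γ0, congrArg (gradient (A k).F) (hA k)] at this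
    exact this
  have hstep := fun k => step_refl (hs k) (hdf (k + 1))
  choose t ht hpt using fun k => (hstep k).2.2
  -- the reference angles
  obtain ⟨φ0, hφ0, hφs⟩ : ∃ φ0 : ℕ → ℝ, φ0 0 = Complex.arg (u 0) ∧
      ∀ k, φ0 (k + 1) = 2 * ((A (k + 1)).M.L 0).im - φ0 k :=
    ⟨fun k => Nat.rec (Complex.arg (u 0)) (fun k x => 2 * ((A (k + 1)).M.L 0).im - x) k, rfl,
      fun k => rfl⟩
  have hue : ∀ k, u k = Complex.exp (Complex.I * φ0 k) := by
    intro k
    induction k with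
    | zero =>
      rw [hφ0]
      have := Complex.norm_mul_exp_arg_mul_I (u 0)
      rw [h0, Complex.ofReal_one, one_mul] at this
      rw [mul_comm Complex.I]
      exact this.symm
    | succ k ih =>
      rw [(hstep k).1, ih, rfl_exp _ _ _ (hdf (k + 1)).grad (hort (k + 1)), hφs]
  have rf : ∀ k, φ0 k + φ0 (k + 1) = 2 * ((A (k + 1)).M.L 0).im := fun k => by
    rw [hφs]; ring
  have tr : ∀ k, Real.sin (φ0 k - ((A k).M.L 0).im) ≠ 0 := by
    intro k
    cases k with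
    | zero =>
      have := transversal _ _ (φ0 0) (hort 0) (by rw [← hue 0]; exact htr)
      rw [← neg_sub, Real.sin_neg]
      exact neg_ne_zero.2 this
    | succ k =>
      have := transversal _ _ (φ0 k) (hort (k + 1)) (by rw [← hue k]; exact (hstep k).2.1)
      have e : φ0 (k + 1) - ((A (k + 1)).M.L 0).im = ((A (k + 1)).M.L 0).im - φ0 k := by
        rw [hφs]; ring
      rw [e]; exact this
  -- the sides
  have hg2 : ∀ k, ContDiffAt ℝ 2 (A k).M.γ 0 := fun k => (A k).M.γs.of_le (by norm_num)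
  have hside : ∀ k, ∃ l : ℝ × ℝ → ℂ, ContDiffAt ℝ 2 l 0 ∧ l 0 = (Real.log (t k) : ℂ) +
      Complex.I * φ0 k ∧ ∀ᶠ y in 𝓝 (0 : ℝ × ℝ),
      Complex.exp (l y) = (A (k + 1)).M.γ y.2 - (A k).M.γ y.1 := by
    intro k
    have A1' : ContDiffAt ℝ 2 (fun x : ℝ × ℝ => (A k).M.γ x.1) 0 :=
      ContDiffAt.comp (0 : ℝ × ℝ) (f := fun x : ℝ × ℝ => x.1) (by exact hg2 k) contDiffAt_fst
    have B2' : ContDiffAt ℝ 2 (fun x : ℝ × ℝ => (A (k + 1)).M.γ x.2) 0 :=
      ContDiffAt.comp (0 : ℝ × ℝ) (f := fun x : ℝ × ℝ => x.2) (by exact hg2 (k + 1))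
        contDiffAt_snd
    refine exists_lift (fun x : ℝ × ℝ => (A (k + 1)).M.γ x.2 - (A k).M.γ x.1) 0 (B2'.sub A1')
      ((Real.log (t k) : ℂ) + Complex.I * φ0 k) ?_
    rw [exp_mk _ _ (ht k), ← hue k]
    change (A (k + 1)).M.γ 0 - (A k).M.γ 0 = _
    rw [(A (k + 1)).M.γ0, (A k).M.γ0, hA, hA, hpt k]; ring
  choose l hl l0 le using hside
  have l0' : ∀ k, (l k 0).im = φ0 k := fun k => by rw [l0]; simp
  have hS : ∀ k, ∃ S : ℝ × ℝ → ℝ, S 0 = 0 ∧ ContDiffAt ℝ 1 S 0 ∧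
      (∀ᶠ x in 𝓝 (0 : ℝ × ℝ), (l k x).im + (l (k + 1) (x.2, S x)).im =
        2 * ((A (k + 1)).M.L x.2).im) ∧
      (∀ᶠ y in 𝓝 (0 : (ℝ × ℝ) × ℝ),
        (l k y.1).im + (l (k + 1) (y.1.2, y.2)).im = 2 * ((A (k + 1)).M.L y.1.2).im →
          y.2 = S y.1) := by
    intro k
    refine exists_S (A (k + 1)).M (A (k + 2)).M (l k) (l (k + 1)) (hl k) (hl (k + 1))
      (le (k + 1)) ?_ ?_
    · rw [l0', l0']; exact rf k
    · rw [l0']
      have h1 := tr (k + 2)
      have e : φ0 (k + 2) - ((A (k + 2)).M.L 0).im =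
          ((A (k + 2)).M.L 0).im - φ0 (k + 1) := by
        rw [show k + 2 = k + 1 + 1 from rfl, hφs]; ring
      rw [e] at h1; exact h1
  choose R R0 hR Rr Ru using hS
  exact ⟨⟨A, φ0, l, R, hl, l0', le, R0, hR, Rr, Ru, tr, rf⟩, rfl, hue⟩

namespace LChain

variable {Ω : Set ℂ} (D : LChain Ω)

/-- Two consecutive positions as functions of the first two. -/
noncomputable def P : ℕ → ℝ × ℝ → ℝ × ℝ
  | 0 => fun x => x
  | k + 1 => fun x => ((P k x).2, D.R k (P k x))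

theorem P_zero : D.P 0 = fun x => x := rfl

theorem P_succ (k : ℕ) : D.P (k + 1) = fun x => ((D.P k x).2, D.R k (D.P k x)) := rfl

theorem P0 (k : ℕ) : D.P k 0 = 0 := by
  induction k with
  | zero => rfl
  | succ k ih =>
    rw [P_succ]
    simp only
    rw [ih, D.R0]; rfl

theorem P_smooth (k : ℕ) : ContDiffAt ℝ 1 (D.P k) 0 := by
  induction k with
  | zero => exact contDiffAt_id
  | succ k ih =>
    rw [P_succ]
    refine ContDiffAt.prodMk ?_ ?_
    · exact contDiffAt_snd.comp (0 : ℝ × ℝ) ih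
    · exact ContDiffAt.comp (0 : ℝ × ℝ) (by rw [D.P0]; exact D.hR k) ih

theorem P_tendsto (k : ℕ) : Tendsto (D.P k) (𝓝 0) (𝓝 0) :=
  tendsto_of_cont (D.P_smooth k).continuousAt (D.P0 k)

theorem fst_tendsto (k : ℕ) : Tendsto (fun x => (D.P k x).1) (𝓝 0) (𝓝 0) := by
  have : Tendsto (fun x : ℝ × ℝ => x.1) (𝓝 0) (𝓝 0) :=
    tendsto_of_cont continuous_fst.continuousAt rfl
  exact this.comp (D.P_tendsto k)

theorem ev_all (n : ℕ) {Q : ℕ → ℝ × ℝ → Prop} (h : ∀ k, ∀ᶠ x in 𝓝 (0 : ℝ × ℝ), Q k x) :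
    ∀ᶠ x in 𝓝 (0 : ℝ × ℝ), ∀ k ≤ n, Q k x := by
  have := (Filter.eventually_all_finite (Set.finite_Iic n) (l := 𝓝 (0 : ℝ × ℝ))
    (p := Q)).2 (fun k _ => h k)
  exact this

/-- The family of trajectories defined by the chain. -/
theorem exists_ncfg (n : ℕ) (hn : 2 ≤ n) (Z : Finset ℕ) (hZ : ∀ k ∈ Z, k < n) (ε κ K : ℝ)
    (hε : ε = 1 ∨ ε = -1)
    (hK : Complex.exp (Complex.I * κ) = Complex.exp (Complex.I * K))
    (hcl : (D.A n).M.L = fun s => (((D.A 0).M.L s).re : ℂ) +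
      Complex.I * (κ + ε * ((D.A 0).M.L s).im : ℝ)) :
    ∃ N : NCfg, N.n = n ∧ N.Z = Z ∧ (0 : ℝ × ℝ) ∈ N.U ∧
      N.E = {x | x ∈ N.U ∧ (D.P n x).1 = x.1 ∧ (D.l n (D.P n x)).im = ε * (D.l 0 x).im + K ∧
        ∀ k ∈ Z, (deriv (D.A k).M.L (D.P k x).1).im = 0} := by
  have c1 : ∀ k, ∀ᶠ x in 𝓝 (0 : ℝ × ℝ), ContDiffAt ℝ 1 (D.P k) x := fun k =>
    (D.P_smooth k).eventually (by simp)
  have c2 : ∀ k, ∀ᶠ x in 𝓝 (0 : ℝ × ℝ), ContDiffAt ℝ 2 (D.l k) (D.P k x) := fun k =>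
    (D.P_tendsto k).eventually ((D.hl k).eventually (by simp))
  have c3 : ∀ k, ∀ᶠ x in 𝓝 (0 : ℝ × ℝ), ContDiffAt ℝ 2 (D.A k).M.L (D.P k x).1 := fun k =>
    (D.fst_tendsto k).eventually ((D.A k).M.Ls.eventually (by simp))
  have c4 : ∀ k, ∀ᶠ x in 𝓝 (0 : ℝ × ℝ), HasDerivAt (D.A k).M.γ
      (Complex.exp ((D.A k).M.L (D.P k x).1)) (D.P k x).1 := fun k =>
    (D.fst_tendsto k).eventually (D.A k).M.hd
  have c5 := fun k => (D.P_tendsto k).eventually (D.le k)
  have c6 := fun k => (D.P_tendsto k).eventually (D.Rr k)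
  have c7 : ∀ k, ∀ᶠ x in 𝓝 (0 : ℝ × ℝ),
      Real.sin ((D.l k (D.P k x)).im - ((D.A k).M.L (D.P k x).1).im) ≠ 0 := by
    intro k
    have hc : ContinuousAt (fun x : ℝ × ℝ =>
        Real.sin ((D.l k (D.P k x)).im - ((D.A k).M.L (D.P k x).1).im)) 0 := by
      have a1 : ContinuousAt (fun x : ℝ × ℝ => (D.l k (D.P k x)).im) 0 :=
        Complex.continuous_im.continuousAt.comp
          (ContinuousAt.comp (f := D.P k) (x := (0 : ℝ × ℝ))
            (by rw [D.P0]; exact (D.hl k).continuousAt) (D.P_smooth k).continuousAt)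
      have a2 : ContinuousAt (fun x : ℝ × ℝ => ((D.A k).M.L (D.P k x).1).im) 0 :=
        Complex.continuous_im.continuousAt.comp
          (ContinuousAt.comp (f := fun x => (D.P k x).1) (x := (0 : ℝ × ℝ))
            (by rw [D.P0]; exact (D.A k).M.Ls.continuousAt)
            (continuous_fst.continuousAt.comp (D.P_smooth k).continuousAt))
      exact Real.continuous_sin.continuousAt.comp (a1.sub a2)
    refine hc.eventually_ne ?_
    rw [D.P0, D.l0]; exact D.tr k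
  have hall := ev_all n (fun k => (c1 k).and ((c2 k).and ((c3 k).and ((c4 k).and ((c5 k).and
    ((c6 k).and (c7 k)))))))
  obtain ⟨U, hUsub, hUo, hU0⟩ := mem_nhds_iff.1 hall
  have d1 : ∀ k ≤ n, ∀ x ∈ U, DifferentiableAt ℝ (D.P k) x := fun k hk x hx =>
    ((hUsub hx) k hk).1.differentiableAt (by norm_num)
  have d2 : ∀ k ≤ n, ∀ x ∈ U, DifferentiableAt ℝ (fun x => D.l k (D.P k x)) x :=
    fun k hk x hx => DifferentiableAt.comp x
      (((hUsub hx) k hk).2.1.differentiableAt (by norm_num)) (d1 k hk x hx)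
  have d3 : ∀ k ≤ n, ∀ x ∈ U, DifferentiableAt ℝ (D.A k).M.L (D.P k x).1 := fun k hk x hx =>
    ((hUsub hx) k hk).2.2.1.differentiableAt (by norm_num)
  have d4 : ∀ k ≤ n, ∀ x ∈ U, DifferentiableAt ℝ (deriv (D.A k).M.L) (D.P k x).1 := by
    intro k hk x hx
    have h1 : ContDiffAt ℝ 1 (fderiv ℝ (D.A k).M.L) (D.P k x).1 :=
      ((hUsub hx) k hk).2.2.1.fderiv_right (m := 1) (by norm_num)
    have h2 : ContDiffAt ℝ 1 (fun s => fderiv ℝ (D.A k).M.L s 1) (D.P k x).1 :=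
      h1.clm_apply contDiffAt_const
    have h3 : ContDiffAt ℝ 1 (deriv (D.A k).M.L) (D.P k x).1 :=
      h2.congr_of_eventuallyEq (Eventually.of_forall fun s => by simp)
    exact h3.differentiableAt (by norm_num)
  have dre : ∀ {X : Type} [NormedAddCommGroup X] [NormedSpace ℝ X] {f : X → ℂ} {x : X},
      DifferentiableAt ℝ f x → DifferentiableAt ℝ (fun y => (f y).re) x := by
    intro X _ _ f x hf
    exact Complex.reCLM.differentiableAt.comp x hf
  have dim : ∀ {X : Type} [NormedAddCommGroup X] [NormedSpace ℝ X] {f : X → ℂ} {x : X},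
      DifferentiableAt ℝ f x → DifferentiableAt ℝ (fun y => (f y).im) x := by
    intro X _ _ f x hf
    exact Complex.imCLM.differentiableAt.comp x hf
  have hεε : ε * ε = 1 := by rcases hε with h | h <;> rw [h] <;> norm_num
  let N : NCfg :=
    { U := U
      hU := hUo
      n := n
      hn := hn
      Z := Z
      hZ := hZ
      ε := ε
      hε := hε
      K := K
      γ := fun k => (D.A k).M.γ
      r := fun k s => Real.exp ((D.A k).M.L s).re
      ψ := fun k s => ((D.A k).M.L s).im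
      κ := fun k s => (deriv (D.A k).M.L s).im
      a := fun k x => Real.exp (D.l k (D.P k x)).re
      φ := fun k x => (D.l k (D.P k x)).im
      S := fun k x => (D.P k x).1
      S0 := rfl
      S1 := rfl
      hγ := fun k hk x hx => by
        rw [← exp_polar]; exact ((hUsub hx) k hk).2.2.2.1
      side := fun k hk x hx => by
        rw [← exp_polar]; exact ((hUsub hx) k hk.le).2.2.2.2.1.symm
      refl := fun k hk x hx => ((hUsub hx) k hk.le).2.2.2.2.2.1
      da := fun k hk x hx => (dre (d2 k hk.le x hx)).exp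
      dφ := fun k hk x hx => dim (d2 k hk x hx)
      dS := fun k hk x hx => (d1 k hk x hx).fst
      hψ := fun k hk x hx =>
        Complex.imCLM.hasFDerivAt.comp_hasDerivAt (D.P k x).1 (d3 k hk x hx).hasDerivAt
      dκ := fun k hk x hx => dim (d4 k hk x hx)
      dr := fun x hx => (dre (d3 0 (Nat.zero_le _) x hx)).exp
      pa := fun k hk x hx => Real.exp_pos _
      nr := fun k hk x hx => (Real.exp_pos _).ne'
      ns := fun k hk x hx => ((hUsub hx) k hk).2.2.2.2.2.2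
      close := fun x hx hS hφ => by
        have e1 : (D.A n).M.L (D.P 0 x).1 = (((D.A 0).M.L (D.P 0 x).1).re : ℂ) +
            Complex.I * (κ + ε * ((D.A 0).M.L (D.P 0 x).1).im : ℝ) := by rw [hcl]
        have er : ((D.A n).M.L (D.P 0 x).1).re = ((D.A 0).M.L (D.P 0 x).1).re := by
          rw [e1]; simp
        have ei : ((D.A n).M.L (D.P 0 x).1).im = κ + ε * ((D.A 0).M.L (D.P 0 x).1).im := by
          rw [e1]; simp
        have hder : HasDerivAt (D.A n).M.L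
            (((deriv (D.A 0).M.L (D.P 0 x).1).re : ℂ) +
              Complex.I * (ε * (deriv (D.A 0).M.L (D.P 0 x).1).im : ℝ)) (D.P 0 x).1 := by
          have h0 := (d3 0 (Nat.zero_le _) x hx).hasDerivAt
          have h1 : HasDerivAt (fun s => ((D.A 0).M.L s).re)
              (deriv (D.A 0).M.L (D.P 0 x).1).re (D.P 0 x).1 :=
            Complex.reCLM.hasFDerivAt.comp_hasDerivAt (D.P 0 x).1 h0
          have h2 : HasDerivAt (fun s => ((D.A 0).M.L s).im)
              (deriv (D.A 0).M.L (D.P 0 x).1).im (D.P 0 x).1 :=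
            Complex.imCLM.hasFDerivAt.comp_hasDerivAt (D.P 0 x).1 h0
          rw [hcl]
          exact h1.ofReal_comp.add ((((h2.const_mul ε).const_add κ).ofReal_comp).const_mul
            Complex.I)
        have hexp : Complex.exp (Complex.I * ((K - κ : ℝ) : ℂ)) = 1 := by
          have : Complex.I * ((K - κ : ℝ) : ℂ) = Complex.I * K - Complex.I * κ := by
            push_cast; ring
          rw [this, Complex.exp_sub, hK, div_self (Complex.exp_ne_zero _)]
        obtain ⟨j, hj⟩ := Complex.exp_eq_one_iff.1 hexp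
        have hj' : K - κ = j * (2 * Real.pi) := by
          have h2 : Complex.I * ((K - κ : ℝ) : ℂ) = Complex.I * ((j * (2 * Real.pi) : ℝ) : ℂ) := by
            rw [hj]; push_cast; ring
          have h3 := mul_left_cancel₀ Complex.I_ne_zero h2
          exact_mod_cast h3
        have hS' : (D.P n x).1 = (D.P 0 x).1 := hS
        have hθ : (D.l n (D.P n x)).im - ((D.A n).M.L (D.P n x).1).im =
            ε * ((D.l 0 (D.P 0 x)).im - ((D.A 0).M.L (D.P 0 x).1).im) +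
              j * (2 * Real.pi) := by
          rw [hS', ei]
          have : (D.l n (D.P n x)).im = ε * (D.l 0 (D.P 0 x)).im + K := hφ
          rw [this]
          linear_combination hj'
        refine ⟨?_, ?_, ?_, ?_⟩
        · rw [hS', er]
        · rw [hS', hder.deriv]; simp
        · rw [hθ, Real.sin_add_int_mul_two_pi, NCfg.sign_sin _ _ hεε]
        · rw [hθ, Real.cos_add_int_mul_two_pi, NCfg.sign_cos _ _ hεε] }
  exact ⟨N, rfl, rfl, hU0, rfl⟩

end LChain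

end Pool.Agent.H721R2.Ivrii
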