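import Pool.Agent.H721R2.Ivrii.Alg
import Pool.Agent.H721R2.Ivrii.AlgNeg
import Pool.Agent.H721R2.Ivrii.AE

set_option autoImplicit false

open MeasureTheory Set Filter Topology

namespace Pool.Agent.H721R2.Ivrii

/-- A two-parameter family of unfolded trajectories through three curved mirrors `γ1, γ2, γ3`
and the unfolded copy `γ4` of the first one. -/
structure Cfg where
  U : Set (ℝ × ℝ)
  hU : IsOpen U
  η : ℝ
  K : ℝ
  hη : η = 1 ∨ η = -1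
  γ1 : ℝ → ℂ
  γ2 : ℝ → ℂ
  γ3 : ℝ → ℂ
  γ4 : ℝ → ℂ
  r1 : ℝ → ℝ
  r2 : ℝ → ℝ
  r3 : ℝ → ℝ
  ψ1 : ℝ → ℝ
  ψ2 : ℝ → ℝ
  ψ3 : ℝ → ℝ
  k1 : ℝ → ℝ
  a : ℝ × ℝ → ℝ
  b : ℝ × ℝ → ℝ
  c : ℝ × ℝ → ℝ
  φ12 : ℝ × ℝ → ℝ
  φ23 : ℝ × ℝ → ℝ
  φ31 : ℝ × ℝ → ℝ
  S : ℝ × ℝ → ℝ
  h1 : ∀ x ∈ U, HasDerivAt γ1 (r1 x.1 * Complex.exp (Complex.I * ψ1 x.1)) x.1
  h2 : ∀ x ∈ U, HasDerivAt γ2 (r2 x.2 * Complex.exp (Complex.I * ψ2 x.2)) x.2
  h3 : ∀ x ∈ U, HasDerivAt γ3 (r3 (S x) * Complex.exp (Complex.I * ψ3 (S x))) (S x)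
  h4 : ∀ x ∈ U, HasDerivAt γ4
    (r1 x.1 * Complex.exp (Complex.I * (η * (ψ1 x.1 + K) : ℝ))) x.1
  e12 : ∀ x ∈ U, γ2 x.2 - γ1 x.1 = a x * Complex.exp (Complex.I * φ12 x)
  e23 : ∀ x ∈ U, γ3 (S x) - γ2 x.2 = b x * Complex.exp (Complex.I * φ23 x)
  e31 : ∀ x ∈ U, γ4 x.1 - γ3 (S x) = c x * Complex.exp (Complex.I * φ31 x)
  refl2 : ∀ x ∈ U, φ12 x + φ23 x = 2 * ψ2 x.2
  da : ∀ x ∈ U, DifferentiableAt ℝ a x
  db : ∀ x ∈ U, DifferentiableAt ℝ b x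
  dc : ∀ x ∈ U, DifferentiableAt ℝ c x
  dφ12 : ∀ x ∈ U, DifferentiableAt ℝ φ12 x
  dφ23 : ∀ x ∈ U, DifferentiableAt ℝ φ23 x
  dφ31 : ∀ x ∈ U, DifferentiableAt ℝ φ31 x
  dS : ∀ x ∈ U, DifferentiableAt ℝ S x
  dr1 : ∀ x ∈ U, DifferentiableAt ℝ r1 x.1
  hψ1 : ∀ x ∈ U, HasDerivAt ψ1 (k1 x.1) x.1
  dk1 : ∀ x ∈ U, DifferentiableAt ℝ k1 x.1
  dψ2 : ∀ x ∈ U, DifferentiableAt ℝ ψ2 x.2
  dψ3 : ∀ x ∈ U, DifferentiableAt ℝ ψ3 (S x)
  pa : ∀ x ∈ U, 0 < a x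
  pb : ∀ x ∈ U, 0 < b x
  pc : ∀ x ∈ U, 0 < c x
  n1 : ∀ x ∈ U, r1 x.1 ≠ 0
  n2 : ∀ x ∈ U, r2 x.2 ≠ 0
  n3 : ∀ x ∈ U, r3 (S x) ≠ 0
  s1 : ∀ x ∈ U, Real.sin (φ12 x - ψ1 x.1) ≠ 0
  s2 : ∀ x ∈ U, Real.sin (ψ2 x.2 - φ12 x) ≠ 0
  s3 : ∀ x ∈ U, Real.sin (ψ3 (S x) - φ23 x) ≠ 0

namespace Cfg

variable (D : Cfg)

/-- The angles at the three curved mirrors. -/
noncomputable def θ1 (x : ℝ × ℝ) : ℝ := D.φ12 x - D.ψ1 x.1
noncomputable def θ2 (x : ℝ × ℝ) : ℝ := D.ψ2 x.2 - D.φ12 x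
noncomputable def θ3 (x : ℝ × ℝ) : ℝ := D.ψ3 (D.S x) - D.φ23 x

/-- The cotangents. -/
noncomputable def T1 (x : ℝ × ℝ) : ℝ := Real.cos (D.θ1 x) / Real.sin (D.θ1 x)
noncomputable def T2 (x : ℝ × ℝ) : ℝ := Real.cos (D.θ2 x) / Real.sin (D.θ2 x)
noncomputable def T3 (x : ℝ × ℝ) : ℝ := Real.cos (D.θ3 x) / Real.sin (D.θ3 x)

/-- The closed trajectories of the family. -/
def E : Set (ℝ × ℝ) :=
  {x | x ∈ D.U ∧ D.φ23 x + D.φ31 x = 2 * D.ψ3 (D.S x) ∧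
    D.φ12 x + D.η * D.φ31 x = 2 * D.ψ1 x.1 + D.K}

/-- The two closing functions. -/
noncomputable def R3 (x : ℝ × ℝ) : ℝ := D.φ23 x + D.φ31 x - 2 * D.ψ3 (D.S x)
noncomputable def R1 (x : ℝ × ℝ) : ℝ := D.φ12 x + D.η * D.φ31 x - 2 * D.ψ1 x.1 - D.K

theorem diff_fst {f : ℝ → ℝ} {x : ℝ × ℝ} (h : DifferentiableAt ℝ f x.1) :
    DifferentiableAt ℝ (fun y : ℝ × ℝ => f y.1) x :=
  h.comp x differentiableAt_fst

theorem diff_snd {f : ℝ → ℝ} {x : ℝ × ℝ} (h : DifferentiableAt ℝ f x.2) :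
    DifferentiableAt ℝ (fun y : ℝ × ℝ => f y.2) x :=
  h.comp x differentiableAt_snd

theorem dR3 (x : ℝ × ℝ) (hx : x ∈ D.U) : DifferentiableAt ℝ D.R3 x := by
  have : DifferentiableAt ℝ (fun y => D.ψ3 (D.S y)) x := (D.dψ3 x hx).comp x (D.dS x hx)
  exact ((D.dφ23 x hx).add (D.dφ31 x hx)).sub (this.const_mul 2)

theorem dR1 (x : ℝ × ℝ) (hx : x ∈ D.U) : DifferentiableAt ℝ D.R1 x :=
  (((D.dφ12 x hx).add ((D.dφ31 x hx).const_mul _)).sub
    ((diff_fst (D.hψ1 x hx).differentiableAt).const_mul 2)).sub_const _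

theorem measurable_E : MeasurableSet D.E := by
  have h1 : IsOpen (D.U ∩ D.R3 ⁻¹' {0}ᶜ) :=
    ContinuousOn.isOpen_inter_preimage
      (fun x hx => (D.dR3 x hx).continuousAt.continuousWithinAt) D.hU isOpen_compl_singleton
  have h2 : IsOpen (D.U ∩ D.R1 ⁻¹' {0}ᶜ) :=
    ContinuousOn.isOpen_inter_preimage
      (fun x hx => (D.dR1 x hx).continuousAt.continuousWithinAt) D.hU isOpen_compl_singleton
  have : D.E = (D.U \ (D.U ∩ D.R3 ⁻¹' {0}ᶜ)) \ (D.U ∩ D.R1 ⁻¹' {0}ᶜ) := by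
    ext x
    simp only [E, mem_ofPred_eq, Set.mem_sdiff, mem_inter_iff, mem_preimage, mem_compl_iff,
      mem_singleton_iff, not_and, not_not, R3, R1]
    constructor
    · rintro ⟨h, h3, h4⟩
      exact ⟨⟨h, fun _ => by linarith⟩, fun _ => by linarith⟩
    · rintro ⟨⟨h, h3⟩, h4⟩
      exact ⟨h, by linarith [h3 h], by linarith [h4 h]⟩
  rw [this]
  exact (D.hU.measurableSet.diff h1.measurableSet).diff h2.measurableSet

/-- The line through `x` in direction `v`. -/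
theorem hasDerivAt_line (x v : ℝ × ℝ) : HasDerivAt (fun t : ℝ => x + t • v) v 0 := by
  have := ((hasDerivAt_id (0 : ℝ)).smul_const v).const_add x
  simpa using this

theorem line_deriv {f : ℝ × ℝ → ℝ} {x : ℝ × ℝ} (h : DifferentiableAt ℝ f x) (v : ℝ × ℝ) :
    HasDerivAt (fun t : ℝ => f (x + t • v)) (fderiv ℝ f x v) 0 := by
  have hf : HasFDerivAt f (fderiv ℝ f x) ((fun t : ℝ => x + t • v) 0) := by
    simpa using h.hasFDerivAt
  exact hf.comp_hasDerivAt (0 : ℝ) (hasDerivAt_line x v)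

theorem line_fst {E : Type*} [NormedAddCommGroup E] [NormedSpace ℝ E] {f : ℝ → E} {f' : E}
    {x : ℝ × ℝ} (h : HasDerivAt f f' x.1) (v : ℝ × ℝ) :
    HasDerivAt (fun t : ℝ => f (x + t • v).1) (v.1 • f') 0 := by
  have h1 : HasDerivAt (fun t : ℝ => (x + t • v).1) v.1 0 :=
    (hasDerivAt_line x v).fst
  have h2 : HasDerivAt f f' ((fun t : ℝ => (x + t • v).1) 0) := by simpa using h
  exact h2.scomp (0 : ℝ) h1

theorem line_snd {E : Type*} [NormedAddCommGroup E] [NormedSpace ℝ E] {f : ℝ → E} {f' : E}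
    {x : ℝ × ℝ} (h : HasDerivAt f f' x.2) (v : ℝ × ℝ) :
    HasDerivAt (fun t : ℝ => f (x + t • v).2) (v.2 • f') 0 := by
  have h1 : HasDerivAt (fun t : ℝ => (x + t • v).2) v.2 0 :=
    (hasDerivAt_line x v).snd
  have h2 : HasDerivAt f f' ((fun t : ℝ => (x + t • v).2) 0) := by simpa using h
  exact h2.scomp (0 : ℝ) h1

theorem line_S {E : Type*} [NormedAddCommGroup E] [NormedSpace ℝ E] {f : ℝ → E} {f' : E}
    {x : ℝ × ℝ} (hx : x ∈ D.U) (h : HasDerivAt f f' (D.S x)) (v : ℝ × ℝ) :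
    HasDerivAt (fun t : ℝ => f (D.S (x + t • v))) ((fderiv ℝ D.S x v) • f') 0 := by
  have h1 := line_deriv (D.dS x hx) v
  have h2 : HasDerivAt f f' ((fun t : ℝ => D.S (x + t • v)) 0) := by simpa using h
  exact h2.scomp (0 : ℝ) h1

theorem eventually_line {P : ℝ × ℝ → Prop} {x : ℝ × ℝ} (h : ∀ᶠ y in 𝓝 x, P y) (v : ℝ × ℝ) :
    ∀ᶠ t in 𝓝 (0 : ℝ), P (x + t • v) := by
  have hc : Tendsto (fun t : ℝ => x + t • v) (𝓝 0) (𝓝 x) := by
    have := (hasDerivAt_line x v).continuousAt.tendsto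
    simpa using this
  exact hc.eventually h

theorem ev_U {x : ℝ × ℝ} (hx : x ∈ D.U) (v : ℝ × ℝ) : ∀ᶠ t in 𝓝 (0 : ℝ), x + t • v ∈ D.U :=
  eventually_line (D.hU.mem_nhds hx) v

/-- Derivatives of the first side. -/
theorem side12 {x : ℝ × ℝ} (hx : x ∈ D.U) (v : ℝ × ℝ) :
    fderiv ℝ D.a x v = v.2 * D.r2 x.2 * Real.cos (D.θ2 x) - v.1 * D.r1 x.1 * Real.cos (D.θ1 x) ∧
    D.a x * fderiv ℝ D.φ12 x v =
      v.2 * D.r2 x.2 * Real.sin (D.θ2 x) + v.1 * D.r1 x.1 * Real.sin (D.θ1 x) := by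
  have hC := (line_snd (D.h2 x hx) v).sub (line_fst (D.h1 x hx) v)
  have := polar_deriv (fun t : ℝ => D.γ2 (x + t • v).2 - D.γ1 (x + t • v).1)
    (fun t : ℝ => D.a (x + t • v)) (fun t : ℝ => D.φ12 (x + t • v)) _ _
    (v.2 * D.r2 x.2) (v.1 * D.r1 x.1) (D.ψ2 x.2) (D.ψ1 x.1)
    (by
      refine hC.congr_deriv ?_
      simp only [Complex.real_smul]; push_cast; ring)
    (line_deriv (D.da x hx) v) (line_deriv (D.dφ12 x hx) v)
    ((D.ev_U hx v).mono fun t ht => D.e12 _ ht)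
  simp only [zero_smul, add_zero] at this
  obtain ⟨h1, h2⟩ := this
  have e : D.ψ1 x.1 - D.φ12 x = -(D.θ1 x) := by simp [θ1]
  rw [e, Real.cos_neg] at h1
  rw [e, Real.sin_neg] at h2
  refine ⟨by rw [h1]; rfl, by rw [h2]; simp only [θ2]; ring⟩

theorem side23 {x : ℝ × ℝ} (hx : x ∈ D.U) (v : ℝ × ℝ) :
    fderiv ℝ D.b x v = fderiv ℝ D.S x v * D.r3 (D.S x) * Real.cos (D.θ3 x)
      - v.2 * D.r2 x.2 * Real.cos (D.θ2 x) ∧
    D.b x * fderiv ℝ D.φ23 x v = fderiv ℝ D.S x v * D.r3 (D.S x) * Real.sin (D.θ3 x)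
      + v.2 * D.r2 x.2 * Real.sin (D.θ2 x) := by
  have hC := (D.line_S hx (D.h3 x hx) v).sub (line_snd (D.h2 x hx) v)
  have := polar_deriv (fun t : ℝ => D.γ3 (D.S (x + t • v)) - D.γ2 (x + t • v).2)
    (fun t : ℝ => D.b (x + t • v)) (fun t : ℝ => D.φ23 (x + t • v)) _ _
    (fderiv ℝ D.S x v * D.r3 (D.S x)) (v.2 * D.r2 x.2) (D.ψ3 (D.S x)) (D.ψ2 x.2)
    (by
      refine hC.congr_deriv ?_
      simp only [Complex.real_smul]; push_cast; ring)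
    (line_deriv (D.db x hx) v) (line_deriv (D.dφ23 x hx) v)
    ((D.ev_U hx v).mono fun t ht => D.e23 _ ht)
  simp only [zero_smul, add_zero] at this
  obtain ⟨h1, h2⟩ := this
  have e : D.ψ2 x.2 - D.φ23 x = -(D.θ2 x) := by
    have := D.refl2 x hx
    simp only [θ2]; linarith
  rw [e, Real.cos_neg] at h1
  rw [e, Real.sin_neg] at h2
  refine ⟨by rw [h1]; rfl, by rw [h2]; simp only [θ3]; ring⟩

theorem side31 {x : ℝ × ℝ} (hx : x ∈ D.E) (v : ℝ × ℝ) :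
    fderiv ℝ D.c x v = v.1 * D.r1 x.1 * Real.cos (D.θ1 x)
      - fderiv ℝ D.S x v * D.r3 (D.S x) * Real.cos (D.θ3 x) ∧
    D.c x * fderiv ℝ D.φ31 x v = D.η * (v.1 * D.r1 x.1 * Real.sin (D.θ1 x))
      + fderiv ℝ D.S x v * D.r3 (D.S x) * Real.sin (D.θ3 x) := by
  obtain ⟨hxU, hE3, hE1⟩ := hx
  have hC := (line_fst (D.h4 x hxU) v).sub (D.line_S hxU (D.h3 x hxU) v)
  have := polar_deriv (fun t : ℝ => D.γ4 (x + t • v).1 - D.γ3 (D.S (x + t • v)))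
    (fun t : ℝ => D.c (x + t • v)) (fun t : ℝ => D.φ31 (x + t • v)) _ _
    (v.1 * D.r1 x.1) (fderiv ℝ D.S x v * D.r3 (D.S x)) (D.η * (D.ψ1 x.1 + D.K)) (D.ψ3 (D.S x))
    (by
      refine hC.congr_deriv ?_
      simp only [Complex.real_smul]; push_cast; ring)
    (line_deriv (D.dc x hxU) v) (line_deriv (D.dφ31 x hxU) v)
    ((D.ev_U hxU v).mono fun t ht => D.e31 _ ht)
  simp only [zero_smul, add_zero] at this
  obtain ⟨h1, h2⟩ := this
  have e : D.ψ3 (D.S x) - D.φ31 x = -(D.θ3 x) := by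
    simp only [θ3]; linarith
  have e' : D.η * (D.ψ1 x.1 + D.K) - D.φ31 x = D.η * D.θ1 x := by
    have h5 : D.η * D.η = 1 := by rcases D.hη with h | h <;> rw [h] <;> norm_num
    simp only [θ1]
    linear_combination (-D.η) * hE1 + D.φ31 x * h5
  have ec : Real.cos (D.η * D.θ1 x) = Real.cos (D.θ1 x) := by
    rcases D.hη with h | h <;> rw [h]
    · rw [one_mul]
    · rw [neg_one_mul, Real.cos_neg]
  have es : Real.sin (D.η * D.θ1 x) = D.η * Real.sin (D.θ1 x) := by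
    rcases D.hη with h | h <;> rw [h]
    · rw [one_mul, one_mul]
    · rw [neg_one_mul, Real.sin_neg, neg_one_mul]
  rw [e, e', Real.cos_neg, ec] at h1
  rw [e, e', Real.sin_neg, es] at h2
  refine ⟨by rw [h1], by rw [h2]; ring⟩

/-- The derivative of the reflection law at the second mirror. -/
theorem refl2_deriv {x : ℝ × ℝ} (hx : x ∈ D.U) (v : ℝ × ℝ) :
    fderiv ℝ D.φ12 x v + fderiv ℝ D.φ23 x v = 2 * (v.2 * deriv D.ψ2 x.2) := by
  have h1 := (line_deriv (D.dφ12 x hx) v).add (line_deriv (D.dφ23 x hx) v)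
  have h2 := (line_snd (D.dψ2 x hx).hasDerivAt v).const_mul 2
  have h3 := h2.congr_of_eventuallyEq
    ((D.ev_U hx v).mono fun t ht => D.refl2 _ ht)
  exact h1.unique h3

/-- The points of `E` at which the closing relations can be differentiated. -/
theorem exists_E0 : ∃ E' ⊆ D.E, MeasurableSet E' ∧ volume (D.E \ E') = 0 ∧ ∀ x ∈ E', ∀ v : ℝ × ℝ,
    fderiv ℝ D.φ23 x v + fderiv ℝ D.φ31 x v = 2 * (fderiv ℝ D.S x v * deriv D.ψ3 (D.S x)) ∧
    fderiv ℝ D.φ12 x v + D.η * fderiv ℝ D.φ31 x v = 2 * (v.1 * D.k1 x.1) := by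
  obtain ⟨E1, hs1, hm1, hp1, hv1⟩ := step D.E D.measurable_E D.R3 (fun x hx => D.dR3 x hx.1)
    (fun x hx => by have := hx.2.1; simp only [R3]; linarith)
  obtain ⟨E2, hs2, hm2, hp2, hv2⟩ := step D.E D.measurable_E D.R1 (fun x hx => D.dR1 x hx.1)
    (fun x hx => by have := hx.2.2; simp only [R1]; linarith)
  refine ⟨E1 ∩ E2, fun x hx => hs1 hx.1, hm1.inter hm2, ?_, ?_⟩
  · rw [sdiff_inter]
    exact measure_union_null hv1 hv2
  · intro x hx v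
    have hxU : x ∈ D.U := (hs1 hx.1).1
    constructor
    · have h1 := ((line_deriv (D.dφ23 x hxU) v).add (line_deriv (D.dφ31 x hxU) v)).sub
        ((D.line_S hxU (D.dψ3 x hxU).hasDerivAt v).const_mul 2)
      have := hp1 x hx.1 v _ h1
      simp only [smul_eq_mul] at this
      linarith
    · have h1 := (((line_deriv (D.dφ12 x hxU) v).add
        ((line_deriv (D.dφ31 x hxU) v).const_mul D.η)).sub
        ((line_fst (D.hψ1 x hxU) v).const_mul 2)).sub_const D.K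
      have := hp2 x hx.2 v _ h1
      simp only [smul_eq_mul] at this
      linarith

theorem cot_deriv {θ : ℝ → ℝ} {θ' : ℝ} (h : HasDerivAt θ θ' 0) (hs : Real.sin (θ 0) ≠ 0) :
    HasDerivAt (fun t => Real.cos (θ t) / Real.sin (θ t))
      (-(1 + (Real.cos (θ 0) / Real.sin (θ 0)) ^ 2) * θ') 0 := by
  have h1 : HasDerivAt (fun t => Real.cos (θ t)) (-Real.sin (θ 0) * θ') 0 :=
    (Real.hasDerivAt_cos (θ 0)).comp (0 : ℝ) h
  have h2 : HasDerivAt (fun t => Real.sin (θ t)) (Real.cos (θ 0) * θ') 0 :=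
    (Real.hasDerivAt_sin (θ 0)).comp (0 : ℝ) h
  refine (h1.div h2 hs).congr_deriv ?_
  field_simp
  ring

/-- The derivatives of the sides and of the cotangents along `v` at `x`. -/
structure Der (x v : ℝ × ℝ) (a' b' c' x' y' z' : ℝ) : Prop where
  ha : HasDerivAt (fun t : ℝ => D.a (x + t • v)) a' 0
  hb : HasDerivAt (fun t : ℝ => D.b (x + t • v)) b' 0
  hc : HasDerivAt (fun t : ℝ => D.c (x + t • v)) c' 0
  hx : HasDerivAt (fun t : ℝ => D.T1 (x + t • v)) x' 0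
  hy : HasDerivAt (fun t : ℝ => D.T2 (x + t • v)) y' 0
  hz : HasDerivAt (fun t : ℝ => D.T3 (x + t • v)) z' 0

theorem T1_deriv {x : ℝ × ℝ} (hx : x ∈ D.U) (v : ℝ × ℝ) :
    HasDerivAt (fun t : ℝ => D.T1 (x + t • v))
      (-(1 + D.T1 x ^ 2) * (fderiv ℝ D.φ12 x v - v.1 * D.k1 x.1)) 0 := by
  have h := (line_deriv (D.dφ12 x hx) v).sub (line_fst (D.hψ1 x hx) v)
  have := cot_deriv h (by simpa using D.s1 x hx)
  simpa [T1, θ1] using this

theorem T2_deriv {x : ℝ × ℝ} (hx : x ∈ D.U) (v : ℝ × ℝ) :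
    HasDerivAt (fun t : ℝ => D.T2 (x + t • v))
      (-(1 + D.T2 x ^ 2) * (v.2 * deriv D.ψ2 x.2 - fderiv ℝ D.φ12 x v)) 0 := by
  have h := (line_snd (D.dψ2 x hx).hasDerivAt v).sub (line_deriv (D.dφ12 x hx) v)
  have := cot_deriv h (by simpa using D.s2 x hx)
  simpa [T2, θ2] using this

theorem T3_deriv {x : ℝ × ℝ} (hx : x ∈ D.U) (v : ℝ × ℝ) :
    HasDerivAt (fun t : ℝ => D.T3 (x + t • v))
      (-(1 + D.T3 x ^ 2) * (fderiv ℝ D.S x v * deriv D.ψ3 (D.S x) - fderiv ℝ D.φ23 x v)) 0 := by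
  have h := (D.line_S hx (D.dψ3 x hx).hasDerivAt v).sub (line_deriv (D.dφ23 x hx) v)
  have := cot_deriv h (by simpa using D.s3 x hx)
  simpa [T3, θ3] using this

theorem hηη : D.η * D.η = 1 := by rcases D.hη with h | h <;> rw [h] <;> norm_num

/-- The first order consequences of the closing relations. -/
theorem exists_E1 : ∃ E' ⊆ D.E, MeasurableSet E' ∧ volume (D.E \ E') = 0 ∧ ∀ x ∈ E',
    (2 * D.k1 x.1 * (D.a x * D.c x) =
      D.r1 x.1 * Real.sin (D.θ1 x) * (D.a x + D.c x - D.η * D.b x)) ∧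
    (∃ v : ℝ × ℝ, v.1 = 0 ∧ HasDerivAt (fun t : ℝ => D.θ1 (x + t • v)) 1 0 ∧
      D.Der x v (D.a x * D.T2 x)
      (-(D.a x * D.T2 x) - D.η * D.c x * D.T3 x)
      (D.η * D.c x * D.T3 x)
      (-(1 + D.T1 x ^ 2))
      (-(1 + D.T2 x ^ 2) * ((D.a x - D.b x - D.η * D.c x) / (2 * D.b x)))
      (-(1 + D.T3 x ^ 2) * (D.η * (D.c x - D.b x - D.η * D.a x) / (2 * D.b x)))) ∧
    (∃ v : ℝ × ℝ, D.Der x v (D.a x * D.T1 x)
      (D.b x * D.T3 x)
      (-(D.a x * D.T1 x) - D.b x * D.T3 x)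
      (-(1 + D.T1 x ^ 2) * ((D.a x - D.c x - D.η * D.b x) / (2 * D.c x)))
      (-(1 + D.T2 x ^ 2))
      (-(1 + D.T3 x ^ 2) * ((D.b x - D.c x - D.η * D.a x) / (2 * D.c x)))) := by
  obtain ⟨E1, hs, hm, hv, hp⟩ := D.exists_E0
  refine ⟨E1, hs, hm, hv, fun x hx => ?_⟩
  have hxE := hs hx
  have hxU := hxE.1
  have pa := (D.pa x hxU)
  have pb := (D.pb x hxU)
  have pc := (D.pc x hxU)
  have hr1 := D.n1 x hxU
  have hr2 := D.n2 x hxU
  have hr3 := D.n3 x hxU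
  have hs1 : Real.sin (D.θ1 x) ≠ 0 := D.s1 x hxU
  have hs2 : Real.sin (D.θ2 x) ≠ 0 := D.s2 x hxU
  have hs3 : Real.sin (D.θ3 x) ≠ 0 := D.s3 x hxU
  have hηη := D.hηη
  have ht1 : D.T1 x * Real.sin (D.θ1 x) = Real.cos (D.θ1 x) := div_mul_cancel₀ _ hs1
  have ht2 : D.T2 x * Real.sin (D.θ2 x) = Real.cos (D.θ2 x) := div_mul_cancel₀ _ hs2
  have ht3 : D.T3 x * Real.sin (D.θ3 x) = Real.cos (D.θ3 x) := div_mul_cancel₀ _ hs3
  have key : ∀ v : ℝ × ℝ, ∃ X1 X2 X3 p q r m2 m3 : ℝ,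
      X1 = v.1 * D.r1 x.1 * Real.sin (D.θ1 x) ∧ X2 = v.2 * D.r2 x.2 * Real.sin (D.θ2 x) ∧
      D.a x * p = X2 + X1 ∧ D.b x * q = X3 + X2 ∧ D.c x * r = D.η * X1 + X3 ∧
      p + q = 2 * m2 ∧ q + r = 2 * m3 ∧ p + D.η * r = 2 * (v.1 * D.k1 x.1) ∧
      (v.2 = 0 → m2 = 0) ∧
      HasDerivAt (fun t : ℝ => D.θ1 (x + t • v)) (p - v.1 * D.k1 x.1) 0 ∧
      D.Der x v (X2 * D.T2 x - X1 * D.T1 x) (X3 * D.T3 x - X2 * D.T2 x)
        (X1 * D.T1 x - X3 * D.T3 x) (-(1 + D.T1 x ^ 2) * (p - v.1 * D.k1 x.1))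
        (-(1 + D.T2 x ^ 2) * (m2 - p)) (-(1 + D.T3 x ^ 2) * (m3 - q)) := by
    intro v
    obtain ⟨A1, A2⟩ := D.side12 hxU v
    obtain ⟨B1, B2⟩ := D.side23 hxU v
    obtain ⟨C1, C2⟩ := D.side31 hxE v
    have R2 := D.refl2_deriv hxU v
    obtain ⟨R3, R1⟩ := hp x hx v
    refine ⟨v.1 * D.r1 x.1 * Real.sin (D.θ1 x), v.2 * D.r2 x.2 * Real.sin (D.θ2 x),
      fderiv ℝ D.S x v * D.r3 (D.S x) * Real.sin (D.θ3 x), fderiv ℝ D.φ12 x v,
      fderiv ℝ D.φ23 x v, fderiv ℝ D.φ31 x v, v.2 * deriv D.ψ2 x.2,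
      fderiv ℝ D.S x v * deriv D.ψ3 (D.S x), rfl, rfl, A2, B2, C2, R2, R3, R1,
      fun h => by rw [h, zero_mul],
      (line_deriv (D.dφ12 x hxU) v).sub (line_fst (D.hψ1 x hxU) v), ?_⟩
    constructor
    · refine (line_deriv (D.da x hxU) v).congr_deriv ?_
      rw [A1, ← ht1, ← ht2]; ring
    · refine (line_deriv (D.db x hxU) v).congr_deriv ?_
      rw [B1, ← ht2, ← ht3]; ring
    · refine (line_deriv (D.dc x hxU) v).congr_deriv ?_
      rw [C1, ← ht1, ← ht3]; ring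
    · exact D.T1_deriv hxU v
    · exact D.T2_deriv hxU v
    · exact D.T3_deriv hxU v
  have pa' := pa.ne'
  have pb' := pb.ne'
  have pc' := pc.ne'
  refine ⟨?_, ?_, ?_⟩
  · obtain ⟨v, hv1, hv2⟩ : ∃ v : ℝ × ℝ, v.2 = 0 ∧
        v.1 * D.r1 x.1 * Real.sin (D.θ1 x) = -D.a x :=
      ⟨(-D.a x / (D.r1 x.1 * Real.sin (D.θ1 x)), 0), rfl, by simp only; field_simp⟩
    obtain ⟨X1, X2, X3, p, q, r, m2, m3, e1, e2, f1, f2, f3, g2, g3, g1, hm2, -, -⟩ := key v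
    have e2' : X2 = 0 := by rw [e2, hv1]; ring
    rw [hv2] at e1
    have m2' := hm2 hv1
    subst e1 e2' m2'
    have hp' : p = -1 := by
      have : D.a x * (p + 1) = 0 := by linear_combination f1
      rcases mul_eq_zero.1 this with h | h
      · exact absurd h pa'
      · linarith
    have hq' : q = 1 := by linarith
    have hX3 : X3 = D.b x := by rw [hq'] at f2; linarith
    subst hp' hq' hX3
    have h5 : 2 * (v.1 * D.k1 x.1) * D.c x = -(D.a x + D.c x - D.η * D.b x) := by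
      rw [← g1]
      linear_combination D.η * f3 - D.a x * hηη
    linear_combination (2 * D.k1 x.1 * D.c x) * hv2 - (D.r1 x.1 * Real.sin (D.θ1 x)) * h5
  · obtain ⟨v, hv1, hv2⟩ : ∃ v : ℝ × ℝ, v.1 = 0 ∧
        v.2 * D.r2 x.2 * Real.sin (D.θ2 x) = D.a x :=
      ⟨(0, D.a x / (D.r2 x.2 * Real.sin (D.θ2 x))), rfl, by simp only; field_simp⟩
    obtain ⟨X1, X2, X3, p, q, r, m2, m3, e1, e2, f1, f2, f3, g2, g3, g1, hm2, hθ, hder⟩ := key v
    have e1' : X1 = 0 := by rw [e1, hv1]; ring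
    rw [hv2] at e2
    subst e1' e2
    rw [hv1, zero_mul, mul_zero] at g1
    have hp' : p = 1 := by
      have : D.a x * (p - 1) = 0 := by linear_combination f1
      rcases mul_eq_zero.1 this with h | h
      · exact absurd h pa'
      · linarith
    subst hp'
    have hr' : r = -D.η := by linear_combination D.η * g1 - r * hηη
    subst hr'
    have hX3 : X3 = -D.η * D.c x := by linear_combination -f3
    subst hX3
    refine ⟨v, hv1, hθ.congr_deriv (by rw [hv1]; ring), ?_⟩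
    have hq : q = (D.a x - D.η * D.c x) / D.b x := by
      rw [eq_div_iff pb']; linear_combination f2
    have hm2' : m2 = (1 + q) / 2 := by linarith
    have hm3' : m3 = (q - D.η) / 2 := by linarith
    have a1 := hder.ha
    have a2 := hder.hb
    have a3 := hder.hc
    have a4 := hder.hx
    have a5 := hder.hy
    have a6 := hder.hz
    constructor
    · exact a1.congr_deriv (by ring)
    · exact a2.congr_deriv (by ring)
    · exact a3.congr_deriv (by ring)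
    · exact a4.congr_deriv (by rw [hv1]; ring)
    · refine a5.congr_deriv ?_
      rw [hm2', hq]; field_simp; ring
    · refine a6.congr_deriv ?_
      rw [hm3', hq]; field_simp; linear_combination (-D.a x) * hηη
  · obtain ⟨v, hv1, hv2⟩ : ∃ v : ℝ × ℝ, v.2 = 0 ∧
        v.1 * D.r1 x.1 * Real.sin (D.θ1 x) = -D.a x :=
      ⟨(-D.a x / (D.r1 x.1 * Real.sin (D.θ1 x)), 0), rfl, by simp only; field_simp⟩
    obtain ⟨X1, X2, X3, p, q, r, m2, m3, e1, e2, f1, f2, f3, g2, g3, g1, hm2, hθ, hder⟩ := key v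
    have e2' : X2 = 0 := by rw [e2, hv1]; ring
    rw [hv2] at e1
    have m2' := hm2 hv1
    subst e1 e2' m2'
    have hp' : p = -1 := by
      have : D.a x * (p + 1) = 0 := by linear_combination f1
      rcases mul_eq_zero.1 this with h | h
      · exact absurd h pa'
      · linarith
    have hq' : q = 1 := by linarith
    have hX3 : X3 = D.b x := by rw [hq'] at f2; linarith
    subst hp' hq' hX3
    have hr : r = (D.b x - D.η * D.a x) / D.c x := by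
      rw [eq_div_iff pc']; linear_combination f3
    have hk : v.1 * D.k1 x.1 = (-1 + D.η * r) / 2 := by linarith
    have hm3' : m3 = (1 + r) / 2 := by linarith
    refine ⟨v, ?_⟩
    constructor
    · exact hder.ha.congr_deriv (by ring)
    · exact hder.hb.congr_deriv (by ring)
    · exact hder.hc.congr_deriv (by ring)
    · refine hder.hx.congr_deriv ?_
      rw [hk, hr]; field_simp; linear_combination (-D.a x) * hηη
    · exact hder.hy.congr_deriv (by ring)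
    · refine hder.hz.congr_deriv ?_
      rw [hm3', hr]; field_simp; ring

end Cfg

end Pool.Agent.H721R2.Ivrii
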