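import Pool.Agent.H721R2.Ivrii.Core

set_option autoImplicit false

open MeasureTheory Set Filter Topology

namespace Pool.Agent.H721R2.Ivrii

namespace Cfg

variable (D : Cfg)

theorem dθ1 (x : ℝ × ℝ) (hx : x ∈ D.U) : DifferentiableAt ℝ D.θ1 x :=
  (D.dφ12 x hx).sub (diff_fst (D.hψ1 x hx).differentiableAt)

theorem dθ2 (x : ℝ × ℝ) (hx : x ∈ D.U) : DifferentiableAt ℝ D.θ2 x :=
  (diff_snd (D.dψ2 x hx)).sub (D.dφ12 x hx)

theorem dθ3 (x : ℝ × ℝ) (hx : x ∈ D.U) : DifferentiableAt ℝ D.θ3 x :=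
  DifferentiableAt.sub ((D.dψ3 x hx).comp x (D.dS x hx)) (D.dφ23 x hx)

theorem dT1 (x : ℝ × ℝ) (hx : x ∈ D.U) : DifferentiableAt ℝ D.T1 x := by
  have := (D.dθ1 x hx).cos.mul ((D.dθ1 x hx).sin.inv (D.s1 x hx))
  exact this.congr_of_eventuallyEq (Eventually.of_forall fun y => by
    simp [T1, div_eq_mul_inv])

theorem dT2 (x : ℝ × ℝ) (hx : x ∈ D.U) : DifferentiableAt ℝ D.T2 x := by
  have := (D.dθ2 x hx).cos.mul ((D.dθ2 x hx).sin.inv (D.s2 x hx))
  exact this.congr_of_eventuallyEq (Eventually.of_forall fun y => by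
    simp [T2, div_eq_mul_inv])

theorem dT3 (x : ℝ × ℝ) (hx : x ∈ D.U) : DifferentiableAt ℝ D.T3 x := by
  have := (D.dθ3 x hx).cos.mul ((D.dθ3 x hx).sin.inv (D.s3 x hx))
  exact this.congr_of_eventuallyEq (Eventually.of_forall fun y => by
    simp [T3, div_eq_mul_inv])

/-- The two directions. -/
def Dirs (x : ℝ × ℝ) : Prop :=
    (∃ v : ℝ × ℝ, D.Der x v (D.a x * D.T2 x)
      (-(D.a x * D.T2 x) - D.η * D.c x * D.T3 x)
      (D.η * D.c x * D.T3 x)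
      (-(1 + D.T1 x ^ 2))
      (-(1 + D.T2 x ^ 2) * ((D.a x - D.b x - D.η * D.c x) / (2 * D.b x)))
      (-(1 + D.T3 x ^ 2) * (D.η * (D.c x - D.b x - D.η * D.a x) / (2 * D.b x)))) ∧
    (∃ v : ℝ × ℝ, D.Der x v (D.a x * D.T1 x)
      (D.b x * D.T3 x)
      (-(D.a x * D.T1 x) - D.b x * D.T3 x)
      (-(1 + D.T1 x ^ 2) * ((D.a x - D.c x - D.η * D.b x) / (2 * D.c x)))
      (-(1 + D.T2 x ^ 2))
      (-(1 + D.T3 x ^ 2) * ((D.b x - D.c x - D.η * D.a x) / (2 * D.c x))))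

theorem exists_E2 : ∃ E' ⊆ D.E, MeasurableSet E' ∧ volume (D.E \ E') = 0 ∧ ∀ x ∈ E',
    D.Dirs x ∧
    D.T1 x * (D.a x + D.c x - D.η * D.b x) + D.T2 x * (D.η * (D.a x + D.b x) - D.c x)
      + D.T3 x * (D.b x + D.c x - D.η * D.a x) = 0 := by
  obtain ⟨E1, hs, hm, hv, hp⟩ := D.exists_E1
  obtain ⟨E2, hs2, hm2, hp2, hv2⟩ := step E1 hm
    (fun x => 2 * D.k1 x.1 * (D.a x * D.c x) -
      D.r1 x.1 * Real.sin (D.θ1 x) * (D.a x + D.c x - D.η * D.b x))
    (fun x hx => by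
      have hxU := (hs hx).1
      exact ((diff_fst (D.dk1 x hxU)).const_mul 2 |>.mul ((D.da x hxU).mul (D.dc x hxU))).sub
        (((diff_fst (D.dr1 x hxU)).mul (D.dθ1 x hxU).sin).mul
          (((D.da x hxU).add (D.dc x hxU)).sub ((D.db x hxU).const_mul D.η))))
    (fun x hx => by
      have := (hp x hx).1
      linarith)
  refine ⟨E2, hs2.trans hs, hm2, ?_, fun x hx => ?_⟩
  · refine measure_mono_null (t := (D.E \ E1) ∪ (E1 \ E2)) ?_ (measure_union_null hv hv2)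
    intro x hx
    by_cases h : x ∈ E1
    · exact Or.inr ⟨h, hx.2⟩
    · exact Or.inl ⟨hx.1, h⟩
  · obtain ⟨hf, ⟨v, hv1, hθ, hd⟩, hX2⟩ := hp x (hs2 hx)
    refine ⟨⟨⟨v, hd⟩, hX2⟩, ?_⟩
    have hxU := (hs (hs2 hx)).1
    have hs1 : Real.sin (D.θ1 x) ≠ 0 := D.s1 x hxU
    have hr1 := D.n1 x hxU
    have ht1 : D.T1 x * Real.sin (D.θ1 x) = Real.cos (D.θ1 x) := div_mul_cancel₀ _ hs1
    have hk := line_fst (D.dk1 x hxU).hasDerivAt v
    have hr := line_fst (D.dr1 x hxU).hasDerivAt v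
    have hsin := hθ.sin
    have hη := D.hηη
    have := hp2 x hx v _ (((hk.const_mul 2).mul (hd.ha.mul hd.hc)).sub
      ((hr.mul hsin).mul ((hd.ha.add hd.hc).sub (hd.hb.const_mul D.η))))
    simp only [zero_smul, add_zero, hv1, mul_zero, zero_mul, zero_add, Pi.mul_apply, Pi.add_apply,
      Pi.sub_apply] at this
    have h2 : D.r1 x.1 * Real.sin (D.θ1 x) * (D.T1 x * (D.a x + D.c x - D.η * D.b x)
        + D.T2 x * (D.η * (D.a x + D.b x) - D.c x)
        + D.T3 x * (D.b x + D.c x - D.η * D.a x)) = 0 := by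
      linear_combination -this + (D.T2 x + D.η * D.T3 x) * hf +
        (D.r1 x.1 * (D.a x + D.c x - D.η * D.b x)) * ht1 -
        (D.r1 x.1 * Real.sin (D.θ1 x) * D.T3 x * (D.b x + D.c x)) * hη
    rcases mul_eq_zero.1 h2 with h | h
    · exact absurd h (mul_ne_zero hr1 hs1)
    · exact h

/-- Passing to a smaller set of full measure on which a relation can be differentiated. -/
theorem advance {P : ℝ × ℝ → Prop} (f : ℝ × ℝ → ℝ)
    (h : ∃ E' ⊆ D.E, MeasurableSet E' ∧ volume (D.E \ E') = 0 ∧ ∀ x ∈ E', P x)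
    (hd : ∀ x ∈ D.U, DifferentiableAt ℝ f x) (hf : ∀ x ∈ D.U, P x → f x = 0) :
    ∃ E' ⊆ D.E, MeasurableSet E' ∧ volume (D.E \ E') = 0 ∧ ∀ x ∈ E', P x ∧
      ∀ (v : ℝ × ℝ) (d : ℝ), HasDerivAt (fun t : ℝ => f (x + t • v)) d 0 → d = 0 := by
  obtain ⟨E1, hs, hm, hv, hp⟩ := h
  obtain ⟨E2, hs2, hm2, hp2, hv2⟩ := step E1 hm f (fun x hx => hd x (hs hx).1)
    (fun x hx => hf x (hs hx).1 (hp x hx))
  refine ⟨E2, hs2.trans hs, hm2, ?_, fun x hx => ⟨hp x (hs2 hx), hp2 x hx⟩⟩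
  refine measure_mono_null (t := (D.E \ E1) ∪ (E1 \ E2)) ?_ (measure_union_null hv hv2)
  intro x hx
  by_cases h : x ∈ E1
  · exact Or.inr ⟨h, hx.2⟩
  · exact Or.inl ⟨hx.1, h⟩

/-- The same, when the relation only holds on a part of the set. -/
theorem advance' {P : ℝ × ℝ → Prop} (f : ℝ × ℝ → ℝ)
    (h : ∃ E' ⊆ D.E, MeasurableSet E' ∧ volume (D.E \ E') = 0 ∧ ∀ x ∈ E', P x)
    (hd : ∀ x ∈ D.U, DifferentiableAt ℝ f x) :
    ∃ E' ⊆ D.E, MeasurableSet E' ∧ volume (D.E \ E') = 0 ∧ ∀ x ∈ E', P x ∧ (f x = 0 →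
      ∀ (v : ℝ × ℝ) (d : ℝ), HasDerivAt (fun t : ℝ => f (x + t • v)) d 0 → d = 0) := by
  obtain ⟨E1, hs, hm, hv, hp⟩ := h
  have hZ : MeasurableSet (E1 ∩ {x | f x = 0}) := by
    have h1 : IsOpen (D.U ∩ f ⁻¹' {0}ᶜ) :=
      ContinuousOn.isOpen_inter_preimage
        (fun x hx => (hd x hx).continuousAt.continuousWithinAt) D.hU isOpen_compl_singleton
    have : E1 ∩ {x | f x = 0} = E1 \ (D.U ∩ f ⁻¹' {0}ᶜ) := by
      ext x
      constructor
      · rintro ⟨h2, h3⟩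
        exact ⟨h2, fun h4 => h4.2 h3⟩
      · rintro ⟨h2, h3⟩
        refine ⟨h2, ?_⟩
        by_contra h4
        exact h3 ⟨(hs h2).1, h4⟩
    rw [this]
    exact hm.diff h1.measurableSet
  obtain ⟨Z, hs2, hm2, hp2, hv2⟩ := step (E1 ∩ {x | f x = 0}) hZ f (fun x hx => hd x (hs hx.1).1)
    (fun x hx => hx.2)
  refine ⟨E1 \ ((E1 ∩ {x | f x = 0}) \ Z), fun x hx => hs hx.1, hm.diff (hZ.diff hm2), ?_,
    fun x hx => ⟨hp x hx.1, fun h0 => ?_⟩⟩
  · refine measure_mono_null (t := (D.E \ E1) ∪ ((E1 ∩ {x | f x = 0}) \ Z)) ?_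
      (measure_union_null hv hv2)
    intro x hx
    by_cases h : x ∈ E1
    · by_cases h' : x ∈ (E1 ∩ {x | f x = 0}) \ Z
      · exact Or.inr h'
      · exact absurd ⟨h, h'⟩ hx.2
    · exact Or.inl ⟨hx.1, h⟩
  · have : x ∈ Z := by
      by_contra hZ
      exact hx.2 ⟨⟨hx.1, h0⟩, hZ⟩
    exact hp2 x this

/-- The orientation preserving case. -/
theorem null_pos (hη : D.η = 1) : volume D.E = 0 := by
  have l3 := D.advance (fun x => D.T1 x * (D.a x + D.c x - D.b x) +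
      D.T2 x * (D.a x + D.b x - D.c x) + D.T3 x * (D.b x + D.c x - D.a x)) D.exists_E2
    (fun x hx => (((D.dT1 x hx).mul (((D.da x hx).add (D.dc x hx)).sub (D.db x hx))).add
      ((D.dT2 x hx).mul (((D.da x hx).add (D.db x hx)).sub (D.dc x hx)))).add
      ((D.dT3 x hx).mul (((D.db x hx).add (D.dc x hx)).sub (D.da x hx))))
    (fun x hx h => by have := h.2; rw [hη] at this; linarith)
  have star3 : ∀ x ∈ D.U, (D.Dirs x ∧
    D.T1 x * (D.a x + D.c x - D.η * D.b x) + D.T2 x * (D.η * (D.a x + D.b x) - D.c x)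
      + D.T3 x * (D.b x + D.c x - D.η * D.a x) = 0) ∧
    (∀ (v : ℝ × ℝ) (d : ℝ), HasDerivAt (fun t : ℝ => D.T1 (x + t • v) *
      (D.a (x + t • v) + D.c (x + t • v) - D.b (x + t • v)) +
      D.T2 (x + t • v) * (D.a (x + t • v) + D.b (x + t • v) - D.c (x + t • v)) +
      D.T3 (x + t • v) * (D.b (x + t • v) + D.c (x + t • v) - D.a (x + t • v))) d 0 → d = 0) →
    0 < (D.a x + D.b x - D.c x) + (D.b x + D.c x - D.a x) ∧
    0 < (D.b x + D.c x - D.a x) + (D.a x + D.c x - D.b x) ∧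
    0 < (D.a x + D.c x - D.b x) + (D.a x + D.b x - D.c x) ∧
    ((D.a x + D.c x - D.b x) * D.T1 x + (D.a x + D.b x - D.c x) * D.T2 x +
      (D.b x + D.c x - D.a x) * D.T3 x = 0) ∧
    (∀ α β γ x' y z : ℝ, α = D.a x + D.c x - D.b x → β = D.a x + D.b x - D.c x →
      γ = D.b x + D.c x - D.a x → x' = D.T1 x → y = D.T2 x → z = D.T3 x →
    (((α + β) * y + (γ + α) * z) * x' - (γ + α) * z * y - (α + β) * y * z
      - α * (1 + x' ^ 2) + β * ((1 + y ^ 2) * γ / (β + γ)) + γ * ((1 + z ^ 2) * β / (β + γ)) = 0) ∧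
    (-(β + γ) * z * x' + ((α + β) * x' + (β + γ) * z) * y - (α + β) * x' * z
      + α * ((1 + x' ^ 2) * γ / (γ + α)) - β * (1 + y ^ 2) +
        γ * ((1 + z ^ 2) * α / (γ + α)) = 0)) := by
    rintro x hx ⟨⟨⟨⟨v, hd⟩, ⟨w, hd'⟩⟩, hG⟩, hp⟩
    have pa := D.pa x hx
    have pb := D.pb x hx
    have pc := D.pc x hx
    rw [hη] at hG hd hd'
    refine ⟨by linarith, by linarith, by linarith, by linarith, ?_⟩
    rintro α β γ x' y z rfl rfl rfl rfl rfl rfl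
    have e1 : (D.a x + D.b x - D.c x) + (D.b x + D.c x - D.a x) = 2 * D.b x := by ring
    have e2 : (D.b x + D.c x - D.a x) + (D.a x + D.c x - D.b x) = 2 * D.c x := by ring
    rw [e1, e2]
    have h1 := hp v _ (((hd.hx.mul ((hd.ha.add hd.hc).sub hd.hb)).add
      (hd.hy.mul ((hd.ha.add hd.hb).sub hd.hc))).add (hd.hz.mul ((hd.hb.add hd.hc).sub hd.ha)))
    have h2 := hp w _ (((hd'.hx.mul ((hd'.ha.add hd'.hc).sub hd'.hb)).add
      (hd'.hy.mul ((hd'.ha.add hd'.hb).sub hd'.hc))).add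
      (hd'.hz.mul ((hd'.hb.add hd'.hc).sub hd'.ha)))
    simp only [zero_smul, add_zero, Pi.mul_apply, Pi.add_apply, Pi.sub_apply] at h1 h2
    constructor
    · rw [← h1]; field_simp; ring
    · rw [← h2]; field_simp; ring
  have l4 := D.advance (fun x => (1 + D.T2 x * D.T3 x) * (3 * D.a x + D.b x + D.c x) -
      (1 + D.T1 x * D.T2 x) * (D.a x + 3 * D.b x + D.c x)) l3
    (fun x hx => (((D.dT2 x hx).mul (D.dT3 x hx)).const_add 1 |>.mul
        ((((D.da x hx).const_mul 3).add (D.db x hx)).add (D.dc x hx))).sub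
      (((D.dT1 x hx).mul (D.dT2 x hx)).const_add 1 |>.mul
        (((D.da x hx).add ((D.db x hx).const_mul 3)).add (D.dc x hx))))
    (fun x hx h => by
      obtain ⟨q1, q2, q3, q4, q5⟩ := star3 x hx h
      obtain ⟨q6, q7⟩ := q5 _ _ _ _ _ _ rfl rfl rfl rfl rfl rfl
      obtain ⟨L, w1, w2, w3⟩ := star _ _ _ _ _ _ q1 q2 q3 q4 q6 q7
      rw [w1, w2]
      ring)
  have l5 := D.advance (fun x => (1 + D.T3 x * D.T1 x) * (3 * D.a x + D.b x + D.c x) -
      (1 + D.T1 x * D.T2 x) * (D.a x + D.b x + 3 * D.c x)) l4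
    (fun x hx => (((D.dT3 x hx).mul (D.dT1 x hx)).const_add 1 |>.mul
        ((((D.da x hx).const_mul 3).add (D.db x hx)).add (D.dc x hx))).sub
      (((D.dT1 x hx).mul (D.dT2 x hx)).const_add 1 |>.mul
        (((D.da x hx).add (D.db x hx)).add ((D.dc x hx).const_mul 3))))
    (fun x hx h => by
      obtain ⟨q1, q2, q3, q4, q5⟩ := star3 x hx h.1
      obtain ⟨q6, q7⟩ := q5 _ _ _ _ _ _ rfl rfl rfl rfl rfl rfl
      obtain ⟨L, w1, w2, w3⟩ := star _ _ _ _ _ _ q1 q2 q3 q4 q6 q7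
      rw [w1, w3]
      ring)
  have l6 := D.advance' D.T1 l5 D.dT1
  obtain ⟨E', hs, hm, hv, hp⟩ := l6
  have hE' : E' = ∅ := by
    rw [Set.eq_empty_iff_forall_notMem]
    intro x hx
    obtain ⟨⟨⟨h3, h4⟩, h5⟩, h6⟩ := hp x hx
    have hxU := (hs hx).1
    have pa := D.pa x hxU
    have pb := D.pb x hxU
    have pc := D.pc x hxU
    obtain ⟨q1, q2, q3, q4, q5⟩ := star3 x hxU h3
    obtain ⟨q6, q7⟩ := q5 _ _ _ _ _ _ rfl rfl rfl rfl rfl rfl
    obtain ⟨⟨⟨⟨v, hd⟩, -⟩, -⟩, -⟩ := h3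
    rw [hη] at hd
    have ht : D.T1 x ≠ 0 := by
      intro h0
      have := h6 h0 v _ hd.hx
      nlinarith [sq_nonneg (D.T1 x)]
    have g4 := h4 v _ ((((hd.hy.mul hd.hz).const_add 1).mul
        (((hd.ha.const_mul 3).add hd.hb).add hd.hc)).sub
      (((hd.hx.mul hd.hy).const_add 1).mul ((hd.ha.add (hd.hb.const_mul 3)).add hd.hc)))
    have g5 := h5 v _ ((((hd.hz.mul hd.hx).const_add 1).mul
        (((hd.ha.const_mul 3).add hd.hb).add hd.hc)).sub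
      (((hd.hx.mul hd.hy).const_add 1).mul ((hd.ha.add hd.hb).add (hd.hc.const_mul 3))))
    simp only [zero_smul, add_zero, Pi.mul_apply, Pi.add_apply, Pi.sub_apply] at g4 g5
    have e1 : (D.a x + D.b x - D.c x) + (D.b x + D.c x - D.a x) = 2 * D.b x := by ring
    refine algPos _ _ _ _ _ _ q1 q2 q3 ht q4 q6 q7 ?_ ?_
    · rw [e1, ← g4]; field_simp; ring
    · rw [e1, ← g5]; field_simp; ring
  rw [hE', sdiff_empty] at hv
  exact hv

/-- The orientation reversing case. -/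
theorem null_neg (hη : D.η = -1) : volume D.E = 0 := by
  have l3 := D.advance (fun x => D.T1 x - D.T2 x + D.T3 x) D.exists_E2
    (fun x hx => ((D.dT1 x hx).sub (D.dT2 x hx)).add (D.dT3 x hx))
    (fun x hx h => by
      have h2 := h.2
      rw [hη] at h2
      have pa := D.pa x hx
      have pb := D.pb x hx
      have pc := D.pc x hx
      have h3 : (D.a x + D.b x + D.c x) * (D.T1 x - D.T2 x + D.T3 x) = 0 := by
        linear_combination h2
      rcases mul_eq_zero.1 h3 with h4 | h4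
      · linarith
      · exact h4)
  have H3 : ∀ x ∈ D.U, (D.Dirs x ∧
    D.T1 x * (D.a x + D.c x - D.η * D.b x) + D.T2 x * (D.η * (D.a x + D.b x) - D.c x)
      + D.T3 x * (D.b x + D.c x - D.η * D.a x) = 0) ∧
    (∀ (v : ℝ × ℝ) (d : ℝ), HasDerivAt (fun t : ℝ => D.T1 (x + t • v) - D.T2 (x + t • v) +
      D.T3 (x + t • v)) d 0 → d = 0) →
    D.T1 x - D.T2 x + D.T3 x = 0 ∧
    2 * D.b x * (1 + D.T1 x ^ 2) = (D.a x + D.c x - D.b x) * (2 + D.T2 x ^ 2 + D.T3 x ^ 2) ∧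
    2 * D.c x * (1 + D.T2 x ^ 2) = (D.a x + D.b x - D.c x) * (2 + D.T1 x ^ 2 + D.T3 x ^ 2) := by
    rintro x hx ⟨⟨⟨⟨v, hd⟩, ⟨w, hd'⟩⟩, hG⟩, hp⟩
    have pa := D.pa x hx
    have pb := D.pb x hx
    have pc := D.pc x hx
    rw [hη] at hG hd hd'
    have h0 : D.T1 x - D.T2 x + D.T3 x = 0 := by
      have h3 : (D.a x + D.b x + D.c x) * (D.T1 x - D.T2 x + D.T3 x) = 0 := by
        linear_combination hG
      rcases mul_eq_zero.1 h3 with h4 | h4
      · linarith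
      · exact h4
    have h1 := hp v _ ((hd.hx.sub hd.hy).add hd.hz)
    have h2 := hp w _ ((hd'.hx.sub hd'.hy).add hd'.hz)
    refine ⟨h0, ?_, ?_⟩
    · field_simp at h1
      linear_combination -h1
    · field_simp at h2
      linear_combination h2
  have l4 := D.advance (fun x => (D.a x + D.b x - D.c x) * (2 + D.T1 x ^ 2 + D.T3 x ^ 2) -
      2 * D.c x * (1 + D.T2 x ^ 2)) l3
    (fun x hx => ((((D.da x hx).add (D.db x hx)).sub (D.dc x hx)).mul
        ((((D.dT1 x hx).pow 2).const_add 2).add ((D.dT3 x hx).pow 2))).sub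
      (((D.dc x hx).const_mul 2).mul (((D.dT2 x hx).pow 2).const_add 1)))
    (fun x hx h => by
      obtain ⟨q1, q2, q3⟩ := H3 x hx h
      linarith)
  have l5 := D.advance' D.T2 l4 D.dT2
  obtain ⟨E', hs, hm, hv, hp⟩ := l5
  have hE' : E' = ∅ := by
    rw [Set.eq_empty_iff_forall_notMem]
    intro x hx
    obtain ⟨⟨h3, h4⟩, h5⟩ := hp x hx
    have hxU := (hs hx).1
    have pa := D.pa x hxU
    have pb := D.pb x hxU
    have pc := D.pc x hxU
    obtain ⟨q1, q2, q3⟩ := H3 x hxU h3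
    obtain ⟨⟨⟨-, ⟨v, hd⟩⟩, -⟩, -⟩ := h3
    rw [hη] at hd
    have g4 := h4 v _ ((((hd.ha.add hd.hb).sub hd.hc).mul
        (((hd.hx.pow 2).const_add 2).add (hd.hz.pow 2))).sub
      ((hd.hc.const_mul 2).mul ((hd.hy.pow 2).const_add 1)))
    simp only [zero_smul, add_zero, Pi.mul_apply, Pi.add_apply, Pi.sub_apply, Pi.pow_apply] at g4
    have hy : D.T2 x = 0 := by
      refine algNeg _ _ _ _ _ _ pa pb pc q1 q2 q3 ?_
      rw [← g4]; push_cast; field_simp; ring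
    have := h5 hy v _ hd.hy
    nlinarith [sq_nonneg (D.T2 x)]
  rw [hE', sdiff_empty] at hv
  exact hv

/-- Closed trajectories are negligible. -/
theorem null_E : volume D.E = 0 := by
  rcases D.hη with h | h
  · exact D.null_pos h
  · exact D.null_neg h

end Cfg

end Pool.Agent.H721R2.Ivrii
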