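import Mathlib

set_option autoImplicit false

open Set Filter Topology
open scoped InnerProductSpace

namespace Pool.Agent.H721R2.Ivrii

variable {E : Type*} [NormedAddCommGroup E] [InnerProductSpace ℝ E] [CompleteSpace E]

/-- `F` is a local defining function of class `C³` of the table `Ω` at the boundary point `q`:
near `q` the table is `{F < 0}`, and `F` is `C³` near `q` with `F q = 0` and nonzero gradient. -/
structure LocalDef (Ω : Set E) (q : E) (F : E → ℝ) : Prop where
  smooth : ContDiffAt ℝ 3 F q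
  zero : F q = 0
  grad : gradient F q ≠ 0
  mem : ∀ᶠ x in 𝓝 q, (x ∈ Ω ↔ F x < 0)

/-- The boundary is flat at `q`: near `q` the table is a half space whose boundary contains `q`. -/
def FlatAt (Ω : Set E) (q : E) : Prop :=
  ∃ n : E, n ≠ 0 ∧ ∀ᶠ x in 𝓝 q, (x ∈ Ω ↔ ⟪n, x - q⟫_ℝ < 0)

/-- The boundary is regular at `q` and its curvature (second fundamental form) vanishes at `q`. -/
def ZeroCurv (Ω : Set E) (q : E) : Prop :=
  ∃ F : E → ℝ, LocalDef Ω q F ∧
    ∀ w : E, ⟪gradient F q, w⟫_ℝ = 0 → fderiv ℝ (fderiv ℝ F) q w w = 0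

/-- One step of the billiard in the table `Ω`: the particle leaves `q` in direction `v`, moves in
`Ω` until it meets the boundary transversally at `q' = q + t • v`, where the boundary is regular of
class `C³`, and is reflected there, `v'` being the new direction. -/
def Step (Ω : Set E) (q v q' v' : E) : Prop :=
  ∃ t : ℝ, 0 < t ∧ q' = q + t • v ∧ (∀ s ∈ Ioo (0 : ℝ) t, q + s • v ∈ Ω) ∧
    ∃ F : E → ℝ, LocalDef Ω q' F ∧ ⟪v, gradient F q'⟫_ℝ ≠ 0 ∧
      v' = v - (2 * ⟪v, gradient F q'⟫_ℝ / ‖gradient F q'‖ ^ 2) • gradient F q'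

/-- A periodic billiard orbit `(p k, u k)` of period `n` with unit velocity. -/
structure Orbit (Ω : Set E) (n : ℕ) (p u : ℕ → E) : Prop where
  pos : 1 ≤ n
  unit : ‖u 0‖ = 1
  perp : ∀ k, p (k + n) = p k
  peru : ∀ k, u (k + n) = u k
  step : ∀ k, Step Ω (p k) (u k) (p (k + 1)) (u (k + 1))

/-- The phase points `(q, v)` which lie on a periodic billiard orbit (of any period `n`) that has
at most three bounces in a period at points where the boundary is not flat. -/
def PerThree (Ω : Set E) : Set (E × E) :=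
  {z | ∃ (n : ℕ) (p u : ℕ → E), Orbit Ω n p u ∧ (p 0, u 0) = z ∧
    {k | k < n ∧ ¬ FlatAt Ω (p k)}.ncard ≤ 3}

/-- A billiard trajectory `(p k, u k)` in `Ω` with unit speed which is periodic modulo the isometry
`g`: after `n ≥ 1` bounces it is the image of itself under `g`. -/
structure OrbitMod (Ω : Set E) (g : E ≃ᵃⁱ[ℝ] E) (n : ℕ) (p u : ℕ → E) : Prop where
  pos : 1 ≤ n
  unit : ‖u 0‖ = 1
  perp : ∀ k, p (k + n) = g (p k)
  peru : ∀ k, u (k + n) = g.linearIsometryEquiv (u k)
  step : ∀ k, Step Ω (p k) (u k) (p (k + 1)) (u (k + 1))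

/-- The phase points `(q, v)` whose billiard trajectory is periodic modulo some isometry `g ∈ Γ`,
with any number `n ≥ 1` of bounces in a period, at most three of which are at points of nonzero
curvature. -/
def PerMod (Γ : Set (E ≃ᵃⁱ[ℝ] E)) (Ω : Set E) : Set (E × E) :=
  {z | ∃ g ∈ Γ, ∃ (n : ℕ) (p u : ℕ → E), OrbitMod Ω g n p u ∧ (p 0, u 0) = z ∧
    {k | k < n ∧ ¬ ZeroCurv Ω (p k)}.ncard ≤ 3}

end Pool.Agent.H721R2.Ivrii
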