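import Pool.Agent.H721R2.Ivrii.SetNull

set_option autoImplicit false

open MeasureTheory Set Filter Topology
open scoped ComplexConjugate InnerProductSpace

namespace Pool.Agent.H721R2.Ivrii

section Transport

variable {E : Type*} [NormedAddCommGroup E] [InnerProductSpace ℝ E] [CompleteSpace E]
variable {E' : Type*} [NormedAddCommGroup E'] [InnerProductSpace ℝ E'] [CompleteSpace E']

omit [CompleteSpace E] [CompleteSpace E'] in
theorem isom_contDiff (g : E ≃ᵃⁱ[ℝ] E') (n : WithTop ℕ∞) : ContDiff ℝ n g := by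
  have h : (g : E → E') = fun x => g.linearIsometryEquiv x + g 0 := by
    ext x
    have := g.map_vadd 0 x
    simpa using this
  rw [h]
  exact g.linearIsometryEquiv.contDiff.add contDiff_const

omit [CompleteSpace E] [CompleteSpace E'] in
theorem isom_hasFDerivAt (g : E ≃ᵃⁱ[ℝ] E') (x : E) :
    HasFDerivAt g (g.linearIsometryEquiv.toContinuousLinearEquiv : E →L[ℝ] E') x := by
  have h : (g : E → E') = fun x => g.linearIsometryEquiv x + g 0 := by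
    ext x
    have := g.map_vadd 0 x
    simpa using this
  rw [h]
  exact (g.linearIsometryEquiv.toContinuousLinearEquiv : E →L[ℝ] E').hasFDerivAt.add_const _

theorem gradient_comp_isom (g : E ≃ᵃⁱ[ℝ] E') {F : E' → ℝ} {q : E}
    (hF : DifferentiableAt ℝ F (g q)) :
    gradient (F ∘ g) q = g.linearIsometryEquiv.symm (gradient F (g q)) := by
  apply HasGradientAt.gradient
  rw [hasGradientAt_iff_hasFDerivAt]
  have h1 := (hasFDerivAt_grad' hF).comp q (isom_hasFDerivAt g q)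
  refine h1.congr_fderiv ?_
  ext v
  change ⟪gradient F (g q), g.linearIsometryEquiv v⟫_ℝ =
    ⟪g.linearIsometryEquiv.symm (gradient F (g q)), v⟫_ℝ
  rw [← g.linearIsometryEquiv.inner_map_map (g.linearIsometryEquiv.symm (gradient F (g q))) v]
  simp

theorem LocalDef.comp (g : E ≃ᵃⁱ[ℝ] E') {Ω : Set E'} {q : E} {F : E' → ℝ}
    (h : LocalDef Ω (g q) F) : LocalDef (g ⁻¹' Ω) q (F ∘ g) := by
  refine ⟨h.smooth.comp q (isom_contDiff g 3).contDiffAt, h.zero, ?_, ?_⟩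
  · rw [gradient_comp_isom g (h.smooth.differentiableAt (by norm_num))]
    intro h0
    apply h.grad
    have := congrArg g.linearIsometryEquiv h0
    simpa using this
  · exact g.continuous.continuousAt.tendsto.eventually h.mem

theorem gradient_affine (n : E) (c : ℝ) (q : E) : gradient (fun x => ⟪n, x⟫_ℝ - c) q = n := by
  apply HasGradientAt.gradient
  rw [hasGradientAt_iff_hasFDerivAt]
  exact (innerSL ℝ n).hasFDerivAt.sub_const c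

theorem localDef_affine {Ω : Set E} {q : E} {n : E} {c : ℝ} (hn : n ≠ 0) (hq : ⟪n, q⟫_ℝ = c)
    (h : ∀ᶠ x in 𝓝 q, (x ∈ Ω ↔ ⟪n, x⟫_ℝ - c < 0)) :
    LocalDef Ω q (fun x => ⟪n, x⟫_ℝ - c) := by
  refine ⟨?_, by rw [hq, sub_self], by rw [gradient_affine]; exact hn, h⟩
  exact ((innerSL ℝ n).contDiff.sub contDiff_const).contDiffAt

end Transport

/-- Countably many straight mirrors suffice. -/
theorem exists_flats (Ω : Set ℂ) : ∃ 𝓕 : Set (ℂ × ℝ), 𝓕.Countable ∧ (∀ f ∈ 𝓕, ‖f.1‖ = 1) ∧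
    ∀ q, FlatAt Ω q → ∃ f ∈ 𝓕, LocalDef Ω q (fun x => ⟪f.1, x⟫_ℝ - f.2) := by
  classical
  obtain ⟨𝓑, h𝓑⟩ : ∃ 𝓑, 𝓑 = {B ∈ TopologicalSpace.countableBasis ℂ |
    ∃ f : ℂ × ℝ, ‖f.1‖ = 1 ∧ ∀ x ∈ B, (x ∈ Ω ↔ ⟪f.1, x⟫_ℝ - f.2 < 0)} := ⟨_, rfl⟩
  have hB : ∀ B ∈ 𝓑, ∃ f : ℂ × ℝ, ‖f.1‖ = 1 ∧ ∀ x ∈ B, (x ∈ Ω ↔ ⟪f.1, x⟫_ℝ - f.2 < 0) := by
    intro B hB
    rw [h𝓑] at hB
    exact hB.2
  choose! f hf1 hf2 using hB
  refine ⟨f '' 𝓑, ?_, ?_, ?_⟩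
  · apply Set.Countable.image
    rw [h𝓑]
    exact (TopologicalSpace.countable_countableBasis ℂ).mono (fun B hB => hB.1)
  · rintro _ ⟨B, hB, rfl⟩
    exact hf1 B hB
  · rintro q ⟨n, hn, hq⟩
    have hnn : ‖n‖ ≠ 0 := norm_ne_zero_iff.2 hn
    have hnp : 0 < ‖n‖⁻¹ := inv_pos.2 (norm_pos_iff.2 hn)
    obtain ⟨B, hBb, hqB, hBs⟩ := (TopologicalSpace.isBasis_countableBasis ℂ).mem_nhds_iff.1 hq
    have key : ∀ x ∈ B, (x ∈ Ω ↔ ⟪(‖n‖⁻¹ : ℝ) • n, x⟫_ℝ - ‖n‖⁻¹ * ⟪n, q⟫_ℝ < 0) := by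
      intro x hx
      have h1 : (x ∈ Ω ↔ ⟪n, x - q⟫_ℝ < 0) := hBs hx
      rw [h1, real_inner_smul_left, inner_sub_right, ← mul_sub]
      constructor
      · intro h
        exact mul_neg_of_pos_of_neg hnp h
      · intro h
        by_contra hcon
        exact absurd h (not_lt.2 (mul_nonneg hnp.le (not_lt.1 hcon)))
    have hB𝓑 : B ∈ 𝓑 := by
      rw [h𝓑]
      refine ⟨hBb, ((‖n‖⁻¹ : ℝ) • n, ‖n‖⁻¹ * ⟪n, q⟫_ℝ), ?_, key⟩
      simp only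
      rw [norm_smul, norm_inv, norm_norm, inv_mul_cancel₀ hnn]
    have hBo : B ∈ 𝓝 q := (TopologicalSpace.isBasis_countableBasis ℂ).mem_nhds hBb hqB
    have hdef : LocalDef Ω q (fun x => ⟪n, x⟫_ℝ - ⟪n, q⟫_ℝ) :=
      localDef_affine hn rfl (hq.mono fun x hx => by rw [hx, inner_sub_right])
    have hm : ∀ᶠ x in 𝓝 q, (x ∈ Ω ↔ ⟪(f B).1, x⟫_ℝ - (f B).2 < 0) :=
      Filter.mem_of_superset hBo (hf2 B hB𝓑)
    refine ⟨f B, mem_image_of_mem f hB𝓑, ?_⟩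
    have hn1 : (f B).1 ≠ 0 := by
      intro h0
      have := hf1 B hB𝓑
      rw [h0] at this
      simp at this
    refine localDef_affine hn1 ?_ hm
    have hc : ContinuousAt (fun x => ⟪(f B).1, x⟫_ℝ - (f B).2) q :=
      ((innerSL ℝ (f B).1).continuous.sub continuous_const).continuousAt
    have := zero_of_mem hc hm hdef
    linarith

/-- The reflection in a line. -/
theorem exists_refl (f : ℂ × ℝ) (hf : ‖f.1‖ = 1) : ∃ R : ℂ ≃ᵃⁱ[ℝ] ℂ,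
    (∀ x, ⟪f.1, x⟫_ℝ = f.2 → R x = x) ∧ ∀ v, R.linearIsometryEquiv v = rfl' f.1 v := by
  have hlin : ∀ v, (ℝ ∙ f.1)ᗮ.reflection v = rfl' f.1 v := by
    intro v
    rw [Submodule.reflection_orthogonal_apply, Submodule.reflection_singleton_apply, hf]
    unfold rfl'
    rw [hf, real_inner_comm]
    simp only [one_pow, div_one, RCLike.ofReal_real_eq_id, id]
    module
  refine ⟨AffineIsometryEquiv.mk' (fun x => x - (2 * (⟪f.1, x⟫_ℝ - f.2)) • f.1)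
    ((ℝ ∙ f.1)ᗮ.reflection) 0 ?_, ?_, ?_⟩
  · intro x
    rw [hlin]
    unfold rfl'
    rw [hf]
    simp only [vsub_eq_sub, sub_zero, vadd_eq_add, inner_zero_right, one_pow, div_one]
    rw [real_inner_comm]
    module
  · intro x hx
    change x - (2 * (⟪f.1, x⟫_ℝ - f.2)) • f.1 = x
    rw [hx]; simp
  · intro v
    rw [AffineIsometryEquiv.linearIsometryEquiv_mk']
    exact hlin v

theorem lin_mul (g h : ℂ ≃ᵃⁱ[ℝ] ℂ) (v : ℂ) : (g * h).linearIsometryEquiv v =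
    g.linearIsometryEquiv (h.linearIsometryEquiv v) := by
  have h1 := (g * h).map_vsub v 0
  have h2 := h.map_vsub v 0
  have h3 := g.map_vsub (h v) (h 0)
  simp only [vsub_eq_sub, sub_zero] at h1 h2 h3
  rw [h1, h2, h3]
  rfl

theorem lin_inv (g : ℂ ≃ᵃⁱ[ℝ] ℂ) (v : ℂ) : (g⁻¹).linearIsometryEquiv v =
    g.linearIsometryEquiv.symm v := by
  have h := lin_mul g g⁻¹ v
  rw [mul_inv_cancel] at h
  have h1 : (1 : ℂ ≃ᵃⁱ[ℝ] ℂ).linearIsometryEquiv v = v := by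
    have h1 := (1 : ℂ ≃ᵃⁱ[ℝ] ℂ).map_vsub v 0
    simpa using h1
  rw [h1] at h
  rw [LinearIsometryEquiv.eq_symm_apply]
  exact h.symm

theorem map_add_smul (g : ℂ ≃ᵃⁱ[ℝ] ℂ) (p v : ℂ) (t : ℝ) :
    g (p + t • v) = g p + t • g.linearIsometryEquiv v := by
  have := g.map_vadd p (t • v)
  simp only [vadd_eq_add, map_smul] at this
  rw [add_comm p, this, add_comm]

/-- The data of the countably many straight mirrors of a table. -/
structure Flats (Ω : Set ℂ) where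
  𝓕 : Set (ℂ × ℝ)
  countable : 𝓕.Countable
  unit : ∀ f ∈ 𝓕, ‖f.1‖ = 1
  flat : ∀ q, FlatAt Ω q → ∃ f ∈ 𝓕, LocalDef Ω q (fun x => ⟪f.1, x⟫_ℝ - f.2)
  R : ℂ × ℝ → ℂ ≃ᵃⁱ[ℝ] ℂ
  fix : ∀ f ∈ 𝓕, ∀ x, ⟪f.1, x⟫_ℝ = f.2 → R f x = x
  lin : ∀ f ∈ 𝓕, ∀ v, (R f).linearIsometryEquiv v = rfl' f.1 v

theorem exists_Flats (Ω : Set ℂ) : Nonempty (Flats Ω) := by
  obtain ⟨𝓕, h1, h2, h3⟩ := exists_flats Ω
  have h4 : ∀ f ∈ 𝓕, ∃ R : ℂ ≃ᵃⁱ[ℝ] ℂ,
    (∀ x, ⟪f.1, x⟫_ℝ = f.2 → R x = x) ∧ ∀ v, R.linearIsometryEquiv v = rfl' f.1 v :=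
    fun f hf => exists_refl f (h2 f hf)
  choose! R hR1 hR2 using h4
  exact ⟨⟨𝓕, h1, h2, h3, R, hR1, hR2⟩⟩

/-- The isometries generated by the reflections in the straight mirrors. -/
def Flats.grp {Ω : Set ℂ} (D : Flats Ω) : Set (ℂ ≃ᵃⁱ[ℝ] ℂ) :=
  Set.range (fun L : List D.𝓕 => (L.map (fun f => D.R f.1)).prod)

theorem Flats.grp_countable {Ω : Set ℂ} (D : Flats Ω) : D.grp.Countable := by
  have : Countable D.𝓕 := D.countable.to_subtype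
  exact Set.countable_range _

theorem Flats.one_mem {Ω : Set ℂ} (D : Flats Ω) : (1 : ℂ ≃ᵃⁱ[ℝ] ℂ) ∈ D.grp := ⟨[], rfl⟩

theorem Flats.mul_mem {Ω : Set ℂ} (D : Flats Ω) {f : ℂ × ℝ} (hf : f ∈ D.𝓕) {g : ℂ ≃ᵃⁱ[ℝ] ℂ}
    (hg : g ∈ D.grp) : D.R f * g ∈ D.grp := by
  obtain ⟨L, rfl⟩ := hg
  exact ⟨⟨f, hf⟩ :: L, by simp⟩

/-- A step ending on a straight mirror. -/
theorem step_flat {Ω : Set ℂ} {q v q' v' n : ℂ} {c : ℝ} (h : Step Ω q v q' v')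
    (hn : LocalDef Ω q' (fun x => ⟪n, x⟫_ℝ - c)) :
    v' = rfl' n v ∧ ⟪n, q'⟫_ℝ = c ∧ ⟪v, n⟫_ℝ ≠ 0 ∧ ∃ t : ℝ, 0 < t ∧ q' = q + t • v := by
  obtain ⟨t, ht, hq, -, F, hF, h1, h2⟩ := h
  obtain ⟨l, hl, hl2⟩ := grad_parallel hF hn
  rw [gradient_affine] at hl2
  refine ⟨?_, ?_, ?_, t, ht, hq⟩
  · rw [hl2, rfl_smul _ hl]; exact h2
  · have := hn.zero
    linarith
  · rw [hl2, inner_smul_right]
    exact mul_ne_zero hl h1

/-- Unfolding a chain of bounces on straight mirrors. -/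
theorem chain {Ω : Set ℂ} (D : Flats Ω) (p u : ℕ → ℂ)
    (hs : ∀ k, Step Ω (p k) (u k) (p (k + 1)) (u (k + 1))) (l m : ℕ)
    (hf : ∀ r, l < r → r ≤ l + m → FlatAt Ω (p r)) :
    ∃ g ∈ D.grp, ∃ τ : ℝ, 0 ≤ τ ∧ p (l + m) = g (p l + τ • u l) ∧
      u (l + m) = g.linearIsometryEquiv (u l) := by
  induction m with
  | zero =>
    refine ⟨1, D.one_mem, 0, le_rfl, by simp, ?_⟩
    have h1 := (1 : ℂ ≃ᵃⁱ[ℝ] ℂ).map_vsub (u l) 0
    simpa using h1.symm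
  | succ m ih =>
    obtain ⟨g, hg, τ, hτ, h1, h2⟩ := ih (fun r hr1 hr2 => hf r hr1 (by omega))
    obtain ⟨f, hfF, hfd⟩ := D.flat _ (hf (l + (m + 1)) (by omega) le_rfl)
    obtain ⟨h3, h4, -, t, ht, h5⟩ := step_flat (hs (l + m)) hfd
    refine ⟨D.R f * g, D.mul_mem hfF hg, τ + t, by linarith, ?_, ?_⟩
    · have h6 : p (l + (m + 1)) = g (p l + (τ + t) • u l) := by
        have h7 : p (l + (m + 1)) = p (l + m) + t • u (l + m) := h5
        rw [h7, h1, h2, add_smul, ← add_assoc, map_add_smul g (p l + τ • u l)]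
      have h8 : (D.R f * g) (p l + (τ + t) • u l) = D.R f (g (p l + (τ + t) • u l)) := rfl
      rw [h8, ← h6]
      exact (D.fix f hfF _ h4).symm
    · rw [lin_mul, ← h2, D.lin f hfF]
      exact h3

/-- Unfolding a chain of bounces on straight mirrors up to the next bounce. -/
theorem chain_last {Ω : Set ℂ} (D : Flats Ω) (p u : ℕ → ℂ)
    (hs : ∀ k, Step Ω (p k) (u k) (p (k + 1)) (u (k + 1))) (l m : ℕ) (hlm : l < m)
    (hf : ∀ r, l < r → r < m → FlatAt Ω (p r)) :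
    ∃ g ∈ D.grp, ∃ a : ℝ, 0 < a ∧ p m = g (p l + a • u l) ∧
      ∃ F : ℂ → ℝ, LocalDef Ω (p m) F ∧ ⟪g.linearIsometryEquiv (u l), gradient F (p m)⟫_ℝ ≠ 0 ∧
        u m = rfl' (gradient F (p m)) (g.linearIsometryEquiv (u l)) := by
  obtain ⟨k, rfl⟩ : ∃ k, m = l + k + 1 := ⟨m - l - 1, by omega⟩
  obtain ⟨g, hg, τ, hτ, h1, h2⟩ := chain D p u hs l k (fun r hr1 hr2 => hf r hr1 (by omega))
  obtain ⟨t, ht, hq, -, F, hF, h3, h4⟩ := hs (l + k)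
  refine ⟨g, hg, τ + t, by linarith, ?_, F, hF, by rw [← h2]; exact h3, by rw [← h2]; exact h4⟩
  rw [hq, h1, h2, add_smul, ← add_assoc, map_add_smul g (p l + τ • u l)]

end Pool.Agent.H721R2.Ivrii
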