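import Mathlib

set_option autoImplicit false

open Set Filter Topology
open scoped ComplexConjugate InnerProductSpace

namespace Pool.Agent.H721R2.Ivrii

/-- A local logarithm. -/
theorem exists_lift {X : Type*} [NormedAddCommGroup X] [NormedSpace ℝ X] {n : WithTop ℕ∞}
    (f : X → ℂ) (x0 : X) (hf : ContDiffAt ℝ n f x0) (l0 : ℂ) (h0 : f x0 = Complex.exp l0) :
    ∃ l : X → ℂ, ContDiffAt ℝ n l x0 ∧ l x0 = l0 ∧ ∀ᶠ x in 𝓝 x0, Complex.exp (l x) = f x := by
  have e0 : f x0 * Complex.exp (-l0) = 1 := by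
    rw [h0, ← Complex.exp_add]; simp
  have hg : ContDiffAt ℝ n (fun x => f x * Complex.exp (-l0)) x0 := hf.mul contDiffAt_const
  have hlog : ContDiffAt ℝ n Complex.log ((fun x => f x * Complex.exp (-l0)) x0) := by
    have : (fun x => f x * Complex.exp (-l0)) x0 ∈ Complex.slitPlane := by
      simp only [e0]; exact Complex.one_mem_slitPlane
    exact (Complex.contDiffAt_log this).restrict_scalars ℝ
  refine ⟨fun x => Complex.log (f x * Complex.exp (-l0)) + l0, ?_, ?_, ?_⟩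
  · exact (hlog.comp x0 hg).add contDiffAt_const
  · simp only [e0, Complex.log_one, zero_add]
  · have hne : ∀ᶠ x in 𝓝 x0, f x * Complex.exp (-l0) ≠ 0 :=
      hg.continuousAt.eventually_ne (by simp only [e0]; exact one_ne_zero)
    filter_upwards [hne] with x hx
    rw [Complex.exp_add, Complex.exp_log hx, mul_assoc, ← Complex.exp_add]
    simp

/-- The reflection of `v` in the line orthogonal to `N`. -/
noncomputable def rfl' (N v : ℂ) : ℂ := v - (2 * ⟪v, N⟫_ℝ / ‖N‖ ^ 2) • N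

theorem inner_eq (z w : ℂ) : ⟪z, w⟫_ℝ = z.re * w.re + z.im * w.im := by
  rw [Complex.inner]
  simp only [Complex.mul_re, Complex.conj_re, Complex.conj_im]
  ring

theorem refl_formula (N v l : ℂ) (hN : N ≠ 0) (h : ⟪N, Complex.exp l⟫_ℝ = 0) :
    rfl' N v = Complex.exp (2 * (l.im * Complex.I)) * conj v := by
  -- write the direction of the tangent
  obtain ⟨u, hu⟩ : ∃ u : ℂ, u = Complex.exp (l.im * Complex.I) := ⟨_, rfl⟩
  have hu1 : u.re ^ 2 + u.im ^ 2 = 1 := by
    rw [hu, Complex.exp_ofReal_mul_I_re, Complex.exp_ofReal_mul_I_im]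
    exact Real.cos_sq_add_sin_sq _
  have hexp : Complex.exp l = Real.exp l.re * u := by
    rw [hu, Complex.ofReal_exp, ← Complex.exp_add]
    congr 1
    exact (Complex.re_add_im l).symm
  have horth : N.re * u.re + N.im * u.im = 0 := by
    rw [inner_eq, hexp, Complex.re_ofReal_mul, Complex.im_ofReal_mul] at h
    have : Real.exp l.re * (N.re * u.re + N.im * u.im) = 0 := by linarith
    rcases mul_eq_zero.1 this with h1 | h1
    · exact absurd h1 (Real.exp_pos _).ne'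
    · exact h1
  have hk : ∃ k : ℝ, N.re = -k * u.im ∧ N.im = k * u.re := by
    refine ⟨N.im * u.re - N.re * u.im, ?_, ?_⟩
    · linear_combination (-N.re) * hu1 + u.re * horth
    · linear_combination (-N.im) * hu1 + u.im * horth
  obtain ⟨k, hk1, hk2⟩ := hk
  have hk0 : k ≠ 0 := by
    rintro rfl
    apply hN
    apply Complex.ext <;> simp [hk1, hk2]
  have hnorm : ‖N‖ ^ 2 = k ^ 2 := by
    rw [← Complex.normSq_eq_norm_sq, Complex.normSq_apply, hk1, hk2]
    linear_combination k ^ 2 * hu1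
  have he2 : Complex.exp (2 * (l.im * Complex.I)) = u * u := by
    rw [hu, ← Complex.exp_add]; congr 1; ring
  rw [he2, rfl', hnorm, inner_eq, hk1, hk2]
  have hk2' : k ^ 2 ≠ 0 := pow_ne_zero 2 hk0
  apply Complex.ext
  · simp only [Complex.sub_re, Complex.real_smul, Complex.mul_re, Complex.ofReal_re,
      Complex.ofReal_im, Complex.conj_re, Complex.conj_im, Complex.mul_im, hk1, hk2]
    field_simp
    linear_combination (-v.re) * hu1
  · simp only [Complex.sub_im, Complex.real_smul, Complex.mul_re, Complex.ofReal_re,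
      Complex.ofReal_im, Complex.conj_re, Complex.conj_im, Complex.mul_im, hk1, hk2]
    field_simp
    linear_combination (-v.im) * hu1

/-- Multiplication by a nonzero complex number as a real linear equivalence. -/
noncomputable def mulEquiv (c : ℂ) (hc : c ≠ 0) : ℂ ≃L[ℝ] ℂ :=
  ContinuousLinearEquiv.equivOfInverse (ContinuousLinearMap.mul ℝ ℂ c)
    (ContinuousLinearMap.mul ℝ ℂ c⁻¹)
    (fun x => by simp [hc]) (fun x => by simp [hc])

theorem gradient_contAt {F : ℂ → ℝ} {q : ℂ} (hF : ContDiffAt ℝ 3 F q) :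
    ContinuousAt (gradient F) q := by
  have h1 : ContinuousAt (fderiv ℝ F) q := (hF.fderiv_right (m := 2) (by norm_num)).continuousAt
  exact (InnerProductSpace.toDual ℝ ℂ).symm.continuous.continuousAt.comp h1

theorem hasFDerivAt_grad {F : ℂ → ℝ} {q : ℂ} (hF : DifferentiableAt ℝ F q) :
    HasFDerivAt F (innerSL ℝ (gradient F q)) q :=
  hF.hasGradientAt.hasFDerivAt

/-- A regular parametrisation of the zero set of a defining function. -/
theorem exists_param (F : ℂ → ℝ) (q : ℂ) (hF : ContDiffAt ℝ 3 F q) (h0 : F q = 0)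
    (hg : gradient F q ≠ 0) :
    ∃ (γ : ℝ → ℂ) (L : ℝ → ℂ) (σ : ℂ → ℝ),
      γ 0 = q ∧ σ q = 0 ∧ ContinuousAt σ q ∧ ContDiffAt ℝ 3 γ 0 ∧ ContDiffAt ℝ 2 L 0 ∧
      (∀ᶠ s in 𝓝 (0 : ℝ), HasDerivAt γ (Complex.exp (L s)) s) ∧
      (∀ᶠ s in 𝓝 (0 : ℝ), ⟪gradient F (γ s), Complex.exp (L s)⟫_ℝ = 0 ∧
        gradient F (γ s) ≠ 0) ∧
      (∀ᶠ x in 𝓝 q, F x = 0 → γ (σ x) = x) ∧ (∀ᶠ s in 𝓝 (0 : ℝ), F (γ s) = 0) := by
  obtain ⟨N, hN⟩ : ∃ N, N = gradient F q := ⟨_, rfl⟩
  have hN0 : N ≠ 0 := by rw [hN]; exact hg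
  have hc0 : conj N ≠ 0 := by simpa using hN0
  -- the second coordinate
  obtain ⟨σ, hσ⟩ : ∃ σ : ℂ → ℝ, σ = fun x => innerSL ℝ (Complex.I * N) x -
    innerSL ℝ (Complex.I * N) q := ⟨_, rfl⟩
  have hσq : σ q = 0 := by rw [hσ]; simp
  have hσd : ∀ x, HasFDerivAt σ (innerSL ℝ (Complex.I * N)) x := by
    intro x
    rw [hσ]
    exact (innerSL ℝ (Complex.I * N)).hasFDerivAt.sub_const _
  have hσs : ContDiff ℝ 3 σ := by
    rw [hσ]
    exact (innerSL ℝ (Complex.I * N)).contDiff.sub contDiff_const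
  obtain ⟨Φ, hΦ⟩ : ∃ Φ : ℂ → ℂ, Φ = fun x => (F x : ℂ) + (σ x : ℂ) * Complex.I := ⟨_, rfl⟩
  have hΦs : ContDiffAt ℝ 3 Φ q := by
    rw [hΦ]
    exact (Complex.ofRealCLM.contDiff.contDiffAt.comp q hF).add
      ((Complex.ofRealCLM.contDiff.contDiffAt.comp q hσs.contDiffAt).mul contDiffAt_const)
  have hΦd : HasFDerivAt Φ (mulEquiv (conj N) hc0 : ℂ →L[ℝ] ℂ) q := by
    have h1 : HasFDerivAt F (innerSL ℝ N) q := by
      rw [hN]; exact hasFDerivAt_grad (hF.differentiableAt (by norm_num))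
    have h2 := (Complex.ofRealCLM.hasFDerivAt.comp q h1).add
      ((Complex.ofRealCLM.hasFDerivAt.comp q (hσd q)).mul_const Complex.I)
    rw [hΦ]
    refine HasFDerivAt.congr_fderiv h2 ?_
    ext x
    change ((⟪N, x⟫_ℝ : ℝ) : ℂ) + Complex.I * ((⟪Complex.I * N, x⟫_ℝ : ℝ) : ℂ) = conj N * x
    rw [inner_eq, inner_eq]
    apply Complex.ext
    · simp [Complex.mul_re, Complex.mul_im]
    · simp [Complex.mul_re, Complex.mul_im]
      ring
  have hΦq : Φ q = 0 := by rw [hΦ]; simp [h0, hσq]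
  have hstr := hΦs.hasStrictFDerivAt' hΦd (by norm_num)
  obtain ⟨g, hg⟩ : ∃ g, g = hΦs.localInverse hΦd (by norm_num) := ⟨_, rfl⟩
  have hgs : ContDiffAt ℝ 3 g 0 := by
    have := hΦs.to_localInverse hΦd (by norm_num)
    rw [hΦq] at this
    rw [hg]; exact this
  have hg0 : g 0 = q := by
    have := hΦs.localInverse_apply_image hΦd (by norm_num)
    rw [hΦq] at this
    rw [hg]; exact this
  have hgl : ∀ᶠ x in 𝓝 q, g (Φ x) = x := by
    rw [hg]; exact hstr.eventually_left_inverse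
  have hgr : ∀ᶠ y in 𝓝 (0 : ℂ), Φ (g y) = y := by
    have := hstr.eventually_right_inverse
    rw [hΦq] at this
    rw [hg]; exact this
  have hlin : Tendsto (fun s : ℝ => (s : ℂ) * Complex.I) (𝓝 0) (𝓝 0) := by
    have : Continuous (fun s : ℝ => (s : ℂ) * Complex.I) := by fun_prop
    have h := this.tendsto 0
    simpa using h
  obtain ⟨γ, hγ⟩ : ∃ γ : ℝ → ℂ, γ = fun s : ℝ => g ((s : ℂ) * Complex.I) := ⟨_, rfl⟩
  have hγ0 : γ 0 = q := by rw [hγ]; simp [hg0]
  have hγs : ContDiffAt ℝ 3 γ 0 := by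
    rw [hγ]
    have h1 : ContDiffAt ℝ 3 (fun s : ℝ => (s : ℂ) * Complex.I) 0 :=
      (Complex.ofRealCLM.contDiff.mul contDiff_const).contDiffAt
    have h2 : ContDiffAt ℝ 3 g ((fun s : ℝ => (s : ℂ) * Complex.I) 0) := by simpa using hgs
    exact h2.comp 0 h1
  have hγc : Tendsto γ (𝓝 0) (𝓝 q) := by
    have := hγs.continuousAt.tendsto
    rwa [hγ0] at this
  have hrel : ∀ᶠ s in 𝓝 (0 : ℝ), F (γ s) = 0 ∧ σ (γ s) = s := by
    filter_upwards [hlin.eventually hgr] with s hs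
    have h1 : (F (γ s) : ℂ) + (σ (γ s) : ℂ) * Complex.I = (s : ℂ) * Complex.I := by
      rw [hγ]
      rw [hΦ] at hs
      exact hs
    constructor
    · have := congrArg Complex.re h1
      simpa using this
    · have := congrArg Complex.im h1
      simpa using this
  have hdiff : ∀ᶠ s in 𝓝 (0 : ℝ), ContDiffAt ℝ 3 γ s := hγs.eventually (by simp)
  have hFdiff : ∀ᶠ s in 𝓝 (0 : ℝ), ContDiffAt ℝ 3 F (γ s) :=
    hγc.eventually (hF.eventually (by simp))
  have hder : ∀ᶠ s in 𝓝 (0 : ℝ), HasDerivAt γ (deriv γ s) s ∧ deriv γ s ≠ 0 ∧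
      ⟪gradient F (γ s), deriv γ s⟫_ℝ = 0 := by
    filter_upwards [hdiff, hFdiff, eventually_eventually_nhds.2 hrel] with s h1 h2 h3
    have h4 : HasDerivAt γ (deriv γ s) s := (h1.differentiableAt (by norm_num)).hasDerivAt
    have h5 : HasDerivAt (fun t => σ (γ t)) (innerSL ℝ (Complex.I * N) (deriv γ s)) s :=
      (hσd (γ s)).comp_hasDerivAt s h4
    have h6 : HasDerivAt (fun t => σ (γ t)) 1 s :=
      (hasDerivAt_id s).congr_of_eventuallyEq (h3.mono fun t ht => ht.2)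
    have h7 : HasDerivAt (fun t => F (γ t)) (innerSL ℝ (gradient F (γ s)) (deriv γ s)) s :=
      (hasFDerivAt_grad (h2.differentiableAt (by norm_num))).comp_hasDerivAt s h4
    have h8 : HasDerivAt (fun t => F (γ t)) 0 s :=
      (hasDerivAt_const s (0 : ℝ)).congr_of_eventuallyEq (h3.mono fun t ht => ht.1)
    refine ⟨h4, ?_, ?_⟩
    · intro h0
      have := h5.unique h6
      rw [h0] at this
      simp at this
    · exact h7.unique h8
  have hds : ContDiffAt ℝ 2 (deriv γ) 0 := by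
    have h1 : ContDiffAt ℝ 2 (fderiv ℝ γ) 0 := hγs.fderiv_right (m := 2) (by norm_num)
    have h2 : ContDiffAt ℝ 2 (fun s => fderiv ℝ γ s 1) 0 := h1.clm_apply contDiffAt_const
    exact h2.congr_of_eventuallyEq (Eventually.of_forall fun s => by simp)
  have hd0 : deriv γ 0 ≠ 0 := hder.self_of_nhds.2.1
  obtain ⟨L, hL1, -, hL3⟩ := exists_lift (deriv γ) 0 hds (Complex.log (deriv γ 0))
    (Complex.exp_log hd0).symm
  refine ⟨γ, L, σ, hγ0, hσq, (hσd q).continuousAt, hγs, hL1, ?_, ?_, ?_,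
    hrel.mono fun s hs => hs.1⟩
  · filter_upwards [hL3, hder] with s h1 h2
    rw [h1]; exact h2.1
  · have hne : ∀ᶠ s in 𝓝 (0 : ℝ), gradient F (γ s) ≠ 0 := by
      refine hγc.eventually ((gradient_contAt hF).eventually_ne ?_)
      rw [← hN]; exact hN0
    filter_upwards [hL3, hder, hne] with s h1 h2 h3
    rw [h1]; exact ⟨h2.2.2, h3⟩
  · filter_upwards [hgl] with x hx hFx
    rw [hγ]
    rw [hΦ] at hx
    simpa [hFx] using hx

end Pool.Agent.H721R2.Ivrii
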