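import Pool.Agent.H721R2.Ivrii.Core

set_option autoImplicit false

open MeasureTheory Set Filter Topology

namespace Pool.Agent.H721R2.Ivrii

/-- The first order information on a set of closed trajectories with three curved mirrors: the
total lengths `a, b, c` between the curved mirrors, the angles `θ1, θ2, θ3` (with signs), and two
directions in which all derivatives are known. -/
structure Lev where
  E : Set (ℝ × ℝ)
  hE : MeasurableSet E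
  η : ℝ
  hη : η = 1 ∨ η = -1
  a : ℝ × ℝ → ℝ
  b : ℝ × ℝ → ℝ
  c : ℝ × ℝ → ℝ
  θ1 : ℝ × ℝ → ℝ
  θ2 : ℝ × ℝ → ℝ
  θ3 : ℝ × ℝ → ℝ
  ρ : ℝ × ℝ → ℝ
  κ : ℝ × ℝ → ℝ
  da : ∀ x ∈ E, DifferentiableAt ℝ a x
  db : ∀ x ∈ E, DifferentiableAt ℝ b x
  dc : ∀ x ∈ E, DifferentiableAt ℝ c x
  dθ1 : ∀ x ∈ E, DifferentiableAt ℝ θ1 x
  dθ2 : ∀ x ∈ E, DifferentiableAt ℝ θ2 x
  dθ3 : ∀ x ∈ E, DifferentiableAt ℝ θ3 x
  dρ : ∀ x ∈ E, DifferentiableAt ℝ ρ x
  dκ : ∀ x ∈ E, DifferentiableAt ℝ κ x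
  pa : ∀ x ∈ E, 0 < a x
  pb : ∀ x ∈ E, 0 < b x
  pc : ∀ x ∈ E, 0 < c x
  s1 : ∀ x ∈ E, Real.sin (θ1 x) ≠ 0
  s2 : ∀ x ∈ E, Real.sin (θ2 x) ≠ 0
  s3 : ∀ x ∈ E, Real.sin (θ3 x) ≠ 0
  nρ : ∀ x ∈ E, ρ x ≠ 0
  f2 : ∀ x ∈ E, 2 * κ x * (a x * c x) = ρ x * Real.sin (θ1 x) * (a x + c x - η * b x)
  X1 : ∀ x ∈ E, ∃ v : ℝ × ℝ,
    HasDerivAt (fun t : ℝ => ρ (x + t • v)) 0 0 ∧
    HasDerivAt (fun t : ℝ => κ (x + t • v)) 0 0 ∧
    HasDerivAt (fun t : ℝ => a (x + t • v)) (a x * (Real.cos (θ2 x) / Real.sin (θ2 x))) 0 ∧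
    HasDerivAt (fun t : ℝ => b (x + t • v))
      (-(a x * (Real.cos (θ2 x) / Real.sin (θ2 x))) -
        η * c x * (Real.cos (θ3 x) / Real.sin (θ3 x))) 0 ∧
    HasDerivAt (fun t : ℝ => c (x + t • v)) (η * c x * (Real.cos (θ3 x) / Real.sin (θ3 x))) 0 ∧
    HasDerivAt (fun t : ℝ => θ1 (x + t • v)) 1 0 ∧
    HasDerivAt (fun t : ℝ => θ2 (x + t • v)) ((a x - b x - η * c x) / (2 * b x)) 0 ∧
    HasDerivAt (fun t : ℝ => θ3 (x + t • v)) (η * (c x - b x - η * a x) / (2 * b x)) 0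
  X2 : ∀ x ∈ E, ∃ v : ℝ × ℝ,
    HasDerivAt (fun t : ℝ => a (x + t • v)) (a x * (Real.cos (θ1 x) / Real.sin (θ1 x))) 0 ∧
    HasDerivAt (fun t : ℝ => b (x + t • v)) (b x * (Real.cos (θ3 x) / Real.sin (θ3 x))) 0 ∧
    HasDerivAt (fun t : ℝ => c (x + t • v))
      (-(a x * (Real.cos (θ1 x) / Real.sin (θ1 x))) -
        b x * (Real.cos (θ3 x) / Real.sin (θ3 x))) 0 ∧
    HasDerivAt (fun t : ℝ => θ1 (x + t • v)) ((a x - c x - η * b x) / (2 * c x)) 0 ∧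
    HasDerivAt (fun t : ℝ => θ2 (x + t • v)) 1 0 ∧
    HasDerivAt (fun t : ℝ => θ3 (x + t • v)) ((b x - c x - η * a x) / (2 * c x)) 0

namespace Lev

variable (D : Lev)

/-- The cotangents. -/
noncomputable def T1 (x : ℝ × ℝ) : ℝ := Real.cos (D.θ1 x) / Real.sin (D.θ1 x)
noncomputable def T2 (x : ℝ × ℝ) : ℝ := Real.cos (D.θ2 x) / Real.sin (D.θ2 x)
noncomputable def T3 (x : ℝ × ℝ) : ℝ := Real.cos (D.θ3 x) / Real.sin (D.θ3 x)

/-- The derivatives of the sides and of the cotangents along `v` at `x`. -/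
structure Der (x v : ℝ × ℝ) (a' b' c' x' y' z' : ℝ) : Prop where
  ha : HasDerivAt (fun t : ℝ => D.a (x + t • v)) a' 0
  hb : HasDerivAt (fun t : ℝ => D.b (x + t • v)) b' 0
  hc : HasDerivAt (fun t : ℝ => D.c (x + t • v)) c' 0
  hx : HasDerivAt (fun t : ℝ => D.T1 (x + t • v)) x' 0
  hy : HasDerivAt (fun t : ℝ => D.T2 (x + t • v)) y' 0
  hz : HasDerivAt (fun t : ℝ => D.T3 (x + t • v)) z' 0

theorem hηη : D.η * D.η = 1 := by rcases D.hη with h | h <;> rw [h] <;> norm_num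

theorem dT1 (x : ℝ × ℝ) (hx : x ∈ D.E) : DifferentiableAt ℝ D.T1 x := by
  have := (D.dθ1 x hx).cos.mul ((D.dθ1 x hx).sin.inv (D.s1 x hx))
  exact this.congr_of_eventuallyEq (Eventually.of_forall fun y => by
    simp [T1, div_eq_mul_inv])

theorem dT2 (x : ℝ × ℝ) (hx : x ∈ D.E) : DifferentiableAt ℝ D.T2 x := by
  have := (D.dθ2 x hx).cos.mul ((D.dθ2 x hx).sin.inv (D.s2 x hx))
  exact this.congr_of_eventuallyEq (Eventually.of_forall fun y => by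
    simp [T2, div_eq_mul_inv])

theorem dT3 (x : ℝ × ℝ) (hx : x ∈ D.E) : DifferentiableAt ℝ D.T3 x := by
  have := (D.dθ3 x hx).cos.mul ((D.dθ3 x hx).sin.inv (D.s3 x hx))
  exact this.congr_of_eventuallyEq (Eventually.of_forall fun y => by
    simp [T3, div_eq_mul_inv])

theorem T1_deriv {x : ℝ × ℝ} (hx : x ∈ D.E) {v : ℝ × ℝ} {d : ℝ}
    (h : HasDerivAt (fun t : ℝ => D.θ1 (x + t • v)) d 0) :
    HasDerivAt (fun t : ℝ => D.T1 (x + t • v)) (-(1 + D.T1 x ^ 2) * d) 0 := by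
  have := Cfg.cot_deriv h (by simpa using D.s1 x hx)
  simpa [T1] using this

theorem T2_deriv {x : ℝ × ℝ} (hx : x ∈ D.E) {v : ℝ × ℝ} {d : ℝ}
    (h : HasDerivAt (fun t : ℝ => D.θ2 (x + t • v)) d 0) :
    HasDerivAt (fun t : ℝ => D.T2 (x + t • v)) (-(1 + D.T2 x ^ 2) * d) 0 := by
  have := Cfg.cot_deriv h (by simpa using D.s2 x hx)
  simpa [T2] using this

theorem T3_deriv {x : ℝ × ℝ} (hx : x ∈ D.E) {v : ℝ × ℝ} {d : ℝ}
    (h : HasDerivAt (fun t : ℝ => D.θ3 (x + t • v)) d 0) :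
    HasDerivAt (fun t : ℝ => D.T3 (x + t • v)) (-(1 + D.T3 x ^ 2) * d) 0 := by
  have := Cfg.cot_deriv h (by simpa using D.s3 x hx)
  simpa [T3] using this

/-- The two directions. -/
def Dirs (x : ℝ × ℝ) : Prop :=
    (∃ v : ℝ × ℝ, D.Der x v (D.a x * D.T2 x)
      (-(D.a x * D.T2 x) - D.η * D.c x * D.T3 x)
      (D.η * D.c x * D.T3 x)
      (-(1 + D.T1 x ^ 2))
      (-(1 + D.T2 x ^ 2) * ((D.a x - D.b x - D.η * D.c x) / (2 * D.b x)))
      (-(1 + D.T3 x ^ 2) * (D.η * (D.c x - D.b x - D.η * D.a x) / (2 * D.b x)))) ∧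
    (∃ v : ℝ × ℝ, D.Der x v (D.a x * D.T1 x)
      (D.b x * D.T3 x)
      (-(D.a x * D.T1 x) - D.b x * D.T3 x)
      (-(1 + D.T1 x ^ 2) * ((D.a x - D.c x - D.η * D.b x) / (2 * D.c x)))
      (-(1 + D.T2 x ^ 2))
      (-(1 + D.T3 x ^ 2) * ((D.b x - D.c x - D.η * D.a x) / (2 * D.c x))))

theorem dirs (x : ℝ × ℝ) (hx : x ∈ D.E) : D.Dirs x := by
  constructor
  · obtain ⟨v, -, -, h1, h2, h3, h4, h5, h6⟩ := D.X1 x hx
    exact ⟨v, h1, h2, h3, (D.T1_deriv hx h4).congr_deriv (by ring), D.T2_deriv hx h5,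
      D.T3_deriv hx h6⟩
  · obtain ⟨v, h1, h2, h3, h4, h5, h6⟩ := D.X2 x hx
    exact ⟨v, h1, h2, h3, D.T1_deriv hx h4, (D.T2_deriv hx h5).congr_deriv (by ring),
      D.T3_deriv hx h6⟩

theorem exists_E2 : ∃ E' ⊆ D.E, MeasurableSet E' ∧ volume (D.E \ E') = 0 ∧ ∀ x ∈ E',
    D.Dirs x ∧
    D.T1 x * (D.a x + D.c x - D.η * D.b x) + D.T2 x * (D.η * (D.a x + D.b x) - D.c x)
      + D.T3 x * (D.b x + D.c x - D.η * D.a x) = 0 := by
  obtain ⟨E2, hs2, hm2, hp2, hv2⟩ := step D.E D.hE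
    (fun x => 2 * D.κ x * (D.a x * D.c x) -
      D.ρ x * Real.sin (D.θ1 x) * (D.a x + D.c x - D.η * D.b x))
    (fun x hx => ((D.dκ x hx).const_mul 2 |>.mul ((D.da x hx).mul (D.dc x hx))).sub
        (((D.dρ x hx).mul (D.dθ1 x hx).sin).mul
          (((D.da x hx).add (D.dc x hx)).sub ((D.db x hx).const_mul D.η))))
    (fun x hx => by
      have := D.f2 x hx
      linarith)
  refine ⟨E2, hs2, hm2, hv2, fun x hx => ⟨D.dirs x (hs2 hx), ?_⟩⟩
  have hxE := hs2 hx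
  obtain ⟨v, hρ, hκ, ha, hb, hc, hθ, -, -⟩ := D.X1 x hxE
  have hf := D.f2 x hxE
  have hs1 : Real.sin (D.θ1 x) ≠ 0 := D.s1 x hxE
  have hr1 := D.nρ x hxE
  have ht1 : D.T1 x * Real.sin (D.θ1 x) = Real.cos (D.θ1 x) := div_mul_cancel₀ _ hs1
  have hsin := hθ.sin
  have hη := D.hηη
  have := hp2 x hx v _ (((hκ.const_mul 2).mul (ha.mul hc)).sub
    ((hρ.mul hsin).mul ((ha.add hc).sub (hb.const_mul D.η))))
  simp only [zero_smul, add_zero, mul_zero, zero_mul, zero_add, Pi.mul_apply, Pi.add_apply,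
    Pi.sub_apply] at this
  have e2 : Real.cos (D.θ2 x) / Real.sin (D.θ2 x) = D.T2 x := rfl
  have e3 : Real.cos (D.θ3 x) / Real.sin (D.θ3 x) = D.T3 x := rfl
  rw [e2, e3] at this
  have h2 : D.ρ x * Real.sin (D.θ1 x) * (D.T1 x * (D.a x + D.c x - D.η * D.b x)
      + D.T2 x * (D.η * (D.a x + D.b x) - D.c x)
      + D.T3 x * (D.b x + D.c x - D.η * D.a x)) = 0 := by
    linear_combination -this + (D.T2 x + D.η * D.T3 x) * hf +
      (D.ρ x * (D.a x + D.c x - D.η * D.b x)) * ht1 -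
      (D.ρ x * Real.sin (D.θ1 x) * D.T3 x * (D.b x + D.c x)) * hη
  rcases mul_eq_zero.1 h2 with h | h
  · exact absurd h (mul_ne_zero hr1 hs1)
  · exact h

/-- Passing to a smaller set of full measure on which a relation can be differentiated. -/
theorem advance {P : ℝ × ℝ → Prop} (f : ℝ × ℝ → ℝ)
    (h : ∃ E' ⊆ D.E, MeasurableSet E' ∧ volume (D.E \ E') = 0 ∧ ∀ x ∈ E', P x)
    (hd : ∀ x ∈ D.E, DifferentiableAt ℝ f x) (hf : ∀ x ∈ D.E, P x → f x = 0) :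
    ∃ E' ⊆ D.E, MeasurableSet E' ∧ volume (D.E \ E') = 0 ∧ ∀ x ∈ E', P x ∧
      ∀ (v : ℝ × ℝ) (d : ℝ), HasDerivAt (fun t : ℝ => f (x + t • v)) d 0 → d = 0 := by
  obtain ⟨E1, hs, hm, hv, hp⟩ := h
  obtain ⟨E2, hs2, hm2, hp2, hv2⟩ := step E1 hm f (fun x hx => hd x (hs hx))
    (fun x hx => hf x (hs hx) (hp x hx))
  refine ⟨E2, hs2.trans hs, hm2, ?_, fun x hx => ⟨hp x (hs2 hx), hp2 x hx⟩⟩
  refine measure_mono_null (t := (D.E \ E1) ∪ (E1 \ E2)) ?_ (measure_union_null hv hv2)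
  intro x hx
  by_cases h : x ∈ E1
  · exact Or.inr ⟨h, hx.2⟩
  · exact Or.inl ⟨hx.1, h⟩

/-- The same, when the relation only holds on a part of the set. -/
theorem advance' {P : ℝ × ℝ → Prop} (f : ℝ × ℝ → ℝ)
    (h : ∃ E' ⊆ D.E, MeasurableSet E' ∧ volume (D.E \ E') = 0 ∧ ∀ x ∈ E', P x)
    (hd : ∀ x ∈ D.E, DifferentiableAt ℝ f x) :
    ∃ E' ⊆ D.E, MeasurableSet E' ∧ volume (D.E \ E') = 0 ∧ ∀ x ∈ E', P x ∧ (f x = 0 →
      ∀ (v : ℝ × ℝ) (d : ℝ), HasDerivAt (fun t : ℝ => f (x + t • v)) d 0 → d = 0) := by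
  obtain ⟨E1, hs, hm, hv, hp⟩ := h
  have hZ : MeasurableSet (E1 ∩ {x | f x = 0}) := by
    have hc : ContinuousOn f E1 := fun x hx => (hd x (hs hx)).continuousAt.continuousWithinAt
    obtain ⟨u, hu, hu2⟩ := continuousOn_iff'.1 hc {0}ᶜ isOpen_compl_singleton
    have : E1 ∩ {x | f x = 0} = E1 \ u := by
      ext x
      have h3 : x ∈ f ⁻¹' {0}ᶜ ∩ E1 ↔ x ∈ u ∩ E1 := by rw [hu2]
      simp only [mem_inter_iff, mem_preimage, mem_compl_iff, mem_singleton_iff] at h3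
      constructor
      · rintro ⟨h1, h2⟩
        exact ⟨h1, fun h4 => (h3.2 ⟨h4, h1⟩).1 h2⟩
      · rintro ⟨h1, h2⟩
        refine ⟨h1, ?_⟩
        by_contra h4
        exact h2 (h3.1 ⟨h4, h1⟩).1
    rw [this]
    exact hm.diff hu.measurableSet
  obtain ⟨Z, hs2, hm2, hp2, hv2⟩ := step (E1 ∩ {x | f x = 0}) hZ f (fun x hx => hd x (hs hx.1))
    (fun x hx => hx.2)
  refine ⟨E1 \ ((E1 ∩ {x | f x = 0}) \ Z), fun x hx => hs hx.1, hm.diff (hZ.diff hm2), ?_,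
    fun x hx => ⟨hp x hx.1, fun h0 => ?_⟩⟩
  · refine measure_mono_null (t := (D.E \ E1) ∪ ((E1 ∩ {x | f x = 0}) \ Z)) ?_
      (measure_union_null hv hv2)
    intro x hx
    by_cases h : x ∈ E1
    · by_cases h' : x ∈ (E1 ∩ {x | f x = 0}) \ Z
      · exact Or.inr h'
      · exact absurd ⟨h, h'⟩ hx.2
    · exact Or.inl ⟨hx.1, h⟩
  · have : x ∈ Z := by
      by_contra hZ
      exact hx.2 ⟨⟨hx.1, h0⟩, hZ⟩
    exact hp2 x this

/-- The orientation preserving case. -/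
theorem null_pos (hη : D.η = 1) : volume D.E = 0 := by
  have l3 := D.advance (fun x => D.T1 x * (D.a x + D.c x - D.b x) +
      D.T2 x * (D.a x + D.b x - D.c x) + D.T3 x * (D.b x + D.c x - D.a x)) D.exists_E2
    (fun x hx => (((D.dT1 x hx).mul (((D.da x hx).add (D.dc x hx)).sub (D.db x hx))).add
      ((D.dT2 x hx).mul (((D.da x hx).add (D.db x hx)).sub (D.dc x hx)))).add
      ((D.dT3 x hx).mul (((D.db x hx).add (D.dc x hx)).sub (D.da x hx))))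
    (fun x hx h => by have := h.2; rw [hη] at this; linarith)
  have star3 : ∀ x ∈ D.E, (D.Dirs x ∧
    D.T1 x * (D.a x + D.c x - D.η * D.b x) + D.T2 x * (D.η * (D.a x + D.b x) - D.c x)
      + D.T3 x * (D.b x + D.c x - D.η * D.a x) = 0) ∧
    (∀ (v : ℝ × ℝ) (d : ℝ), HasDerivAt (fun t : ℝ => D.T1 (x + t • v) *
      (D.a (x + t • v) + D.c (x + t • v) - D.b (x + t • v)) +
      D.T2 (x + t • v) * (D.a (x + t • v) + D.b (x + t • v) - D.c (x + t • v)) +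
      D.T3 (x + t • v) * (D.b (x + t • v) + D.c (x + t • v) - D.a (x + t • v))) d 0 → d = 0) →
    0 < (D.a x + D.b x - D.c x) + (D.b x + D.c x - D.a x) ∧
    0 < (D.b x + D.c x - D.a x) + (D.a x + D.c x - D.b x) ∧
    0 < (D.a x + D.c x - D.b x) + (D.a x + D.b x - D.c x) ∧
    ((D.a x + D.c x - D.b x) * D.T1 x + (D.a x + D.b x - D.c x) * D.T2 x +
      (D.b x + D.c x - D.a x) * D.T3 x = 0) ∧
    (∀ α β γ x' y z : ℝ, α = D.a x + D.c x - D.b x → β = D.a x + D.b x - D.c x →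
      γ = D.b x + D.c x - D.a x → x' = D.T1 x → y = D.T2 x → z = D.T3 x →
    (((α + β) * y + (γ + α) * z) * x' - (γ + α) * z * y - (α + β) * y * z
      - α * (1 + x' ^ 2) + β * ((1 + y ^ 2) * γ / (β + γ)) + γ * ((1 + z ^ 2) * β / (β + γ)) = 0) ∧
    (-(β + γ) * z * x' + ((α + β) * x' + (β + γ) * z) * y - (α + β) * x' * z
      + α * ((1 + x' ^ 2) * γ / (γ + α)) - β * (1 + y ^ 2) +
        γ * ((1 + z ^ 2) * α / (γ + α)) = 0)) := by
    rintro x hx ⟨⟨⟨⟨v, hd⟩, ⟨w, hd'⟩⟩, hG⟩, hp⟩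
    have pa := D.pa x hx
    have pb := D.pb x hx
    have pc := D.pc x hx
    rw [hη] at hG hd hd'
    refine ⟨by linarith, by linarith, by linarith, by linarith, ?_⟩
    rintro α β γ x' y z rfl rfl rfl rfl rfl rfl
    have e1 : (D.a x + D.b x - D.c x) + (D.b x + D.c x - D.a x) = 2 * D.b x := by ring
    have e2 : (D.b x + D.c x - D.a x) + (D.a x + D.c x - D.b x) = 2 * D.c x := by ring
    rw [e1, e2]
    have h1 := hp v _ (((hd.hx.mul ((hd.ha.add hd.hc).sub hd.hb)).add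
      (hd.hy.mul ((hd.ha.add hd.hb).sub hd.hc))).add (hd.hz.mul ((hd.hb.add hd.hc).sub hd.ha)))
    have h2 := hp w _ (((hd'.hx.mul ((hd'.ha.add hd'.hc).sub hd'.hb)).add
      (hd'.hy.mul ((hd'.ha.add hd'.hb).sub hd'.hc))).add
      (hd'.hz.mul ((hd'.hb.add hd'.hc).sub hd'.ha)))
    simp only [zero_smul, add_zero, Pi.mul_apply, Pi.add_apply, Pi.sub_apply] at h1 h2
    constructor
    · rw [← h1]; field_simp; ring
    · rw [← h2]; field_simp; ring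
  have l4 := D.advance (fun x => (1 + D.T2 x * D.T3 x) * (3 * D.a x + D.b x + D.c x) -
      (1 + D.T1 x * D.T2 x) * (D.a x + 3 * D.b x + D.c x)) l3
    (fun x hx => (((D.dT2 x hx).mul (D.dT3 x hx)).const_add 1 |>.mul
        ((((D.da x hx).const_mul 3).add (D.db x hx)).add (D.dc x hx))).sub
      (((D.dT1 x hx).mul (D.dT2 x hx)).const_add 1 |>.mul
        (((D.da x hx).add ((D.db x hx).const_mul 3)).add (D.dc x hx))))
    (fun x hx h => by
      obtain ⟨q1, q2, q3, q4, q5⟩ := star3 x hx h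
      obtain ⟨q6, q7⟩ := q5 _ _ _ _ _ _ rfl rfl rfl rfl rfl rfl
      obtain ⟨L, w1, w2, w3⟩ := star _ _ _ _ _ _ q1 q2 q3 q4 q6 q7
      rw [w1, w2]
      ring)
  have l5 := D.advance (fun x => (1 + D.T3 x * D.T1 x) * (3 * D.a x + D.b x + D.c x) -
      (1 + D.T1 x * D.T2 x) * (D.a x + D.b x + 3 * D.c x)) l4
    (fun x hx => (((D.dT3 x hx).mul (D.dT1 x hx)).const_add 1 |>.mul
        ((((D.da x hx).const_mul 3).add (D.db x hx)).add (D.dc x hx))).sub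
      (((D.dT1 x hx).mul (D.dT2 x hx)).const_add 1 |>.mul
        (((D.da x hx).add (D.db x hx)).add ((D.dc x hx).const_mul 3))))
    (fun x hx h => by
      obtain ⟨q1, q2, q3, q4, q5⟩ := star3 x hx h.1
      obtain ⟨q6, q7⟩ := q5 _ _ _ _ _ _ rfl rfl rfl rfl rfl rfl
      obtain ⟨L, w1, w2, w3⟩ := star _ _ _ _ _ _ q1 q2 q3 q4 q6 q7
      rw [w1, w3]
      ring)
  have l6 := D.advance' D.T1 l5 D.dT1
  obtain ⟨E', hs, hm, hv, hp⟩ := l6
  have hE' : E' = ∅ := by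
    rw [Set.eq_empty_iff_forall_notMem]
    intro x hx
    obtain ⟨⟨⟨h3, h4⟩, h5⟩, h6⟩ := hp x hx
    have hxU := (hs hx)
    have pa := D.pa x hxU
    have pb := D.pb x hxU
    have pc := D.pc x hxU
    obtain ⟨q1, q2, q3, q4, q5⟩ := star3 x hxU h3
    obtain ⟨q6, q7⟩ := q5 _ _ _ _ _ _ rfl rfl rfl rfl rfl rfl
    obtain ⟨⟨⟨⟨v, hd⟩, -⟩, -⟩, -⟩ := h3
    rw [hη] at hd
    have ht : D.T1 x ≠ 0 := by
      intro h0
      have := h6 h0 v _ hd.hx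
      nlinarith [sq_nonneg (D.T1 x)]
    have g4 := h4 v _ ((((hd.hy.mul hd.hz).const_add 1).mul
        (((hd.ha.const_mul 3).add hd.hb).add hd.hc)).sub
      (((hd.hx.mul hd.hy).const_add 1).mul ((hd.ha.add (hd.hb.const_mul 3)).add hd.hc)))
    have g5 := h5 v _ ((((hd.hz.mul hd.hx).const_add 1).mul
        (((hd.ha.const_mul 3).add hd.hb).add hd.hc)).sub
      (((hd.hx.mul hd.hy).const_add 1).mul ((hd.ha.add hd.hb).add (hd.hc.const_mul 3))))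
    simp only [zero_smul, add_zero, Pi.mul_apply, Pi.add_apply, Pi.sub_apply] at g4 g5
    have e1 : (D.a x + D.b x - D.c x) + (D.b x + D.c x - D.a x) = 2 * D.b x := by ring
    refine algPos _ _ _ _ _ _ q1 q2 q3 ht q4 q6 q7 ?_ ?_
    · rw [e1, ← g4]; field_simp; ring
    · rw [e1, ← g5]; field_simp; ring
  rw [hE', sdiff_empty] at hv
  exact hv

/-- The orientation reversing case. -/
theorem null_neg (hη : D.η = -1) : volume D.E = 0 := by
  have l3 := D.advance (fun x => D.T1 x - D.T2 x + D.T3 x) D.exists_E2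
    (fun x hx => ((D.dT1 x hx).sub (D.dT2 x hx)).add (D.dT3 x hx))
    (fun x hx h => by
      have h2 := h.2
      rw [hη] at h2
      have pa := D.pa x hx
      have pb := D.pb x hx
      have pc := D.pc x hx
      have h3 : (D.a x + D.b x + D.c x) * (D.T1 x - D.T2 x + D.T3 x) = 0 := by
        linear_combination h2
      rcases mul_eq_zero.1 h3 with h4 | h4
      · linarith
      · exact h4)
  have H3 : ∀ x ∈ D.E, (D.Dirs x ∧
    D.T1 x * (D.a x + D.c x - D.η * D.b x) + D.T2 x * (D.η * (D.a x + D.b x) - D.c x)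
      + D.T3 x * (D.b x + D.c x - D.η * D.a x) = 0) ∧
    (∀ (v : ℝ × ℝ) (d : ℝ), HasDerivAt (fun t : ℝ => D.T1 (x + t • v) - D.T2 (x + t • v) +
      D.T3 (x + t • v)) d 0 → d = 0) →
    D.T1 x - D.T2 x + D.T3 x = 0 ∧
    2 * D.b x * (1 + D.T1 x ^ 2) = (D.a x + D.c x - D.b x) * (2 + D.T2 x ^ 2 + D.T3 x ^ 2) ∧
    2 * D.c x * (1 + D.T2 x ^ 2) = (D.a x + D.b x - D.c x) * (2 + D.T1 x ^ 2 + D.T3 x ^ 2) := by
    rintro x hx ⟨⟨⟨⟨v, hd⟩, ⟨w, hd'⟩⟩, hG⟩, hp⟩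
    have pa := D.pa x hx
    have pb := D.pb x hx
    have pc := D.pc x hx
    rw [hη] at hG hd hd'
    have h0 : D.T1 x - D.T2 x + D.T3 x = 0 := by
      have h3 : (D.a x + D.b x + D.c x) * (D.T1 x - D.T2 x + D.T3 x) = 0 := by
        linear_combination hG
      rcases mul_eq_zero.1 h3 with h4 | h4
      · linarith
      · exact h4
    have h1 := hp v _ ((hd.hx.sub hd.hy).add hd.hz)
    have h2 := hp w _ ((hd'.hx.sub hd'.hy).add hd'.hz)
    refine ⟨h0, ?_, ?_⟩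
    · field_simp at h1
      linear_combination -h1
    · field_simp at h2
      linear_combination h2
  have l4 := D.advance (fun x => (D.a x + D.b x - D.c x) * (2 + D.T1 x ^ 2 + D.T3 x ^ 2) -
      2 * D.c x * (1 + D.T2 x ^ 2)) l3
    (fun x hx => ((((D.da x hx).add (D.db x hx)).sub (D.dc x hx)).mul
        ((((D.dT1 x hx).pow 2).const_add 2).add ((D.dT3 x hx).pow 2))).sub
      (((D.dc x hx).const_mul 2).mul (((D.dT2 x hx).pow 2).const_add 1)))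
    (fun x hx h => by
      obtain ⟨q1, q2, q3⟩ := H3 x hx h
      linarith)
  have l5 := D.advance' D.T2 l4 D.dT2
  obtain ⟨E', hs, hm, hv, hp⟩ := l5
  have hE' : E' = ∅ := by
    rw [Set.eq_empty_iff_forall_notMem]
    intro x hx
    obtain ⟨⟨h3, h4⟩, h5⟩ := hp x hx
    have hxU := (hs hx)
    have pa := D.pa x hxU
    have pb := D.pb x hxU
    have pc := D.pc x hxU
    obtain ⟨q1, q2, q3⟩ := H3 x hxU h3
    obtain ⟨⟨⟨-, ⟨v, hd⟩⟩, -⟩, -⟩ := h3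
    rw [hη] at hd
    have g4 := h4 v _ ((((hd.ha.add hd.hb).sub hd.hc).mul
        (((hd.hx.pow 2).const_add 2).add (hd.hz.pow 2))).sub
      ((hd.hc.const_mul 2).mul ((hd.hy.pow 2).const_add 1)))
    simp only [zero_smul, add_zero, Pi.mul_apply, Pi.add_apply, Pi.sub_apply, Pi.pow_apply] at g4
    have hy : D.T2 x = 0 := by
      refine algNeg _ _ _ _ _ _ pa pb pc q1 q2 q3 ?_
      rw [← g4]; push_cast; field_simp; ring
    have := h5 hy v _ hd.hy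
    nlinarith [sq_nonneg (D.T2 x)]
  rw [hE', sdiff_empty] at hv
  exact hv

/-- Closed trajectories are negligible. -/
theorem null_E : volume D.E = 0 := by
  rcases D.hη with h | h
  · exact D.null_pos h
  · exact D.null_neg h

end Lev

end Pool.Agent.H721R2.Ivrii
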