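import Pool.Agent.H721R2.Ivrii.Core2
import Pool.Agent.H721R2.Ivrii.Geo

set_option autoImplicit false

open MeasureTheory Set Filter Topology
open scoped ComplexConjugate InnerProductSpace

namespace Pool.Agent.H721R2.Ivrii

/-- A regular parametrisation of a mirror near one of its points. -/
structure Mir (F : ℂ → ℝ) (q : ℂ) where
  γ : ℝ → ℂ
  L : ℝ → ℂ
  σ : ℂ → ℝ
  γ0 : γ 0 = q
  σ0 : σ q = 0
  σc : ContinuousAt σ q
  γs : ContDiffAt ℝ 3 γ 0
  Ls : ContDiffAt ℝ 2 L 0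
  hd : ∀ᶠ s in 𝓝 (0 : ℝ), HasDerivAt γ (Complex.exp (L s)) s
  ho : ∀ᶠ s in 𝓝 (0 : ℝ), ⟪gradient F (γ s), Complex.exp (L s)⟫_ℝ = 0 ∧ gradient F (γ s) ≠ 0
  hs : ∀ᶠ x in 𝓝 q, F x = 0 → γ (σ x) = x
  hz : ∀ᶠ s in 𝓝 (0 : ℝ), F (γ s) = 0

theorem exists_mir (F : ℂ → ℝ) (q : ℂ) (hF : ContDiffAt ℝ 3 F q) (h0 : F q = 0)
    (hg : gradient F q ≠ 0) : Nonempty (Mir F q) := by
  obtain ⟨γ, L, σ, h1, h2, h3, h4, h5, h6, h7, h8, h9⟩ := exists_param F q hF h0 hg
  exact ⟨⟨γ, L, σ, h1, h2, h3, h4, h5, h6, h7, h8, h9⟩⟩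

theorem polar_eq (a : ℝ) (v l : ℂ) (ha : 0 < a) (hv : ‖v‖ = 1) (h : a • v = Complex.exp l) :
    v = Complex.exp (Complex.I * l.im) ∧ a = Real.exp l.re := by
  have h1 : a = Real.exp l.re := by
    have := congrArg norm h
    rw [norm_smul, hv, mul_one, Real.norm_of_nonneg ha.le, Complex.norm_exp] at this
    exact this
  refine ⟨?_, h1⟩
  have h2 : Complex.exp l = (a : ℂ) * Complex.exp (Complex.I * l.im) := by
    rw [h1, Complex.ofReal_exp, ← Complex.exp_add]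
    congr 1
    rw [mul_comm Complex.I]
    exact (Complex.re_add_im l).symm
  rw [h2, Complex.real_smul] at h
  exact mul_left_cancel₀ (by exact_mod_cast ha.ne') h

theorem exp_polar (l : ℂ) : Complex.exp l =
    (Real.exp l.re : ℂ) * Complex.exp (Complex.I * l.im) := by
  rw [Complex.ofReal_exp, ← Complex.exp_add]
  congr 1
  rw [mul_comm Complex.I]
  exact (Complex.re_add_im l).symm

theorem angle_eq (x y : ℝ) (h : Complex.exp (Complex.I * x) = Complex.exp (Complex.I * y))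
    (hxy : |x - y| < 1) : x = y := by
  rw [Complex.exp_eq_exp_iff_exists_int] at h
  obtain ⟨n, hn⟩ := h
  have h1 : Complex.I * (x : ℂ) = Complex.I * ((y : ℂ) + n * (2 * Real.pi)) := by
    rw [hn]; ring
  have h2 := mul_left_cancel₀ Complex.I_ne_zero h1
  have h3 : x = y + n * (2 * Real.pi) := by exact_mod_cast h2
  have h4 : n = 0 := by
    by_contra hne
    have h5 : (1 : ℝ) ≤ |(n : ℝ)| := by exact_mod_cast Int.one_le_abs hne
    have h6 : |x - y| = |(n : ℝ)| * (2 * Real.pi) := by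
      rw [h3, add_sub_cancel_left, abs_mul, abs_of_pos (by positivity : 0 < 2 * Real.pi)]
    have h7 := Real.pi_gt_three
    rw [h6] at hxy
    nlinarith
  rw [h3, h4]; simp

theorem transversal (N l : ℂ) (φ : ℝ) (h : ⟪N, Complex.exp l⟫_ℝ = 0)
    (h' : ⟪Complex.exp (Complex.I * φ), N⟫_ℝ ≠ 0) : Real.sin (l.im - φ) ≠ 0 := by
  intro hs
  apply h'
  rw [exp_polar, inner_eq, Complex.re_ofReal_mul, Complex.im_ofReal_mul,
    mul_comm Complex.I, Complex.exp_ofReal_mul_I_re, Complex.exp_ofReal_mul_I_im] at h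
  rw [inner_eq, mul_comm Complex.I, Complex.exp_ofReal_mul_I_re, Complex.exp_ofReal_mul_I_im]
  have h1 : N.re * Real.cos l.im + N.im * Real.sin l.im = 0 := by
    have : Real.exp l.re * (N.re * Real.cos l.im + N.im * Real.sin l.im) = 0 := by linarith
    rcases mul_eq_zero.1 this with h2 | h2
    · exact absurd h2 (Real.exp_pos _).ne'
    · exact h2
  rw [Real.sin_sub] at hs
  have h2 := Real.sin_sq_add_cos_sq l.im
  linear_combination (Real.cos φ * Real.cos l.im + Real.sin φ * Real.sin l.im) * h1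
    - (Real.cos φ * N.re + Real.sin φ * N.im) * h2
    + (Real.sin l.im * N.re - Real.cos l.im * N.im) * hs

theorem invertible_of_ne (g : ℝ →L[ℝ] ℝ) (h : g 1 ≠ 0) : g.IsInvertible := by
  refine ⟨ContinuousLinearEquiv.unitsEquivAut ℝ (Units.mk0 (g 1) h), ?_⟩
  ext
  simp

theorem ofReal_im_contDiff : ContDiff ℝ 2 Complex.im := Complex.imCLM.contDiff

theorem exists_S {F2 F3 : ℂ → ℝ} {Q2 Q3 : ℂ} (B : Mir F2 Q2) (C : Mir F3 Q3)
    (l12 l23 : ℝ × ℝ → ℂ) (h12 : ContDiffAt ℝ 2 l12 0) (h23 : ContDiffAt ℝ 2 l23 0)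
    (hexp : ∀ᶠ y in 𝓝 (0 : ℝ × ℝ), Complex.exp (l23 y) = C.γ y.2 - B.γ y.1)
    (h0 : (l12 0).im + (l23 0).im = 2 * (B.L 0).im)
    (hs : Real.sin ((C.L 0).im - (l23 0).im) ≠ 0) :
    ∃ S : ℝ × ℝ → ℝ, S 0 = 0 ∧ ContDiffAt ℝ 1 S 0 ∧
      (∀ᶠ x in 𝓝 (0 : ℝ × ℝ), (l12 x).im + (l23 (x.2, S x)).im = 2 * (B.L x.2).im) ∧
      (∀ᶠ y in 𝓝 (0 : (ℝ × ℝ) × ℝ),
        (l12 y.1).im + (l23 (y.1.2, y.2)).im = 2 * (B.L y.1.2).im → y.2 = S y.1) := by
  obtain ⟨f, hf⟩ : ∃ f : (ℝ × ℝ) × ℝ → ℝ, f = fun y =>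
    (l12 y.1).im + (l23 (y.1.2, y.2)).im - 2 * (B.L y.1.2).im := ⟨_, rfl⟩
  have hfs : ContDiffAt ℝ 2 f (0, 0) := by
    rw [hf]
    have e1 : ContDiffAt ℝ 2 (fun y : (ℝ × ℝ) × ℝ => (l12 y.1).im) (0, 0) :=
      Complex.imCLM.contDiff.contDiffAt.comp _ (ContDiffAt.comp (0, 0)
        (by simpa using h12) contDiffAt_fst)
    have e2 : ContDiffAt ℝ 2 (fun y : (ℝ × ℝ) × ℝ => (l23 (y.1.2, y.2)).im) (0, 0) :=
      Complex.imCLM.contDiff.contDiffAt.comp _ (ContDiffAt.comp (0, 0)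
        (f := fun y : (ℝ × ℝ) × ℝ => (y.1.2, y.2)) (by exact h23)
        (by fun_prop))
    have e3 : ContDiffAt ℝ 2 (fun y : (ℝ × ℝ) × ℝ => (B.L y.1.2).im) (0, 0) :=
      Complex.imCLM.contDiff.contDiffAt.comp _ (ContDiffAt.comp (0, 0)
        (f := fun y : (ℝ × ℝ) × ℝ => y.1.2) (by simpa using B.Ls)
        (by fun_prop))
    exact (e1.add e2).sub (contDiffAt_const.mul e3)
  have hf0 : f (0, 0) = 0 := by
    rw [hf]
    have : ((0 : ℝ × ℝ).2, (0 : ℝ)) = (0 : ℝ × ℝ) := rfl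
    simp only [this]
    have e : (0 : ℝ × ℝ).2 = 0 := rfl
    rw [e]
    linarith
  have hinv : (fderiv ℝ f (0, 0) ∘L .inr ℝ (ℝ × ℝ) ℝ).IsInvertible := by
    apply invertible_of_ne
    -- the derivative in the last variable
    obtain ⟨m, hm⟩ : ∃ m : ℝ → ℂ, m = fun s => l23 (0, s) := ⟨_, rfl⟩
    have hmd : DifferentiableAt ℝ m 0 := by
      rw [hm]
      exact DifferentiableAt.comp (0 : ℝ) (g := l23) (f := fun s : ℝ => ((0 : ℝ), s))
        (h23.differentiableAt (by norm_num)) (by fun_prop)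
    have hC := C.hd.self_of_nhds
    have hm0 : m 0 = l23 0 := by rw [hm]; rfl
    have e1 : HasDerivAt (fun s => Complex.exp (m s)) (Complex.exp (m 0) * deriv m 0) 0 :=
      hmd.hasDerivAt.cexp
    have e2 : ∀ᶠ s in 𝓝 (0 : ℝ), Complex.exp (m s) = C.γ s - B.γ 0 := by
      have ht : Tendsto (fun s : ℝ => ((0 : ℝ), s)) (𝓝 0) (𝓝 (0 : ℝ × ℝ)) := by
        have : Continuous (fun s : ℝ => ((0 : ℝ), s)) := by fun_prop
        exact this.tendsto 0
      rw [hm]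
      exact ht.eventually hexp
    have e3 : HasDerivAt (fun s => Complex.exp (m s)) (Complex.exp (C.L 0)) 0 :=
      (hC.sub_const (B.γ 0)).congr_of_eventuallyEq e2
    have e4 : deriv m 0 = Complex.exp (C.L 0 - m 0) := by
      have e5 := e1.unique e3
      rw [Complex.exp_sub, ← e5, mul_div_cancel_left₀ _ (Complex.exp_ne_zero _)]
    have e5 : HasDerivAt (fun s => (m s).im) (deriv m 0).im 0 :=
      Complex.imCLM.hasFDerivAt.comp_hasDerivAt 0 hmd.hasDerivAt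
    have e6 : HasDerivAt (fun s : ℝ => f ((0 : ℝ × ℝ), s)) (deriv m 0).im 0 := by
      rw [hf, show (fun s : ℝ => (fun y : (ℝ × ℝ) × ℝ => (l12 y.1).im + (l23 (y.1.2, y.2)).im -
        2 * (B.L y.1.2).im) ((0 : ℝ × ℝ), s)) = fun s => (l12 0).im + (m s).im -
        2 * (B.L 0).im by rw [hm]; rfl]
      exact (e5.const_add _).sub_const _
    have e7 : HasDerivAt (fun s : ℝ => f ((0 : ℝ × ℝ), s))
        (fderiv ℝ f (0, 0) ((0 : ℝ × ℝ), (1 : ℝ))) 0 := by
      have h1 : HasDerivAt (fun s : ℝ => ((0 : ℝ × ℝ), s)) ((0 : ℝ × ℝ), (1 : ℝ)) 0 :=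
        (hasDerivAt_const (0 : ℝ) (0 : ℝ × ℝ)).prodMk (hasDerivAt_id (0 : ℝ))
      have h2 : HasFDerivAt f (fderiv ℝ f (0, 0)) ((fun s : ℝ => ((0 : ℝ × ℝ), s)) 0) :=
        (hfs.differentiableAt (by norm_num)).hasFDerivAt
      exact h2.comp_hasDerivAt (0 : ℝ) h1
    have e8 : (fderiv ℝ f (0, 0) ∘L .inr ℝ (ℝ × ℝ) ℝ) 1 = (deriv m 0).im := by
      rw [← e7.unique e6]; rfl
    rw [e8, e4, Complex.exp_im]
    refine mul_ne_zero (Real.exp_pos _).ne' ?_
    rw [Complex.sub_im, hm0]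
    exact hs
  refine ⟨hfs.implicitFunction (by norm_num) hinv, ?_, ?_, ?_, ?_⟩
  · exact hfs.implicitFunction_apply_self (by norm_num) hinv
  · exact (hfs.contDiffAt_implicitFunction (by norm_num) hinv).of_le (by norm_num)
  · have := hfs.eventually_apply_implicitFunction (by norm_num) hinv
    filter_upwards [this] with x hx
    rw [hf0] at hx
    generalize hfs.implicitFunction _ hinv = S at hx
    rw [hf] at hx
    simp only at hx
    linarith
  · have := hfs.eventually_apply_eq_iff_implicitFunction (by norm_num) hinv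
    filter_upwards [this] with y hy h
    refine (hy.1 ?_).symm
    rw [hf0, hf]
    simp only
    linarith

theorem tendsto_of_cont {X Y : Type*} [TopologicalSpace X] [TopologicalSpace Y] {f : X → Y} {x : X}
    {y : Y} (h : ContinuousAt f x) (hy : f x = y) : Tendsto f (𝓝 x) (𝓝 y) := by
  rw [← hy]; exact h

theorem isom_eq (G : ℂ ≃ᵃⁱ[ℝ] ℂ) (z : ℂ) : G z = G.linearIsometryEquiv z + G 0 := by
  have := G.map_vadd 0 z
  simpa using this

/-- The closed trajectories near a reference trajectory are negligible. -/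
theorem exists_null {F1 F2 F3 : ℂ → ℝ} {Q1 Q2 Q3 : ℂ} (A : Mir F1 Q1) (B : Mir F2 Q2)
    (C : Mir F3 Q3) (G : ℂ ≃ᵃⁱ[ℝ] ℂ) (η κ K : ℝ) (hη : η = 1 ∨ η = -1)
    (hG : ∀ t θ : ℝ, G.linearIsometryEquiv (t * Complex.exp (Complex.I * θ)) =
      t * Complex.exp (Complex.I * (κ + η * θ : ℝ)))
    (hK : Complex.exp (Complex.I * κ) = Complex.exp (Complex.I * (η * K : ℝ)))
    (l12 l23 l31 : ℝ × ℝ → ℂ) (h12 : ContDiffAt ℝ 2 l12 0) (h23 : ContDiffAt ℝ 2 l23 0)
    (h31 : ContDiffAt ℝ 2 l31 0)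
    (e12 : ∀ᶠ y in 𝓝 (0 : ℝ × ℝ), Complex.exp (l12 y) = B.γ y.2 - A.γ y.1)
    (e23 : ∀ᶠ y in 𝓝 (0 : ℝ × ℝ), Complex.exp (l23 y) = C.γ y.2 - B.γ y.1)
    (e31 : ∀ᶠ y in 𝓝 (0 : ℝ × ℝ), Complex.exp (l31 y) = G (A.γ y.1) - C.γ y.2)
    (S : ℝ × ℝ → ℝ) (hS0 : S 0 = 0) (hS : ContDiffAt ℝ 1 S 0)
    (hrel : ∀ᶠ x in 𝓝 (0 : ℝ × ℝ), (l12 x).im + (l23 (x.2, S x)).im = 2 * (B.L x.2).im)
    (s1 : Real.sin ((l12 0).im - (A.L 0).im) ≠ 0)
    (s2 : Real.sin ((B.L 0).im - (l12 0).im) ≠ 0)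
    (s3 : Real.sin ((C.L 0).im - (l23 0).im) ≠ 0) :
    ∃ U : Set (ℝ × ℝ), IsOpen U ∧ (0 : ℝ × ℝ) ∈ U ∧
      volume {x | x ∈ U ∧ (l23 (x.2, S x)).im + (l31 (x.1, S x)).im = 2 * (C.L (S x)).im ∧
        (l12 x).im + η * (l31 (x.1, S x)).im = 2 * (A.L x.1).im + K} = 0 := by
  -- the base maps
  have t1 : Tendsto (fun x : ℝ × ℝ => x.1) (𝓝 0) (𝓝 0) :=
    tendsto_of_cont continuous_fst.continuousAt rfl
  have t2 : Tendsto (fun x : ℝ × ℝ => x.2) (𝓝 0) (𝓝 0) :=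
    tendsto_of_cont continuous_snd.continuousAt rfl
  have t3 : Tendsto S (𝓝 0) (𝓝 0) := tendsto_of_cont hS.continuousAt hS0
  have t23 : Tendsto (fun x : ℝ × ℝ => (x.2, S x)) (𝓝 0) (𝓝 (0 : ℝ × ℝ)) :=
    t2.prodMk_nhds t3
  have t13 : Tendsto (fun x : ℝ × ℝ => (x.1, S x)) (𝓝 0) (𝓝 (0 : ℝ × ℝ)) :=
    t1.prodMk_nhds t3
  have z23 : ((0 : ℝ × ℝ).2, S 0) = 0 := by rw [hS0]; rfl
  have z13 : ((0 : ℝ × ℝ).1, S 0) = 0 := by rw [hS0]; rfl
  have hS1 : ∀ᶠ x in 𝓝 (0 : ℝ × ℝ), ContDiffAt ℝ 1 S x := hS.eventually (by simp)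
  have hc23 : ∀ᶠ x in 𝓝 (0 : ℝ × ℝ), ContDiffAt ℝ 2 l23 (x.2, S x) :=
    t23.eventually (h23.eventually (by simp))
  have hc31 : ∀ᶠ x in 𝓝 (0 : ℝ × ℝ), ContDiffAt ℝ 2 l31 (x.1, S x) :=
    t13.eventually (h31.eventually (by simp))
  have hc12 : ∀ᶠ x in 𝓝 (0 : ℝ × ℝ), ContDiffAt ℝ 2 l12 x := h12.eventually (by simp)
  have hA : ∀ᶠ x in 𝓝 (0 : ℝ × ℝ), ContDiffAt ℝ 2 A.L x.1 :=
    t1.eventually (A.Ls.eventually (by simp))
  have hB : ∀ᶠ x in 𝓝 (0 : ℝ × ℝ), ContDiffAt ℝ 2 B.L x.2 :=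
    t2.eventually (B.Ls.eventually (by simp))
  have hC : ∀ᶠ x in 𝓝 (0 : ℝ × ℝ), ContDiffAt ℝ 2 C.L (S x) :=
    t3.eventually (C.Ls.eventually (by simp))
  have hAd := t1.eventually A.hd
  have hBd := t2.eventually B.hd
  have hCd := t3.eventually C.hd
  have g23 := t23.eventually e23
  have g31 := t13.eventually e31
  have n1 : ∀ᶠ x in 𝓝 (0 : ℝ × ℝ), Real.sin ((l12 x).im - (A.L x.1).im) ≠ 0 := by
    have hc : ContinuousAt (fun x : ℝ × ℝ => Real.sin ((l12 x).im - (A.L x.1).im)) 0 := by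
      have a1 : ContinuousAt (fun x : ℝ × ℝ => (l12 x).im) 0 :=
        Complex.continuous_im.continuousAt.comp h12.continuousAt
      have a2 : ContinuousAt (fun x : ℝ × ℝ => (A.L x.1).im) 0 :=
        Complex.continuous_im.continuousAt.comp
          (ContinuousAt.comp (f := fun x : ℝ × ℝ => x.1) (x := (0 : ℝ × ℝ))
            (by exact A.Ls.continuousAt) continuous_fst.continuousAt)
      exact Real.continuous_sin.continuousAt.comp (a1.sub a2)
    exact hc.eventually_ne s1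
  have n2 : ∀ᶠ x in 𝓝 (0 : ℝ × ℝ), Real.sin ((B.L x.2).im - (l12 x).im) ≠ 0 := by
    have hc : ContinuousAt (fun x : ℝ × ℝ => Real.sin ((B.L x.2).im - (l12 x).im)) 0 := by
      have a1 : ContinuousAt (fun x : ℝ × ℝ => (l12 x).im) 0 :=
        Complex.continuous_im.continuousAt.comp h12.continuousAt
      have a2 : ContinuousAt (fun x : ℝ × ℝ => (B.L x.2).im) 0 :=
        Complex.continuous_im.continuousAt.comp
          (ContinuousAt.comp (f := fun x : ℝ × ℝ => x.2) (x := (0 : ℝ × ℝ))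
            (by exact B.Ls.continuousAt) continuous_snd.continuousAt)
      exact Real.continuous_sin.continuousAt.comp (a2.sub a1)
    exact hc.eventually_ne s2
  have n3 : ∀ᶠ x in 𝓝 (0 : ℝ × ℝ),
      Real.sin ((C.L (S x)).im - (l23 (x.2, S x)).im) ≠ 0 := by
    have hc : ContinuousAt
        (fun x : ℝ × ℝ => Real.sin ((C.L (S x)).im - (l23 (x.2, S x)).im)) 0 := by
      have a1 : ContinuousAt (fun x : ℝ × ℝ => (C.L (S x)).im) 0 :=
        Complex.continuous_im.continuousAt.comp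
          (ContinuousAt.comp (f := S) (x := (0 : ℝ × ℝ))
            (by rw [hS0]; exact C.Ls.continuousAt) hS.continuousAt)
      have a2 : ContinuousAt (fun x : ℝ × ℝ => (l23 (x.2, S x)).im) 0 :=
        Complex.continuous_im.continuousAt.comp
          (ContinuousAt.comp (f := fun x : ℝ × ℝ => (x.2, S x)) (x := (0 : ℝ × ℝ))
            (by rw [z23]; exact h23.continuousAt)
            (continuous_snd.continuousAt.prodMk hS.continuousAt))
      exact Real.continuous_sin.continuousAt.comp (a1.sub a2)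
    refine hc.eventually_ne ?_
    rw [z23, hS0]; exact s3
  have hall := hS1.and (hc23.and (hc31.and (hc12.and (hA.and (hB.and (hC.and (hAd.and (hBd.and
    (hCd.and (g23.and (g31.and (n1.and (n2.and (n3.and (hrel.and e12)))))))))))))))
  obtain ⟨U, hUsub, hUo, hU0⟩ := mem_nhds_iff.1 hall
  have dre : ∀ {X : Type} [NormedAddCommGroup X] [NormedSpace ℝ X] {f : X → ℂ} {x : X},
      DifferentiableAt ℝ f x → DifferentiableAt ℝ (fun y => (f y).re) x := by
    intro X _ _ f x hf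
    exact Complex.reCLM.differentiableAt.comp x hf
  have dim : ∀ {X : Type} [NormedAddCommGroup X] [NormedSpace ℝ X] {f : X → ℂ} {x : X},
      DifferentiableAt ℝ f x → DifferentiableAt ℝ (fun y => (f y).im) x := by
    intro X _ _ f x hf
    exact Complex.imCLM.differentiableAt.comp x hf
  have hSd : ∀ x ∈ U, DifferentiableAt ℝ S x := fun x hx =>
    (hUsub hx).1.differentiableAt (by norm_num)
  have hd23 : ∀ x ∈ U, DifferentiableAt ℝ (fun x => l23 (x.2, S x)) x := fun x hx =>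
    DifferentiableAt.comp x (f := fun x : ℝ × ℝ => (x.2, S x))
      ((hUsub hx).2.1.differentiableAt (by norm_num))
      (differentiableAt_snd.prodMk (hSd x hx))
  have hd31 : ∀ x ∈ U, DifferentiableAt ℝ (fun x => l31 (x.1, S x)) x := fun x hx =>
    DifferentiableAt.comp x (f := fun x : ℝ × ℝ => (x.1, S x))
      ((hUsub hx).2.2.1.differentiableAt (by norm_num))
      (differentiableAt_fst.prodMk (hSd x hx))
  have hd12 : ∀ x ∈ U, DifferentiableAt ℝ l12 x := fun x hx =>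
    (hUsub hx).2.2.2.1.differentiableAt (by norm_num)
  have hAc : ∀ x ∈ U, ContDiffAt ℝ 2 A.L x.1 := fun x hx => (hUsub hx).2.2.2.2.1
  have hBc : ∀ x ∈ U, ContDiffAt ℝ 2 B.L x.2 := fun x hx => (hUsub hx).2.2.2.2.2.1
  have hCc : ∀ x ∈ U, ContDiffAt ℝ 2 C.L (S x) := fun x hx => (hUsub hx).2.2.2.2.2.2.1
  have hAd' : ∀ x ∈ U, HasDerivAt A.γ (Complex.exp (A.L x.1)) x.1 :=
    fun x hx => (hUsub hx).2.2.2.2.2.2.2.1
  have hBd' : ∀ x ∈ U, HasDerivAt B.γ (Complex.exp (B.L x.2)) x.2 :=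
    fun x hx => (hUsub hx).2.2.2.2.2.2.2.2.1
  have hCd' : ∀ x ∈ U, HasDerivAt C.γ (Complex.exp (C.L (S x))) (S x) :=
    fun x hx => (hUsub hx).2.2.2.2.2.2.2.2.2.1
  have g23' : ∀ x ∈ U, Complex.exp (l23 (x.2, S x)) = C.γ (S x) - B.γ x.2 :=
    fun x hx => (hUsub hx).2.2.2.2.2.2.2.2.2.2.1
  have g31' : ∀ x ∈ U, Complex.exp (l31 (x.1, S x)) = G (A.γ x.1) - C.γ (S x) :=
    fun x hx => (hUsub hx).2.2.2.2.2.2.2.2.2.2.2.1
  have n1' : ∀ x ∈ U, Real.sin ((l12 x).im - (A.L x.1).im) ≠ 0 :=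
    fun x hx => (hUsub hx).2.2.2.2.2.2.2.2.2.2.2.2.1
  have n2' : ∀ x ∈ U, Real.sin ((B.L x.2).im - (l12 x).im) ≠ 0 :=
    fun x hx => (hUsub hx).2.2.2.2.2.2.2.2.2.2.2.2.2.1
  have n3' : ∀ x ∈ U, Real.sin ((C.L (S x)).im - (l23 (x.2, S x)).im) ≠ 0 :=
    fun x hx => (hUsub hx).2.2.2.2.2.2.2.2.2.2.2.2.2.2.1
  have hrel' : ∀ x ∈ U, (l12 x).im + (l23 (x.2, S x)).im = 2 * (B.L x.2).im :=
    fun x hx => (hUsub hx).2.2.2.2.2.2.2.2.2.2.2.2.2.2.2.1
  have g12' : ∀ x ∈ U, Complex.exp (l12 x) = B.γ x.2 - A.γ x.1 :=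
    fun x hx => (hUsub hx).2.2.2.2.2.2.2.2.2.2.2.2.2.2.2.2
  have hGd : ∀ x ∈ U, HasDerivAt (fun s => G (A.γ s))
      (G.linearIsometryEquiv (Complex.exp (A.L x.1))) x.1 := by
    intro x hx
    have h1 : HasDerivAt (fun s => G.linearIsometryEquiv (A.γ s))
        (G.linearIsometryEquiv (Complex.exp (A.L x.1))) x.1 :=
      (G.linearIsometryEquiv.toContinuousLinearEquiv : ℂ →L[ℝ] ℂ).hasFDerivAt.comp_hasDerivAt
        x.1 (hAd' x hx)
    exact (h1.add_const (G 0)).congr_of_eventuallyEq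
      (Eventually.of_forall fun s => isom_eq G (A.γ s))
  have hdA : ∀ x ∈ U, DifferentiableAt ℝ A.L x.1 := fun x hx =>
    (hAc x hx).differentiableAt (by norm_num)
  have hdA2 : ∀ x ∈ U, DifferentiableAt ℝ (deriv A.L) x.1 := by
    intro x hx
    have h1 : ContDiffAt ℝ 1 (fderiv ℝ A.L) x.1 := (hAc x hx).fderiv_right (m := 1) (by norm_num)
    have h2 : ContDiffAt ℝ 1 (fun s => fderiv ℝ A.L s 1) x.1 := h1.clm_apply contDiffAt_const
    have h3 : ContDiffAt ℝ 1 (deriv A.L) x.1 :=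
      h2.congr_of_eventuallyEq (Eventually.of_forall fun s => by simp)
    exact h3.differentiableAt (by norm_num)
  let D : Cfg :=
    { U := U
      hU := hUo
      η := η
      K := K
      hη := hη
      γ1 := A.γ
      γ2 := B.γ
      γ3 := C.γ
      γ4 := fun s => G (A.γ s)
      r1 := fun s => Real.exp (A.L s).re
      r2 := fun s => Real.exp (B.L s).re
      r3 := fun s => Real.exp (C.L s).re
      ψ1 := fun s => (A.L s).im
      ψ2 := fun s => (B.L s).im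
      ψ3 := fun s => (C.L s).im
      k1 := fun s => (deriv A.L s).im
      a := fun x => Real.exp (l12 x).re
      b := fun x => Real.exp (l23 (x.2, S x)).re
      c := fun x => Real.exp (l31 (x.1, S x)).re
      φ12 := fun x => (l12 x).im
      φ23 := fun x => (l23 (x.2, S x)).im
      φ31 := fun x => (l31 (x.1, S x)).im
      S := S
      h1 := fun x hx => by rw [← exp_polar]; exact hAd' x hx
      h2 := fun x hx => by rw [← exp_polar]; exact hBd' x hx
      h3 := fun x hx => by rw [← exp_polar]; exact hCd' x hx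
      h4 := fun x hx => by
        refine (hGd x hx).congr_deriv ?_
        rw [exp_polar, hG]
        congr 1
        have e1 : Complex.exp (Complex.I * (κ + η * (A.L x.1).im : ℝ)) =
            Complex.exp (Complex.I * κ) * Complex.exp (Complex.I * (η * (A.L x.1).im : ℝ)) := by
          rw [← Complex.exp_add]; congr 1; push_cast; ring
        rw [e1, hK, ← Complex.exp_add]
        congr 1; push_cast; ring
      e12 := fun x hx => by rw [← exp_polar]; exact (g12' x hx).symm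
      e23 := fun x hx => by rw [← exp_polar]; exact (g23' x hx).symm
      e31 := fun x hx => by rw [← exp_polar]; exact (g31' x hx).symm
      refl2 := hrel'
      da := fun x hx => (dre (hd12 x hx)).exp
      db := fun x hx => (dre (hd23 x hx)).exp
      dc := fun x hx => (dre (hd31 x hx)).exp
      dφ12 := fun x hx => dim (hd12 x hx)
      dφ23 := fun x hx => dim (hd23 x hx)
      dφ31 := fun x hx => dim (hd31 x hx)
      dS := hSd
      dr1 := fun x hx => (dre (hdA x hx)).exp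
      hψ1 := fun x hx => Complex.imCLM.hasFDerivAt.comp_hasDerivAt x.1 (hdA x hx).hasDerivAt
      dk1 := fun x hx => dim (hdA2 x hx)
      dψ2 := fun x hx => dim ((hBc x hx).differentiableAt (by norm_num))
      dψ3 := fun x hx => dim ((hCc x hx).differentiableAt (by norm_num))
      pa := fun x hx => Real.exp_pos _
      pb := fun x hx => Real.exp_pos _
      pc := fun x hx => Real.exp_pos _
      n1 := fun x hx => (Real.exp_pos _).ne'
      n2 := fun x hx => (Real.exp_pos _).ne'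
      n3 := fun x hx => (Real.exp_pos _).ne'
      s1 := n1'
      s2 := n2'
      s3 := n3' }
  exact ⟨U, hUo, hU0, D.null_E⟩

end Pool.Agent.H721R2.Ivrii
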