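import Pool.Agent.H721R2.Ivrii.Local

set_option autoImplicit false

open MeasureTheory Set Filter Topology
open scoped ComplexConjugate InnerProductSpace

namespace Pool.Agent.H721R2.Ivrii

theorem isom_class (f : ℂ ≃ₗᵢ[ℝ] ℂ) : ∃ η κ : ℝ, (η = 1 ∨ η = -1) ∧
    ∀ t θ : ℝ, f (t * Complex.exp (Complex.I * θ)) =
      t * Complex.exp (Complex.I * (κ + η * θ : ℝ)) := by
  obtain ⟨a, ha | ha⟩ := linear_isometry_complex f
  · refine ⟨1, Complex.arg a, Or.inl rfl, fun t θ => ?_⟩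
    have h1 : (a : ℂ) = Complex.exp (Complex.I * Complex.arg a) := by
      have := Complex.norm_mul_exp_arg_mul_I (a : ℂ)
      rw [Circle.norm_coe, Complex.ofReal_one, one_mul] at this
      rw [mul_comm Complex.I]
      exact this.symm
    rw [ha, rotation_apply]
    nth_rewrite 1 [h1]
    have : Complex.exp (Complex.I * (Complex.arg a + 1 * θ : ℝ)) =
        Complex.exp (Complex.I * Complex.arg a) * Complex.exp (Complex.I * θ) := by
      rw [← Complex.exp_add]; congr 1; push_cast; ring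
    rw [this]; ring
  · refine ⟨-1, Complex.arg a, Or.inr rfl, fun t θ => ?_⟩
    have h1 : (a : ℂ) = Complex.exp (Complex.I * Complex.arg a) := by
      have := Complex.norm_mul_exp_arg_mul_I (a : ℂ)
      rw [Circle.norm_coe, Complex.ofReal_one, one_mul] at this
      rw [mul_comm Complex.I]
      exact this.symm
    rw [ha, LinearIsometryEquiv.trans_apply, rotation_apply]
    nth_rewrite 1 [h1]
    have h2 : Complex.conjLIE ((t : ℂ) * Complex.exp (Complex.I * θ)) =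
        t * Complex.exp (-(Complex.I * θ)) := by
      rw [Complex.conjLIE_apply, map_mul, Complex.conj_ofReal, ← Complex.exp_conj]
      simp
    rw [h2]
    have : Complex.exp (Complex.I * (Complex.arg a + -1 * θ : ℝ)) =
        Complex.exp (Complex.I * Complex.arg a) * Complex.exp (-(Complex.I * θ)) := by
      rw [← Complex.exp_add]; congr 1; push_cast; ring
    rw [this]; ring

theorem rfl_exp (N l : ℂ) (φ : ℝ) (hN : N ≠ 0) (h : ⟪N, Complex.exp l⟫_ℝ = 0) :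
    rfl' N (Complex.exp (Complex.I * φ)) = Complex.exp (Complex.I * (2 * l.im - φ : ℝ)) := by
  rw [refl_formula N _ l hN h, ← Complex.exp_conj, ← Complex.exp_add]
  congr 1
  simp only [map_mul, Complex.conj_I, Complex.conj_ofReal]
  push_cast; ring

/-- A closed unfolded trajectory: the billiard leaves `q1` in direction `v`, is reflected at `q2`
and at `q3`, and arrives at the copy `G q1` of `q1` in such a way that it closes up. -/
structure Rel (F1 F2 F3 : ℂ → ℝ) (G : ℂ ≃ᵃⁱ[ℝ] ℂ) (q1 v q2 q3 : ℂ) : Prop where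
  hv : ‖v‖ = 1
  f1 : F1 q1 = 0
  f2 : F2 q2 = 0
  f3 : F3 q3 = 0
  rel : ∃ (a b c : ℝ) (w2 w3 : ℂ), 0 < a ∧ 0 < b ∧ 0 < c ∧ q2 = q1 + a • v ∧
    w2 = rfl' (gradient F2 q2) v ∧ q3 = q2 + b • w2 ∧ w3 = rfl' (gradient F3 q3) w2 ∧
    G q1 = q3 + c • w3 ∧ G.linearIsometryEquiv (rfl' (gradient F1 q1) v) = w3 ∧
    ⟪v, gradient F1 q1⟫_ℝ ≠ 0 ∧ ⟪v, gradient F2 q2⟫_ℝ ≠ 0 ∧ ⟪w2, gradient F3 q3⟫_ℝ ≠ 0

theorem norm_exp_I (φ : ℝ) : ‖Complex.exp (Complex.I * φ)‖ = 1 := by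
  rw [mul_comm]; exact Complex.norm_exp_ofReal_mul_I φ

theorem exp_mk (a φ : ℝ) (ha : 0 < a) :
    Complex.exp ((Real.log a : ℂ) + Complex.I * φ) = a • Complex.exp (Complex.I * φ) := by
  rw [Complex.exp_add, ← Complex.ofReal_exp, Real.exp_log ha, Complex.real_smul]

/-- The angle relations of a closed unfolded trajectory. -/
theorem angle_rels {F1 F2 F3 : ℂ → ℝ} (G : ℂ ≃ᵃⁱ[ℝ] ℂ) (η κ K : ℝ) (hη : η = 1 ∨ η = -1)
    (hG : ∀ θ : ℝ, G.linearIsometryEquiv (Complex.exp (Complex.I * θ)) =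
      Complex.exp (Complex.I * (κ + η * θ : ℝ)))
    (hK : Complex.exp (Complex.I * κ) = Complex.exp (Complex.I * (η * K : ℝ)))
    (q1 v q2 q3 l12 l23 l31 m1 m2 m3 : ℂ)
    (e12 : Complex.exp l12 = q2 - q1) (e23 : Complex.exp l23 = q3 - q2)
    (e31 : Complex.exp l31 = G q1 - q3)
    (o1 : ⟪gradient F1 q1, Complex.exp m1⟫_ℝ = 0 ∧ gradient F1 q1 ≠ 0)
    (o2 : ⟪gradient F2 q2, Complex.exp m2⟫_ℝ = 0 ∧ gradient F2 q2 ≠ 0)
    (o3 : ⟪gradient F3 q3, Complex.exp m3⟫_ℝ = 0 ∧ gradient F3 q3 ≠ 0)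
    (d2 : |l12.im + l23.im - 2 * m2.im| < 1) (d3 : |l23.im + l31.im - 2 * m3.im| < 1)
    (d1 : |l12.im + η * l31.im - (2 * m1.im + K)| < 1) (h : Rel F1 F2 F3 G q1 v q2 q3) :
    v = Complex.exp (Complex.I * l12.im) ∧ l12.im + l23.im = 2 * m2.im ∧
      l23.im + l31.im = 2 * m3.im ∧ l12.im + η * l31.im = 2 * m1.im + K := by
  obtain ⟨hv, hf1, hf2, hf3, a0, b0, c0, w2, w3, ha0, hb0, hc0, hq2, hw2, hq3, hw3, hGq, hGw,
    -, -, -⟩ := h
  have h1 : v = Complex.exp (Complex.I * l12.im) :=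
    (polar_eq a0 v l12 ha0 hv (by rw [e12, hq2]; ring)).1
  have h2 : w2 = Complex.exp (Complex.I * (2 * m2.im - l12.im : ℝ)) := by
    rw [hw2, h1, rfl_exp _ _ _ o2.2 o2.1]
  have hw2n : ‖w2‖ = 1 := by rw [h2, norm_exp_I]
  have h3 : w2 = Complex.exp (Complex.I * l23.im) :=
    (polar_eq b0 w2 l23 hb0 hw2n (by rw [e23, hq3]; ring)).1
  have r2 : l12.im + l23.im = 2 * m2.im := by
    have h5 := angle_eq (l23.im) (2 * m2.im - l12.im) (by rw [← h3, ← h2]) (by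
      rw [show l23.im - (2 * m2.im - l12.im) = l12.im + l23.im - 2 * m2.im by ring]; exact d2)
    linarith
  have h4 : w3 = Complex.exp (Complex.I * (2 * m3.im - l23.im : ℝ)) := by
    rw [hw3, h3, rfl_exp _ _ _ o3.2 o3.1]
  have hw3n : ‖w3‖ = 1 := by rw [h4, norm_exp_I]
  have h5 : w3 = Complex.exp (Complex.I * l31.im) :=
    (polar_eq c0 w3 l31 hc0 hw3n (by rw [e31, hGq]; ring)).1
  have r3 : l23.im + l31.im = 2 * m3.im := by
    have h6 := angle_eq (l31.im) (2 * m3.im - l23.im) (by rw [← h5, ← h4]) (by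
      rw [show l31.im - (2 * m3.im - l23.im) = l23.im + l31.im - 2 * m3.im by ring]; exact d3)
    linarith
  have hηη : η * η = 1 := by rcases hη with h | h <;> rw [h] <;> norm_num
  have h6 : w3 = Complex.exp (Complex.I * (η * K + η * (2 * m1.im - l12.im) : ℝ)) := by
    rw [← hGw, h1, rfl_exp _ _ _ o1.2 o1.1, hG]
    have e1 : Complex.exp (Complex.I * (κ + η * (2 * m1.im - l12.im) : ℝ)) =
        Complex.exp (Complex.I * κ) *
          Complex.exp (Complex.I * (η * (2 * m1.im - l12.im) : ℝ)) := by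
      rw [← Complex.exp_add]; congr 1; push_cast; ring
    rw [e1, hK, ← Complex.exp_add]
    congr 1; push_cast; ring
  refine ⟨h1, r2, r3, ?_⟩
  have h7 := angle_eq (l31.im) (η * K + η * (2 * m1.im - l12.im)) (by rw [← h5, ← h6]) (by
    have e1 : |l31.im - (η * K + η * (2 * m1.im - l12.im))| =
        |η * (l12.im + η * l31.im - (2 * m1.im + K))| := by
      congr 1
      linear_combination (-l31.im) * hηη
    have e2 : |η| = 1 := by rcases hη with h | h <;> rw [h] <;> norm_num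
    rw [e1, abs_mul, e2, one_mul]
    exact d1)
  rw [h7]
  linear_combination (K + 2 * m1.im - l12.im) * hηη

/-- Closed unfolded trajectories near a given one are negligible. -/
theorem local_null (F1 F2 F3 : ℂ → ℝ) (G : ℂ ≃ᵃⁱ[ℝ] ℂ) (Q1 V Q2 Q3 : ℂ)
    (hF1 : ContDiffAt ℝ 3 F1 Q1) (hF2 : ContDiffAt ℝ 3 F2 Q2) (hF3 : ContDiffAt ℝ 3 F3 Q3)
    (hg1 : gradient F1 Q1 ≠ 0) (hg2 : gradient F2 Q2 ≠ 0) (hg3 : gradient F3 Q3 ≠ 0)
    (href : Rel F1 F2 F3 G Q1 V Q2 Q3) :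
    ∃ Z : Set (ℂ × ℂ), μH[2] Z = 0 ∧ ∀ᶠ w in 𝓝 (Q1, V, Q2, Q3),
      Rel F1 F2 F3 G w.1 w.2.1 w.2.2.1 w.2.2.2 → (w.1, w.2.1) ∈ Z := by
  obtain ⟨A⟩ := exists_mir F1 Q1 hF1 href.f1 hg1
  obtain ⟨B⟩ := exists_mir F2 Q2 hF2 href.f2 hg2
  obtain ⟨C⟩ := exists_mir F3 Q3 hF3 href.f3 hg3
  obtain ⟨η, κ, hη, hG⟩ := isom_class G.linearIsometryEquiv
  obtain ⟨hv, hf1, hf2, hf3, a0, b0, c0, w20, w30, ha0, hb0, hc0, hq2, hw2, hq3, hw3, hGq, hGw,
    ht1, ht2, ht3⟩ := href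
  have oA := A.ho.self_of_nhds
  have oB := B.ho.self_of_nhds
  have oC := C.ho.self_of_nhds
  rw [A.γ0] at oA
  rw [B.γ0] at oB
  rw [C.γ0] at oC
  -- the reference angles
  obtain ⟨φ12, hφ12⟩ : ∃ φ : ℝ, V = Complex.exp (Complex.I * φ) := by
    refine ⟨Complex.arg V, ?_⟩
    have := Complex.norm_mul_exp_arg_mul_I V
    rw [hv, Complex.ofReal_one, one_mul] at this
    rw [mul_comm Complex.I]; exact this.symm
  obtain ⟨φ23, hφ23⟩ : ∃ φ : ℝ, φ = 2 * (B.L 0).im - φ12 := ⟨_, rfl⟩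
  obtain ⟨φ31, hφ31⟩ : ∃ φ : ℝ, φ = 2 * (C.L 0).im - φ23 := ⟨_, rfl⟩
  have hw2' : w20 = Complex.exp (Complex.I * φ23) := by
    rw [hw2, hφ12, rfl_exp _ _ _ hg2 oB.1, hφ23]
  have hw3' : w30 = Complex.exp (Complex.I * φ31) := by
    rw [hw3, hw2', rfl_exp _ _ _ hg3 oC.1, hφ31]
  obtain ⟨K, hK⟩ : ∃ K : ℝ, K = φ12 + η * φ31 - 2 * (A.L 0).im := ⟨_, rfl⟩
  have hηη : η * η = 1 := by rcases hη with h | h <;> rw [h] <;> norm_num
  have hGexp : ∀ θ : ℝ, G.linearIsometryEquiv (Complex.exp (Complex.I * θ)) =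
      Complex.exp (Complex.I * (κ + η * θ : ℝ)) := by
    intro θ
    have := hG 1 θ
    simpa only [Complex.ofReal_one, one_mul] using this
  have hKκ : Complex.exp (Complex.I * κ) = Complex.exp (Complex.I * (η * K : ℝ)) := by
    have h1 : Complex.exp (Complex.I * (κ + η * (2 * (A.L 0).im - φ12) : ℝ)) =
        Complex.exp (Complex.I * φ31) := by
      rw [← hw3', ← hGw, hφ12, rfl_exp _ _ _ hg1 oA.1, hGexp]
    have h2 : Complex.exp (Complex.I * κ) =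
        Complex.exp (Complex.I * (κ + η * (2 * (A.L 0).im - φ12) : ℝ)) *
          Complex.exp (Complex.I * (-(η * (2 * (A.L 0).im - φ12)) : ℝ)) := by
      rw [← Complex.exp_add]; congr 1; push_cast; ring
    rw [h2, h1, ← Complex.exp_add, hK]
    congr 1
    have h3 : φ31 + -(η * (2 * (A.L 0).im - φ12)) = η * (φ12 + η * φ31 - 2 * (A.L 0).im) := by
      linear_combination (-φ31) * hηη
    rw [← h3]; push_cast; ring
  -- the sides
  have A2 : ContDiffAt ℝ 2 A.γ 0 := A.γs.of_le (by norm_num)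
  have B2 : ContDiffAt ℝ 2 B.γ 0 := B.γs.of_le (by norm_num)
  have C2 : ContDiffAt ℝ 2 C.γ 0 := C.γs.of_le (by norm_num)
  have A1' : ContDiffAt ℝ 2 (fun x : ℝ × ℝ => A.γ x.1) 0 :=
    ContDiffAt.comp (0 : ℝ × ℝ) (f := fun x : ℝ × ℝ => x.1) (by exact A2) contDiffAt_fst
  have B1' : ContDiffAt ℝ 2 (fun x : ℝ × ℝ => B.γ x.1) 0 :=
    ContDiffAt.comp (0 : ℝ × ℝ) (f := fun x : ℝ × ℝ => x.1) (by exact B2) contDiffAt_fst
  have B2' : ContDiffAt ℝ 2 (fun x : ℝ × ℝ => B.γ x.2) 0 :=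
    ContDiffAt.comp (0 : ℝ × ℝ) (f := fun x : ℝ × ℝ => x.2) (by exact B2) contDiffAt_snd
  have C2' : ContDiffAt ℝ 2 (fun x : ℝ × ℝ => C.γ x.2) 0 :=
    ContDiffAt.comp (0 : ℝ × ℝ) (f := fun x : ℝ × ℝ => x.2) (by exact C2) contDiffAt_snd
  have GA1' : ContDiffAt ℝ 2 (fun x : ℝ × ℝ => G (A.γ x.1)) 0 := by
    have h1 : ContDiffAt ℝ 2 (fun x : ℝ × ℝ => G.linearIsometryEquiv (A.γ x.1) + G 0) 0 :=
      (G.linearIsometryEquiv.contDiff.contDiffAt.comp (0 : ℝ × ℝ) A1').add contDiffAt_const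
    exact h1.congr_of_eventuallyEq (Eventually.of_forall fun x => isom_eq G _)
  obtain ⟨l12, hl12, l120, e12⟩ := exists_lift (fun x : ℝ × ℝ => B.γ x.2 - A.γ x.1) 0
    (B2'.sub A1') ((Real.log a0 : ℂ) + Complex.I * φ12) (by
      rw [exp_mk _ _ ha0, ← hφ12]
      change B.γ 0 - A.γ 0 = _
      rw [B.γ0, A.γ0, hq2]; ring)
  obtain ⟨l23, hl23, l230, e23⟩ := exists_lift (fun x : ℝ × ℝ => C.γ x.2 - B.γ x.1) 0
    (C2'.sub B1') ((Real.log b0 : ℂ) + Complex.I * φ23) (by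
      rw [exp_mk _ _ hb0, ← hw2']
      change C.γ 0 - B.γ 0 = _
      rw [C.γ0, B.γ0, hq3]; ring)
  obtain ⟨l31, hl31, l310, e31⟩ := exists_lift (fun x : ℝ × ℝ => G (A.γ x.1) - C.γ x.2) 0
    (GA1'.sub C2') ((Real.log c0 : ℂ) + Complex.I * φ31) (by
      rw [exp_mk _ _ hc0, ← hw3']
      change G (A.γ 0) - C.γ 0 = _
      rw [A.γ0, C.γ0, hGq]; ring)
  have i12 : (l12 0).im = φ12 := by rw [l120]; simp
  have i23 : (l23 0).im = φ23 := by rw [l230]; simp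
  have i31 : (l31 0).im = φ31 := by rw [l310]; simp
  have s1 : Real.sin ((l12 0).im - (A.L 0).im) ≠ 0 := by
    rw [i12, ← neg_sub, Real.sin_neg]
    exact neg_ne_zero.2 (transversal _ _ _ oA.1 (by rw [← hφ12]; exact ht1))
  have s2 : Real.sin ((B.L 0).im - (l12 0).im) ≠ 0 := by
    rw [i12]
    exact transversal _ _ _ oB.1 (by rw [← hφ12]; exact ht2)
  have s3 : Real.sin ((C.L 0).im - (l23 0).im) ≠ 0 := by
    rw [i23]
    exact transversal _ _ _ oC.1 (by rw [← hw2']; exact ht3)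
  obtain ⟨S, hS0, hS, hrel, hSu⟩ := exists_S B C l12 l23 hl12 hl23 e23
    (by rw [i12, i23, hφ23]; ring) s3
  obtain ⟨U, hUo, hU0, hUn⟩ := exists_null A B C G η κ K hη hG hKκ l12 l23 l31 hl12 hl23 hl31
    e12 e23 e31 S hS0 hS hrel s1 s2 s3
  -- the parametrisation of the phase points
  have hΘ : ContDiffAt ℝ 1 (fun x : ℝ × ℝ => (A.γ x.1, Complex.exp (Complex.I * (l12 x).im))) 0 := by
    have h1 : ContDiffAt ℝ 1 (fun x : ℝ × ℝ => (l12 x).im) 0 :=
      (Complex.imCLM.contDiff.contDiffAt.comp (0 : ℝ × ℝ) hl12).of_le (by norm_num)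
    have h2 : ContDiffAt ℝ 1 (fun x : ℝ × ℝ => ((l12 x).im : ℂ)) 0 :=
      Complex.ofRealCLM.contDiff.contDiffAt.comp (0 : ℝ × ℝ) h1
    exact (A1'.of_le (by norm_num)).prodMk (contDiffAt_const.mul h2).cexp
  obtain ⟨k, t, ht, hlip⟩ := hΘ.exists_lipschitzOnWith
  obtain ⟨E, hE⟩ : ∃ E : Set (ℝ × ℝ), E = {x | x ∈ U ∧
      (l23 (x.2, S x)).im + (l31 (x.1, S x)).im = 2 * (C.L (S x)).im ∧
        (l12 x).im + η * (l31 (x.1, S x)).im = 2 * (A.L x.1).im + K} := ⟨_, rfl⟩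
  rw [← hE] at hUn
  refine ⟨(fun x : ℝ × ℝ => (A.γ x.1, Complex.exp (Complex.I * (l12 x).im))) '' (E ∩ t), ?_, ?_⟩
  · have h1 := (hlip.mono (inter_subset_right (s := E))).hausdorffMeasure_image_le
      (d := 2) (by norm_num)
    have h2 : (μH[2] : Measure (ℝ × ℝ)) (E ∩ t) = 0 := by
      rw [hausdorffMeasure_prod_real]
      exact measure_mono_null inter_subset_left hUn
    rw [h2, mul_zero] at h1
    exact le_antisymm h1 bot_le
  · -- the coordinates of a nearby trajectory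
    have c1 : ContinuousAt (fun y : (ℝ × ℝ) × ℝ => (y.1.2, y.2)) 0 := by fun_prop
    have c2 : ContinuousAt (fun y : (ℝ × ℝ) × ℝ => (y.1.1, y.2)) 0 := by fun_prop
    have c3 : ContinuousAt (fun y : (ℝ × ℝ) × ℝ => y.1.1) 0 := by fun_prop
    have c4 : ContinuousAt (fun y : (ℝ × ℝ) × ℝ => y.1.2) 0 := by fun_prop
    have c5 : ContinuousAt (fun y : (ℝ × ℝ) × ℝ => y.2) 0 := by fun_prop
    have c6 : ContinuousAt (fun y : (ℝ × ℝ) × ℝ => y.1) 0 := by fun_prop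
    have t1 := tendsto_of_cont c1 (y := (0 : ℝ × ℝ)) rfl
    have t2 := tendsto_of_cont c2 (y := (0 : ℝ × ℝ)) rfl
    have t3 := tendsto_of_cont c3 (y := (0 : ℝ)) rfl
    have t4 := tendsto_of_cont c4 (y := (0 : ℝ)) rfl
    have t5 := tendsto_of_cont c5 (y := (0 : ℝ)) rfl
    have t6 := tendsto_of_cont c6 (y := (0 : ℝ × ℝ)) rfl
    have im12 : ContinuousAt (fun y : (ℝ × ℝ) × ℝ => (l12 y.1).im) 0 :=
      Complex.continuous_im.continuousAt.comp
        (ContinuousAt.comp (f := fun y : (ℝ × ℝ) × ℝ => y.1) (by exact hl12.continuousAt) c6)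
    have im23 : ContinuousAt (fun y : (ℝ × ℝ) × ℝ => (l23 (y.1.2, y.2)).im) 0 :=
      Complex.continuous_im.continuousAt.comp
        (ContinuousAt.comp (f := fun y : (ℝ × ℝ) × ℝ => (y.1.2, y.2))
          (by exact hl23.continuousAt) c1)
    have im31 : ContinuousAt (fun y : (ℝ × ℝ) × ℝ => (l31 (y.1.1, y.2)).im) 0 :=
      Complex.continuous_im.continuousAt.comp
        (ContinuousAt.comp (f := fun y : (ℝ × ℝ) × ℝ => (y.1.1, y.2))
          (by exact hl31.continuousAt) c2)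
    have imA : ContinuousAt (fun y : (ℝ × ℝ) × ℝ => (A.L y.1.1).im) 0 :=
      Complex.continuous_im.continuousAt.comp
        (ContinuousAt.comp (f := fun y : (ℝ × ℝ) × ℝ => y.1.1) (by exact A.Ls.continuousAt) c3)
    have imB : ContinuousAt (fun y : (ℝ × ℝ) × ℝ => (B.L y.1.2).im) 0 :=
      Complex.continuous_im.continuousAt.comp
        (ContinuousAt.comp (f := fun y : (ℝ × ℝ) × ℝ => y.1.2) (by exact B.Ls.continuousAt) c4)
    have imC : ContinuousAt (fun y : (ℝ × ℝ) × ℝ => (C.L y.2).im) 0 :=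
      Complex.continuous_im.continuousAt.comp
        (ContinuousAt.comp (f := fun y : (ℝ × ℝ) × ℝ => y.2) (by exact C.Ls.continuousAt) c5)
    have small : ∀ f : (ℝ × ℝ) × ℝ → ℝ, ContinuousAt f 0 → f 0 = 0 →
        ∀ᶠ y in 𝓝 (0 : (ℝ × ℝ) × ℝ), |f y| < 1 := by
      intro f hf h0
      have h1 : ContinuousAt (fun y => |f y|) 0 := hf.abs
      exact h1.eventually_lt continuousAt_const (by simp [h0])
    have k2 := small (fun y => (l12 y.1).im + (l23 (y.1.2, y.2)).im - 2 * (B.L y.1.2).im)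
      ((im12.add im23).sub (imB.const_mul 2)) (by
        change (l12 0).im + (l23 0).im - 2 * (B.L 0).im = 0
        rw [i12, i23, hφ23]; ring)
    have k3 := small (fun y => (l23 (y.1.2, y.2)).im + (l31 (y.1.1, y.2)).im - 2 * (C.L y.2).im)
      ((im23.add im31).sub (imC.const_mul 2)) (by
        change (l23 0).im + (l31 0).im - 2 * (C.L 0).im = 0
        rw [i31, i23, hφ31]; ring)
    have k1 := small (fun y => (l12 y.1).im + η * (l31 (y.1.1, y.2)).im -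
        (2 * (A.L y.1.1).im + K))
      ((im12.add (im31.const_mul η)).sub ((imA.const_mul 2).add continuousAt_const)) (by
        change (l12 0).im + η * (l31 0).im - (2 * (A.L 0).im + K) = 0
        rw [i31, i12, hK]; ring)
    have hall := k1.and (k2.and (k3.and ((t6.eventually e12).and ((t1.eventually e23).and
      ((t2.eventually e31).and ((t3.eventually A.ho).and ((t4.eventually B.ho).and
      ((t5.eventually C.ho).and (hSu.and ((t6.eventually (hUo.mem_nhds hU0)).and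
      (t6.eventually ht)))))))))))
    -- transfer
    have σA : ContinuousAt (fun w : ℂ × ℂ × ℂ × ℂ => A.σ w.1) (Q1, V, Q2, Q3) :=
      ContinuousAt.comp (f := fun w : ℂ × ℂ × ℂ × ℂ => w.1) (by exact A.σc) continuousAt_fst
    have σB : ContinuousAt (fun w : ℂ × ℂ × ℂ × ℂ => B.σ w.2.2.1) (Q1, V, Q2, Q3) :=
      ContinuousAt.comp (f := fun w : ℂ × ℂ × ℂ × ℂ => w.2.2.1) (by exact B.σc) (by fun_prop)
    have σC : ContinuousAt (fun w : ℂ × ℂ × ℂ × ℂ => C.σ w.2.2.2) (Q1, V, Q2, Q3) :=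
      ContinuousAt.comp (f := fun w : ℂ × ℂ × ℂ × ℂ => w.2.2.2) (by exact C.σc) (by fun_prop)
    have hT : Tendsto (fun w : ℂ × ℂ × ℂ × ℂ => ((A.σ w.1, B.σ w.2.2.1), C.σ w.2.2.2))
        (𝓝 (Q1, V, Q2, Q3)) (𝓝 (0 : (ℝ × ℝ) × ℝ)) := by
      refine tendsto_of_cont ((σA.prodMk σB).prodMk σC) ?_
      change ((A.σ Q1, B.σ Q2), C.σ Q3) = 0
      rw [A.σ0, B.σ0, C.σ0]; rfl
    have u1 : Tendsto (fun w : ℂ × ℂ × ℂ × ℂ => w.1) (𝓝 (Q1, V, Q2, Q3)) (𝓝 Q1) :=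
      continuousAt_fst
    have u2 : Tendsto (fun w : ℂ × ℂ × ℂ × ℂ => w.2.2.1) (𝓝 (Q1, V, Q2, Q3)) (𝓝 Q2) := by
      have : ContinuousAt (fun w : ℂ × ℂ × ℂ × ℂ => w.2.2.1) (Q1, V, Q2, Q3) := by fun_prop
      exact this
    have u3 : Tendsto (fun w : ℂ × ℂ × ℂ × ℂ => w.2.2.2) (𝓝 (Q1, V, Q2, Q3)) (𝓝 Q3) := by
      have : ContinuousAt (fun w : ℂ × ℂ × ℂ × ℂ => w.2.2.2) (Q1, V, Q2, Q3) := by fun_prop
      exact this
    filter_upwards [hT.eventually hall, u1.eventually A.hs, u2.eventually B.hs,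
      u3.eventually C.hs] with w hw p1 p2 p3 hR
    obtain ⟨v1, v2, v3, v4, v5, v6, v7, v8, v9, v10, v11, v12⟩ := hw
    rw [p1 hR.f1] at v4 v6 v7
    rw [p2 hR.f2] at v4 v5 v8
    rw [p3 hR.f3] at v5 v6 v9
    obtain ⟨x1, x2, x3, x4⟩ := angle_rels G η κ K hη hGexp hKκ w.1 w.2.1 w.2.2.1 w.2.2.2
      _ _ _ _ _ _ v4 v5 v6 v7 v8 v9 v2 v3 v1 hR
    have x5 := v10 x2
    refine ⟨(A.σ w.1, B.σ w.2.2.1), ⟨?_, v12⟩, ?_⟩
    · rw [hE]
      refine ⟨v11, ?_, ?_⟩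
      · simp only
        rw [← x5]; exact x3
      · simp only
        rw [← x5]; exact x4
    · simp only
      rw [p1 hR.f1, ← x1]

end Pool.Agent.H721R2.Ivrii
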