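import Pool.Agent.H721R2.Ivrii.NNull

set_option autoImplicit false

open MeasureTheory Set Filter Topology

namespace Pool.Agent.H721R2.Ivrii

namespace NCfg

variable (D : NCfg)

/-- Trajectories with two bounces which close up to an isometry are negligible. -/
theorem null2 (hn : D.n = 2) : volume D.E = 0 := by
  obtain ⟨E1, hs, hm, hv, hp⟩ := D.exists_E0
  have hn0 : (0 : ℕ) ≤ D.n := Nat.zero_le _
  have hn1 : 1 ≤ D.n := by omega
  have hεε := D.hεε
  have hsn : ∀ k ≤ D.n, ∀ x ∈ E1, Real.sin (D.θ k x) ≠ 0 := fun k hk x hx =>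
    D.ns k hk x (hs hx).1
  -- the first direction
  have dir1 : ∀ x ∈ E1, D.ε = -1 ∧ D.a 0 x = D.a 1 x ∧ ∃ v : ℝ × ℝ,
      fderiv ℝ (D.a 0) x v = D.a 0 x * D.ct x 1 ∧ fderiv ℝ (D.a 1) x v = -(D.a 0 x * D.ct x 1) := by
    intro x hx
    have hxU := (hs hx).1
    obtain ⟨-, hS, hφ, -⟩ := hs hx
    obtain ⟨c1, c2, c3, c4⟩ := D.close x hxU hS hφ
    have hr1 := D.nr 1 hn1 x hxU
    have hs1 := hsn 1 hn1 x hx
    have ha0 := D.pa 0 (by omega) x hxU
    have ha1 := D.pa 1 (by omega) x hxU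
    obtain ⟨v, hv1, hv2⟩ : ∃ v : ℝ × ℝ, v.1 = 0 ∧
        v.2 * D.r 1 (D.S 1 x) * Real.sin (D.θ 1 x) = D.a 0 x :=
      ⟨(0, D.a 0 x / (D.r 1 (D.S 1 x) * Real.sin (D.θ 1 x))), rfl, by
        simp only; field_simp⟩
    obtain ⟨A1, A2⟩ := D.side_deriv (k := 0) (by omega) hxU v
    obtain ⟨B1, B2⟩ := D.side_deriv (k := 1) (by omega) hxU v
    have R2 := D.refl_deriv (k := 1) (by omega) hxU v
    obtain ⟨P1, P2⟩ := hp x hx v
    rw [hn] at P1 P2 c1 c2 c3 c4
    have hξ0 : D.ξ x v 0 = 0 := by rw [D.ξ_zero, hv1]; ring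
    have hξ1 : D.ξ x v 1 = D.a 0 x := by rw [D.ξ_one]; exact hv2
    have hξ2 : D.ξ x v 2 = 0 := by
      unfold ξ
      rw [P1, D.dS0, hv1]; ring
    simp only [zero_add] at A1 A2
    have e11 : (1 + 1 : ℕ) = 2 := rfl
    rw [e11, P2, P1, D.dS0, hv1, zero_mul, mul_zero] at R2
    rw [e11] at B1 B2
    rw [hξ0, hξ1] at A1 A2
    rw [hξ1, hξ2] at B1 B2
    have f0 : fderiv ℝ (D.φ 0) x v = 1 := by
      have : D.a 0 x * (fderiv ℝ (D.φ 0) x v - 1) = 0 := by linear_combination A2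
      rcases mul_eq_zero.1 this with h | h
      · exact absurd h ha0.ne'
      · linarith
    rw [f0] at R2
    have f1 : fderiv ℝ (D.φ 1) x v = -D.ε := by linarith
    rw [f1] at B2
    have hε : D.ε = -1 := by
      rcases D.hε with h | h
      · rw [h] at B2; nlinarith
      · exact h
    refine ⟨hε, ?_, v, by rw [A1]; ring, by rw [B1]; ring⟩
    rw [hε] at B2; linarith
  obtain ⟨E2, hs2, hm2, hp2, hv2⟩ := step E1 hm (fun x => D.a 0 x - D.a 1 x)
    (fun x hx => (D.da 0 (by omega) x (hs hx).1).sub (D.da 1 (by omega) x (hs hx).1))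
    (fun x hx => sub_eq_zero.2 (dir1 x hx).2.1)
  have hcos : ∀ x ∈ E2, Real.cos (D.θ 1 x) = 0 := by
    intro x hx
    have hxU := (hs (hs2 hx)).1
    obtain ⟨-, -, v, h1, h2⟩ := dir1 x (hs2 hx)
    have h3 := hp2 x hx v _ ((Cfg.line_deriv (D.da 0 (by omega) x hxU) v).sub
      (Cfg.line_deriv (D.da 1 (by omega) x hxU) v))
    rw [h1, h2] at h3
    have ha0 := D.pa 0 (by omega) x hxU
    have h4 : D.a 0 x * D.ct x 1 = 0 := by linarith
    rcases mul_eq_zero.1 h4 with h | h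
    · exact absurd h ha0.ne'
    · unfold ct at h
      rcases div_eq_zero_iff.1 h with h5 | h5
      · exact h5
      · exact absurd h5 (hsn 1 hn1 x (hs2 hx))
  obtain ⟨E3, hs3, hm3, hp3, hv3⟩ := step E2 hm2 (fun x => Real.cos (D.θ 1 x))
    (fun x hx => (D.dθ hn1 (hs (hs2 hx)).1).cos) hcos
  have hE3 : E3 = ∅ := by
    rw [Set.eq_empty_iff_forall_notMem]
    intro x hx
    have hx1 := hs2 (hs3 hx)
    have hxU := (hs hx1).1
    have hr0 := D.nr 0 hn0 x hxU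
    have hs0 := hsn 0 hn0 x hx1
    have ha0 := D.pa 0 (by omega) x hxU
    obtain ⟨v, hv1, hv2⟩ : ∃ v : ℝ × ℝ, v.1 * D.r 0 (D.S 0 x) * Real.sin (D.θ 0 x) = -D.a 0 x ∧
        v.2 = 0 :=
      ⟨(-D.a 0 x / (D.r 0 (D.S 0 x) * Real.sin (D.θ 0 x)), 0), by
        simp only; field_simp, rfl⟩
    obtain ⟨-, A2⟩ := D.side_deriv (k := 0) (by omega) hxU v
    have R1 := D.refl_deriv (k := 0) (by omega) hxU v
    simp only [zero_add] at A2 R1
    have hξ0 : D.ξ x v 0 = -D.a 0 x := by rw [D.ξ_zero]; exact hv1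
    have hξ1 : D.ξ x v 1 = 0 := by rw [D.ξ_one, hv2]; ring
    have hdS : fderiv ℝ (D.S 1) x v = 0 := D.dS_of_ξ hn1 hxU hξ1
    rw [hξ0, hξ1] at A2
    rw [hdS, zero_mul, mul_zero] at R1
    have f0 : fderiv ℝ (D.φ 0) x v = -1 := by
      have : D.a 0 x * (fderiv ℝ (D.φ 0) x v + 1) = 0 := by linear_combination A2
      rcases mul_eq_zero.1 this with h | h
      · exact absurd h ha0.ne'
      · linarith
    have f1 : fderiv ℝ (D.φ 1) x v = 1 := by linarith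
    have hθ := D.θ_line hn1 hxU v
    rw [f1, hdS, zero_mul, sub_zero] at hθ
    have h3 := hp3 x hx v _ hθ.cos
    simp only [zero_smul, add_zero, mul_one, neg_eq_zero] at h3
    exact hsn 1 hn1 x hx1 h3
  rw [hE3, sdiff_empty] at hv3
  exact null_of_diff D.E E1 hv (null_of_diff E1 E2 hv2 hv3)

end NCfg

end Pool.Agent.H721R2.Ivrii
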