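import Pool.Agent.H721R2.Ivrii.SetNull
import Pool.Agent.H721R2.Ivrii.NTwo

set_option autoImplicit false

open MeasureTheory Set Filter Topology
open scoped ComplexConjugate InnerProductSpace

namespace Pool.Agent.H721R2.Ivrii

theorem localDef_param {Ω : Set ℂ} {q : ℂ} {F : ℂ → ℝ} (h : LocalDef Ω q F) (M : Mir F q) :
    ∀ᶠ s in 𝓝 (0 : ℝ), LocalDef Ω (M.γ s) F := by
  have hc : Tendsto M.γ (𝓝 0) (𝓝 q) := tendsto_of_cont M.γs.continuousAt M.γ0
  have h1 : ∀ᶠ x in 𝓝 q, ContDiffAt ℝ 3 F x := h.smooth.eventually (by simp)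
  filter_upwards [hc.eventually h1, M.hz, M.ho,
    hc.eventually (eventually_eventually_nhds.2 h.mem)] with s h2 h3 h4 h5
  exact ⟨h2, h3, h4.2, h5⟩

theorem perp_im (N e l : ℂ) (hN : N ≠ 0) (he : e ≠ 0) (h1 : ⟪N, e⟫_ℝ = 0)
    (h2 : ⟪N, e * l⟫_ℝ = 0) : l.im = 0 := by
  rw [inner_eq] at h1 h2
  rw [Complex.mul_re, Complex.mul_im] at h2
  have h3 : (N.im * e.re - N.re * e.im) * l.im = 0 := by
    linear_combination h2 - l.re * h1
  rcases mul_eq_zero.1 h3 with h4 | h4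
  · exfalso
    have h5 : (N.re ^ 2 + N.im ^ 2) * (e.re ^ 2 + e.im ^ 2) = 0 := by
      linear_combination (N.im * e.re - N.re * e.im) * h4 + (N.re * e.re + N.im * e.im) * h1
    rcases mul_eq_zero.1 h5 with h6 | h6
    · apply hN
      apply Complex.ext
      · simp only [Complex.zero_re]; nlinarith [sq_nonneg N.re, sq_nonneg N.im]
      · simp only [Complex.zero_im]; nlinarith [sq_nonneg N.re, sq_nonneg N.im]
    · apply he
      apply Complex.ext
      · simp only [Complex.zero_re]; nlinarith [sq_nonneg e.re, sq_nonneg e.im]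
      · simp only [Complex.zero_im]; nlinarith [sq_nonneg e.re, sq_nonneg e.im]
  · exact h4

/-- At a point of zero curvature the tangent direction of the parametrisation is stationary. -/
theorem zero_curv {Ω : Set ℂ} {q : ℂ} {F : ℂ → ℝ} (h : LocalDef Ω q F) (M : Mir F q) :
    ∀ᶠ s in 𝓝 (0 : ℝ), ZeroCurv Ω (M.γ s) → (deriv M.L s).im = 0 := by
  have hL : ∀ᶠ s in 𝓝 (0 : ℝ), ContDiffAt ℝ 2 M.L s := M.Ls.eventually (by simp)
  filter_upwards [eventually_eventually_nhds.2 (localDef_param h M),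
    eventually_eventually_nhds.2 M.hd, hL] with s h1 h2 h3
  rintro ⟨F', hF', hz⟩
  have hdL : HasDerivAt M.L (deriv M.L s) s :=
    (h3.differentiableAt (by norm_num)).hasDerivAt
  have hγ : HasDerivAt M.γ (Complex.exp (M.L s)) s := h2.self_of_nhds
  have hc : Tendsto M.γ (𝓝 s) (𝓝 (M.γ s)) := hγ.continuousAt
  have hF'1 : ∀ᶠ x in 𝓝 (M.γ s), ContDiffAt ℝ 3 F' x := hF'.smooth.eventually (by simp)
  -- `F'` vanishes along the curve
  have e1 : ∀ᶠ t in 𝓝 s, F' (M.γ t) = 0 := by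
    filter_upwards [h1, hc.eventually hF'1,
      hc.eventually (eventually_eventually_nhds.2 hF'.mem)] with t t1 t2 t3
    exact zero_of_mem t2.continuousAt t3 t1
  have e2 : ∀ᶠ t in 𝓝 s, fderiv ℝ F' (M.γ t) (Complex.exp (M.L t)) = 0 := by
    filter_upwards [eventually_eventually_nhds.2 e1, hc.eventually hF'1, h2] with t t1 t2 t3
    have h5 : HasDerivAt (fun t => F' (M.γ t)) (fderiv ℝ F' (M.γ t) (Complex.exp (M.L t))) t :=
      (t2.differentiableAt (by norm_num)).hasFDerivAt.comp_hasDerivAt t t3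
    have h6 : HasDerivAt (fun t => F' (M.γ t)) 0 t :=
      (hasDerivAt_const t (0 : ℝ)).congr_of_eventuallyEq t1
    exact h5.unique h6
  have hDF : HasFDerivAt (fderiv ℝ F') (fderiv ℝ (fderiv ℝ F') (M.γ s)) (M.γ s) := by
    have : ContDiffAt ℝ 2 (fderiv ℝ F') (M.γ s) := hF'.smooth.fderiv_right (m := 2) (by norm_num)
    exact (this.differentiableAt (by norm_num)).hasFDerivAt
  have e3 : HasDerivAt (fun t => fderiv ℝ F' (M.γ t))
      (fderiv ℝ (fderiv ℝ F') (M.γ s) (Complex.exp (M.L s))) s := hDF.comp_hasDerivAt s hγ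
  have e4 : HasDerivAt (fun t => fderiv ℝ F' (M.γ t) (Complex.exp (M.L t)))
      (fderiv ℝ (fderiv ℝ F') (M.γ s) (Complex.exp (M.L s)) (Complex.exp (M.L s)) +
        fderiv ℝ F' (M.γ s) (Complex.exp (M.L s) * deriv M.L s)) s :=
    e3.clm_apply hdL.cexp
  have e5 := e4.unique ((hasDerivAt_const s (0 : ℝ)).congr_of_eventuallyEq e2)
  have hgrad : ∀ w, fderiv ℝ F' (M.γ s) w = ⟪gradient F' (M.γ s), w⟫_ℝ := by
    intro w
    have := (hasFDerivAt_grad' (hF'.smooth.differentiableAt (by norm_num))).fderiv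
    rw [this]; rfl
  have e6 : ⟪gradient F' (M.γ s), Complex.exp (M.L s)⟫_ℝ = 0 := by
    rw [← hgrad]; exact e2.self_of_nhds
  rw [hz _ e6, zero_add, hgrad] at e5
  exact perp_im _ _ _ hF'.grad (Complex.exp_ne_zero _) e6 e5

/-- A local mirror of the table `Ω`. -/
structure Mirr (Ω : Set ℂ) where
  q : ℂ
  F : ℂ → ℝ
  df : LocalDef Ω q F
  M : Mir F q

theorem exists_Mirr {Ω : Set ℂ} {q : ℂ} {F : ℂ → ℝ} (h : LocalDef Ω q F) :
    ∃ A : Mirr Ω, A.q = q := by
  obtain ⟨M⟩ := exists_mir F q h.smooth h.zero h.grad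
  exact ⟨⟨q, F, h, M⟩, rfl⟩

end Pool.Agent.H721R2.Ivrii
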