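import Pool.Agent.H721R2.Ivrii.Lev

set_option autoImplicit false

open MeasureTheory Set Filter Topology

namespace Pool.Agent.H721R2.Ivrii

/-- A two-parameter family of trajectories with `n` bounces. The parameters are the positions
`S 0`, `S 1` on the first two mirrors; `S k` is the position on the mirror `γ k`, `a k` and `φ k`
are the length and the angle of the side from mirror `k` to mirror `k + 1`. The mirror `n` is a
copy of the mirror `0`. -/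
structure NCfg where
  U : Set (ℝ × ℝ)
  hU : IsOpen U
  n : ℕ
  hn : 2 ≤ n
  Z : Finset ℕ
  hZ : ∀ k ∈ Z, k < n
  ε : ℝ
  hε : ε = 1 ∨ ε = -1
  K : ℝ
  γ : ℕ → ℝ → ℂ
  r : ℕ → ℝ → ℝ
  ψ : ℕ → ℝ → ℝ
  κ : ℕ → ℝ → ℝ
  a : ℕ → ℝ × ℝ → ℝ
  φ : ℕ → ℝ × ℝ → ℝ
  S : ℕ → ℝ × ℝ → ℝ
  S0 : S 0 = fun x => x.1
  S1 : S 1 = fun x => x.2
  hγ : ∀ k ≤ n, ∀ x ∈ U,
    HasDerivAt (γ k) (r k (S k x) * Complex.exp (Complex.I * ψ k (S k x))) (S k x)
  side : ∀ k < n, ∀ x ∈ U,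
    γ (k + 1) (S (k + 1) x) - γ k (S k x) = a k x * Complex.exp (Complex.I * φ k x)
  refl : ∀ k < n, ∀ x ∈ U, φ k x + φ (k + 1) x = 2 * ψ (k + 1) (S (k + 1) x)
  da : ∀ k < n, ∀ x ∈ U, DifferentiableAt ℝ (a k) x
  dφ : ∀ k ≤ n, ∀ x ∈ U, DifferentiableAt ℝ (φ k) x
  dS : ∀ k ≤ n, ∀ x ∈ U, DifferentiableAt ℝ (S k) x
  hψ : ∀ k ≤ n, ∀ x ∈ U, HasDerivAt (ψ k) (κ k (S k x)) (S k x)
  dκ : ∀ k ≤ n, ∀ x ∈ U, DifferentiableAt ℝ (κ k) (S k x)
  dr : ∀ x ∈ U, DifferentiableAt ℝ (r 0) (S 0 x)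
  pa : ∀ k < n, ∀ x ∈ U, 0 < a k x
  nr : ∀ k ≤ n, ∀ x ∈ U, r k (S k x) ≠ 0
  ns : ∀ k ≤ n, ∀ x ∈ U, Real.sin (φ k x - ψ k (S k x)) ≠ 0
  close : ∀ x ∈ U, S n x = S 0 x → φ n x = ε * φ 0 x + K →
    r n (S n x) = r 0 (S 0 x) ∧ κ n (S n x) = ε * κ 0 (S 0 x) ∧
    Real.sin (φ n x - ψ n (S n x)) = ε * Real.sin (φ 0 x - ψ 0 (S 0 x)) ∧
    Real.cos (φ n x - ψ n (S n x)) = Real.cos (φ 0 x - ψ 0 (S 0 x))

namespace NCfg

variable (D : NCfg)

/-- The angle with the mirror. -/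
noncomputable def θ (k : ℕ) (x : ℝ × ℝ) : ℝ := D.φ k x - D.ψ k (D.S k x)

/-- The closed trajectories of the family along which the curvature vanishes at the bounces in
`Z`. -/
def E : Set (ℝ × ℝ) :=
  {x | x ∈ D.U ∧ D.S D.n x = D.S 0 x ∧ D.φ D.n x = D.ε * D.φ 0 x + D.K ∧
    ∀ k ∈ D.Z, D.κ k (D.S k x) = 0}

theorem hεε : D.ε * D.ε = 1 := by rcases D.hε with h | h <;> rw [h] <;> norm_num

theorem meas_zero {U : Set (ℝ × ℝ)} (hU : IsOpen U) {f : ℝ × ℝ → ℝ}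
    (hd : ∀ x ∈ U, ContinuousAt f x) : MeasurableSet {x | x ∈ U ∧ f x = 0} := by
  have h1 : IsOpen (U ∩ f ⁻¹' {0}ᶜ) :=
    ContinuousOn.isOpen_inter_preimage (fun x hx => (hd x hx).continuousWithinAt) hU
      isOpen_compl_singleton
  have : {x | x ∈ U ∧ f x = 0} = U \ (U ∩ f ⁻¹' {0}ᶜ) := by
    ext x
    constructor
    · rintro ⟨h, h3⟩
      exact ⟨h, fun h4 => h4.2 h3⟩
    · rintro ⟨h, h3⟩
      refine ⟨h, ?_⟩
      by_contra h4
      exact h3 ⟨h, h4⟩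
  rw [this]
  exact hU.measurableSet.diff h1.measurableSet

theorem measurable_E : MeasurableSet D.E := by
  have e : D.E = ({x | x ∈ D.U ∧ D.S D.n x - D.S 0 x = 0} ∩
      {x | x ∈ D.U ∧ D.φ D.n x - (D.ε * D.φ 0 x + D.K) = 0}) ∩
      ⋂ k ∈ D.Z, ({x | x ∈ D.U ∧ D.κ k (D.S k x) = 0} ∪ D.Uᶜ) := by
    ext x
    simp only [E, mem_ofPred_eq, mem_inter_iff, mem_iInter, mem_union, mem_compl_iff]
    constructor
    · rintro ⟨h, h1, h2, h3⟩
      exact ⟨⟨⟨h, by linarith⟩, ⟨h, by linarith⟩⟩, fun k hk => Or.inl ⟨h, h3 k hk⟩⟩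
    · rintro ⟨⟨⟨h, h1⟩, ⟨-, h2⟩⟩, h3⟩
      refine ⟨h, by linarith, by linarith, fun k hk => ?_⟩
      rcases h3 k hk with h4 | h4
      · exact h4.2
      · exact absurd h h4
  rw [e]
  refine ((meas_zero D.hU fun x hx => ?_).inter (meas_zero D.hU fun x hx => ?_)).inter
    (MeasurableSet.biInter D.Z.countable_toSet fun k hk =>
      (meas_zero D.hU fun x hx => ?_).union D.hU.measurableSet.compl)
  · exact ((D.dS _ le_rfl x hx).sub (D.dS 0 (Nat.zero_le _) x hx)).continuousAt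
  · exact ((D.dφ _ le_rfl x hx).sub
      (((D.dφ 0 (Nat.zero_le _) x hx).const_mul D.ε).add_const D.K)).continuousAt
  · have hk' := (D.hZ k hk).le
    exact ContinuousAt.comp (D.dκ k hk' x hx).continuousAt (D.dS k hk' x hx).continuousAt

/-- Composition with the position functions. -/
theorem line_S {E : Type*} [NormedAddCommGroup E] [NormedSpace ℝ E] {f : ℝ → E} {f' : E}
    {k : ℕ} (hk : k ≤ D.n) {x : ℝ × ℝ} (hx : x ∈ D.U) (h : HasDerivAt f f' (D.S k x))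
    (v : ℝ × ℝ) :
    HasDerivAt (fun t : ℝ => f (D.S k (x + t • v))) ((fderiv ℝ (D.S k) x v) • f') 0 := by
  have h1 := Cfg.line_deriv (D.dS k hk x hx) v
  have h2 : HasDerivAt f f' ((fun t : ℝ => D.S k (x + t • v)) 0) := by simpa using h
  exact h2.scomp (0 : ℝ) h1

theorem ev_U {x : ℝ × ℝ} (hx : x ∈ D.U) (v : ℝ × ℝ) : ∀ᶠ t in 𝓝 (0 : ℝ), x + t • v ∈ D.U :=
  Cfg.eventually_line (D.hU.mem_nhds hx) v

/-- The differential `ξ k = r k sin θ k dS k`. -/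
noncomputable def ξ (x v : ℝ × ℝ) (k : ℕ) : ℝ :=
  fderiv ℝ (D.S k) x v * D.r k (D.S k x) * Real.sin (D.θ k x)

/-- The cotangent of the angle with the mirror. -/
noncomputable def ct (x : ℝ × ℝ) (k : ℕ) : ℝ := Real.cos (D.θ k x) / Real.sin (D.θ k x)

theorem side_deriv {k : ℕ} (hk : k < D.n) {x : ℝ × ℝ} (hx : x ∈ D.U) (v : ℝ × ℝ) :
    fderiv ℝ (D.a k) x v = D.ξ x v (k + 1) * D.ct x (k + 1) - D.ξ x v k * D.ct x k ∧
    D.a k x * fderiv ℝ (D.φ k) x v = D.ξ x v k + D.ξ x v (k + 1) := by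
  have hk1 : k ≤ D.n := hk.le
  have hk2 : k + 1 ≤ D.n := hk
  have hC := (D.line_S hk2 hx (D.hγ (k + 1) hk2 x hx) v).sub
    (D.line_S hk1 hx (D.hγ k hk1 x hx) v)
  have := polar_deriv (fun t : ℝ => D.γ (k + 1) (D.S (k + 1) (x + t • v)) -
      D.γ k (D.S k (x + t • v)))
    (fun t : ℝ => D.a k (x + t • v)) (fun t : ℝ => D.φ k (x + t • v)) _ _
    (fderiv ℝ (D.S (k + 1)) x v * D.r (k + 1) (D.S (k + 1) x))
    (fderiv ℝ (D.S k) x v * D.r k (D.S k x))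
    (D.ψ (k + 1) (D.S (k + 1) x)) (D.ψ k (D.S k x))
    (by
      refine hC.congr_deriv ?_
      simp only [Complex.real_smul]; push_cast; ring)
    (Cfg.line_deriv (D.da k hk x hx) v) (Cfg.line_deriv (D.dφ k hk1 x hx) v)
    ((D.ev_U hx v).mono fun t ht => D.side k hk _ ht)
  simp only [zero_smul, add_zero] at this
  obtain ⟨h1, h2⟩ := this
  have e : D.ψ k (D.S k x) - D.φ k x = -(D.θ k x) := by simp [θ]
  have e' : D.ψ (k + 1) (D.S (k + 1) x) - D.φ k x = D.θ (k + 1) x := by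
    have := D.refl k hk x hx
    simp only [θ]; linarith
  have n1 : Real.sin (D.θ k x) ≠ 0 := D.ns k hk1 x hx
  have n2 : Real.sin (D.θ (k + 1) x) ≠ 0 := D.ns (k + 1) hk2 x hx
  rw [e, e', Real.cos_neg] at h1
  rw [e, e', Real.sin_neg] at h2
  constructor
  · rw [h1]
    simp only [ξ, ct]
    field_simp
  · rw [h2]
    simp only [ξ]
    ring

theorem refl_deriv {k : ℕ} (hk : k < D.n) {x : ℝ × ℝ} (hx : x ∈ D.U) (v : ℝ × ℝ) :
    fderiv ℝ (D.φ k) x v + fderiv ℝ (D.φ (k + 1)) x v =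
      2 * (fderiv ℝ (D.S (k + 1)) x v * D.κ (k + 1) (D.S (k + 1) x)) := by
  have h1 := (Cfg.line_deriv (D.dφ k hk.le x hx) v).add
    (Cfg.line_deriv (D.dφ (k + 1) hk x hx) v)
  have h2 := (D.line_S hk hx (D.hψ (k + 1) hk x hx) v).const_mul 2
  have h3 := h2.congr_of_eventuallyEq
    ((D.ev_U hx v).mono fun t ht => D.refl k hk _ ht)
  exact h1.unique h3

/-- The points at which the closing relations can be differentiated. -/
theorem exists_E0 : ∃ E' ⊆ D.E, MeasurableSet E' ∧ volume (D.E \ E') = 0 ∧ ∀ x ∈ E', ∀ v : ℝ × ℝ,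
    fderiv ℝ (D.S D.n) x v = fderiv ℝ (D.S 0) x v ∧
    fderiv ℝ (D.φ D.n) x v = D.ε * fderiv ℝ (D.φ 0) x v := by
  obtain ⟨E1, hs1, hm1, hp1, hv1⟩ := step D.E D.measurable_E (fun x => D.S D.n x - D.S 0 x)
    (fun x hx => (D.dS _ le_rfl x hx.1).sub (D.dS 0 (Nat.zero_le _) x hx.1))
    (fun x hx => sub_eq_zero.2 hx.2.1)
  obtain ⟨E2, hs2, hm2, hp2, hv2⟩ := step D.E D.measurable_E
    (fun x => D.φ D.n x - (D.ε * D.φ 0 x + D.K))
    (fun x hx => (D.dφ _ le_rfl x hx.1).sub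
      (((D.dφ 0 (Nat.zero_le _) x hx.1).const_mul D.ε).add_const D.K))
    (fun x hx => sub_eq_zero.2 hx.2.2.1)
  refine ⟨E1 ∩ E2, fun x hx => hs1 hx.1, hm1.inter hm2, ?_, ?_⟩
  · rw [sdiff_inter]
    exact measure_union_null hv1 hv2
  · intro x hx v
    have hxU : x ∈ D.U := (hs1 hx.1).1
    constructor
    · have := hp1 x hx.1 v _ ((Cfg.line_deriv (D.dS _ le_rfl x hxU) v).sub
        (Cfg.line_deriv (D.dS 0 (Nat.zero_le _) x hxU) v))
      linarith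
    · have := hp2 x hx.2 v _ ((Cfg.line_deriv (D.dφ _ le_rfl x hxU) v).sub
        (((Cfg.line_deriv (D.dφ 0 (Nat.zero_le _) x hxU) v).const_mul D.ε).add_const D.K))
      linarith

/-- Lumping together the sides between two curved mirrors. -/
theorem lump (a f ξ : ℕ → ℝ) (i d : ℕ) (h1 : ∀ t ≤ d, a (i + t) * f (i + t) =
      ξ (i + t) + ξ (i + t + 1))
    (h2 : ∀ t < d, f (i + t) + f (i + t + 1) = 0) :
    (∑ t ∈ Finset.range (d + 1), a (i + t)) * f i = ξ i + (-1) ^ d * ξ (i + d + 1) ∧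
      f (i + d) = (-1) ^ d * f i := by
  induction d with
  | zero =>
    have := h1 0 le_rfl
    simp only [add_zero] at this
    simp [this]
  | succ d ih =>
    obtain ⟨e1, e2⟩ := ih (fun t ht => h1 t (by omega)) (fun t ht => h2 t (by omega))
    have e3 : f (i + (d + 1)) = (-1) ^ (d + 1) * f i := by
      have := h2 d (by omega)
      rw [show i + (d + 1) = i + d + 1 by ring, pow_succ]
      linarith
    refine ⟨?_, e3⟩
    rw [Finset.sum_range_succ, add_mul, e1]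
    have h3 := h1 (d + 1) le_rfl
    rw [e3] at h3
    have h4 : ((-1 : ℝ) ^ (d + 1)) * ((-1 : ℝ) ^ (d + 1)) = 1 := by
      rw [← mul_pow]; norm_num
    have h5 : a (i + (d + 1)) * f i =
        (-1) ^ (d + 1) * (ξ (i + (d + 1)) + ξ (i + (d + 1) + 1)) := by
      linear_combination (-1 : ℝ) ^ (d + 1) * h3 - a (i + (d + 1)) * f i * h4
    rw [h5, show i + (d + 1) = i + d + 1 by ring, pow_succ]
    ring

theorem lump_sum (a' w : ℕ → ℝ) (i d : ℕ) (h : ∀ t ≤ d, a' (i + t) = w (i + t + 1) - w (i + t)) :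
    ∑ t ∈ Finset.range (d + 1), a' (i + t) = w (i + d + 1) - w i := by
  induction d with
  | zero =>
    have := h 0 le_rfl
    simpa using this
  | succ d ih =>
    rw [Finset.sum_range_succ, ih (fun t ht => h t (by omega)), h (d + 1) le_rfl]
    rw [show i + (d + 1) = i + d + 1 by ring]
    ring

end NCfg

end Pool.Agent.H721R2.Ivrii
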