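import Pool.Agent.H721R2.Ivrii.NLocal

set_option autoImplicit false

open MeasureTheory Set Filter Topology
open scoped ComplexConjugate InnerProductSpace

namespace Pool.Agent.H721R2.Ivrii

section ZC

variable {E : Type*} [NormedAddCommGroup E] [InnerProductSpace ℝ E] [CompleteSpace E]
variable {E' : Type*} [NormedAddCommGroup E'] [InnerProductSpace ℝ E'] [CompleteSpace E']

/-- Vanishing of the curvature is invariant under isometries. -/
theorem ZeroCurv.comp (g : E ≃ᵃⁱ[ℝ] E') {Ω : Set E'} {q : E} (h : ZeroCurv Ω (g q)) :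
    ZeroCurv (g ⁻¹' Ω) q := by
  obtain ⟨F, hF, hz⟩ := h
  refine ⟨F ∘ g, hF.comp g, fun w hw => ?_⟩
  obtain ⟨lin, hlin⟩ : ∃ lin : E →L[ℝ] E',
      lin = (g.linearIsometryEquiv.toContinuousLinearEquiv : E →L[ℝ] E') := ⟨_, rfl⟩
  have hg : ∀ x, HasFDerivAt g lin x := fun x => by rw [hlin]; exact isom_hasFDerivAt g x
  have h1 : ∀ᶠ x in 𝓝 (g q), ContDiffAt ℝ 3 F x := hF.smooth.eventually (by simp)
  have h2 : ∀ᶠ y in 𝓝 q, fderiv ℝ (F ∘ g) y = (fderiv ℝ F (g y)).comp lin := by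
    filter_upwards [g.continuous.continuousAt.tendsto.eventually h1] with y hy
    exact ((hy.differentiableAt (by norm_num)).hasFDerivAt.comp y (hg y)).fderiv
  have hDF : HasFDerivAt (fderiv ℝ F) (fderiv ℝ (fderiv ℝ F) (g q)) (g q) := by
    have : ContDiffAt ℝ 2 (fderiv ℝ F) (g q) := hF.smooth.fderiv_right (m := 2) (by norm_num)
    exact (this.differentiableAt (by norm_num)).hasFDerivAt
  have h3 : HasFDerivAt (fun y => (fderiv ℝ F (g y)).comp lin)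
      (((ContinuousLinearMap.compL ℝ E E' ℝ).flip lin).comp
        ((fderiv ℝ (fderiv ℝ F) (g q)).comp lin)) q :=
    ((ContinuousLinearMap.compL ℝ E E' ℝ).flip lin).hasFDerivAt.comp q (hDF.comp q (hg q))
  have h4 := (h3.congr_of_eventuallyEq h2).fderiv
  rw [h4]
  change fderiv ℝ (fderiv ℝ F) (g q) (lin w) (lin w) = 0
  apply hz
  rw [gradient_comp_isom g (hF.smooth.differentiableAt (by norm_num))] at hw
  rw [← g.linearIsometryEquiv.inner_map_map, LinearIsometryEquiv.apply_symm_apply] at hw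
  rw [hlin]
  exact hw

end ZC

/-- Orbits with prescribed bounces of zero curvature form a negligible set. -/
theorem wnull {Ω : Set ℂ} {g : ℂ ≃ᵃⁱ[ℝ] ℂ} (hg : g ⁻¹' Ω = Ω) {n : ℕ} (hn : 2 ≤ n)
    (Z : Finset ℕ) (hZ : ∀ k ∈ Z, k < n)
    (hnull : ∀ N : NCfg, N.n = n → N.Z = Z → volume N.E = 0) (m : ℕ) :
    μH[2] ((fun w : (ℕ → ℂ) × (ℕ → ℂ) => (w.1 m, w.2 m)) ''
      {w | OrbitG Ω g n w.1 w.2 ∧ ∀ k ∈ Z, ZeroCurv Ω (w.1 k)}) = 0 := by
  apply null_of_locally_null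
  rintro ⟨p, u⟩ ⟨h, -⟩
  exact nlocal hg hn Z hZ hnull h m

/-- Pulling back by an isometry preserves negligible sets. -/
theorem pull_null (g : ℂ ≃ᵃⁱ[ℝ] ℂ) (Y : Set (ℂ × ℂ)) (hY : μH[2] Y = 0) :
    μH[2] {z : ℂ × ℂ | (g z.1, g.linearIsometryEquiv z.2) ∈ Y} = 0 := by
  have hlip : LipschitzWith 1
      (fun z : ℂ × ℂ => (g.symm z.1, g.linearIsometryEquiv.symm z.2)) := by
    refine LipschitzWith.of_dist_le_mul fun x y => ?_
    simp only [Prod.dist_eq, LinearIsometryEquiv.dist_map, AffineIsometryEquiv.dist_map,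
      NNReal.coe_one, one_mul]
    exact le_rfl
  have h0 := hlip.hausdorffMeasure_image_le (d := 2) (by norm_num) Y
  rw [hY, mul_zero] at h0
  refine measure_mono_null ?_ (le_antisymm h0 bot_le)
  intro z hz
  exact ⟨_, hz, by simp⟩

theorem OrbitMod.toG {Ω : Set ℂ} {g : ℂ ≃ᵃⁱ[ℝ] ℂ} {n : ℕ} {p u : ℕ → ℂ}
    (h : OrbitMod Ω g n p u) : OrbitG Ω g n p u := ⟨h.unit, h.perp, h.peru, h.step⟩

theorem OrbitG.shift {Ω : Set ℂ} {g : ℂ ≃ᵃⁱ[ℝ] ℂ} {n : ℕ} {p u : ℕ → ℂ}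
    (h : OrbitG Ω g n p u) (s : ℕ) :
    OrbitG Ω g n (fun k => p (k + s)) (fun k => u (k + s)) := by
  refine ⟨unit_of_steps h.step h.unit _, fun k => ?_, fun k => ?_, fun k => ?_⟩
  · have := h.perp (k + s)
    rw [← this]; congr 1; ring
  · have := h.peru (k + s)
    rw [← this]; congr 1; ring
  · have := h.step (k + s)
    rw [show k + 1 + s = k + s + 1 by ring]
    exact this

/-- The index set of the bounces of zero curvature. -/
def idx (n j l : ℕ) : Finset ℕ := (Finset.range n).filter (fun k => 0 < k ∧ k ≠ j ∧ k ≠ l)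

theorem idx_lt (n j l : ℕ) : ∀ k ∈ idx n j l, k < n := fun k hk =>
  Finset.mem_range.1 (Finset.mem_filter.1 hk).1

theorem null_idx (d1 d2 d3 : ℕ) (N : NCfg) (hn : N.n = d1 + d2 + d3 + 3)
    (hZ : N.Z = idx (d1 + d2 + d3 + 3) (d1 + 1) (d1 + d2 + 2)) : volume N.E = 0 := by
  refine N.null3 d1 d2 d3 hn fun k h1 h2 h3 h4 => ?_
  rw [hZ, idx, Finset.mem_filter, Finset.mem_range]
  exact ⟨by omega, h1, h3, h4⟩

/-- The main theorem in the complex plane. -/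
theorem perMod_null (Ω : Set ℂ) (Γ : Set (ℂ ≃ᵃⁱ[ℝ] ℂ)) (hΓ : Γ.Countable)
    (hinv : ∀ g ∈ Γ, g ⁻¹' Ω = Ω) : μH[2] (PerMod Γ Ω) = 0 := by
  -- the pieces
  obtain ⟨Y, hY⟩ : ∃ Y : (ℂ ≃ᵃⁱ[ℝ] ℂ) → ℕ → ℕ → ℕ → ℕ → Set (ℂ × ℂ), Y = fun g d1 d2 d3 m =>
      ((fun w : (ℕ → ℂ) × (ℕ → ℂ) => (w.1 m, w.2 m)) ''
      {w | OrbitG Ω g (d1 + d2 + d3 + 3) w.1 w.2 ∧
        ∀ k ∈ idx (d1 + d2 + d3 + 3) (d1 + 1) (d1 + d2 + 2), ZeroCurv Ω (w.1 k)}) := ⟨_, rfl⟩
  have hY0 : ∀ g : ℂ ≃ᵃⁱ[ℝ] ℂ, g ⁻¹' Ω = Ω → ∀ d1 d2 d3 m, μH[2] (Y g d1 d2 d3 m) = 0 := by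
    intro g hg d1 d2 d3 m
    rw [hY]
    exact wnull hg (by omega) _ (idx_lt _ _ _) (fun N hn hZ => null_idx d1 d2 d3 N hn hZ) m
  have hT : ∀ g : ℂ ≃ᵃⁱ[ℝ] ℂ, g ⁻¹' Ω = Ω →
      μH[2] ((fun w : (ℕ → ℂ) × (ℕ → ℂ) => (w.1 0, w.2 0)) ''
      {w | OrbitG Ω g 2 w.1 w.2 ∧ ∀ k ∈ (∅ : Finset ℕ), ZeroCurv Ω (w.1 k)}) = 0 := by
    intro g hg
    exact wnull hg le_rfl _ (by simp) (fun N hn _ => N.null2 hn) 0
  refine measure_mono_null (t := ⋃ g ∈ Γ,
    ((((fun w : (ℕ → ℂ) × (ℕ → ℂ) => (w.1 0, w.2 0)) ''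
      {w | OrbitG Ω g 2 w.1 w.2 ∧ ∀ k ∈ (∅ : Finset ℕ), ZeroCurv Ω (w.1 k)}) ∪
      Y (g * (g * g)) 0 0 0 0) ∪
      ⋃ d1 : ℕ, ⋃ d2 : ℕ, ⋃ d3 : ℕ, ⋃ m : ℕ,
        {z : ℂ × ℂ | (g z.1, g.linearIsometryEquiv z.2) ∈ Y g d1 d2 d3 m})) ?_ ?_
  · rintro z ⟨g, hgΓ, n, p, u, h, rfl, hcard⟩
    have hg := hinv g hgΓ
    refine mem_iUnion₂.2 ⟨g, hgΓ, ?_⟩
    have hG := h.toG
    have hpos := h.pos
    rcases Nat.lt_or_ge n 3 with hn | hn
    · have : n = 1 ∨ n = 2 := by omega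
      rcases this with rfl | rfl
      · -- period one
        left; right
        rw [hY]
        refine ⟨(p, u), ⟨⟨h.unit, fun k => ?_, fun k => ?_, h.step⟩, ?_⟩, rfl⟩
        · have e1 := h.perp k
          have e2 := h.perp (k + 1)
          have e3 := h.perp (k + 1 + 1)
          change p (k + 1 + 1 + 1) = g (g (g (p k)))
          rw [e3, e2, e1]
        · have e1 := h.peru k
          have e2 := h.peru (k + 1)
          have e3 := h.peru (k + 1 + 1)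
          rw [lin_mul, lin_mul]
          change u (k + 1 + 1 + 1) = _
          rw [e3, e2, e1]
        · intro k hk
          rw [idx, Finset.mem_filter, Finset.mem_range] at hk
          omega
      · left; left
        exact ⟨(p, u), ⟨hG, by simp⟩, rfl⟩
    right
    obtain ⟨a, b, c, hab, hbc, hcn, hf⟩ := three_indices n hn (fun k => ¬ ZeroCurv Ω (p k)) hcard
    have hf' : ∀ k, k < n → k ≠ a → k ≠ b → k ≠ c → ZeroCurv Ω (p k) := by
      intro k hk h1 h2 h3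
      by_contra hcon
      rcases hf k hk hcon with h4 | h4 | h4
      · exact h1 h4
      · exact h2 h4
      · exact h3 h4
    obtain ⟨d1, hd1⟩ : ∃ d1, d1 = b - a - 1 := ⟨_, rfl⟩
    obtain ⟨d2, hd2⟩ : ∃ d2, d2 = c - b - 1 := ⟨_, rfl⟩
    obtain ⟨d3, hd3⟩ : ∃ d3, d3 = n - (c - a) - 1 := ⟨_, rfl⟩
    have hnd : d1 + d2 + d3 + 3 = n := by omega
    refine mem_iUnion.2 ⟨d1, mem_iUnion.2 ⟨d2, mem_iUnion.2 ⟨d3, mem_iUnion.2 ⟨n - a, ?_⟩⟩⟩⟩
    rw [hY]
    refine ⟨(fun k => p (k + a), fun k => u (k + a)), ⟨?_, ?_⟩, ?_⟩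
    · rw [hnd]; exact hG.shift a
    · intro k hk
      rw [idx, Finset.mem_filter, Finset.mem_range] at hk
      obtain ⟨k1, k2, k3, k4⟩ := hk
      change ZeroCurv Ω (p (k + a))
      rcases Nat.lt_or_ge (k + a) n with h1 | h1
      · exact hf' _ h1 (by omega) (by omega) (by omega)
      · have e : k + a = (k + a - n) + n := by omega
        rw [e, h.perp]
        have h5 : ZeroCurv Ω (p (k + a - n)) := hf' _ (by omega) (by omega) (by omega) (by omega)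
        have h6 : ZeroCurv Ω (g.symm (g (p (k + a - n)))) := by
          rw [g.symm_apply_apply]; exact h5
        have h7 := h6.comp g.symm
        have h8 : g.symm ⁻¹' Ω = Ω := by
          nth_rewrite 1 [← hg]
          rw [← preimage_comp]
          have : (g : ℂ → ℂ) ∘ g.symm = id := by ext x; simp
          rw [this, preimage_id]
        rwa [h8] at h7
    · have e : n - a + a = 0 + n := by omega
      simp only [e, h.perp, h.peru]
  · refine (measure_biUnion_null_iff hΓ).2 fun g hgΓ => ?_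
    have hg := hinv g hgΓ
    refine measure_union_null (measure_union_null (hT g hg) (hY0 _ ?_ 0 0 0 0)) ?_
    · change (fun x => g (g (g x))) ⁻¹' Ω = Ω
      have e : (fun x => g (g (g x))) = g ∘ (g ∘ g) := rfl
      rw [e, preimage_comp, preimage_comp, hg, hg, hg]
    · exact measure_iUnion_null fun d1 => measure_iUnion_null fun d2 =>
        measure_iUnion_null fun d3 => measure_iUnion_null fun m =>
          pull_null g _ (hY0 g hg d1 d2 d3 m)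

end Pool.Agent.H721R2.Ivrii
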