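import Pool.Agent.H721R2.Ivrii.Chain

set_option autoImplicit false

open MeasureTheory Set Filter Topology
open scoped ComplexConjugate InnerProductSpace

namespace Pool.Agent.H721R2.Ivrii

/-- The image of a mirror under a symmetry of the table. -/
theorem exists_map {Ω : Set ℂ} (A : Mirr Ω) (g : ℂ ≃ᵃⁱ[ℝ] ℂ) (hg : g ⁻¹' Ω = Ω) (ε κ : ℝ)
    (hG : ∀ t θ : ℝ, g.linearIsometryEquiv (t * Complex.exp (Complex.I * θ)) =
      t * Complex.exp (Complex.I * (κ + ε * θ : ℝ))) :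
    ∃ B : Mirr Ω, B.q = g A.q ∧ (∀ s, B.M.γ s = g (A.M.γ s)) ∧
      (B.M.L = fun s => ((A.M.L s).re : ℂ) + Complex.I * (κ + ε * (A.M.L s).im : ℝ)) ∧
      ∀ x, B.M.σ (g x) = A.M.σ x := by
  have hdf : LocalDef Ω (g A.q) (A.F ∘ g.symm) := by
    have h1 : LocalDef Ω (g.symm (g A.q)) A.F := by rw [g.symm_apply_apply]; exact A.df
    have h2 := h1.comp g.symm
    have h3 : g.symm ⁻¹' Ω = Ω := by
      nth_rewrite 1 [← hg]
      rw [← preimage_comp]
      have : (g : ℂ → ℂ) ∘ g.symm = id := by ext x; simp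
      rw [this, preimage_id]
    rwa [h3] at h2
  have hcont : ContinuousAt g.symm (g A.q) := g.symm.continuous.continuousAt
  have hgs : Tendsto g.symm (𝓝 (g A.q)) (𝓝 A.q) := tendsto_of_cont hcont (by simp)
  have hexp : ∀ s, Complex.exp (((A.M.L s).re : ℂ) +
      Complex.I * (κ + ε * (A.M.L s).im : ℝ)) =
      g.linearIsometryEquiv (Complex.exp (A.M.L s)) := by
    intro s
    rw [exp_polar (A.M.L s), hG, Complex.exp_add, Complex.ofReal_exp]
  let M : Mir (A.F ∘ g.symm) (g A.q) :=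
    { γ := fun s => g (A.M.γ s)
      L := fun s => ((A.M.L s).re : ℂ) + Complex.I * (κ + ε * (A.M.L s).im : ℝ)
      σ := fun x => A.M.σ (g.symm x)
      γ0 := by rw [A.M.γ0]
      σ0 := by rw [g.symm_apply_apply, A.M.σ0]
      σc := ContinuousAt.comp (f := g.symm) (by rw [g.symm_apply_apply]; exact A.M.σc) hcont
      γs := (isom_contDiff g 3).contDiffAt.comp (0 : ℝ) A.M.γs
      Ls := by
        have h1 : ContDiffAt ℝ 2 (fun s : ℝ => (A.M.L s).re) 0 :=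
          Complex.reCLM.contDiff.contDiffAt.comp (0 : ℝ) A.M.Ls
        have h2 : ContDiffAt ℝ 2 (fun s : ℝ => (A.M.L s).im) 0 :=
          Complex.imCLM.contDiff.contDiffAt.comp (0 : ℝ) A.M.Ls
        have h3 : ContDiffAt ℝ 2 (fun s : ℝ => ((A.M.L s).re : ℂ)) 0 :=
          Complex.ofRealCLM.contDiff.contDiffAt.comp (0 : ℝ) h1
        have h4 : ContDiffAt ℝ 2 (fun s : ℝ => ((κ + ε * (A.M.L s).im : ℝ) : ℂ)) 0 :=
          Complex.ofRealCLM.contDiff.contDiffAt.comp (0 : ℝ)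
            (contDiffAt_const.add (contDiffAt_const.mul h2))
        exact h3.add (contDiffAt_const.mul h4)
      hd := by
        filter_upwards [A.M.hd] with s hs
        rw [hexp]
        exact (isom_hasFDerivAt g (A.M.γ s)).comp_hasDerivAt s hs
      ho := by
        filter_upwards [A.M.ho, localDef_param A.df A.M] with s hs hs2
        have h5 : LocalDef Ω (g.symm (g (A.M.γ s))) A.F := by
          rw [g.symm_apply_apply]; exact hs2
        have h6 : gradient (A.F ∘ g.symm) (g (A.M.γ s)) =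
            g.linearIsometryEquiv (gradient A.F (A.M.γ s)) := by
          rw [gradient_comp_isom g.symm (h5.smooth.differentiableAt (by norm_num)),
            g.symm_apply_apply]
          rfl
        rw [h6, hexp, LinearIsometryEquiv.inner_map_map]
        refine ⟨hs.1, fun h7 => hs.2 ?_⟩
        exact g.linearIsometryEquiv.injective (by rw [h7, map_zero])
      hs := by
        filter_upwards [hgs.eventually A.M.hs] with x hx hFx
        rw [hx hFx, g.apply_symm_apply]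
      hz := by
        filter_upwards [A.M.hz] with s hs
        change A.F (g.symm (g (A.M.γ s))) = 0
        rw [g.symm_apply_apply]; exact hs }
  refine ⟨⟨g A.q, A.F ∘ g.symm, hdf, M⟩, rfl, fun s => rfl, rfl, fun x => ?_⟩
  change A.M.σ (g.symm (g x)) = A.M.σ x
  rw [g.symm_apply_apply]

/-- A billiard trajectory with unit speed which after `n` bounces is the image of itself under the
isometry `g`. -/
structure OrbitG (Ω : Set ℂ) (g : ℂ ≃ᵃⁱ[ℝ] ℂ) (n : ℕ) (p u : ℕ → ℂ) : Prop where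
  unit : ‖u 0‖ = 1
  perp : ∀ k, p (k + n) = g (p k)
  peru : ∀ k, u (k + n) = g.linearIsometryEquiv (u k)
  step : ∀ k, Step Ω (p k) (u k) (p (k + 1)) (u (k + 1))

theorem OrbitG.localDef0 {Ω : Set ℂ} {g : ℂ ≃ᵃⁱ[ℝ] ℂ} (hg : g ⁻¹' Ω = Ω) {n : ℕ} (hn : 0 < n)
    {p u : ℕ → ℂ} (h : OrbitG Ω g n p u) : ∃ F : ℂ → ℝ, LocalDef Ω (p 0) F ∧
      ⟪u 0, gradient F (p 0)⟫_ℝ ≠ 0 := by
  obtain ⟨m, rfl⟩ : ∃ m, n = m + 1 := ⟨n - 1, by omega⟩
  obtain ⟨t, -, -, -, F, hF, h1, h2⟩ := h.step m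
  have hp := h.perp 0
  have hu := h.peru 0
  rw [zero_add] at hp hu
  have h2' : u (m + 1) = rfl' (gradient F (p (m + 1))) (u m) := h2
  have h3 : ⟪u (m + 1), gradient F (p (m + 1))⟫_ℝ ≠ 0 := by
    rw [h2', inner_rfl _ _ hF.grad]; exact neg_ne_zero.2 h1
  rw [hp] at hF h3
  rw [hu] at h3
  have h4 := hF.comp g
  rw [hg] at h4
  refine ⟨F ∘ g, h4, ?_⟩
  rw [gradient_comp_isom g (hF.smooth.differentiableAt (by norm_num)),
    ← g.linearIsometryEquiv.inner_map_map, LinearIsometryEquiv.apply_symm_apply]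
  exact h3

/-- Mirrors along a trajectory. -/
theorem OrbitG.exists_mirrors {Ω : Set ℂ} {g : ℂ ≃ᵃⁱ[ℝ] ℂ} (hg : g ⁻¹' Ω = Ω) {n : ℕ}
    (hn : 0 < n) {p u : ℕ → ℂ} (h : OrbitG Ω g n p u) (ε κ : ℝ)
    (hG : ∀ t θ : ℝ, g.linearIsometryEquiv (t * Complex.exp (Complex.I * θ)) =
      t * Complex.exp (Complex.I * (κ + ε * θ : ℝ))) :
    ∃ A : ℕ → Mirr Ω, (∀ k, (A k).q = p k) ∧
      ((A n).M.L = fun s => (((A 0).M.L s).re : ℂ) +
        Complex.I * (κ + ε * ((A 0).M.L s).im : ℝ)) ∧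
      (∀ x, (A n).M.σ (g x) = (A 0).M.σ x) ∧ ⟪u 0, gradient (A 0).F (p 0)⟫_ℝ ≠ 0 := by
  classical
  obtain ⟨F0, hF0, hF0'⟩ := h.localDef0 hg hn
  have hex : ∀ k, ∃ A : Mirr Ω, A.q = p k := by
    intro k
    cases k with
    | zero => exact exists_Mirr hF0
    | succ k =>
      obtain ⟨t, -, -, -, F, hF, -, -⟩ := h.step k
      exact exists_Mirr hF
  choose A' hA' using hex
  obtain ⟨B, hB1, hB2, hB3, hB4⟩ := exists_map (A' 0) g hg ε κ hG
  have hp := h.perp 0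
  rw [zero_add] at hp
  obtain ⟨A, hAn, hAk⟩ : ∃ A : ℕ → Mirr Ω, A n = B ∧ ∀ k, k ≠ n → A k = A' k :=
    ⟨fun k => if k = n then B else A' k, if_pos rfl, fun k hk => if_neg hk⟩
  refine ⟨A, ?_, ?_, ?_, ?_⟩
  · intro k
    by_cases hk : k = n
    · rw [hk, hAn, hB1, hA', hp]
    · rw [hAk k hk]
      exact hA' k
  · rw [hAn, hAk 0 hn.ne]
    exact hB3
  · rw [hAn, hAk 0 hn.ne]
    exact hB4
  · rw [hAk 0 hn.ne]
    have h1 : LocalDef Ω (p 0) (A' 0).F := by rw [← hA' 0]; exact (A' 0).df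
    obtain ⟨l, hl, hl2⟩ := grad_parallel hF0 h1
    rw [hl2, inner_smul_right]
    exact mul_ne_zero hl hF0'

/-- The local theorem for trajectories with `n` bounces. -/
theorem nlocal {Ω : Set ℂ} {g : ℂ ≃ᵃⁱ[ℝ] ℂ} (hg : g ⁻¹' Ω = Ω) {n : ℕ} (hn : 2 ≤ n)
    (Z : Finset ℕ) (hZ : ∀ k ∈ Z, k < n)
    (hnull : ∀ N : NCfg, N.n = n → N.Z = Z → volume N.E = 0)
    {p u : ℕ → ℂ} (h : OrbitG Ω g n p u) (m : ℕ) :
    ∃ Y : Set (ℂ × ℂ), μH[2] Y = 0 ∧ ∀ᶠ w : (ℕ → ℂ) × (ℕ → ℂ) in 𝓝 (p, u),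
      (OrbitG Ω g n w.1 w.2 ∧ ∀ k ∈ Z, ZeroCurv Ω (w.1 k)) → (w.1 m, w.2 m) ∈ Y := by
  obtain ⟨ε, κ, hε, hG⟩ := isom_class g.linearIsometryEquiv
  obtain ⟨A, hA, hcl, hσ, htr⟩ := h.exists_mirrors hg (by omega) ε κ hG
  obtain ⟨D, hDA, hue⟩ := exists_chain h.step h.unit A hA htr
  subst hDA
  have hεε : ε * ε = 1 := by rcases hε with h | h <;> rw [h] <;> norm_num
  have hGexp : ∀ θ : ℝ, g.linearIsometryEquiv (Complex.exp (Complex.I * θ)) =
      Complex.exp (Complex.I * (κ + ε * θ : ℝ)) := by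
    intro θ
    have := hG 1 θ
    simpa only [Complex.ofReal_one, one_mul] using this
  obtain ⟨K, hKdef⟩ : ∃ K : ℝ, K = D.φ0 n - ε * D.φ0 0 := ⟨_, rfl⟩
  have hK : Complex.exp (Complex.I * κ) = Complex.exp (Complex.I * K) := by
    have h1 := h.peru 0
    rw [zero_add, hue n, hue 0, hGexp] at h1
    have h2 : Complex.exp (Complex.I * κ) = Complex.exp (Complex.I * (κ + ε * D.φ0 0 : ℝ)) *
        Complex.exp (Complex.I * (-(ε * D.φ0 0) : ℝ)) := by
      rw [← Complex.exp_add]; congr 1; push_cast; ring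
    rw [h2, ← h1, ← Complex.exp_add, hKdef]
    congr 1; push_cast; ring
  obtain ⟨N, hNn, hNZ, hN0, hNE⟩ := D.exists_ncfg n hn Z hZ ε κ K hε hK hcl
  have hvol := hnull N hNn hNZ
  -- the parametrisation of the phase points
  have hP := D.P_smooth
  have hΘ : ContDiffAt ℝ 1 (fun x : ℝ × ℝ => ((D.A m).M.γ (D.P m x).1,
      Complex.exp (Complex.I * (D.l m (D.P m x)).im))) 0 := by
    have h1 : ContDiffAt ℝ 1 (fun x : ℝ × ℝ => (D.P m x).1) 0 :=
      contDiffAt_fst.comp (0 : ℝ × ℝ) (hP m)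
    have h2 : ContDiffAt ℝ 1 (fun x : ℝ × ℝ => (D.A m).M.γ (D.P m x).1) 0 := by
      refine ContDiffAt.comp (0 : ℝ × ℝ) (g := (D.A m).M.γ) ?_ h1
      rw [D.P0]
      exact (D.A m).M.γs.of_le (by norm_num)
    have h3 : ContDiffAt ℝ 1 (fun x : ℝ × ℝ => D.l m (D.P m x)) 0 := by
      refine ContDiffAt.comp (0 : ℝ × ℝ) (g := D.l m) ?_ (hP m)
      rw [D.P0]
      exact (D.hl m).of_le (by norm_num)
    have h4 : ContDiffAt ℝ 1 (fun x : ℝ × ℝ => (D.l m (D.P m x)).im) 0 :=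
      Complex.imCLM.contDiff.contDiffAt.comp (0 : ℝ × ℝ) h3
    have h5 : ContDiffAt ℝ 1 (fun x : ℝ × ℝ => ((D.l m (D.P m x)).im : ℂ)) 0 :=
      Complex.ofRealCLM.contDiff.contDiffAt.comp (0 : ℝ × ℝ) h4
    exact h2.prodMk (contDiffAt_const.mul h5).cexp
  obtain ⟨k', t, ht, hlip⟩ := hΘ.exists_lipschitzOnWith
  refine ⟨(fun x : ℝ × ℝ => ((D.A m).M.γ (D.P m x).1,
      Complex.exp (Complex.I * (D.l m (D.P m x)).im))) '' (N.E ∩ t), ?_, ?_⟩
  · have h1 := (hlip.mono (inter_subset_right (s := N.E))).hausdorffMeasure_image_le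
      (d := 2) (by norm_num)
    have h2 : (μH[2] : Measure (ℝ × ℝ)) (N.E ∩ t) = 0 := by
      rw [hausdorffMeasure_prod_real]
      exact measure_mono_null inter_subset_left hvol
    rw [h2, mul_zero] at h1
    exact le_antisymm h1 bot_le
  -- the coordinates of a nearby trajectory
  obtain ⟨s, hs⟩ : ∃ s : ℕ → (ℕ → ℂ) × (ℕ → ℂ) → ℝ, s = fun k w => (D.A k).M.σ (w.1 k) :=
    ⟨_, rfl⟩
  have T1 : ∀ k, Tendsto (fun w : (ℕ → ℂ) × (ℕ → ℂ) => w.1 k) (𝓝 (p, u)) (𝓝 (D.A k).q) := by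
    intro k
    rw [hA k]
    have : Continuous (fun w : (ℕ → ℂ) × (ℕ → ℂ) => w.1 k) :=
      (continuous_apply k).comp continuous_fst
    exact this.tendsto (p, u)
  have Ts : ∀ k, Tendsto (s k) (𝓝 (p, u)) (𝓝 0) := by
    intro k
    have h1 : Tendsto (D.A k).M.σ (𝓝 (D.A k).q) (𝓝 0) :=
      tendsto_of_cont (D.A k).M.σc (D.A k).M.σ0
    rw [hs]
    exact h1.comp (T1 k)
  have Ts2 : ∀ k j, Tendsto (fun w => (s k w, s j w)) (𝓝 (p, u)) (𝓝 (0 : ℝ × ℝ)) :=
    fun k j => (Ts k).prodMk_nhds (Ts j)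
  have Ts3 : ∀ k i j, Tendsto (fun w => ((s k w, s i w), s j w)) (𝓝 (p, u))
      (𝓝 (0 : (ℝ × ℝ) × ℝ)) := fun k i j => (Ts2 k i).prodMk_nhds (Ts j)
  have iml : ∀ k, Tendsto (fun w => (D.l k (s k w, s (k + 1) w)).im) (𝓝 (p, u))
      (𝓝 (D.φ0 k)) := by
    intro k
    have h1 : Tendsto (fun y => (D.l k y).im) (𝓝 0) (𝓝 (D.φ0 k)) :=
      tendsto_of_cont (Complex.continuous_im.continuousAt.comp (D.hl k).continuousAt) (D.l0 k)
    exact h1.comp (Ts2 k (k + 1))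
  have imL : ∀ k, Tendsto (fun w => ((D.A k).M.L (s k w)).im) (𝓝 (p, u))
      (𝓝 ((D.A k).M.L 0).im) := by
    intro k
    have h1 : Tendsto (fun y => ((D.A k).M.L y).im) (𝓝 0) (𝓝 ((D.A k).M.L 0).im) :=
      tendsto_of_cont (Complex.continuous_im.continuousAt.comp (D.A k).M.Ls.continuousAt) rfl
    exact h1.comp (Ts k)
  have small : ∀ f : (ℕ → ℂ) × (ℕ → ℂ) → ℝ, Tendsto f (𝓝 (p, u)) (𝓝 0) →
      ∀ᶠ w in 𝓝 (p, u), |f w| < 1 := by
    intro f hf
    have h1 := hf.abs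
    rw [abs_zero] at h1
    exact h1.eventually (gt_mem_nhds one_pos)
  have q6 : ∀ k, ∀ᶠ w in 𝓝 (p, u), |(D.l (k + 1) (s (k + 1) w, s (k + 1 + 1) w)).im -
      (2 * ((D.A (k + 1)).M.L (s (k + 1) w)).im - (D.l k (s k w, s (k + 1) w)).im)| < 1 := by
    intro k
    apply small
    have h1 := (iml (k + 1)).sub (((imL (k + 1)).const_mul 2).sub (iml k))
    have h2 := D.rf k
    have e : D.φ0 (k + 1) - (2 * ((D.A (k + 1)).M.L 0).im - D.φ0 k) = 0 := by linarith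
    rwa [e] at h1
  have q8 : ∀ᶠ w in 𝓝 (p, u), |(D.l n (s n w, s (n + 1) w)).im -
      (ε * (D.l 0 (s 0 w, s (0 + 1) w)).im + K)| < 1 := by
    apply small
    have h1 := (iml n).sub (((iml 0).const_mul ε).add_const K)
    have e : D.φ0 n - (ε * D.φ0 0 + K) = 0 := by rw [hKdef]; ring
    rwa [e] at h1
  have hall : ∀ᶠ w in 𝓝 (p, u), ∀ k ∈ Set.Iic (n + m + 2),
      ((D.A k).F (w.1 k) = 0 → (D.A k).M.γ ((D.A k).M.σ (w.1 k)) = w.1 k) ∧
      (∀ F' : ℂ → ℝ, LocalDef Ω (w.1 k) F' → LocalDef Ω (w.1 k) (D.A k).F) ∧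
      (Complex.exp (D.l k (s k w, s (k + 1) w)) =
        (D.A (k + 1)).M.γ (s (k + 1) w) - (D.A k).M.γ (s k w)) ∧
      (⟪gradient (D.A k).F ((D.A k).M.γ (s k w)), Complex.exp ((D.A k).M.L (s k w))⟫_ℝ = 0 ∧
        gradient (D.A k).F ((D.A k).M.γ (s k w)) ≠ 0) ∧
      ((D.l k (s k w, s (k + 1) w)).im + (D.l (k + 1) (s (k + 1) w, s (k + 1 + 1) w)).im =
        2 * ((D.A (k + 1)).M.L (s (k + 1) w)).im →
        s (k + 1 + 1) w = D.R k (s k w, s (k + 1) w)) ∧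
      (|(D.l (k + 1) (s (k + 1) w, s (k + 1 + 1) w)).im -
      (2 * ((D.A (k + 1)).M.L (s (k + 1) w)).im - (D.l k (s k w, s (k + 1) w)).im)| < 1) ∧
      (ZeroCurv Ω ((D.A k).M.γ (s k w)) → (deriv (D.A k).M.L (s k w)).im = 0) := by
    rw [Filter.eventually_all_finite (Set.finite_Iic _)]
    intro k _
    exact ((T1 k).eventually (D.A k).M.hs).and (((T1 k).eventually
      (localDef_near (D.A k).df)).and (((Ts2 k (k + 1)).eventually (D.le k)).and
      (((Ts k).eventually (D.A k).M.ho).and (((Ts3 k (k + 1) (k + 1 + 1)).eventually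
      (D.Ru k)).and ((q6 k).and ((Ts k).eventually (zero_curv (D.A k).df (D.A k).M)))))))
  filter_upwards [hall, q8, (Ts2 0 1).eventually (N.hU.mem_nhds hN0),
    (Ts2 0 1).eventually ht] with w hw w8 wU wt
  rintro ⟨hor, hzc⟩
  have hsw : ∀ k, (D.A k).M.σ (w.1 k) = s k w := fun k => by rw [hs]
  have hdf : ∀ k ≤ n + m + 2, LocalDef Ω (w.1 k) (D.A k).F := by
    intro k hk
    cases k with
    | zero =>
      obtain ⟨F0, hF0, -⟩ := hor.localDef0 hg (by omega)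
      exact (hw 0 hk).2.1 F0 hF0
    | succ k =>
      obtain ⟨t, -, -, -, F, hF, -, -⟩ := hor.step k
      exact (hw (k + 1) hk).2.1 F hF
  have hγ : ∀ k ≤ n + m + 2, (D.A k).M.γ (s k w) = w.1 k := by
    intro k hk
    rw [← hsw]
    exact (hw k hk).1 (hdf k hk).zero
  have hunit := unit_of_steps hor.step hor.unit
  have hue' : ∀ k, k + 1 ≤ n + m + 2 →
      w.2 k = Complex.exp (Complex.I * (D.l k (s k w, s (k + 1) w)).im) := by
    intro k hk
    obtain ⟨t', ht', hpt⟩ := (step_refl (hor.step k) (hdf (k + 1) hk)).2.2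
    refine (polar_eq t' (w.2 k) _ ht' (hunit k) ?_).1
    rw [(hw k (by simp only [Set.mem_Iic]; omega)).2.2.1, hγ (k + 1) hk, hγ k (by omega), hpt]
    ring
  have hrf : ∀ k, k + 1 + 1 ≤ n + m + 2 → (D.l k (s k w, s (k + 1) w)).im +
      (D.l (k + 1) (s (k + 1) w, s (k + 1 + 1) w)).im =
        2 * ((D.A (k + 1)).M.L (s (k + 1) w)).im := by
    intro k hk
    have hk' : k ∈ Set.Iic (n + m + 2) := by simp only [Set.mem_Iic]; omega
    have hk1 : k + 1 ∈ Set.Iic (n + m + 2) := by simp only [Set.mem_Iic]; omega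
    have h1 := (step_refl (hor.step k) (hdf (k + 1) (by omega))).1
    have h2 := (hw (k + 1) hk1).2.2.2.1
    rw [hγ (k + 1) (by omega)] at h2
    rw [hue' (k + 1) hk, hue' k (by omega), rfl_exp _ _ _ h2.2 h2.1] at h1
    have h3 := angle_eq _ _ h1 (hw k hk').2.2.2.2.2.1
    linarith
  have hPs : ∀ k, k + 1 ≤ n + m + 2 → D.P k (s 0 w, s 1 w) = (s k w, s (k + 1) w) := by
    intro k
    induction k with
    | zero => intro _; rfl
    | succ k ih =>
      intro hk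
      have hk' : k ∈ Set.Iic (n + m + 2) := by simp only [Set.mem_Iic]; omega
      rw [D.P_succ]
      simp only
      rw [ih (by omega)]
      have h1 := (hw k hk').2.2.2.2.1 (hrf k hk)
      rw [h1]
  refine ⟨(s 0 w, s 1 w), ⟨?_, wt⟩, ?_⟩
  · rw [hNE]
    refine ⟨wU, ?_, ?_, ?_⟩
    · rw [hPs n (by omega)]
      simp only
      have h1 := hor.perp 0
      rw [zero_add] at h1
      rw [← hsw n, ← hsw 0, h1, hσ]
    · rw [hPs n (by omega)]
      have h1 := hor.peru 0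
      rw [zero_add, hue' n (by omega), hue' 0 (by omega), hGexp] at h1
      refine angle_eq _ _ ?_ w8
      rw [h1]
      have e1 : Complex.exp (Complex.I * (κ + ε * (D.l 0 (s 0 w, s (0 + 1) w)).im : ℝ)) =
          Complex.exp (Complex.I * κ) *
            Complex.exp (Complex.I * (ε * (D.l 0 (s 0 w, s (0 + 1) w)).im : ℝ)) := by
        rw [← Complex.exp_add]; congr 1; push_cast; ring
      rw [e1, hK, ← Complex.exp_add]
      congr 1; push_cast; ring
    · intro k hk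
      have hkn := hZ k hk
      have hk' : k ∈ Set.Iic (n + m + 2) := by simp only [Set.mem_Iic]; omega
      rw [hPs k (by omega)]
      refine (hw k hk').2.2.2.2.2.2 ?_
      rw [hγ k (by omega)]
      exact hzc k hk
  · simp only
    rw [hPs m (by omega)]
    simp only
    rw [hγ m (by omega), ← hue' m (by omega)]

end Pool.Agent.H721R2.Ivrii
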