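import Pool.Agent.H721R2.Ivrii.NCfg

set_option autoImplicit false

open MeasureTheory Set Filter Topology

namespace Pool.Agent.H721R2.Ivrii

namespace NCfg

variable (D : NCfg)

theorem ξ_zero (x v : ℝ × ℝ) : D.ξ x v 0 = v.1 * D.r 0 (D.S 0 x) * Real.sin (D.θ 0 x) := by
  have : fderiv ℝ (D.S 0) x v = v.1 := by
    rw [D.S0]
    have h : HasFDerivAt (fun x : ℝ × ℝ => x.1) (ContinuousLinearMap.fst ℝ ℝ ℝ) x :=
      hasFDerivAt_fst
    rw [h.fderiv]; rfl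
  rw [ξ, this]

theorem ξ_one (x v : ℝ × ℝ) : D.ξ x v 1 = v.2 * D.r 1 (D.S 1 x) * Real.sin (D.θ 1 x) := by
  have : fderiv ℝ (D.S 1) x v = v.2 := by
    rw [D.S1]
    have h : HasFDerivAt (fun x : ℝ × ℝ => x.2) (ContinuousLinearMap.snd ℝ ℝ ℝ) x :=
      hasFDerivAt_snd
    rw [h.fderiv]; rfl
  rw [ξ, this]

theorem dS0 (x v : ℝ × ℝ) : fderiv ℝ (D.S 0) x v = v.1 := by
  rw [D.S0]
  have h : HasFDerivAt (fun x : ℝ × ℝ => x.1) (ContinuousLinearMap.fst ℝ ℝ ℝ) x :=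
    hasFDerivAt_fst
  rw [h.fderiv]; rfl

/-- If `ξ k` vanishes then so does `dS k`. -/
theorem dS_of_ξ {k : ℕ} (hk : k ≤ D.n) {x : ℝ × ℝ} (hx : x ∈ D.U) {v : ℝ × ℝ}
    (h : D.ξ x v k = 0) : fderiv ℝ (D.S k) x v = 0 := by
  unfold ξ at h
  rcases mul_eq_zero.1 h with h1 | h1
  · rcases mul_eq_zero.1 h1 with h2 | h2
    · exact h2
    · exact absurd h2 (D.nr k hk x hx)
  · exact absurd h1 (D.ns k hk x hx)

/-- The differential relations between three consecutive curved mirrors. -/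
theorem forms (d1 d2 d3 : ℕ) (hn : D.n = d1 + d2 + d3 + 3)
    (hZ : ∀ k, 0 < k → k < D.n → k ≠ d1 + 1 → k ≠ d1 + d2 + 2 → k ∈ D.Z)
    {x : ℝ × ℝ} (hx : x ∈ D.E) (v : ℝ × ℝ)
    (h1 : fderiv ℝ (D.S D.n) x v = fderiv ℝ (D.S 0) x v)
    (h2 : fderiv ℝ (D.φ D.n) x v = D.ε * fderiv ℝ (D.φ 0) x v) :
    ∃ ξ1 ξ2 ξ3 p q r m2 m3 : ℝ,
      ξ1 = D.ξ x v 0 ∧ ξ2 = (-1) ^ d1 * D.ξ x v (d1 + 1) ∧
      ξ3 = (-1) ^ (d1 + d2) * D.ξ x v (d1 + d2 + 2) ∧
      (∑ t ∈ Finset.range (d1 + 1), D.a (0 + t) x) * p = ξ1 + ξ2 ∧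
      (∑ t ∈ Finset.range (d2 + 1), D.a (d1 + 1 + t) x) * q = ξ2 + ξ3 ∧
      (∑ t ∈ Finset.range (d3 + 1), D.a (d1 + d2 + 2 + t) x) * r =
        ξ3 + ((-1) ^ (d1 + d2 + d3) * D.ε) * ξ1 ∧
      p + q = 2 * m2 ∧ q + r = 2 * m3 ∧
      p + ((-1) ^ (d1 + d2 + d3) * D.ε) * r = 2 * (v.1 * D.κ 0 (D.S 0 x)) ∧
      D.a 0 x * p = ξ1 + D.ξ x v 1 ∧ (ξ2 = 0 → m2 = 0) ∧
      fderiv ℝ (D.φ 0) x v = p ∧
      (-1) ^ d1 * (fderiv ℝ (D.φ (d1 + 1)) x v -
        fderiv ℝ (D.S (d1 + 1)) x v * D.κ (d1 + 1) (D.S (d1 + 1) x)) = (q - p) / 2 ∧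
      (-1) ^ (d1 + d2) * (fderiv ℝ (D.φ (d1 + d2 + 2)) x v -
        fderiv ℝ (D.S (d1 + d2 + 2)) x v * D.κ (d1 + d2 + 2) (D.S (d1 + d2 + 2) x)) =
        (r - q) / 2 ∧
      ∑ t ∈ Finset.range (d1 + 1), fderiv ℝ (D.a (0 + t)) x v =
        ξ2 * ((-1) ^ d1 * D.ct x (d1 + 1)) - ξ1 * D.ct x 0 ∧
      ∑ t ∈ Finset.range (d2 + 1), fderiv ℝ (D.a (d1 + 1 + t)) x v =
        ξ3 * ((-1) ^ (d1 + d2) * D.ct x (d1 + d2 + 2)) -
          ξ2 * ((-1) ^ d1 * D.ct x (d1 + 1)) ∧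
      ∑ t ∈ Finset.range (d3 + 1), fderiv ℝ (D.a (d1 + d2 + 2 + t)) x v =
        ξ1 * D.ct x 0 - ξ3 * ((-1) ^ (d1 + d2) * D.ct x (d1 + d2 + 2)) := by
  obtain ⟨hxU, hS, hφ, hκ⟩ := hx
  have hz : ∀ k, 0 < k → k < D.n → k ≠ d1 + 1 → k ≠ d1 + d2 + 2 →
      D.κ k (D.S k x) = 0 := fun k e1 e2 e3 e4 => hκ k (hZ k e1 e2 e3 e4)
  have hsd := fun k (hk : k < D.n) => (D.side_deriv hk hxU v)
  have hre := fun k (hk : k < D.n) => (D.refl_deriv hk hxU v)
  have hεε := D.hεε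
  obtain ⟨c1, c2, c3, c4⟩ := D.close x hxU hS hφ
  -- the three lumps
  obtain ⟨L1, M1⟩ := lump (fun k => D.a k x) (fun k => fderiv ℝ (D.φ k) x v) (D.ξ x v) 0 d1
    (fun t ht => (hsd (0 + t) (by omega)).2)
    (fun t ht => by
      have := hre (0 + t) (by omega)
      rw [hz (0 + t + 1) (by omega) (by omega) (by omega) (by omega)] at this
      simpa using this)
  obtain ⟨L2, M2⟩ := lump (fun k => D.a k x) (fun k => fderiv ℝ (D.φ k) x v) (D.ξ x v)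
    (d1 + 1) d2 (fun t ht => (hsd (d1 + 1 + t) (by omega)).2)
    (fun t ht => by
      have := hre (d1 + 1 + t) (by omega)
      rw [hz (d1 + 1 + t + 1) (by omega) (by omega) (by omega) (by omega)] at this
      simpa using this)
  obtain ⟨L3, M3⟩ := lump (fun k => D.a k x) (fun k => fderiv ℝ (D.φ k) x v) (D.ξ x v)
    (d1 + d2 + 2) d3 (fun t ht => (hsd (d1 + d2 + 2 + t) (by omega)).2)
    (fun t ht => by
      have := hre (d1 + d2 + 2 + t) (by omega)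
      rw [hz (d1 + d2 + 2 + t + 1) (by omega) (by omega) (by omega) (by omega)] at this
      simpa using this)
  have W1 := lump_sum (fun k => fderiv ℝ (D.a k) x v) (fun k => D.ξ x v k * D.ct x k) 0 d1
    (fun t ht => (hsd (0 + t) (by omega)).1)
  have W2 := lump_sum (fun k => fderiv ℝ (D.a k) x v) (fun k => D.ξ x v k * D.ct x k)
    (d1 + 1) d2 (fun t ht => (hsd (d1 + 1 + t) (by omega)).1)
  have W3 := lump_sum (fun k => fderiv ℝ (D.a k) x v) (fun k => D.ξ x v k * D.ct x k)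
    (d1 + d2 + 2) d3 (fun t ht => (hsd (d1 + d2 + 2 + t) (by omega)).1)
  have R1 := hre (0 + d1) (by omega)
  have R2 := hre (d1 + 1 + d2) (by omega)
  have R3 := hre (d1 + d2 + 2 + d3) (by omega)
  rw [M1] at R1
  rw [M2] at R2
  rw [M3] at R3
  have i1 : 0 + d1 + 1 = d1 + 1 := by ring
  have i2 : d1 + 1 + d2 + 1 = d1 + d2 + 2 := by ring
  have i3 : d1 + d2 + 2 + d3 + 1 = D.n := by omega
  rw [i1] at R1 L1 W1
  rw [i2] at R2 L2 W2
  rw [i3] at R3 L3 W3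
  -- the last mirror is a copy of the first one
  have hξn : D.ξ x v D.n = D.ε * D.ξ x v 0 := by
    unfold ξ
    rw [h1, c1]
    have : Real.sin (D.θ D.n x) = D.ε * Real.sin (D.θ 0 x) := c3
    rw [this]; ring
  have hs0 : Real.sin (D.θ 0 x) ≠ 0 := D.ns 0 (Nat.zero_le _) x hxU
  have hctn : D.ξ x v D.n * D.ct x D.n = D.ξ x v 0 * D.ct x 0 := by
    rw [hξn]
    unfold ct
    have e1 : Real.sin (D.θ D.n x) = D.ε * Real.sin (D.θ 0 x) := c3
    have e2 : Real.cos (D.θ D.n x) = Real.cos (D.θ 0 x) := c4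
    have hε0 : D.ε ≠ 0 := by rcases D.hε with h | h <;> rw [h] <;> norm_num
    rw [e1, e2]
    field_simp
  rw [hξn] at L3
  rw [hctn] at W3
  rw [h2, h1, c2] at R3
  have hv1 : fderiv ℝ (D.S 0) x v = v.1 := D.dS0 x v
  rw [hv1] at R3
  have hside0 := (hsd 0 (by omega)).2
  rw [zero_add] at hside0
  -- the signs
  obtain ⟨s1, hs1⟩ : ∃ s, s = (-1 : ℝ) ^ d1 := ⟨_, rfl⟩
  obtain ⟨s2, hs2⟩ : ∃ s, s = (-1 : ℝ) ^ d2 := ⟨_, rfl⟩
  obtain ⟨s3, hs3⟩ : ∃ s, s = (-1 : ℝ) ^ d3 := ⟨_, rfl⟩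
  have q1 : s1 * s1 = 1 := by rw [hs1, ← mul_pow]; norm_num
  have q2 : s2 * s2 = 1 := by rw [hs2, ← mul_pow]; norm_num
  have q3 : s3 * s3 = 1 := by rw [hs3, ← mul_pow]; norm_num
  rw [← hs1] at L1 R1
  rw [← hs2] at L2 R2
  rw [← hs3] at L3 R3
  have hm0 : ∀ h : s1 * D.ξ x v (d1 + 1) = 0, s1 * (fderiv ℝ (D.S (d1 + 1)) x v *
      D.κ (d1 + 1) (D.S (d1 + 1) x)) = 0 := by
    intro h
    have hs1' : s1 ≠ 0 := by rintro rfl; norm_num at q1
    have h5 : D.ξ x v (d1 + 1) = 0 := by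
      rcases mul_eq_zero.1 h with h6 | h6
      · exact absurd h6 hs1'
      · exact h6
    rw [D.dS_of_ξ (by omega) hxU h5]
    ring
  rw [pow_add (-1 : ℝ) (d1 + d2) d3, pow_add (-1 : ℝ) d1 d2, ← hs1, ← hs2, ← hs3]
  refine ⟨_, _, _, fderiv ℝ (D.φ 0) x v, s1 * fderiv ℝ (D.φ (d1 + 1)) x v,
    s1 * s2 * fderiv ℝ (D.φ (d1 + d2 + 2)) x v,
    s1 * (fderiv ℝ (D.S (d1 + 1)) x v * D.κ (d1 + 1) (D.S (d1 + 1) x)),
    s1 * s2 * (fderiv ℝ (D.S (d1 + d2 + 2)) x v * D.κ (d1 + d2 + 2) (D.S (d1 + d2 + 2) x)),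
    rfl, rfl, rfl, L1, ?_, ?_, ?_, ?_, ?_, hside0, hm0, rfl, ?_, ?_, ?_, ?_, ?_⟩
  · linear_combination s1 * L2
  · linear_combination s1 * s2 * L3
  · linear_combination s1 * R1 - fderiv ℝ (D.φ 0) x v * q1
  · linear_combination s1 * s2 * R2 - s1 * fderiv ℝ (D.φ (d1 + 1)) x v * q2
  · linear_combination D.ε * R3 + (2 * v.1 * D.κ 0 (D.S 0 x) - fderiv ℝ (D.φ 0) x v) * hεε +
      (s3 * D.ε * fderiv ℝ (D.φ (d1 + d2 + 2)) x v) * (s2 * s2 * q1 + q2)
  · linear_combination (1 / 2 : ℝ) * (s1 * R1 - fderiv ℝ (D.φ 0) x v * q1)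
  · linear_combination (1 / 2 : ℝ) * (s1 * s2 * R2 - s1 * fderiv ℝ (D.φ (d1 + 1)) x v * q2)
  · rw [W1]
    linear_combination (-(D.ξ x v (d1 + 1) * D.ct x (d1 + 1))) * q1
  · rw [W2]
    linear_combination (D.ξ x v (d1 + 1) * D.ct x (d1 + 1)) * q1 -
      (D.ξ x v (d1 + d2 + 2) * D.ct x (d1 + d2 + 2)) * (s2 * s2 * q1 + q2)
  · rw [W3]
    linear_combination (D.ξ x v (d1 + d2 + 2) * D.ct x (d1 + d2 + 2)) * (s2 * s2 * q1 + q2)

theorem sign_sin (s t : ℝ) (hs : s * s = 1) : Real.sin (s * t) = s * Real.sin t := by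
  have h : s = 1 ∨ s = -1 := by
    have h3 : (s - 1) * (s + 1) = 0 := by linear_combination hs
    rcases mul_eq_zero.1 h3 with h4 | h4
    · left; linarith
    · right; linarith
  rcases h with rfl | rfl
  · rw [one_mul, one_mul]
  · rw [neg_one_mul, Real.sin_neg, neg_one_mul]

theorem sign_cos (s t : ℝ) (hs : s * s = 1) : Real.cos (s * t) = Real.cos t := by
  have h : s = 1 ∨ s = -1 := by
    have h3 : (s - 1) * (s + 1) = 0 := by linear_combination hs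
    rcases mul_eq_zero.1 h3 with h4 | h4
    · left; linarith
    · right; linarith
  rcases h with rfl | rfl
  · rw [one_mul]
  · rw [neg_one_mul, Real.cos_neg]

theorem sign_cot (s t : ℝ) (hs : s * s = 1) :
    Real.cos (s * t) / Real.sin (s * t) = s * (Real.cos t / Real.sin t) := by
  rw [sign_sin s t hs, sign_cos s t hs]
  have hs0 : s ≠ 0 := by rintro rfl; norm_num at hs
  have h : s⁻¹ = s := by rw [inv_eq_iff_eq_inv]; exact eq_inv_of_mul_eq_one_left hs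
  rw [div_mul_eq_div_div_swap, div_eq_mul_inv _ s, h]
  ring

theorem sum_line {N : ℕ} (m : ℕ → ℕ) (hm : ∀ t < N, m t < D.n) {x : ℝ × ℝ} (hx : x ∈ D.U)
    (v : ℝ × ℝ) : HasDerivAt (fun s : ℝ => ∑ t ∈ Finset.range N, D.a (m t) (x + s • v))
      (∑ t ∈ Finset.range N, fderiv ℝ (D.a (m t)) x v) 0 := by
  have := HasDerivAt.fun_sum (u := Finset.range N)
    (A := fun t (s : ℝ) => D.a (m t) (x + s • v))
    (A' := fun t => fderiv ℝ (D.a (m t)) x v) (x := (0 : ℝ))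
    (fun t ht => Cfg.line_deriv (D.da (m t) (hm t (Finset.mem_range.1 ht)) x hx) v)
  exact this

theorem sum_diff {N : ℕ} (m : ℕ → ℕ) (hm : ∀ t < N, m t < D.n) {x : ℝ × ℝ} (hx : x ∈ D.U) :
    DifferentiableAt ℝ (fun y => ∑ t ∈ Finset.range N, D.a (m t) y) x :=
  DifferentiableAt.fun_sum
    (fun t ht => D.da (m t) (hm t (Finset.mem_range.1 ht)) x hx)

theorem dθ {k : ℕ} (hk : k ≤ D.n) {x : ℝ × ℝ} (hx : x ∈ D.U) : DifferentiableAt ℝ (D.θ k) x :=
  DifferentiableAt.sub (D.dφ k hk x hx)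
    ((D.hψ k hk x hx).differentiableAt.comp x (D.dS k hk x hx))

theorem θ_line {k : ℕ} (hk : k ≤ D.n) {x : ℝ × ℝ} (hx : x ∈ D.U) (v : ℝ × ℝ) :
    HasDerivAt (fun t : ℝ => D.θ k (x + t • v)) (fderiv ℝ (D.φ k) x v -
      fderiv ℝ (D.S k) x v * D.κ k (D.S k x)) 0 :=
  (Cfg.line_deriv (D.dφ k hk x hx) v).sub (D.line_S hk hx (D.hψ k hk x hx) v)

/-- Closed trajectories with at most three bounces at points of nonzero curvature are
negligible. -/
theorem null3 (d1 d2 d3 : ℕ) (hn : D.n = d1 + d2 + d3 + 3)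
    (hZ : ∀ k, 0 < k → k < D.n → k ≠ d1 + 1 → k ≠ d1 + d2 + 2 → k ∈ D.Z) :
    volume D.E = 0 := by
  obtain ⟨E1, hs, hm, hv, hp⟩ := D.exists_E0
  obtain ⟨s1, hs1⟩ : ∃ s, s = (-1 : ℝ) ^ d1 := ⟨_, rfl⟩
  obtain ⟨s2, hs2⟩ : ∃ s, s = (-1 : ℝ) ^ (d1 + d2) := ⟨_, rfl⟩
  obtain ⟨η, hη⟩ : ∃ s, s = (-1 : ℝ) ^ (d1 + d2 + d3) * D.ε := ⟨_, rfl⟩
  have q1 : s1 * s1 = 1 := by rw [hs1, ← mul_pow]; norm_num
  have q2 : s2 * s2 = 1 := by rw [hs2, ← mul_pow]; norm_num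
  have q3 : η * η = 1 := by
    have e1 : ((-1 : ℝ) ^ (d1 + d2 + d3)) * ((-1 : ℝ) ^ (d1 + d2 + d3)) = 1 := by
      rw [← mul_pow]; norm_num
    rw [hη]
    linear_combination (D.ε * D.ε) * e1 + D.hεε
  have q3' : η = 1 ∨ η = -1 := by
    have h3 : (η - 1) * (η + 1) = 0 := by linear_combination q3
    rcases mul_eq_zero.1 h3 with h4 | h4
    · left; linarith
    · right; linarith
  have hn0 : (0 : ℕ) ≤ D.n := Nat.zero_le _
  have hn1 : 1 ≤ D.n := by omega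
  have hnj : d1 + 1 ≤ D.n := by omega
  have hnl : d1 + d2 + 2 ≤ D.n := by omega
  have forms : ∀ x ∈ E1, ∀ v : ℝ × ℝ, _ := fun x hx v =>
    D.forms d1 d2 d3 hn hZ (hs hx) v (hp x hx v).1 (hp x hx v).2
  rw [← hs1, ← hs2, ← hη] at forms
  have ha_pos : ∀ x ∈ E1, 0 < ∑ t ∈ Finset.range (d1 + 1), D.a (0 + t) x := fun x hx =>
    Finset.sum_pos (fun t ht => D.pa _ (by have := Finset.mem_range.1 ht; omega) x (hs hx).1)
      ⟨0, by simp⟩
  have hb_pos : ∀ x ∈ E1, 0 < ∑ t ∈ Finset.range (d2 + 1), D.a (d1 + 1 + t) x := fun x hx =>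
    Finset.sum_pos (fun t ht => D.pa _ (by have := Finset.mem_range.1 ht; omega) x (hs hx).1)
      ⟨0, by simp⟩
  have hc_pos : ∀ x ∈ E1, 0 < ∑ t ∈ Finset.range (d3 + 1), D.a (d1 + d2 + 2 + t) x :=
    fun x hx =>
    Finset.sum_pos (fun t ht => D.pa _ (by have := Finset.mem_range.1 ht; omega) x (hs hx).1)
      ⟨0, by simp⟩
  have hS0 : ∀ x, D.S 0 x = x.1 := fun x => by rw [D.S0]
  have dS0' : ∀ x v, fderiv ℝ (D.S 0) x v = v.1 := D.dS0
  have hsn : ∀ k ≤ D.n, ∀ x ∈ E1, Real.sin (D.θ k x) ≠ 0 := fun k hk x hx =>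
    D.ns k hk x (hs hx).1
  have hs1' : s1 ≠ 0 := by rintro rfl; norm_num at q1
  have hs2' : s2 ≠ 0 := by rintro rfl; norm_num at q2
  have ct2 : ∀ x, Real.cos (s1 * D.θ (d1 + 1) x) / Real.sin (s1 * D.θ (d1 + 1) x) =
    s1 * D.ct x (d1 + 1) := fun x => sign_cot _ _ q1
  have ct3 : ∀ x, Real.cos (s2 * D.θ (d1 + d2 + 2) x) / Real.sin (s2 * D.θ (d1 + d2 + 2) x) =
    s2 * D.ct x (d1 + d2 + 2) := fun x => sign_cot _ _ q2
  -- the second direction
  have dir2 : ∀ x ∈ E1, ∃ v : ℝ × ℝ, ∃ r : ℝ,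
      v.1 * D.r 0 (D.S 0 x) * Real.sin (D.θ 0 x) =
        -∑ t ∈ Finset.range (d1 + 1), D.a (0 + t) x ∧
      (∑ t ∈ Finset.range (d3 + 1), D.a (d1 + d2 + 2 + t) x) * r =
        (∑ t ∈ Finset.range (d2 + 1), D.a (d1 + 1 + t) x) -
          η * ∑ t ∈ Finset.range (d1 + 1), D.a (0 + t) x ∧
      -1 + η * r = 2 * (v.1 * D.κ 0 (D.S 0 x)) ∧
      fderiv ℝ (D.φ 0) x v = -1 ∧
      s1 * (fderiv ℝ (D.φ (d1 + 1)) x v -
        fderiv ℝ (D.S (d1 + 1)) x v * D.κ (d1 + 1) (D.S (d1 + 1) x)) = 1 ∧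
      s2 * (fderiv ℝ (D.φ (d1 + d2 + 2)) x v -
        fderiv ℝ (D.S (d1 + d2 + 2)) x v * D.κ (d1 + d2 + 2) (D.S (d1 + d2 + 2) x)) =
        (r - 1) / 2 ∧
      ∑ t ∈ Finset.range (d1 + 1), fderiv ℝ (D.a (0 + t)) x v =
        (∑ t ∈ Finset.range (d1 + 1), D.a (0 + t) x) * D.ct x 0 ∧
      ∑ t ∈ Finset.range (d2 + 1), fderiv ℝ (D.a (d1 + 1 + t)) x v =
        (∑ t ∈ Finset.range (d2 + 1), D.a (d1 + 1 + t) x) * (s2 * D.ct x (d1 + d2 + 2)) ∧
      ∑ t ∈ Finset.range (d3 + 1), fderiv ℝ (D.a (d1 + d2 + 2 + t)) x v =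
        -((∑ t ∈ Finset.range (d1 + 1), D.a (0 + t) x) * D.ct x 0) -
        (∑ t ∈ Finset.range (d2 + 1), D.a (d1 + 1 + t) x) * (s2 * D.ct x (d1 + d2 + 2)) := by
    intro x hx
    obtain ⟨A, hA⟩ : ∃ A, A = ∑ t ∈ Finset.range (d1 + 1), D.a (0 + t) x := ⟨_, rfl⟩
    have hr0 := D.nr 0 hn0 x (hs hx).1
    have hr1 := D.nr 1 hn1 x (hs hx).1
    have hs0 := hsn 0 hn0 x hx
    have hs1 := hsn 1 hn1 x hx
    have ha0 := (D.pa 0 (by omega) x (hs hx).1).ne'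
    obtain ⟨v, hv1, hv2⟩ : ∃ v : ℝ × ℝ, v.1 * D.r 0 (D.S 0 x) * Real.sin (D.θ 0 x) = -A ∧
        v.2 * D.r 1 (D.S 1 x) * Real.sin (D.θ 1 x) = A - D.a 0 x :=
      ⟨(-A / (D.r 0 (D.S 0 x) * Real.sin (D.θ 0 x)),
        (A - D.a 0 x) / (D.r 1 (D.S 1 x) * Real.sin (D.θ 1 x))), by
        simp only; field_simp, by simp only; field_simp⟩
    obtain ⟨ξ1, ξ2, ξ3, p, q, r, m2, m3, w1, -, -, w4, w5, w6, w7, w8, w9, w10, w11, w12, w13,
      w14, w15, w16, w17⟩ := forms x hx v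
    rw [D.ξ_zero, hv1] at w1
    rw [D.ξ_one, hv2, w1] at w10
    have hp' : p = -1 := by
      have : D.a 0 x * (p + 1) = 0 := by linear_combination w10
      rcases mul_eq_zero.1 this with h | h
      · exact absurd h ha0
      · linarith
    rw [← hA, hp', w1] at w4
    have hξ2 : ξ2 = 0 := by linarith
    have hq : q = 1 := by
      rw [w11 hξ2, hp'] at w7; linarith
    rw [hq, hξ2, mul_one, zero_add] at w5
    rw [← w5, w1] at w6
    refine ⟨v, r, ?_, ?_, ?_, ?_, ?_, ?_, ?_, ?_, ?_⟩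
    · rw [hv1, hA]
    · rw [w6, ← hA]; ring
    · rw [← w9, hp']
    · rw [w12, hp']
    · rw [w13, hq, hp']; norm_num
    · rw [w14, hq]
    · rw [w15, hξ2, w1, ← hA]; ring
    · rw [w16, hξ2, ← w5]; ring
    · rw [w17, w1, ← w5, ← hA]; ring
  let L : Lev :=
    { E := E1
      hE := hm
      η := η
      hη := q3'
      a := fun x => ∑ t ∈ Finset.range (d1 + 1), D.a (0 + t) x
      b := fun x => ∑ t ∈ Finset.range (d2 + 1), D.a (d1 + 1 + t) x
      c := fun x => ∑ t ∈ Finset.range (d3 + 1), D.a (d1 + d2 + 2 + t) x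
      θ1 := D.θ 0
      θ2 := fun x => s1 * D.θ (d1 + 1) x
      θ3 := fun x => s2 * D.θ (d1 + d2 + 2) x
      ρ := fun x => D.r 0 x.1
      κ := fun x => D.κ 0 x.1
      da := fun x hx => D.sum_diff (fun t => 0 + t) (fun t ht => by omega) (hs hx).1
      db := fun x hx => D.sum_diff (fun t => d1 + 1 + t) (fun t ht => by omega)
        (hs hx).1
      dc := fun x hx => D.sum_diff (fun t => d1 + d2 + 2 + t) (fun t ht => by omega)
        (hs hx).1
      dθ1 := fun x hx => D.dθ hn0 (hs hx).1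
      dθ2 := fun x hx => (D.dθ hnj (hs hx).1).const_mul s1
      dθ3 := fun x hx => (D.dθ hnl (hs hx).1).const_mul s2
      dρ := fun x hx => by
        have := D.dr x (hs hx).1
        rw [hS0] at this
        exact Cfg.diff_fst this
      dκ := fun x hx => by
        have := D.dκ 0 hn0 x (hs hx).1
        rw [hS0] at this
        exact Cfg.diff_fst this
      pa := ha_pos
      pb := hb_pos
      pc := hc_pos
      s1 := fun x hx => hsn 0 hn0 x hx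
      s2 := fun x hx => by
        rw [sign_sin _ _ q1]
        exact mul_ne_zero hs1' (hsn _ hnj x hx)
      s3 := fun x hx => by
        rw [sign_sin _ _ q2]
        exact mul_ne_zero hs2' (hsn _ hnl x hx)
      nρ := fun x hx => by
        have := D.nr 0 hn0 x (hs hx).1
        rwa [hS0] at this
      f2 := fun x hx => by
        obtain ⟨v, r, e1, e2, e3, -⟩ := dir2 x hx
        rw [hS0] at e1 e3
        obtain ⟨A, hA⟩ : ∃ A, A = ∑ t ∈ Finset.range (d1 + 1), D.a (0 + t) x := ⟨_, rfl⟩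
        obtain ⟨B, hB⟩ : ∃ A, A = ∑ t ∈ Finset.range (d2 + 1), D.a (d1 + 1 + t) x := ⟨_, rfl⟩
        obtain ⟨C, hC⟩ : ∃ A, A = ∑ t ∈ Finset.range (d3 + 1), D.a (d1 + d2 + 2 + t) x :=
          ⟨_, rfl⟩
        rw [← hA, ← hB, ← hC] at e2
        rw [← hA] at e1
        rw [← hA, ← hB, ← hC]
        have e4 : 2 * (v.1 * D.κ 0 x.1) * C = -(A + C - η * B) := by
          rw [← e3]
          linear_combination η * e2 - A * q3
        linear_combination (2 * D.κ 0 x.1 * C) * e1 - (D.r 0 x.1 * Real.sin (D.θ 0 x)) * e4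
      X1 := fun x hx => by
        have hxU := (hs hx).1
        rw [ct2, ct3]
        obtain ⟨A, hA⟩ : ∃ A, A = ∑ t ∈ Finset.range (d1 + 1), D.a (0 + t) x := ⟨_, rfl⟩
        obtain ⟨B, hB⟩ : ∃ A, A = ∑ t ∈ Finset.range (d2 + 1), D.a (d1 + 1 + t) x := ⟨_, rfl⟩
        obtain ⟨C, hC⟩ : ∃ A, A = ∑ t ∈ Finset.range (d3 + 1), D.a (d1 + d2 + 2 + t) x :=
          ⟨_, rfl⟩
        have hBp : B ≠ 0 := by rw [hB]; exact (hb_pos x hx).ne'
        have hr1 := D.nr 1 hn1 x hxU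
        have hs1 := hsn 1 hn1 x hx
        have ha0 := (D.pa 0 (by omega) x hxU).ne'
        obtain ⟨v, hv1, hv2⟩ : ∃ v : ℝ × ℝ, v.1 = 0 ∧
            v.2 * D.r 1 (D.S 1 x) * Real.sin (D.θ 1 x) = D.a 0 x :=
          ⟨(0, D.a 0 x / (D.r 1 (D.S 1 x) * Real.sin (D.θ 1 x))), rfl, by
            simp only; field_simp⟩
        obtain ⟨ξ1, ξ2, ξ3, p, q, r, m2, m3, w1, -, -, w4, w5, w6, w7, w8, w9, w10, w11, w12,
          w13, w14, w15, w16, w17⟩ := forms x hx v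
        rw [D.ξ_zero, hv1] at w1
        have w1' : ξ1 = 0 := by rw [w1]; ring
        rw [D.ξ_one, hv2, w1'] at w10
        have hp' : p = 1 := by
          have : D.a 0 x * (p - 1) = 0 := by linear_combination w10
          rcases mul_eq_zero.1 this with h | h
          · exact absurd h ha0
          · linarith
        rw [← hA, hp', w1'] at w4
        have hξ2 : ξ2 = A := by linarith
        rw [hv1, hp'] at w9
        have hr : r = -η := by linear_combination η * w9 - r * q3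
        rw [← hC, w1', hr] at w6
        have hξ3 : ξ3 = -η * C := by linarith
        rw [← hB, hξ2, hξ3] at w5
        have hq : q = (A - η * C) / B := by
          rw [eq_div_iff hBp]; linear_combination w5
        rw [← hA, ← hB, ← hC]
        refine ⟨v, ?_, ?_, ?_, ?_, ?_, ?_, ?_, ?_⟩
        · have := D.dr x hxU
          rw [hS0] at this
          refine (Cfg.line_fst this.hasDerivAt v).congr_deriv ?_
          rw [hv1]; simp
        · have := D.dκ 0 hn0 x hxU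
          rw [hS0] at this
          refine (Cfg.line_fst this.hasDerivAt v).congr_deriv ?_
          rw [hv1]; simp
        · refine (D.sum_line (fun t => 0 + t) (fun t ht => by omega) hxU v).congr_deriv ?_
          rw [w15, hξ2, w1']; ring
        · refine (D.sum_line (fun t => d1 + 1 + t) (fun t ht => by omega) hxU
            v).congr_deriv ?_
          rw [w16, hξ2, hξ3]; ring
        · refine (D.sum_line (fun t => d1 + d2 + 2 + t) (fun t ht => by omega) hxU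
            v).congr_deriv ?_
          rw [w17, w1', hξ3]; ring
        · refine (D.θ_line hn0 hxU v).congr_deriv ?_
          rw [w12, dS0', hv1, hp']; ring
        · refine ((D.θ_line hnj hxU v).const_mul s1).congr_deriv ?_
          rw [w13, hp', hq]; field_simp; ring
        · refine ((D.θ_line hnl hxU v).const_mul s2).congr_deriv ?_
          rw [w14, hr, hq]; field_simp; linear_combination A * q3
      X2 := fun x hx => by
        have hxU := (hs hx).1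
        rw [ct3]
        obtain ⟨v, r, e1, e2, e3, e4, e5, e6, e7, e8, e9⟩ := dir2 x hx
        obtain ⟨A, hA⟩ : ∃ A, A = ∑ t ∈ Finset.range (d1 + 1), D.a (0 + t) x := ⟨_, rfl⟩
        obtain ⟨B, hB⟩ : ∃ A, A = ∑ t ∈ Finset.range (d2 + 1), D.a (d1 + 1 + t) x := ⟨_, rfl⟩
        obtain ⟨C, hC⟩ : ∃ A, A = ∑ t ∈ Finset.range (d3 + 1), D.a (d1 + d2 + 2 + t) x :=
          ⟨_, rfl⟩
        have hCp : C ≠ 0 := by rw [hC]; exact (hc_pos x hx).ne'
        rw [← hA, ← hB] at e9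
        rw [← hB] at e8
        rw [← hA] at e7
        rw [← hA, ← hB, ← hC] at e2
        rw [← hA, ← hB, ← hC]
        have hr : r = (B - η * A) / C := by
          rw [eq_div_iff hCp]; linear_combination e2
        refine ⟨v, ?_, ?_, ?_, ?_, ?_, ?_⟩
        · refine (D.sum_line (fun t => 0 + t) (fun t ht => by omega) hxU v).congr_deriv ?_
          rw [e7]; rfl
        · refine (D.sum_line (fun t => d1 + 1 + t) (fun t ht => by omega) hxU
            v).congr_deriv ?_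
          rw [e8]
        · refine (D.sum_line (fun t => d1 + d2 + 2 + t) (fun t ht => by omega) hxU
            v).congr_deriv ?_
          rw [e9]; rfl
        · refine (D.θ_line hn0 hxU v).congr_deriv ?_
          rw [e4, dS0', show v.1 * D.κ 0 (D.S 0 x) = (-1 + η * r) / 2 by linarith, hr]
          field_simp
          linear_combination A * q3
        · refine ((D.θ_line hnj hxU v).const_mul s1).congr_deriv ?_
          rw [e5]
        · refine ((D.θ_line hnl hxU v).const_mul s2).congr_deriv ?_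
          rw [e6, hr]; field_simp; ring }
  exact null_of_diff D.E E1 hv L.null_E

end NCfg

end Pool.Agent.H721R2.Ivrii
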