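import Pool.Agent.H721R2.Ivrii.Final

set_option autoImplicit false

open MeasureTheory Set Filter Topology
open scoped InnerProductSpace

namespace Pool.Agent.H721R2.Ivrii

variable {E : Type*} [NormedAddCommGroup E] [InnerProductSpace ℝ E] [CompleteSpace E]

theorem step_transport (e : E ≃ₗᵢ[ℝ] ℂ) {Ω : Set E} {q v q' v' : E} (h : Step Ω q v q' v') :
    Step (e.symm ⁻¹' Ω) (e q) (e v) (e q') (e v') := by
  obtain ⟨t, ht, hq, hs, F, hF, h1, h2⟩ := h
  obtain ⟨g, hg⟩ : ∃ g : ℂ ≃ᵃⁱ[ℝ] E, g = e.symm.toAffineIsometryEquiv := ⟨_, rfl⟩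
  have hgc : (g : ℂ → E) = e.symm := by rw [hg]; rfl
  have hgl : g.linearIsometryEquiv = e.symm := by rw [hg]; rfl
  have hF' : LocalDef Ω (g (e q')) F := by
    rw [hgc, e.symm_apply_apply]; exact hF
  have hgrad : gradient (F ∘ g) (e q') = e (gradient F q') := by
    rw [gradient_comp_isom g (hF'.smooth.differentiableAt (by norm_num)), hgl, hgc,
      e.symm_apply_apply, LinearIsometryEquiv.symm_symm]
  have hF'' := hF'.comp g
  rw [hgc] at hF'' hgrad
  refine ⟨t, ht, by rw [hq, map_add, map_smul], fun s hs' => ?_, F ∘ e.symm, hF'', ?_, ?_⟩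
  · change e.symm (e q + s • e v) ∈ Ω
    rw [map_add, map_smul, e.symm_apply_apply, e.symm_apply_apply]
    exact hs s hs'
  · rw [hgrad, e.inner_map_map]; exact h1
  · rw [hgrad, e.inner_map_map, e.norm_map, h2, map_sub, map_smul]

omit [CompleteSpace E] in
theorem flat_transport (e : E ≃ₗᵢ[ℝ] ℂ) {Ω : Set E} {q : E} (h : FlatAt Ω q) :
    FlatAt (e.symm ⁻¹' Ω) (e q) := by
  obtain ⟨n, hn, hm⟩ := h
  refine ⟨e n, fun h0 => hn (e.injective (by rw [h0, map_zero])), ?_⟩
  have hc : Tendsto e.symm (𝓝 (e q)) (𝓝 q) := by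
    have := e.symm.continuous.tendsto (e q)
    rwa [e.symm_apply_apply] at this
  filter_upwards [hc.eventually hm] with x hx
  change e.symm x ∈ Ω ↔ _
  rw [hx, ← e.inner_map_map n (e.symm x - q), map_sub, e.apply_symm_apply]

theorem orbit_transport (e : E ≃ₗᵢ[ℝ] ℂ) {Ω : Set E} {n : ℕ} {p u : ℕ → E}
    (h : Orbit Ω n p u) : Orbit (e.symm ⁻¹' Ω) n (fun k => e (p k)) (fun k => e (u k)) :=
  ⟨h.pos, by rw [e.norm_map]; exact h.unit, fun k => by rw [h.perp], fun k => by rw [h.peru],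
    fun k => step_transport e (h.step k)⟩

theorem perThree_null_of_isom [MeasurableSpace E] [BorelSpace E]
    [SecondCountableTopology E] (e : E ≃ₗᵢ[ℝ] ℂ) (Ω : Set E) :
    μH[2] (PerThree Ω) = 0 := by
  have hlip : LipschitzWith 1 (fun z : ℂ × ℂ => (e.symm z.1, e.symm z.2)) := by
    refine LipschitzWith.of_dist_le_mul fun x y => ?_
    simp only [Prod.dist_eq, LinearIsometryEquiv.dist_map, NNReal.coe_one, one_mul]
    exact le_rfl
  have h0 := hlip.hausdorffMeasure_image_le (d := 2) (by norm_num) (PerThree (e.symm ⁻¹' Ω))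
  rw [perThree_null, mul_zero] at h0
  refine measure_mono_null ?_ (le_antisymm h0 bot_le)
  rintro z ⟨n, p, u, h, rfl, hcard⟩
  refine ⟨(e (p 0), e (u 0)), ⟨n, _, _, orbit_transport e h, rfl, ?_⟩, ?_⟩
  · refine le_trans (Set.ncard_le_ncard ?_ ?_) hcard
    · rintro k ⟨hk1, hk2⟩
      exact ⟨hk1, fun hf => hk2 (flat_transport e hf)⟩
    · exact (Set.finite_lt_nat n).subset fun k hk => hk.1
  · simp

/-- The theorem for the Euclidean plane. -/
theorem plane_null (Ω : Set (EuclideanSpace ℝ (Fin 2))) : μH[2] (PerThree Ω) = 0 :=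
  perThree_null_of_isom Complex.orthonormalBasisOneI.repr.symm Ω

end Pool.Agent.H721R2.Ivrii
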