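import Pool.Agent.H721R2.Ivrii.NFinal
import Pool.Agent.H721R2.Ivrii.Plane

set_option autoImplicit false

open MeasureTheory Set Filter Topology
open scoped InnerProductSpace

namespace Pool.Agent.H721R2.Ivrii

variable {E : Type*} [NormedAddCommGroup E] [InnerProductSpace ℝ E] [CompleteSpace E]

/-- The conjugate of the isometry `g` by `e`. -/
noncomputable def cj (e : E ≃ₗᵢ[ℝ] ℂ) (g : E ≃ᵃⁱ[ℝ] E) : ℂ ≃ᵃⁱ[ℝ] ℂ :=
  e.symm.toAffineIsometryEquiv.trans (g.trans e.toAffineIsometryEquiv)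

omit [CompleteSpace E] in
theorem cj_apply (e : E ≃ₗᵢ[ℝ] ℂ) (g : E ≃ᵃⁱ[ℝ] E) (x : ℂ) : cj e g x = e (g (e.symm x)) := rfl

omit [CompleteSpace E] in
theorem cj_lin (e : E ≃ₗᵢ[ℝ] ℂ) (g : E ≃ᵃⁱ[ℝ] E) (x : ℂ) :
    (cj e g).linearIsometryEquiv x = e (g.linearIsometryEquiv (e.symm x)) := rfl

omit [CompleteSpace E] in
theorem cj_inv (e : E ≃ₗᵢ[ℝ] ℂ) (g : E ≃ᵃⁱ[ℝ] E) {Ω : Set E} (h : g ⁻¹' Ω = Ω) :
    (cj e g) ⁻¹' (e.symm ⁻¹' Ω) = e.symm ⁻¹' Ω := by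
  ext x
  rw [mem_preimage, mem_preimage, mem_preimage, cj_apply, e.symm_apply_apply]
  have : g (e.symm x) ∈ Ω ↔ e.symm x ∈ g ⁻¹' Ω := Iff.rfl
  rw [this, h]

theorem orbitMod_transport (e : E ≃ₗᵢ[ℝ] ℂ) {Ω : Set E} {g : E ≃ᵃⁱ[ℝ] E} {n : ℕ} {p u : ℕ → E}
    (h : OrbitMod Ω g n p u) :
    OrbitMod (e.symm ⁻¹' Ω) (cj e g) n (fun k => e (p k)) (fun k => e (u k)) := by
  refine ⟨h.pos, by rw [e.norm_map]; exact h.unit, fun k => ?_, fun k => ?_,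
    fun k => step_transport e (h.step k)⟩
  · rw [cj_apply, e.symm_apply_apply, h.perp]
  · rw [cj_lin, e.symm_apply_apply, h.peru]

theorem zero_transport (e : E ≃ₗᵢ[ℝ] ℂ) {Ω : Set E} {q : E} (h : ZeroCurv Ω q) :
    ZeroCurv (e.symm ⁻¹' Ω) (e q) := by
  have h1 : ZeroCurv Ω (e.symm.toAffineIsometryEquiv (e q)) := by
    change ZeroCurv Ω (e.symm (e q))
    rw [e.symm_apply_apply]; exact h
  exact h1.comp e.symm.toAffineIsometryEquiv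

theorem perMod_null_of_isom [MeasurableSpace E] [BorelSpace E]
    [SecondCountableTopology E] (e : E ≃ₗᵢ[ℝ] ℂ) (Ω : Set E) (Γ : Set (E ≃ᵃⁱ[ℝ] E))
    (hΓ : Γ.Countable) (hinv : ∀ g ∈ Γ, g ⁻¹' Ω = Ω) :
    μH[2] (PerMod Γ Ω) = 0 := by
  have hlip : LipschitzWith 1 (fun z : ℂ × ℂ => (e.symm z.1, e.symm z.2)) := by
    refine LipschitzWith.of_dist_le_mul fun x y => ?_
    simp only [Prod.dist_eq, LinearIsometryEquiv.dist_map, NNReal.coe_one, one_mul]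
    exact le_rfl
  have h0 := hlip.hausdorffMeasure_image_le (d := 2) (by norm_num)
    (PerMod (cj e '' Γ) (e.symm ⁻¹' Ω))
  rw [perMod_null _ _ (hΓ.image _), mul_zero] at h0
  · refine measure_mono_null ?_ (le_antisymm h0 bot_le)
    rintro z ⟨g, hg, n, p, u, h, rfl, hcard⟩
    refine ⟨(e (p 0), e (u 0)), ⟨cj e g, ⟨g, hg, rfl⟩, n, _, _, orbitMod_transport e h, rfl, ?_⟩,
      ?_⟩
    · refine le_trans (Set.ncard_le_ncard ?_ ?_) hcard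
      · rintro k ⟨hk1, hk2⟩
        exact ⟨hk1, fun hf => hk2 (zero_transport e hf)⟩
      · exact (Set.finite_lt_nat n).subset fun k hk => hk.1
    · simp
  · rintro _ ⟨g, hg, rfl⟩
    exact cj_inv e g (hinv g hg)

/-- The theorem for the Euclidean plane. -/
theorem plane_mod_null (Ω : Set (EuclideanSpace ℝ (Fin 2)))
    (Γ : Set (EuclideanSpace ℝ (Fin 2) ≃ᵃⁱ[ℝ] EuclideanSpace ℝ (Fin 2)))
    (hΓ : Γ.Countable) (hinv : ∀ g ∈ Γ, g ⁻¹' Ω = Ω) : μH[2] (PerMod Γ Ω) = 0 :=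
  perMod_null_of_isom Complex.orthonormalBasisOneI.repr.symm Ω Γ hΓ hinv

end Pool.Agent.H721R2.Ivrii
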