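import Pool.Agent.H721R2.Ivrii.Def

set_option autoImplicit false

open Set Filter Topology
open scoped InnerProductSpace

namespace Pool.Agent.H721R2.Ivrii

variable {E : Type*} [NormedAddCommGroup E] [InnerProductSpace ℝ E] [CompleteSpace E]

theorem hasFDerivAt_grad' {F : E → ℝ} {q : E} (hF : DifferentiableAt ℝ F q) :
    HasFDerivAt F (innerSL ℝ (gradient F q)) q :=
  hF.hasGradientAt.hasFDerivAt

theorem line_hasDerivAt {F : E → ℝ} {q : E} (hF : DifferentiableAt ℝ F q) (w : E) :
    HasDerivAt (fun t : ℝ => F (q + t • w)) ⟪gradient F q, w⟫_ℝ 0 := by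
  have h1 : HasDerivAt (fun t : ℝ => q + t • w) w 0 := by
    have := ((hasDerivAt_id (0 : ℝ)).smul_const w).const_add q
    simpa using this
  have h2 : HasFDerivAt F (innerSL ℝ (gradient F q)) ((fun t : ℝ => q + t • w) 0) := by
    simpa using hasFDerivAt_grad' hF
  exact h2.comp_hasDerivAt (0 : ℝ) h1

/-- In a direction of decrease of the defining function the table is entered. -/
theorem enters {Ω : Set E} {q : E} {F : E → ℝ} (h : LocalDef Ω q F) {w : E}
    (hw : ⟪gradient F q, w⟫_ℝ < 0) : ∀ᶠ t in 𝓝[>] (0 : ℝ), q + t • w ∈ Ω := by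
  have hd := line_hasDerivAt (h.smooth.differentiableAt (by norm_num)) w
  have hc : Tendsto (fun t : ℝ => q + t • w) (𝓝[>] 0) (𝓝 q) := by
    have h1 : Continuous (fun t : ℝ => q + t • w) := by fun_prop
    have := h1.tendsto 0
    simp only [zero_smul, add_zero] at this
    exact this.mono_left nhdsWithin_le_nhds
  have h2 : ∀ᶠ t in 𝓝[>] (0 : ℝ), F (q + t • w) < 0 := by
    have hs := hd.hasDerivWithinAt (s := Ioi 0)
    rw [hasDerivWithinAt_iff_tendsto_slope] at hs
    have hdiff : Ioi (0 : ℝ) \ {0} = Ioi 0 := by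
      ext t; simp only [Set.mem_sdiff, mem_Ioi, mem_singleton_iff]
      exact ⟨fun h => h.1, fun h => ⟨h, h.ne'⟩⟩
    rw [hdiff] at hs
    have h3 := hs.eventually (gt_mem_nhds hw)
    filter_upwards [h3, self_mem_nhdsWithin] with t ht ht0
    rw [slope_def_field] at ht
    simp only [zero_smul, add_zero, sub_zero, h.zero] at ht
    have ht0' : (0 : ℝ) < t := ht0
    by_contra hcon
    exact absurd ht (not_lt.2 (div_nonneg (not_lt.1 hcon) ht0'.le))
  filter_upwards [h2, hc.eventually h.mem] with t ht1 ht2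
  exact ht2.2 ht1

/-- Lemma N: two defining functions have parallel gradients. -/
theorem grad_parallel {Ω : Set E} {q : E} {F F' : E → ℝ} (h : LocalDef Ω q F)
    (h' : LocalDef Ω q F') : ∃ l : ℝ, l ≠ 0 ∧ gradient F' q = l • gradient F q := by
  obtain ⟨N, hN⟩ : ∃ N, N = gradient F q := ⟨_, rfl⟩
  obtain ⟨N', hN'⟩ : ∃ N', N' = gradient F' q := ⟨_, rfl⟩
  have hN0 : N ≠ 0 := by rw [hN]; exact h.grad
  have hNn : 0 < ‖N‖ := norm_pos_iff.2 hN0
  have key : ∀ w : E, ⟪N, w⟫_ℝ < 0 → ⟪N', w⟫_ℝ ≤ 0 := by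
    intro w hw
    by_contra hcon
    have hcon : 0 < ⟪N', w⟫_ℝ := not_le.1 hcon
    -- the opposite direction for `F'`
    have h1 := enters h (w := w) (by rw [← hN]; exact hw)
    have hd := line_hasDerivAt (h'.smooth.differentiableAt (by norm_num)) w
    have hc : Tendsto (fun t : ℝ => q + t • w) (𝓝[>] 0) (𝓝 q) := by
      have h1 : Continuous (fun t : ℝ => q + t • w) := by fun_prop
      have := h1.tendsto 0
      simp only [zero_smul, add_zero] at this
      exact this.mono_left nhdsWithin_le_nhds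
    have h2 : ∀ᶠ t in 𝓝[>] (0 : ℝ), 0 < F' (q + t • w) := by
      have hs := hd.hasDerivWithinAt (s := Ioi 0)
      rw [hasDerivWithinAt_iff_tendsto_slope] at hs
      have hdiff : Ioi (0 : ℝ) \ {0} = Ioi 0 := by
        ext t; simp only [Set.mem_sdiff, mem_Ioi, mem_singleton_iff]
        exact ⟨fun h => h.1, fun h => ⟨h, h.ne'⟩⟩
      rw [hdiff, ← hN'] at hs
      have h3 := hs.eventually (lt_mem_nhds hcon)
      filter_upwards [h3, self_mem_nhdsWithin] with t ht ht0
      rw [slope_def_field] at ht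
      simp only [zero_smul, add_zero, sub_zero, h'.zero] at ht
      have ht0' : (0 : ℝ) < t := ht0
      by_contra hcon
      exact absurd ht (not_lt.2 (div_nonpos_of_nonpos_of_nonneg (not_lt.1 hcon) ht0'.le))
    obtain ⟨t, ht1, ht2, ht3⟩ := (h1.and (h2.and (hc.eventually h'.mem))).exists
    exact absurd (ht3.1 ht1) (not_lt.2 ht2.le)
  -- the component of `N'` orthogonal to `N`
  obtain ⟨l, hl⟩ : ∃ l : ℝ, l = ⟪N, N'⟫_ℝ / ‖N‖ ^ 2 := ⟨_, rfl⟩
  obtain ⟨w, hw⟩ : ∃ w : E, w = N' - l • N := ⟨_, rfl⟩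
  have hNw : ⟪N, w⟫_ℝ = 0 := by
    rw [hw, inner_sub_right, inner_smul_right, real_inner_self_eq_norm_sq, hl]
    field_simp
    ring
  have hN'w : ⟪N', w⟫_ℝ = ‖w‖ ^ 2 := by
    have : N' = w + l • N := by rw [hw]; abel
    nth_rewrite 1 [this]
    rw [inner_add_left, inner_smul_left, hNw, real_inner_self_eq_norm_sq]
    simp
  have hw0 : ‖w‖ ^ 2 ≤ 0 := by
    have h1 : ∀ ε : ℝ, 0 < ε → ‖w‖ ^ 2 ≤ ε * ⟪N', N⟫_ℝ := by
      intro ε hε
      have h2 : ⟪N, w - ε • N⟫_ℝ < 0 := by
        rw [inner_sub_right, inner_smul_right, hNw, real_inner_self_eq_norm_sq]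
        nlinarith [mul_pos hε (pow_pos hNn 2)]
      have h3 := key _ h2
      rw [inner_sub_right, inner_smul_right, hN'w] at h3
      linarith
    have h2 : Tendsto (fun ε : ℝ => ε * ⟪N', N⟫_ℝ) (𝓝[>] 0) (𝓝 0) := by
      have : Continuous (fun ε : ℝ => ε * ⟪N', N⟫_ℝ) := by fun_prop
      have h3 := this.tendsto 0
      rw [zero_mul] at h3
      exact h3.mono_left nhdsWithin_le_nhds
    refine ge_of_tendsto h2 ?_
    filter_upwards [self_mem_nhdsWithin] with ε hε
    exact h1 ε hε
  have hwz : w = 0 := by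
    have : ‖w‖ = 0 := by nlinarith [norm_nonneg w]
    exact norm_eq_zero.1 this
  have hfin : N' = l • N := by
    rw [hwz] at hw
    exact (sub_eq_zero.1 hw.symm)
  refine ⟨l, ?_, by rw [← hN, ← hN']; exact hfin⟩
  rintro rfl
  apply h'.grad
  rw [← hN', hfin, zero_smul]

/-- A continuous function whose negativity set is the table near a regular boundary point vanishes
there. -/
theorem zero_of_mem {Ω : Set E} {q : E} {F F' : E → ℝ} (hc : ContinuousAt F q)
    (hm : ∀ᶠ x in 𝓝 q, (x ∈ Ω ↔ F x < 0)) (h' : LocalDef Ω q F') : F q = 0 := by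
  have h1 : q ∉ Ω := by
    intro hq
    have := (h'.mem.self_of_nhds).1 hq
    rw [h'.zero] at this
    exact lt_irrefl _ this
  have h2 : 0 ≤ F q := by
    by_contra hcon
    exact h1 (hm.self_of_nhds.2 (not_le.1 hcon))
  have h3 : F q ≤ 0 := by
    have h4 := enters h' (w := -gradient F' q) (by
      rw [inner_neg_right, real_inner_self_eq_norm_sq]
      have : 0 < ‖gradient F' q‖ := norm_pos_iff.2 h'.grad
      nlinarith)
    have hc' : Tendsto (fun t : ℝ => q + t • (-gradient F' q)) (𝓝[>] 0) (𝓝 q) := by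
      have h1 : Continuous (fun t : ℝ => q + t • (-gradient F' q)) := by fun_prop
      have := h1.tendsto 0
      simp only [zero_smul, add_zero] at this
      exact this.mono_left nhdsWithin_le_nhds
    refine le_of_tendsto (hc.tendsto.comp hc') ?_
    filter_upwards [h4, hc'.eventually hm] with t ht1 ht2
    exact (ht2.1 ht1).le
  exact le_antisymm h3 h2

/-- Lemma D: a defining function at `q` is a defining function at all nearby regular boundary
points. -/
theorem localDef_near {Ω : Set E} {q : E} {F : E → ℝ} (h : LocalDef Ω q F) :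
    ∀ᶠ x in 𝓝 q, ∀ F' : E → ℝ, LocalDef Ω x F' → LocalDef Ω x F := by
  have h1 : ∀ᶠ x in 𝓝 q, ContDiffAt ℝ 3 F x := h.smooth.eventually (by simp)
  have h2 : ContinuousAt (gradient F) q := by
    have h1 : ContinuousAt (fderiv ℝ F) q :=
      (h.smooth.fderiv_right (m := 2) (by norm_num)).continuousAt
    exact (InnerProductSpace.toDual ℝ E).symm.continuous.continuousAt.comp h1
  filter_upwards [h1, h2.eventually_ne h.grad, eventually_eventually_nhds.2 h.mem] with x h3 h4 h5
    F' hF'
  exact ⟨h3, zero_of_mem h3.continuousAt h5 hF', h4, h5⟩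

end Pool.Agent.H721R2.Ivrii
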