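import Pool.Agent.H721R2.Ivrii.Local2
import Pool.Agent.H721R2.Ivrii.Normal

set_option autoImplicit false

open MeasureTheory Set Filter Topology
open scoped ComplexConjugate InnerProductSpace

namespace Pool.Agent.H721R2.Ivrii

theorem rfl_smul (l : ℝ) (hl : l ≠ 0) (N v : ℂ) : rfl' (l • N) v = rfl' N v := by
  unfold rfl'
  by_cases hN : N = 0
  · simp [hN]
  have hn : ‖N‖ ≠ 0 := norm_ne_zero_iff.2 hN
  rw [inner_smul_right, norm_smul, smul_smul]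
  congr 2
  rw [mul_pow, Real.norm_eq_abs, sq_abs]
  field_simp

theorem Rel.change {F1 F2 F3 F1' F2' F3' : ℂ → ℝ} {G : ℂ ≃ᵃⁱ[ℝ] ℂ} {q1 v q2 q3 : ℂ}
    (h : Rel F1 F2 F3 G q1 v q2 q3) (z1 : F1' q1 = 0) (z2 : F2' q2 = 0) (z3 : F3' q3 = 0)
    (g1 : ∃ l : ℝ, l ≠ 0 ∧ gradient F1' q1 = l • gradient F1 q1)
    (g2 : ∃ l : ℝ, l ≠ 0 ∧ gradient F2' q2 = l • gradient F2 q2)
    (g3 : ∃ l : ℝ, l ≠ 0 ∧ gradient F3' q3 = l • gradient F3 q3) :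
    Rel F1' F2' F3' G q1 v q2 q3 := by
  obtain ⟨hv, hf1, hf2, hf3, a0, b0, c0, w2, w3, ha0, hb0, hc0, hq2, hw2, hq3, hw3, hGq, hGw,
    ht1, ht2, ht3⟩ := h
  obtain ⟨l1, hl1, e1⟩ := g1
  obtain ⟨l2, hl2, e2⟩ := g2
  obtain ⟨l3, hl3, e3⟩ := g3
  refine ⟨hv, z1, z2, z3, a0, b0, c0, w2, w3, ha0, hb0, hc0, hq2, ?_, hq3, ?_, hGq, ?_, ?_, ?_,
    ?_⟩
  · rw [e2, rfl_smul _ hl2]; exact hw2
  · rw [e3, rfl_smul _ hl3]; exact hw3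
  · rw [e1, rfl_smul _ hl1]; exact hGw
  · rw [e1, inner_smul_right]; exact mul_ne_zero hl1 ht1
  · rw [e2, inner_smul_right]; exact mul_ne_zero hl2 ht2
  · rw [e3, inner_smul_right]; exact mul_ne_zero hl3 ht3

/-- A set all of whose points have a neighbourhood with negligible projection has a negligible
projection. -/
theorem null_of_locally_null {X Y : Type*} [TopologicalSpace X] [SecondCountableTopology X]
    [MeasurableSpace Y] (μ : Measure Y) (π : X → Y) (W : Set X)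
    (h : ∀ w ∈ W, ∃ Z : Set Y, μ Z = 0 ∧ ∀ᶠ w' in 𝓝 w, w' ∈ W → π w' ∈ Z) : μ (π '' W) = 0 := by
  classical
  choose! Z hZ hZ' using h
  obtain ⟨t, htW, htc, hcov⟩ := TopologicalSpace.countable_cover_nhdsWithin
    (f := fun w => {w' | w' ∈ W → π w' ∈ Z w}) (s := W)
    (fun w hw => mem_nhdsWithin_of_mem_nhds (hZ' w hw))
  refine measure_mono_null (t := ⋃ w ∈ t, Z w) ?_ ?_
  · rintro _ ⟨w, hw, rfl⟩
    obtain ⟨w0, hw0, h1⟩ := mem_iUnion₂.1 (hcov hw)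
    exact mem_iUnion₂.2 ⟨w0, hw0, h1 hw⟩
  · exact (measure_biUnion_null_iff htc).2 fun w hw => hZ w (htW hw)

/-- The phase points of closed unfolded trajectories are negligible. -/
theorem set_null (Ω1 Ω2 Ω3 : Set ℂ) (G : ℂ ≃ᵃⁱ[ℝ] ℂ) :
    μH[2] {z : ℂ × ℂ | ∃ (q2 q3 : ℂ) (F1 F2 F3 : ℂ → ℝ), LocalDef Ω1 z.1 F1 ∧
      LocalDef Ω2 q2 F2 ∧ LocalDef Ω3 q3 F3 ∧ Rel F1 F2 F3 G z.1 z.2 q2 q3} = 0 := by
  obtain ⟨W, hW⟩ : ∃ W : Set (ℂ × ℂ × ℂ × ℂ), W = {w | ∃ (F1 F2 F3 : ℂ → ℝ),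
      LocalDef Ω1 w.1 F1 ∧ LocalDef Ω2 w.2.2.1 F2 ∧ LocalDef Ω3 w.2.2.2 F3 ∧
      Rel F1 F2 F3 G w.1 w.2.1 w.2.2.1 w.2.2.2} := ⟨_, rfl⟩
  have himg : {z : ℂ × ℂ | ∃ (q2 q3 : ℂ) (F1 F2 F3 : ℂ → ℝ), LocalDef Ω1 z.1 F1 ∧
      LocalDef Ω2 q2 F2 ∧ LocalDef Ω3 q3 F3 ∧ Rel F1 F2 F3 G z.1 z.2 q2 q3} =
      (fun w : ℂ × ℂ × ℂ × ℂ => (w.1, w.2.1)) '' W := by
    rw [hW]
    ext z
    constructor
    · rintro ⟨q2, q3, F1, F2, F3, h1, h2, h3, h4⟩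
      exact ⟨(z.1, z.2, q2, q3), ⟨F1, F2, F3, h1, h2, h3, h4⟩, rfl⟩
    · rintro ⟨w, ⟨F1, F2, F3, h1, h2, h3, h4⟩, rfl⟩
      exact ⟨w.2.2.1, w.2.2.2, F1, F2, F3, h1, h2, h3, h4⟩
  rw [himg]
  apply null_of_locally_null
  intro w hw
  rw [hW] at hw
  obtain ⟨F1, F2, F3, h1, h2, h3, h4⟩ := hw
  obtain ⟨Z, hZ, hZ'⟩ := local_null F1 F2 F3 G w.1 w.2.1 w.2.2.1 w.2.2.2 h1.smooth h2.smooth
    h3.smooth h1.grad h2.grad h3.grad h4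
  refine ⟨Z, hZ, ?_⟩
  have u1 : Tendsto (fun w : ℂ × ℂ × ℂ × ℂ => w.1) (𝓝 w) (𝓝 w.1) := continuousAt_fst
  have u2 : Tendsto (fun w : ℂ × ℂ × ℂ × ℂ => w.2.2.1) (𝓝 w) (𝓝 w.2.2.1) := by
    have : ContinuousAt (fun w : ℂ × ℂ × ℂ × ℂ => w.2.2.1) w := by fun_prop
    exact this
  have u3 : Tendsto (fun w : ℂ × ℂ × ℂ × ℂ => w.2.2.2) (𝓝 w) (𝓝 w.2.2.2) := by
    have : ContinuousAt (fun w : ℂ × ℂ × ℂ × ℂ => w.2.2.2) w := by fun_prop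
    exact this
  filter_upwards [hZ', u1.eventually (localDef_near h1), u2.eventually (localDef_near h2),
    u3.eventually (localDef_near h3)] with w' z0 z1 z2 z3 hw'
  rw [hW] at hw'
  obtain ⟨F1', F2', F3', h1', h2', h3', h4'⟩ := hw'
  have k1 := z1 _ h1'
  have k2 := z2 _ h2'
  have k3 := z3 _ h3'
  exact z0 (h4'.change k1.zero k2.zero k3.zero (grad_parallel h1' k1) (grad_parallel h2' k2)
    (grad_parallel h3' k3))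

end Pool.Agent.H721R2.Ivrii
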